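import Mathlib

/-!
Vertex growth of a finite set of matrices.
-/

namespace Pool.Agent.VertexGrowth

open scoped ENNReal

/-- The set of states reachable from `a` in exactly `k` steps of the switched linear system
`x(j+1) = T x(j)`, `T ∈ S`. -/
def reach {ι : Type} [Fintype ι] (S : Set (Matrix ι ι ℝ)) (a : ι → ℝ) : ℕ → Set (ι → ℝ)
  | 0 => {a}
  | k + 1 => {y | ∃ T ∈ S, ∃ x ∈ reach S a k, y = T.mulVec x}

/-- The polytope `P_k(S, a)`. -/
def polytope {ι : Type} [Fintype ι] (S : Set (Matrix ι ι ℝ)) (a : ι → ℝ) (k : ℕ) :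
    Set (ι → ℝ) :=
  convexHull ℝ (reach S a k)

/-- `N_k(S, a)`: the number of extreme points of `P_k(S, a)`. -/
noncomputable def numVertices {ι : Type} [Fintype ι] (S : Set (Matrix ι ι ℝ)) (a : ι → ℝ)
    (k : ℕ) : ℕ∞ :=
  ((polytope S a k).extremePoints ℝ).encard

/-- `N_k(S)`: the supremum of `N_k(S, a)` over all `a`. -/
noncomputable def vertexNumber {ι : Type} [Fintype ι] (S : Set (Matrix ι ι ℝ)) (k : ℕ) : ℕ∞ :=
  ⨆ a : ι → ℝ, numVertices S a k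

/-- `S` has polynomial vertex growth: there are `α > 0`, `d > 0` and a positive integer `k₀` with
`N_k(S) ≤ α k ^ d` for all `k ≥ k₀`. -/
def PolynomialVertexGrowth {ι : Type} [Fintype ι] (S : Set (Matrix ι ι ℝ)) : Prop :=
  ∃ α d : ℝ, 0 < α ∧ 0 < d ∧ ∃ k₀ : ℕ, 0 < k₀ ∧ ∀ k : ℕ, k₀ ≤ k →
    ((vertexNumber S k : ℕ∞) : ℝ≥0∞) ≤ ENNReal.ofReal (α * (k : ℝ) ^ d)

end Pool.Agent.VertexGrowth
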