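import Mathlib
import Pool.Agent.Lib_helper80.VGDefs

/-!
Two abstract theorems on the vertex growth of a family consisting of `T i` (`i : L`), of the rank
one matrix `e ηᵀ` and of the matrices `± δ E_{ij}`.
-/

namespace Pool.Agent.Lib80

open Pool.Agent.VertexGrowth
open scoped BigOperators

variable {J : Type} [Fintype J] [DecidableEq J] {L : Type}

/-- evolution along a word, latest letter first -/
def evolve (T : L → Matrix J J ℝ) : List L → (J → ℝ) → (J → ℝ)
  | [], x => x
  | i :: w, x => (T i).mulVec (evolve T w x)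

/-- the combined system -/
def sys (T : L → Matrix J J ℝ) (e η : J → ℝ) (δ : ℝ) : Set (Matrix J J ℝ) :=
  {M | (∃ i, M = T i) ∨ M = Matrix.vecMulVec e η ∨
    ∃ i j, M = Matrix.single i j δ ∨ M = Matrix.single i j (-δ)}

theorem evolve_smul (T : L → Matrix J J ℝ) (w : List L) (c : ℝ) (x : J → ℝ) :
    evolve T w (c • x) = c • evolve T w x := by
  induction w with
  | nil => rfl
  | cons i w ih => simp only [evolve, ih, Matrix.mulVec_smul]

theorem reach_succ {S : Set (Matrix J J ℝ)} {a x : J → ℝ} {k : ℕ} {T : Matrix J J ℝ}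
    (hx : x ∈ reach S a k) (hT : T ∈ S) : T.mulVec x ∈ reach S a (k + 1) :=
  ⟨T, hT, x, hx, rfl⟩

theorem reach_finite {S : Set (Matrix J J ℝ)} (hS : S.Finite) (a : J → ℝ) (k : ℕ) :
    (reach S a k).Finite := by
  induction k with
  | zero => exact Set.finite_singleton a
  | succ k ih =>
    have : reach S a (k + 1) = Set.image2 (fun T x => T.mulVec x) S (reach S a k) := by
      ext y
      simp only [reach, Set.mem_image2]
      constructor
      · rintro ⟨T, hT, x, hx, rfl⟩
        exact ⟨T, hT, x, hx, rfl⟩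
      · rintro ⟨T, hT, x, hx, rfl⟩
        exact ⟨T, hT, x, hx, rfl⟩
    rw [this]
    exact hS.image2 _ ih

theorem reach_evolve {T : L → Matrix J J ℝ} {e η : J → ℝ} {δ : ℝ} {a x : J → ℝ} {k : ℕ}
    (hx : x ∈ reach (sys T e η δ) a k) (w : List L) :
    evolve T w x ∈ reach (sys T e η δ) a (k + w.length) := by
  induction w with
  | nil => exact hx
  | cons i w ih => exact reach_succ ih (Or.inl ⟨i, rfl⟩)

theorem reach_hash {T : L → Matrix J J ℝ} {e η : J → ℝ} {δ : ℝ} {a x : J → ℝ} {k : ℕ}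
    (hx : x ∈ reach (sys T e η δ) a k) :
    (η ⬝ᵥ x) • e ∈ reach (sys T e η δ) a (k + 1) := by
  have := reach_succ hx (Or.inr (Or.inl rfl) : Matrix.vecMulVec e η ∈ sys T e η δ)
  rwa [Matrix.vecMulVec_mulVec, op_smul_eq_smul] at this

theorem reach_single {T : L → Matrix J J ℝ} {e η : J → ℝ} {δ : ℝ} {a x : J → ℝ} {k : ℕ}
    (hx : x ∈ reach (sys T e η δ) a k) (i j : J) :
    (δ * x j) • (Pi.single i 1 : J → ℝ) ∈ reach (sys T e η δ) a (k + 1) ∧
    (-(δ * x j)) • (Pi.single i 1 : J → ℝ) ∈ reach (sys T e η δ) a (k + 1) := by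
  have h1 := reach_succ hx (Or.inr (Or.inr ⟨i, j, Or.inl rfl⟩) :
    Matrix.single i j δ ∈ sys T e η δ)
  have h2 := reach_succ hx (Or.inr (Or.inr ⟨i, j, Or.inr rfl⟩) :
    Matrix.single i j (-δ) ∈ sys T e η δ)
  have e1 : (Matrix.single i j δ).mulVec x = (δ * x j) • (Pi.single i 1 : J → ℝ) := by
    ext l
    by_cases hl : l = i
    · subst hl; simp [Matrix.single_mulVec, Function.update]
    · simp [Matrix.single_mulVec, Function.update, hl]
  have e2 : (Matrix.single i j (-δ)).mulVec x = (-(δ * x j)) • (Pi.single i 1 : J → ℝ) := by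
    ext l
    by_cases hl : l = i
    · subst hl; simp [Matrix.single_mulVec, Function.update]
    · simp [Matrix.single_mulVec, Function.update, hl]
  rw [e1] at h1
  rw [e2] at h2
  exact ⟨h1, h2⟩

/-- directions -/
def dir (e : J → ℝ) : Option J → (J → ℝ)
  | none => e
  | some i => Pi.single i 1

theorem abs_dot_le (η y : J → ℝ) : |η ⬝ᵥ y| ≤ (∑ j, |η j|) * ‖y‖ := by
  rw [dotProduct, Finset.sum_mul]
  refine (Finset.abs_sum_le_sum_abs _ _).trans (Finset.sum_le_sum fun j _ => ?_)
  rw [abs_mul]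
  exact mul_le_mul_of_nonneg_left (norm_le_pi_norm y j) (abs_nonneg _)

theorem reach_structure {T : L → Matrix J J ℝ} {e η : J → ℝ} {δ : ℝ} (hδ : 0 ≤ δ)
    {a : J → ℝ} {k : ℕ} : ∀ x ∈ reach (sys T e η δ) a k,
    (∃ w : List L, w.length = k ∧ x = evolve T w a) ∨
    ∃ (l : ℕ) (y : J → ℝ) (w : List L) (u : Option J) (c : ℝ), l + 1 + w.length = k ∧
      y ∈ reach (sys T e η δ) a l ∧ |c| ≤ (∑ j, |η j| + δ) * ‖y‖ ∧
      x = evolve T w (c • dir e u) := by
  induction k with
  | zero =>
    intro x hx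
    exact Or.inl ⟨[], rfl, hx⟩
  | succ k ih =>
    rintro _ ⟨M, hM, x, hx, rfl⟩
    have hΓ : 0 ≤ ∑ j, |η j| := Finset.sum_nonneg fun j _ => abs_nonneg _
    rcases hM with ⟨i, rfl⟩ | rfl | ⟨i, j, h⟩
    · rcases ih x hx with ⟨w, hw, rfl⟩ | ⟨l, y, w, u, c, hl, hy, hc, rfl⟩
      · exact Or.inl ⟨i :: w, by simp [hw], rfl⟩
      · exact Or.inr ⟨l, y, i :: w, u, c, by simp; omega, hy, hc, rfl⟩
    · refine Or.inr ⟨k, x, [], none, η ⬝ᵥ x, by simp, hx, ?_, ?_⟩
      · refine (abs_dot_le η x).trans ?_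
        exact mul_le_mul_of_nonneg_right (by linarith) (norm_nonneg _)
      · rw [Matrix.vecMulVec_mulVec, op_smul_eq_smul]
        rfl
    · rcases h with rfl | rfl
      · refine Or.inr ⟨k, x, [], some i, δ * x j, by simp, hx, ?_, ?_⟩
        · rw [abs_mul, abs_of_nonneg hδ]
          have := norm_le_pi_norm x j
          rw [Real.norm_eq_abs] at this
          nlinarith [norm_nonneg x, mul_le_mul_of_nonneg_left this hδ,
            mul_nonneg hΓ (norm_nonneg x)]
        · ext l
          by_cases hl : l = i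
          · subst hl; simp [Matrix.single_mulVec, Function.update, evolve, dir]
          · simp [Matrix.single_mulVec, Function.update, hl, evolve, dir]
      · refine Or.inr ⟨k, x, [], some i, -(δ * x j), by simp, hx, ?_, ?_⟩
        · rw [abs_neg, abs_mul, abs_of_nonneg hδ]
          have := norm_le_pi_norm x j
          rw [Real.norm_eq_abs] at this
          nlinarith [norm_nonneg x, mul_le_mul_of_nonneg_left this hδ,
            mul_nonneg hΓ (norm_nonneg x)]
        · ext l
          by_cases hl : l = i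
          · subst hl; simp [Matrix.single_mulVec, Function.update, evolve, dir]
          · simp [Matrix.single_mulVec, Function.update, hl, evolve, dir]

theorem exists_coord [Nonempty J] (x : J → ℝ) : ∃ j, ‖x‖ = |x j| := by
  obtain ⟨j, -, hj⟩ := Finset.exists_max_image (Finset.univ : Finset J) (fun j => |x j|)
    Finset.univ_nonempty
  refine ⟨j, le_antisymm ?_ ?_⟩
  · rw [pi_norm_le_iff_of_nonneg (abs_nonneg _)]
    intro i
    exact hj i (Finset.mem_univ i)
  · exact norm_le_pi_norm x j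

/-- **Growth lemma.** -/
theorem growth {T : L → Matrix J J ℝ} {e η : J → ℝ} {δ : ℝ} (hδ : 0 < δ) (hδ1 : δ ≤ 1)
    (o : J) (heo : e o = 1) (hηo : η o = 1) (w₀ : List L)
    (hw₀ : 1 < |η ⬝ᵥ evolve T w₀ e|) (M : ℝ) :
    ∃ W : ℕ, ∀ (a : J → ℝ) (l d : ℕ), W ≤ d → ∀ x ∈ reach (sys T e η δ) a l,
      ∃ y ∈ reach (sys T e η δ) a (l + d), M * ‖x‖ ≤ ‖y‖ := by
  have : Nonempty J := ⟨o⟩
  set h := η ⬝ᵥ evolve T w₀ e with hh
  set N := w₀.length with hN
  -- blocks
  have block : ∀ (a : J → ℝ) (t : ℕ) (s : ℝ), s • e ∈ reach (sys T e η δ) a t →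
      ∀ m : ℕ, (s * h ^ m) • e ∈ reach (sys T e η δ) a (t + m * (N + 1)) := by
    intro a t s hs m
    induction m with
    | zero => simpa using hs
    | succ m ih =>
      have h1 := reach_hash (reach_evolve ih w₀)
      rw [evolve_smul, dotProduct_smul, ← hh, smul_eq_mul] at h1
      have e1 : t + m * (N + 1) + w₀.length + 1 = t + (m + 1) * (N + 1) := by
        rw [← hN]; ring
      rw [e1] at h1
      rwa [pow_succ, ← mul_assoc]
  -- waiting
  have wait : ∀ (a : J → ℝ) (t : ℕ) (x : J → ℝ), x ∈ reach (sys T e η δ) a t →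
      ∀ r : ℕ, ∃ y ∈ reach (sys T e η δ) a (t + r), δ ^ r * |x o| ≤ |y o| := by
    intro a t x hx r
    induction r with
    | zero => exact ⟨x, hx, by simp⟩
    | succ r ih =>
      obtain ⟨y, hy, hyo⟩ := ih
      refine ⟨_, (reach_single hy o o).1, ?_⟩
      simp only [Pi.smul_apply, Pi.single_eq_same, smul_eq_mul, mul_one, abs_mul,
        abs_of_pos hδ, pow_succ]
      nlinarith [mul_le_mul_of_nonneg_left hyo hδ.le]
  obtain ⟨m₀, hm₀⟩ := pow_unbounded_of_one_lt (M / δ ^ (N + 1)) hw₀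
  refine ⟨2 + m₀ * (N + 1), fun a l d hd x hx => ?_⟩
  obtain ⟨j, hj⟩ := exists_coord x
  -- the number of blocks and the rest
  set m := (d - 2) / (N + 1) with hm
  set r := (d - 2) % (N + 1) with hr
  have hdm : d = 2 + m * (N + 1) + r := by
    have := Nat.div_add_mod (d - 2) (N + 1)
    rw [← hm, ← hr] at this
    have h2 : 2 ≤ d := le_trans (Nat.le_add_right 2 _) hd
    nlinarith [this, Nat.sub_add_cancel h2]
  have hmm : m₀ ≤ m := by
    rw [hm, Nat.le_div_iff_mul_le (Nat.succ_pos N)]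
    have : m₀ * (N + 1) ≤ d - 2 := by omega
    exact this
  have hrN : r ≤ N := Nat.le_of_lt_succ (Nat.mod_lt _ (Nat.succ_pos N))
  have h1 := (reach_single hx o j).1
  have h2 := reach_hash h1
  have h3 : η ⬝ᵥ ((δ * x j) • (Pi.single o 1 : J → ℝ)) = δ * x j := by
    rw [dotProduct_smul, dotProduct_single, hηo]; simp
  rw [h3] at h2
  have h4 := block a _ _ h2 m
  obtain ⟨y, hy, hyo⟩ := wait a _ _ h4 r
  refine ⟨y, ?_, ?_⟩
  · have : l + 1 + 1 + m * (N + 1) + r = l + d := by rw [hdm]; ring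
    rwa [this] at hy
  · have h5 : |((δ * x j * h ^ m) • e) o| = δ * |x j| * |h| ^ m := by
      simp [heo, abs_mul, abs_of_pos hδ, abs_pow]
    rw [h5, ← hj] at hyo
    have h6 : M ≤ δ ^ (N + 1) * |h| ^ m₀ := by
      rw [div_lt_iff₀ (by positivity)] at hm₀
      linarith [mul_comm (|h| ^ m₀) (δ ^ (N + 1))]
    have h7 : |h| ^ m₀ ≤ |h| ^ m := pow_le_pow_right₀ hw₀.le hmm
    have h8 : δ ^ (N + 1) ≤ δ ^ r * δ := by
      rw [← pow_succ]
      exact pow_le_pow_of_le_one hδ.le hδ1 (by omega)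
    have h9 : δ ^ (N + 1) * |h| ^ m₀ ≤ δ ^ r * δ * |h| ^ m :=
      mul_le_mul h8 h7 (by positivity) (by positivity)
    calc M * ‖x‖ ≤ (δ ^ r * δ * |h| ^ m) * ‖x‖ :=
          mul_le_mul_of_nonneg_right (h6.trans h9) (norm_nonneg _)
      _ = δ ^ r * (δ * ‖x‖ * |h| ^ m) := by ring
      _ ≤ |y o| := hyo
      _ ≤ ‖y‖ := norm_le_pi_norm y o

/-- a point of small `ℓ¹` norm is in the hull of the multiples of basis vectors -/
theorem mem_cross {R : ℝ} {z : J → ℝ} (i₀ : J) (hz : ∑ i, |z i| ≤ R) :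
    z ∈ convexHull ℝ {v : J → ℝ | ∃ i, v = R • Pi.single i 1 ∨ v = (-R) • Pi.single i 1} := by
  set K := convexHull ℝ {v : J → ℝ | ∃ i, v = R • Pi.single i 1 ∨ v = (-R) • Pi.single i 1}
    with hK
  have hconv : Convex ℝ K := convex_convexHull ℝ _
  have hp : ∀ i, R • (Pi.single i 1 : J → ℝ) ∈ K := fun i =>
    subset_convexHull ℝ _ ⟨i, Or.inl rfl⟩
  have hn : ∀ i, (-R) • (Pi.single i 1 : J → ℝ) ∈ K := fun i =>
    subset_convexHull ℝ _ ⟨i, Or.inr rfl⟩
  have h0 : (0 : J → ℝ) ∈ K := by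
    have := hconv (hp i₀) (hn i₀) (a := 1 / 2) (b := 1 / 2) (by norm_num) (by norm_num)
      (by norm_num)
    have e : (1 / 2 : ℝ) • R • (Pi.single i₀ 1 : J → ℝ) +
        (1 / 2 : ℝ) • (-R) • (Pi.single i₀ 1 : J → ℝ) = 0 := by
      rw [smul_smul, smul_smul, ← add_smul]
      simp
    rwa [e] at this
  have hs0 : 0 ≤ ∑ i, |z i| := Finset.sum_nonneg fun i _ => abs_nonneg _
  rcases hs0.eq_or_lt with hs | hs
  · have : z = 0 := by
      ext i
      have := (Finset.sum_eq_zero_iff_of_nonneg (fun i _ => abs_nonneg (z i))).1 hs.symm i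
        (Finset.mem_univ i)
      simpa using this
    rw [this]
    exact h0
  · set s := ∑ i, |z i| with hsdef
    have hR : 0 < R := lt_of_lt_of_le hs hz
    have h1 : ∑ i, (|z i| / s) • ((SignType.sign (z i) : ℝ) * R) • (Pi.single i 1 : J → ℝ) ∈ K := by
      refine hconv.sum_mem (fun i _ => by positivity) ?_ ?_
      · rw [← Finset.sum_div, ← hsdef, div_self hs.ne']
      · intro i _
        rcases lt_trichotomy (z i) 0 with h | h | h
        · rw [sign_neg h]
          simpa using hn i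
        · rw [h]
          simpa using h0
        · rw [sign_pos h]
          simpa using hp i
    have h2 := hconv.smul_mem_of_zero_mem h0 h1 (t := s / R) ⟨by positivity, (div_le_one hR).2 hz⟩
    convert h2 using 1
    ext j
    simp only [Finset.sum_apply, Pi.smul_apply, smul_eq_mul, Pi.single_apply]
    rw [Finset.sum_eq_single j]
    · rw [if_pos rfl]
      have := abs_mul_sign (z j)
      field_simp
      linarith [this]
    · intro i _ hij
      rw [if_neg hij.symm]
      simp
    · simp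

/-- three points on a line through the origin are not all extreme -/
theorem line_extreme {P : Set (J → ℝ)} {v : J → ℝ} {t₁ t₂ t₃ : ℝ} (h12 : t₁ < t₂) (h23 : t₂ < t₃)
    (h1 : t₁ • v ∈ P) (h3 : t₃ • v ∈ P) (h2 : t₂ • v ∈ P.extremePoints ℝ) :
    t₁ • v = t₂ • v := by
  have hpos : 0 < t₃ - t₁ := by linarith
  refine (mem_extremePoints_iff_left.1 h2).2 _ h1 _ h3 ?_
  refine ⟨(t₃ - t₂) / (t₃ - t₁), (t₂ - t₁) / (t₃ - t₁), div_pos (by linarith) hpos,
    div_pos (by linarith) hpos, by rw [← add_div, div_eq_one_iff_eq hpos.ne']; ring, ?_⟩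
  rw [smul_smul, smul_smul, ← add_smul]
  congr 1
  field_simp
  ring

theorem line_card {P : Set (J → ℝ)} {v : J → ℝ} {x y z : J → ℝ} (hxy : x ≠ y) (hxz : x ≠ z)
    (hyz : y ≠ z) (hx : x ∈ P.extremePoints ℝ) (hy : y ∈ P.extremePoints ℝ)
    (hz : z ∈ P.extremePoints ℝ) (h1 : ∃ t : ℝ, x = t • v) (h2 : ∃ t : ℝ, y = t • v)
    (h3 : ∃ t : ℝ, z = t • v) : False := by
  obtain ⟨a, rfl⟩ := h1
  obtain ⟨b, rfl⟩ := h2
  obtain ⟨c, rfl⟩ := h3
  have hab : a ≠ b := fun h => hxy (by rw [h])
  have hac : a ≠ c := fun h => hxz (by rw [h])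
  have hbc : b ≠ c := fun h => hyz (by rw [h])
  rcases lt_or_gt_of_ne hab with h | h <;> rcases lt_or_gt_of_ne hac with h' | h' <;>
    rcases lt_or_gt_of_ne hbc with h'' | h''
  · exact hxy (line_extreme h h'' hx.1 hz.1 hy)
  · exact hxz (line_extreme h' h'' hx.1 hy.1 hz)
  · linarith
  · exact hxz (line_extreme h' h hz.1 hy.1 hx).symm
  · exact hxy (line_extreme h h' hy.1 hz.1 hx).symm
  · linarith
  · exact hyz (line_extreme h'' h' hy.1 hx.1 hz)
  · exact hyz (line_extreme h'' h hz.1 hx.1 hy).symm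

/-- **Bounded vertex growth** when the threshold is exceeded by some word. -/
theorem bounded_growth [Fintype L] {T : L → Matrix J J ℝ} {e η : J → ℝ} {δ : ℝ} (hδ : 0 < δ)
    (hδ1 : δ ≤ 1) (o : J) (heo : e o = 1) (hηo : η o = 1) {C : ℝ} (hC : 0 ≤ C)
    (hT : ∀ (w : List L) (x : J → ℝ), ‖evolve T w x‖ ≤ C * ‖x‖)
    (hS : (sys T e η δ).Finite) (w₀ : List L) (hw₀ : 1 < |η ⬝ᵥ evolve T w₀ e|) :
    ∃ (B k₀ : ℕ), ∀ k, k₀ ≤ k → ∀ a, numVertices (sys T e η δ) a k ≤ B := by
  classical
  have : Nonempty J := ⟨o⟩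
  set n : ℝ := (Fintype.card J : ℝ) with hn
  have hn0 : 0 ≤ n := Nat.cast_nonneg _
  set Γ := ∑ j, |η j| + δ with hΓ
  have hΓ0 : 0 ≤ Γ := add_nonneg (Finset.sum_nonneg fun j _ => abs_nonneg _) hδ.le
  set E := 1 + ‖e‖ with hE
  have hE1 : 1 ≤ E := by linarith [norm_nonneg e]
  have hdir : ∀ u : Option J, ‖dir e u‖ ≤ E := by
    rintro (_ | i)
    · simp only [dir]; linarith [norm_nonneg e]
    · simp only [dir]
      refine le_trans ?_ hE1
      rw [pi_norm_le_iff_of_nonneg zero_le_one]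
      intro j
      by_cases h : j = i
      · subst h; simp
      · simp [h]
  set M := n * C * (1 + Γ) * E / δ with hM
  obtain ⟨W, hW⟩ := growth (T := T) hδ hδ1 o heo hηo w₀ hw₀ M
  -- sum of absolute values
  have hsum : ∀ z : J → ℝ, ∑ i, |z i| ≤ n * ‖z‖ := by
    intro z
    calc ∑ i, |z i| ≤ ∑ _i : J, ‖z‖ := Finset.sum_le_sum fun i _ => norm_le_pi_norm z i
      _ = n * ‖z‖ := by rw [Finset.sum_const, Finset.card_univ, nsmul_eq_mul]
  -- swallowing
  have swallow : ∀ (a : J → ℝ) (k : ℕ) (x z : J → ℝ) (l d : ℕ), W ≤ d → l + d + 1 = k →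
      x ∈ reach (sys T e η δ) a l → z ∈ (polytope (sys T e η δ) a k).extremePoints ℝ →
      ‖z‖ ≤ C * (1 + Γ) * E * ‖x‖ → ∃ (i : J) (t : ℝ), z = t • Pi.single i 1 := by
    intro a k x z l d hd hk hx hz hzx
    obtain ⟨y, hy, hxy⟩ := hW a l d hd x hx
    obtain ⟨j, hj⟩ := exists_coord y
    set R := δ * ‖y‖ with hR
    have h1 : ∑ i, |z i| ≤ R := by
      have h2 : M * δ = n * C * (1 + Γ) * E := by rw [hM]; field_simp
      calc ∑ i, |z i| ≤ n * ‖z‖ := hsum z
        _ ≤ n * (C * (1 + Γ) * E * ‖x‖) := mul_le_mul_of_nonneg_left hzx hn0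
        _ = δ * (M * ‖x‖) := by
            rw [show n * (C * (1 + Γ) * E * ‖x‖) = (n * C * (1 + Γ) * E) * ‖x‖ by ring, ← h2]
            ring
        _ ≤ R := mul_le_mul_of_nonneg_left hxy hδ.le
    have h2 := mem_cross o h1
    have hsub : {v : J → ℝ | ∃ i, v = R • Pi.single i 1 ∨ v = (-R) • Pi.single i 1} ⊆
        reach (sys T e η δ) a k := by
      rintro v ⟨i, hv⟩
      have h3 := reach_single hy i j
      rw [hk] at h3
      rcases abs_choice (y j) with h4 | h4
      · rw [← hj] at h4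
        rw [← h4, ← hR] at h3
        rcases hv with rfl | rfl
        · exact h3.1
        · exact h3.2
      · rw [← hj] at h4
        have h5 : y j = -‖y‖ := by linarith
        rw [h5, mul_neg, neg_neg, ← hR] at h3
        rcases hv with rfl | rfl
        · exact h3.2
        · exact h3.1
    have h3 : z ∈ (convexHull ℝ {v : J → ℝ |
        ∃ i, v = R • Pi.single i 1 ∨ v = (-R) • Pi.single i 1}).extremePoints ℝ :=
      inter_extremePoints_subset_extremePoints_of_subset (convexHull_mono hsub) ⟨h2, hz⟩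
    obtain ⟨i, hi | hi⟩ := extremePoints_convexHull_subset h3
    · exact ⟨i, R, hi⟩
    · exact ⟨i, -R, hi⟩
  -- the lines
  let F := (Σ i : Fin (W + 1), (Fin i → L)) × Option J
  let line : F → (J → ℝ) := fun f => evolve T (List.ofFn f.1.2) (dir e f.2)
  have hlines : ∀ (a : J → ℝ) (k : ℕ), W + 1 ≤ k →
      ∀ z ∈ (polytope (sys T e η δ) a k).extremePoints ℝ, ∃ f : F, ∃ t : ℝ, z = t • line f := by
    intro a k hk z hz
    have hsingle : ∀ (i : J) (t : ℝ), z = t • Pi.single i 1 → ∃ f : F, ∃ t : ℝ, z = t • line f := by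
      intro i t h
      refine ⟨⟨⟨0, Fin.elim0⟩, some i⟩, t, ?_⟩
      simpa [line, evolve, dir] using h
    rcases reach_structure hδ.le z (extremePoints_convexHull_subset hz) with
      ⟨w, hw, hzw⟩ | ⟨l, y, w, u, c, hl, hy, hc, hzw⟩
    · obtain ⟨i, t, h⟩ := swallow a k a z 0 (k - 1) (by omega) (by omega) rfl hz (by
        rw [hzw]
        refine (hT w a).trans ?_
        rw [mul_assoc C, mul_assoc C]
        refine mul_le_mul_of_nonneg_left ?_ hC
        have : 1 ≤ (1 + Γ) * E := one_le_mul_of_one_le_of_one_le (by linarith) hE1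
        nlinarith [norm_nonneg a])
      exact hsingle i t h
    · by_cases hwW : w.length ≤ W
      · refine ⟨⟨⟨⟨w.length, by omega⟩, fun i => w.get i⟩, u⟩, c, ?_⟩
        simp only [line]
        rw [hzw, evolve_smul]
        congr 2
        exact (List.ofFn_get w).symm
      · obtain ⟨i, t, h⟩ := swallow a k y z l w.length (by omega) (by omega) hy hz (by
          rw [hzw]
          refine (hT w _).trans ?_
          rw [mul_assoc C, mul_assoc C]
          refine mul_le_mul_of_nonneg_left ?_ hC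
          rw [norm_smul, Real.norm_eq_abs]
          calc |c| * ‖dir e u‖ ≤ (Γ * ‖y‖) * E :=
                mul_le_mul hc (hdir u) (norm_nonneg _) (mul_nonneg hΓ0 (norm_nonneg _))
            _ ≤ (1 + Γ) * E * ‖y‖ := by
                have h6 : 0 ≤ ‖y‖ * E := mul_nonneg (norm_nonneg y) (by linarith)
                nlinarith [h6])
        exact hsingle i t h
  refine ⟨2 * Fintype.card F, W + 1, fun k hk a => ?_⟩
  have hfin : ((polytope (sys T e η δ) a k).extremePoints ℝ).Finite :=
    (reach_finite hS a k).subset extremePoints_convexHull_subset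
  unfold numVertices
  rw [hfin.encard_eq_coe_toFinset_card]
  norm_cast
  choose f t hf using hlines a k hk
  let g : (J → ℝ) → F := fun z =>
    if h : z ∈ (polytope (sys T e η δ) a k).extremePoints ℝ then f z h
    else ⟨⟨0, Fin.elim0⟩, none⟩
  have := Finset.card_le_mul_card_image_of_maps_to (f := g) (s := hfin.toFinset)
    (t := Finset.univ) (fun _ _ => Finset.mem_univ _) 2 (by
      intro b _
      by_contra hcon
      push Not at hcon
      obtain ⟨x, y, z, hx, hy, hz, hxy, hxz, hyz⟩ := Finset.two_lt_card_iff.1 hcon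
      simp only [Finset.mem_filter, Set.Finite.mem_toFinset] at hx hy hz
      refine line_card hxy hxz hyz hx.1 hy.1 hz.1 (v := line b) ?_ ?_ ?_
      · refine ⟨t x hx.1, ?_⟩
        have h1 := hf x hx.1
        have h2 : f x hx.1 = b :=
          (by simp only [g, dif_pos hx.1] : f x hx.1 = g x).trans hx.2
        rwa [h2] at h1
      · refine ⟨t y hy.1, ?_⟩
        have h1 := hf y hy.1
        have h2 : f y hy.1 = b :=
          (by simp only [g, dif_pos hy.1] : f y hy.1 = g y).trans hy.2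
        rwa [h2] at h1
      · refine ⟨t z hz.1, ?_⟩
        have h1 := hf z hz.1
        have h2 : f z hz.1 = b :=
          (by simp only [g, dif_pos hz.1] : f z hz.1 = g z).trans hz.2
        rwa [h2] at h1)
  rwa [Finset.card_univ] at this

/-- **Exponential vertex growth** when no word exceeds the threshold. -/
theorem exp_growth {T : L → Matrix J J ℝ} {e η : J → ℝ} {δ : ℝ} (hδ : 0 < δ)
    (o g₁ g₂ : J) {C : ℝ} (hC : 0 ≤ C) (he : ‖e‖ ≤ 1)
    (hT : ∀ (w : List L) (x : J → ℝ), ‖evolve T w x‖ ≤ C * ‖x‖)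
    (hδC : δ * C ≤ 1) (hδC2 : C * (δ * C) ≤ 1 / 2)
    (hδη : (∑ j, |η j|) * (C * (δ * C)) ≤ 1)
    (hS : (sys T e η δ).Finite) (hw : ∀ w, |η ⬝ᵥ evolve T w e| ≤ 1)
    (hgad : ∀ w, evolve T w e o = 1 ∧ 0 ≤ evolve T w e g₁ ∧ evolve T w e g₁ ≤ 1 ∧
      evolve T w e g₂ = (evolve T w e g₁) ^ 2)
    (hword : ∀ k j : ℕ, j < 2 ^ k → ∃ w : List L, w.length = k ∧
      evolve T w e g₁ = (j : ℝ) / 2 ^ k) (k : ℕ) :
    ((2 ^ k : ℕ) : ℕ∞) ≤ numVertices (sys T e η δ) e k := by
  classical
  -- the invariant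
  have inv : ∀ k, ∀ x ∈ reach (sys T e η δ) e k,
      (∃ (w : List L) (c : ℝ), |c| ≤ 1 ∧ x = c • evolve T w e) ∨
      (∃ (w : List L) (v : J → ℝ), ‖v‖ ≤ δ * C ∧ x = evolve T w v) := by
    intro k
    induction k with
    | zero =>
      intro x hx
      exact Or.inl ⟨[], 1, by simp, by rw [one_smul]; exact hx⟩
    | succ k ih =>
      rintro _ ⟨M, hM, x, hx, rfl⟩
      have key : ∀ (i j : J) (s : ℝ), |s| = δ →
          ∃ (w : List L) (v : J → ℝ), ‖v‖ ≤ δ * C ∧
            (Matrix.single i j s).mulVec x = evolve T w v := by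
        intro i j s hs
        refine ⟨[], (Matrix.single i j s).mulVec x, ?_, rfl⟩
        have hx1 : ‖x‖ ≤ C := by
          rcases ih x hx with ⟨w, c, hc, rfl⟩ | ⟨w, v, hv, rfl⟩
          · rw [norm_smul, Real.norm_eq_abs]
            calc |c| * ‖evolve T w e‖ ≤ 1 * (C * ‖e‖) :=
                  mul_le_mul hc (hT w e) (norm_nonneg _) zero_le_one
              _ ≤ C := by rw [one_mul]; exact mul_le_of_le_one_right hC he
          · calc ‖evolve T w v‖ ≤ C * ‖v‖ := hT w v
              _ ≤ C * 1 := mul_le_mul_of_nonneg_left (hv.trans hδC) hC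
              _ = C := mul_one C
        rw [pi_norm_le_iff_of_nonneg (by positivity)]
        intro l
        by_cases hl : l = i
        · subst hl
          simp only [Matrix.single_mulVec, Function.update, Real.norm_eq_abs]
          simp only [dite_eq_ite, if_true, abs_mul, hs]
          refine mul_le_mul_of_nonneg_left ?_ hδ.le
          exact (norm_le_pi_norm x j).trans hx1
        · simp only [Matrix.single_mulVec, Function.update, dif_neg hl]
          simp
          positivity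
      rcases hM with ⟨i, rfl⟩ | rfl | ⟨i, j, h⟩
      · rcases ih x hx with ⟨w, c, hc, rfl⟩ | ⟨w, v, hv, rfl⟩
        · exact Or.inl ⟨i :: w, c, hc, by simp [evolve, Matrix.mulVec_smul]⟩
        · exact Or.inr ⟨i :: w, v, hv, rfl⟩
      · left
        refine ⟨[], η ⬝ᵥ x, ?_, by rw [Matrix.vecMulVec_mulVec, op_smul_eq_smul]; rfl⟩
        rcases ih x hx with ⟨w, c, hc, rfl⟩ | ⟨w, v, hv, rfl⟩
        · rw [dotProduct_smul, smul_eq_mul, abs_mul]
          exact mul_le_one₀ hc (abs_nonneg _) (hw w)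
        · refine (abs_dot_le _ _).trans ?_
          have h0 : 0 ≤ ∑ j, |η j| := Finset.sum_nonneg fun j _ => abs_nonneg _
          calc (∑ j, |η j|) * ‖evolve T w v‖ ≤ (∑ j, |η j|) * (C * (δ * C)) :=
                mul_le_mul_of_nonneg_left ((hT w v).trans (mul_le_mul_of_nonneg_left hv hC)) h0
            _ ≤ 1 := hδη
      · right
        rcases h with rfl | rfl
        · exact key i j δ (abs_of_pos hδ)
        · exact key i j (-δ) (by rw [abs_neg, abs_of_pos hδ])
  -- the functional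
  let f : ℝ → (J → ℝ) → ℝ := fun s x => 5 * x o - (x g₂ - 2 * s * x g₁ + s ^ 2 * x o)
  have fle : ∀ s : ℝ, 0 ≤ s → s ≤ 1 → ∀ x ∈ reach (sys T e η δ) e k,
      f s x < 5 ∨ (f s x = 5 ∧ x g₁ = s) := by
    intro s hs0 hs1 x hx
    rcases inv k x hx with ⟨w, c, hc, rfl⟩ | ⟨w, v, hv, rfl⟩
    · obtain ⟨h1, h2, h3, h4⟩ := hgad w
      simp only [f, Pi.smul_apply, smul_eq_mul]
      rw [h1, h4]
      set g := evolve T w e g₁ with hg
      have e1 : 5 * (c * 1) - (c * g ^ 2 - 2 * s * (c * g) + s ^ 2 * (c * 1)) =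
          c * (5 - (g - s) ^ 2) := by ring
      rw [e1]
      have h5 : (g - s) ^ 2 ≤ 1 := by
        rw [sq_le_one_iff_abs_le_one, abs_le]
        constructor <;> linarith
      have hc' := abs_le.1 hc
      by_cases hc1 : c = 1
      · subst hc1
        by_cases hgs : g = s
        · right
          rw [hgs]
          simp
        · left
          have : 0 < (g - s) ^ 2 := by
            have : g - s ≠ 0 := sub_ne_zero.2 hgs
            positivity
          linarith
      · left
        have hc2 : c < 1 := lt_of_le_of_ne hc'.2 hc1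
        nlinarith [sq_nonneg (g - s)]
    · left
      have h1 : ‖evolve T w v‖ ≤ 1 / 2 :=
        ((hT w v).trans (mul_le_mul_of_nonneg_left hv hC)).trans hδC2
      have h2 : ∀ j, |evolve T w v j| ≤ 1 / 2 := fun j => (norm_le_pi_norm _ j).trans h1
      have ho := abs_le.1 (h2 o)
      have h3 := abs_le.1 (h2 g₁)
      have h4 := abs_le.1 (h2 g₂)
      simp only [f]
      nlinarith [ho.1, ho.2, h3.1, h3.2, h4.1, h4.2,
        mul_le_mul_of_nonneg_left h3.2 hs0, mul_le_mul_of_nonneg_left h3.1 hs0,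
        mul_le_mul_of_nonneg_left ho.1 (sq_nonneg s), mul_le_mul_of_nonneg_left ho.2 (sq_nonneg s),
        pow_le_one₀ hs0 hs1 (n := 2)]
  have hfinE : ((polytope (sys T e η δ) e k).extremePoints ℝ).Finite :=
    (reach_finite hS e k).subset extremePoints_convexHull_subset
  -- extreme points
  have hex : ∀ j : ℕ, j < 2 ^ k →
      ∃ z ∈ (polytope (sys T e η δ) e k).extremePoints ℝ, z g₁ = (j : ℝ) / 2 ^ k := by
    intro j hj
    set s : ℝ := (j : ℝ) / 2 ^ k with hs
    have hs0 : 0 ≤ s := by positivity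
    have hs1 : s ≤ 1 := by
      rw [hs, div_le_one (by positivity)]
      exact_mod_cast hj.le
    by_contra hcon
    push Not at hcon
    have h1 : ∀ z ∈ (polytope (sys T e η δ) e k).extremePoints ℝ, f s z < 5 := by
      intro z hz
      rcases fle s hs0 hs1 z (extremePoints_convexHull_subset hz) with h | h
      · exact h
      · exact absurd h.2 (hcon z hz)
    -- the half space
    have hlin : IsLinearMap ℝ (f s) := by
      constructor
      · intro x y; simp only [f, Pi.add_apply]; ring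
      · intro c x; simp only [f, Pi.smul_apply, smul_eq_mul]; ring
    have h2 : convexHull ℝ ((polytope (sys T e η δ) e k).extremePoints ℝ) ⊆ {x | f s x < 5} :=
      convexHull_min h1 (convex_halfSpace_lt hlin 5)
    have hcomp : IsCompact (polytope (sys T e η δ) e k) :=
      (reach_finite hS e k).isCompact_convexHull ℝ
    have h3 := closure_convexHull_extremePoints hcomp (convex_convexHull ℝ _)
    rw [(hfinE.isCompact_convexHull ℝ).isClosed.closure_eq] at h3
    obtain ⟨w, hwl, hws⟩ := hword k j hj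
    have h4 : evolve T w e ∈ reach (sys T e η δ) e k := by
      have := reach_evolve (T := T) (e := e) (η := η) (δ := δ) (a := e) (x := e) (k := 0)
        (by simp [reach]) w
      rwa [zero_add, hwl] at this
    have h5 : evolve T w e ∈ polytope (sys T e η δ) e k := subset_convexHull ℝ _ h4
    rw [← h3] at h5
    have h6 : f s (evolve T w e) < 5 := h2 h5
    obtain ⟨h7, -, -, h8⟩ := hgad w
    simp only [f] at h6
    rw [h7, h8, hws] at h6
    nlinarith
  choose z hz hzs using hex
  let φ : Fin (2 ^ k) → (J → ℝ) := fun j => z j.1 j.2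
  have hφ : Function.Injective φ := by
    intro i j hij
    have h1 : φ i g₁ = φ j g₁ := by rw [hij]
    simp only [φ, hzs] at h1
    have h2 : (2 : ℝ) ^ k ≠ 0 := by positivity
    rw [div_left_inj' h2] at h1
    exact Fin.ext (by exact_mod_cast h1)
  have h1 : (Set.range φ).encard ≤ numVertices (sys T e η δ) e k := by
    apply Set.encard_le_encard
    rintro _ ⟨j, rfl⟩
    exact hz j.1 j.2
  refine le_trans (le_of_eq ?_) h1
  rw [← Set.image_univ, hφ.encard_image, Set.encard_univ, ENat.card_eq_coe_fintype_card,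
    Fintype.card_fin]

end Pool.Agent.Lib80
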