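import Mathlib

/-!
A small-step machine on natural numbers evaluating `Nat.Partrec.Code`, whose one step relation
is a finite union of relations `{(F x, G x)}` with `F`, `G` Diophantine functions.
-/

namespace Pool.Agent.Lib80

open Nat.Partrec (Code)
open Nat.Partrec.Code
open Encodable

/-- configurations, as numbers -/
def cEv (c n k : ℕ) : ℕ := Nat.pair 1 (Nat.pair c (Nat.pair n k))
def cRet (v k : ℕ) : ℕ := Nat.pair 2 (Nat.pair v k)

def kHalt : ℕ := Nat.pair 0 0
def kA (g n k : ℕ) : ℕ := Nat.pair 1 (Nat.pair g (Nat.pair n k))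
def kB (v k : ℕ) : ℕ := Nat.pair 2 (Nat.pair v k)
def kC (f k : ℕ) : ℕ := Nat.pair 3 (Nat.pair f k)
def kD (g a n k : ℕ) : ℕ := Nat.pair 4 (Nat.pair g (Nat.pair a (Nat.pair n k)))
def kE (f a m k : ℕ) : ℕ := Nat.pair 5 (Nat.pair f (Nat.pair a (Nat.pair m k)))

def nPair (f g : ℕ) : ℕ := 2 * (2 * Nat.pair f g) + 4
def nComp (f g : ℕ) : ℕ := 2 * (2 * Nat.pair f g + 1) + 4
def nPrec (f g : ℕ) : ℕ := (2 * (2 * Nat.pair f g) + 1) + 4
def nRfind (f : ℕ) : ℕ := (2 * (2 * f + 1) + 1) + 4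

/-- the rules of the machine: `F x` is rewritten to `G x` -/
def rules : List (((Fin 5 → ℕ) → ℕ) × ((Fin 5 → ℕ) → ℕ)) :=
  [ (fun x => cEv 0 (x 0) (x 1), fun x => cRet 0 (x 1)),
    (fun x => cEv 1 (x 0) (x 1), fun x => cRet (x 0 + 1) (x 1)),
    (fun x => cEv 2 (Nat.pair (x 0) (x 1)) (x 2), fun x => cRet (x 0) (x 2)),
    (fun x => cEv 3 (Nat.pair (x 0) (x 1)) (x 2), fun x => cRet (x 1) (x 2)),
    (fun x => cEv (nPair (x 0) (x 1)) (x 2) (x 3), fun x => cEv (x 0) (x 2) (kA (x 1) (x 2) (x 3))),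
    (fun x => cRet (x 0) (kA (x 1) (x 2) (x 3)), fun x => cEv (x 1) (x 2) (kB (x 0) (x 3))),
    (fun x => cRet (x 0) (kB (x 1) (x 2)), fun x => cRet (Nat.pair (x 1) (x 0)) (x 2)),
    (fun x => cEv (nComp (x 0) (x 1)) (x 2) (x 3), fun x => cEv (x 1) (x 2) (kC (x 0) (x 3))),
    (fun x => cRet (x 0) (kC (x 1) (x 2)), fun x => cEv (x 1) (x 0) (x 2)),
    (fun x => cEv (nPrec (x 0) (x 1)) (Nat.pair (x 2) 0) (x 3), fun x => cEv (x 0) (x 2) (x 3)),
    (fun x => cEv (nPrec (x 0) (x 1)) (Nat.pair (x 2) (x 3 + 1)) (x 4),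
      fun x => cEv (nPrec (x 0) (x 1)) (Nat.pair (x 2) (x 3)) (kD (x 1) (x 2) (x 3) (x 4))),
    (fun x => cRet (x 0) (kD (x 1) (x 2) (x 3) (x 4)),
      fun x => cEv (x 1) (Nat.pair (x 2) (Nat.pair (x 3) (x 0))) (x 4)),
    (fun x => cEv (nRfind (x 0)) (Nat.pair (x 1) (x 2)) (x 3),
      fun x => cEv (x 0) (Nat.pair (x 1) (x 2)) (kE (x 0) (x 1) (x 2) (x 3))),
    (fun x => cRet 0 (kE (x 0) (x 1) (x 2) (x 3)), fun x => cRet (x 2) (x 3)),
    (fun x => cRet (x 4 + 1) (kE (x 0) (x 1) (x 2) (x 3)),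
      fun x => cEv (nRfind (x 0)) (Nat.pair (x 1) (x 2 + 1)) (x 3)),
    (fun x => cRet (x 0) kHalt, fun _ => 0) ]

/-- one step of the machine -/
def Step (m m' : ℕ) : Prop := ∃ r ∈ rules, ∃ x : Fin 5 → ℕ, m = r.1 x ∧ m' = r.2 x

/-- typed continuations -/
inductive Kont
  | fHalt : Kont
  | fA (g : Code) (n : ℕ) (k : Kont) : Kont
  | fB (v : ℕ) (k : Kont) : Kont
  | fC (f : Code) (k : Kont) : Kont
  | fD (g : Code) (a n : ℕ) (k : Kont) : Kont
  | fE (f : Code) (a m : ℕ) (k : Kont) : Kont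

def Kont.enc : Kont → ℕ
  | .fHalt => kHalt
  | .fA g n k => kA (encode g) n k.enc
  | .fB v k => kB v k.enc
  | .fC f k => kC (encode f) k.enc
  | .fD g a n k => kD (encode g) a n k.enc
  | .fE f a m k => kE (encode f) a m k.enc

/-- the continuation terminates when it is given the value `v` -/
def Kont.Term : Kont → ℕ → Prop
  | .fHalt, _ => True
  | .fA g n k, v => ∃ w ∈ g.eval n, k.Term (Nat.pair v w)
  | .fB v k, w => k.Term (Nat.pair v w)
  | .fC f k, v => ∃ w ∈ f.eval v, k.Term w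
  | .fD g a n k, v => ∃ w ∈ g.eval (Nat.pair a (Nat.pair n v)), k.Term w
  | .fE f a m k, v => (v = 0 ∧ k.Term m) ∨
      (v ≠ 0 ∧ ∃ w ∈ (Code.rfind' f).eval (Nat.pair a (m + 1)), k.Term w)

/-- typed configurations -/
inductive Cfg
  | ev (c : Code) (n : ℕ) (k : Kont) : Cfg
  | ret (v : ℕ) (k : Kont) : Cfg
  | done : Cfg

def Cfg.enc : Cfg → ℕ
  | .ev c n k => cEv (encode c) n k.enc
  | .ret v k => cRet v k.enc
  | .done => Nat.pair 0 0

def Cfg.Term : Cfg → Prop
  | .ev c n k => ∃ v ∈ c.eval n, k.Term v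
  | .ret v k => k.Term v
  | .done => True

theorem enc_surj (n : ℕ) : ∃ c : Code, encode c = n := ⟨Denumerable.ofNat Code n, by simp⟩

theorem inv_nPair {c : Code} {f g : ℕ} (h : encode c = nPair f g) :
    ∃ f' g', c = .pair f' g' ∧ encode f' = f ∧ encode g' = g := by
  obtain ⟨f', rfl⟩ := enc_surj f
  obtain ⟨g', rfl⟩ := enc_surj g
  exact ⟨f', g', encode_injective h, rfl, rfl⟩

theorem inv_nComp {c : Code} {f g : ℕ} (h : encode c = nComp f g) :
    ∃ f' g', c = .comp f' g' ∧ encode f' = f ∧ encode g' = g := by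
  obtain ⟨f', rfl⟩ := enc_surj f
  obtain ⟨g', rfl⟩ := enc_surj g
  exact ⟨f', g', encode_injective h, rfl, rfl⟩

theorem inv_nPrec {c : Code} {f g : ℕ} (h : encode c = nPrec f g) :
    ∃ f' g', c = .prec f' g' ∧ encode f' = f ∧ encode g' = g := by
  obtain ⟨f', rfl⟩ := enc_surj f
  obtain ⟨g', rfl⟩ := enc_surj g
  exact ⟨f', g', encode_injective h, rfl, rfl⟩

theorem inv_nRfind {c : Code} {f : ℕ} (h : encode c = nRfind f) :
    ∃ f', c = .rfind' f' ∧ encode f' = f := by
  obtain ⟨f', rfl⟩ := enc_surj f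
  exact ⟨f', encode_injective h, rfl⟩

theorem inv_kHalt {k : Kont} (h : k.enc = kHalt) : k = .fHalt := by
  cases k <;> simp [Kont.enc, kHalt, kA, kB, kC, kD, kE, Nat.pair_eq_pair] at h ⊢

theorem inv_kA {k : Kont} {g n κ : ℕ} (h : k.enc = kA g n κ) :
    ∃ g' k', k = .fA g' n k' ∧ encode g' = g ∧ k'.enc = κ := by
  cases k <;> simp [Kont.enc, kHalt, kA, kB, kC, kD, kE, Nat.pair_eq_pair] at h ⊢
  tauto

theorem inv_kB {k : Kont} {v κ : ℕ} (h : k.enc = kB v κ) :
    ∃ k', k = .fB v k' ∧ k'.enc = κ := by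
  cases k <;> simp [Kont.enc, kHalt, kA, kB, kC, kD, kE, Nat.pair_eq_pair] at h ⊢
  tauto

theorem inv_kC {k : Kont} {f κ : ℕ} (h : k.enc = kC f κ) :
    ∃ f' k', k = .fC f' k' ∧ encode f' = f ∧ k'.enc = κ := by
  cases k <;> simp [Kont.enc, kHalt, kA, kB, kC, kD, kE, Nat.pair_eq_pair] at h ⊢
  tauto

theorem inv_kD {k : Kont} {g a n κ : ℕ} (h : k.enc = kD g a n κ) :
    ∃ g' k', k = .fD g' a n k' ∧ encode g' = g ∧ k'.enc = κ := by
  cases k <;> simp [Kont.enc, kHalt, kA, kB, kC, kD, kE, Nat.pair_eq_pair] at h ⊢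
  tauto

theorem inv_kE {k : Kont} {g a n κ : ℕ} (h : k.enc = kE g a n κ) :
    ∃ g' k', k = .fE g' a n k' ∧ encode g' = g ∧ k'.enc = κ := by
  cases k <;> simp [Kont.enc, kHalt, kA, kB, kC, kD, kE, Nat.pair_eq_pair] at h ⊢
  tauto

theorem inv_cEv {C : Cfg} {c n κ : ℕ} (h : C.enc = cEv c n κ) :
    ∃ c' k', C = .ev c' n k' ∧ encode c' = c ∧ k'.enc = κ := by
  cases C <;> simp [Cfg.enc, cEv, cRet, Nat.pair_eq_pair] at h ⊢
  tauto

theorem inv_cRet {C : Cfg} {v κ : ℕ} (h : C.enc = cRet v κ) :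
    ∃ k', C = .ret v k' ∧ k'.enc = κ := by
  cases C <;> simp [Cfg.enc, cEv, cRet, Nat.pair_eq_pair] at h ⊢
  tauto

theorem rfind_zero {f : Code} {a m : ℕ} (h : 0 ∈ f.eval (Nat.pair a m)) :
    m ∈ (Code.rfind' f).eval (Nat.pair a m) := by
  obtain ⟨k, hk⟩ := evaln_complete.1 h
  refine evaln_complete.2 ⟨max k (Nat.pair a m) + 1, ?_⟩
  have hk' : 0 ∈ evaln (max k (Nat.pair a m) + 1) f (Nat.pair a m) :=
    evaln_mono (le_trans (le_max_left _ _) (Nat.le_succ _)) hk
  rw [evaln]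
  simp only [Option.mem_def] at hk' ⊢
  simp [Nat.unpaired, hk']

theorem rfind_succ {f : Code} {a m v w : ℕ} (h : v ∈ f.eval (Nat.pair a m)) (hv : v ≠ 0)
    (hw : w ∈ (Code.rfind' f).eval (Nat.pair a (m + 1))) :
    w ∈ (Code.rfind' f).eval (Nat.pair a m) := by
  obtain ⟨k, hk⟩ := evaln_complete.1 h
  obtain ⟨k', hk'⟩ := evaln_complete.1 hw
  obtain ⟨K, hK1, hK2, hK3⟩ : ∃ K, k ≤ K ∧ k' ≤ K ∧ Nat.pair a m ≤ K :=
    ⟨max (max k k') (Nat.pair a m), by omega, by omega, by omega⟩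
  refine evaln_complete.2 ⟨K + 1, ?_⟩
  have h1 : v ∈ evaln (K + 1) f (Nat.pair a m) := evaln_mono (by omega) hk
  have h2 : w ∈ evaln K (Code.rfind' f) (Nat.pair a (m + 1)) := evaln_mono (by omega) hk'
  rw [evaln]
  simp only [Option.mem_def] at h1 h2 ⊢
  simp [Nat.unpaired, h1, h2, hv, hK3]

theorem mem_eval_pair {f g : Code} {n v w : ℕ} (hv : v ∈ f.eval n) (hw : w ∈ g.eval n) :
    Nat.pair v w ∈ (Code.pair f g).eval n := by
  simp only [Code.eval, Seq.seq]
  exact Part.mem_bind_iff.2 ⟨_, (Part.mem_map_iff _).2 ⟨v, hv, rfl⟩,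
    (Part.mem_map_iff _).2 ⟨w, hw, rfl⟩⟩

theorem mem_eval_comp {f g : Code} {n v w : ℕ} (hv : v ∈ g.eval n) (hw : w ∈ f.eval v) :
    w ∈ (Code.comp f g).eval n := by
  simp only [Code.eval]
  exact Part.mem_bind_iff.2 ⟨v, hv, hw⟩

theorem step_sound {C : Cfg} {m m' : ℕ} (hm : C.enc = m) (h : Step m m') :
    ∃ C' : Cfg, C'.enc = m' ∧ (C'.Term → C.Term) := by
  obtain ⟨r, hr, x, rfl, rfl⟩ := h
  simp only [rules, List.mem_cons, List.not_mem_nil, or_false] at hr
  rcases hr with rfl | rfl | rfl | rfl | rfl | rfl | rfl | rfl | rfl | rfl | rfl | rfl | rfl |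
    rfl | rfl | rfl
  · obtain ⟨c, k, rfl, hc, hk⟩ := inv_cEv hm
    obtain rfl : c = Code.zero := encode_injective hc
    exact ⟨.ret 0 k, by simp [Cfg.enc, hk], fun h => ⟨0, by simp [Code.eval, pure, PFun.pure], h⟩⟩
  · obtain ⟨c, k, rfl, hc, hk⟩ := inv_cEv hm
    obtain rfl : c = Code.succ := encode_injective hc
    exact ⟨.ret _ k, by simp [Cfg.enc, hk]; rfl, fun h => ⟨_, by simp [Code.eval], h⟩⟩
  · obtain ⟨c, k, rfl, hc, hk⟩ := inv_cEv hm
    obtain rfl : c = Code.left := encode_injective hc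
    exact ⟨.ret _ k, by simp [Cfg.enc, hk]; rfl, fun h => ⟨_, by simp [Code.eval], h⟩⟩
  · obtain ⟨c, k, rfl, hc, hk⟩ := inv_cEv hm
    obtain rfl : c = Code.right := encode_injective hc
    exact ⟨.ret _ k, by simp [Cfg.enc, hk]; rfl, fun h => ⟨_, by simp [Code.eval], h⟩⟩
  · obtain ⟨c, k, rfl, hc, hk⟩ := inv_cEv hm
    obtain ⟨f, g, rfl, hf, hg⟩ := inv_nPair hc
    refine ⟨.ev f (x 2) (.fA g (x 2) k), by simp [Cfg.enc, Kont.enc, hk, hf, hg], ?_⟩
    rintro ⟨v, hv, w, hw, h⟩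
    exact ⟨Nat.pair v w, mem_eval_pair hv hw, h⟩
  · obtain ⟨k, rfl, hk⟩ := inv_cRet hm
    obtain ⟨g, k', rfl, hg, hk'⟩ := inv_kA hk
    exact ⟨.ev g (x 2) (.fB (x 0) k'), by simp [Cfg.enc, Kont.enc, hk', hg], fun h => h⟩
  · obtain ⟨k, rfl, hk⟩ := inv_cRet hm
    obtain ⟨k', rfl, hk'⟩ := inv_kB hk
    exact ⟨.ret (Nat.pair (x 1) (x 0)) k', by simp [Cfg.enc, hk'], fun h => h⟩
  · obtain ⟨c, k, rfl, hc, hk⟩ := inv_cEv hm
    obtain ⟨f, g, rfl, hf, hg⟩ := inv_nComp hc
    refine ⟨.ev g (x 2) (.fC f k), by simp [Cfg.enc, Kont.enc, hk, hf, hg], ?_⟩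
    rintro ⟨v, hv, w, hw, h⟩
    exact ⟨w, mem_eval_comp hv hw, h⟩
  · obtain ⟨k, rfl, hk⟩ := inv_cRet hm
    obtain ⟨f, k', rfl, hf, hk'⟩ := inv_kC hk
    exact ⟨.ev f (x 0) k', by simp [Cfg.enc, hk', hf], fun h => h⟩
  · obtain ⟨c, k, rfl, hc, hk⟩ := inv_cEv hm
    obtain ⟨f, g, rfl, hf, hg⟩ := inv_nPrec hc
    refine ⟨.ev f (x 2) k, by simp [Cfg.enc, hk, hf], ?_⟩
    rintro ⟨v, hv, h⟩
    exact ⟨v, by rw [eval_prec_zero]; exact hv, h⟩
  · obtain ⟨c, k, rfl, hc, hk⟩ := inv_cEv hm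
    obtain ⟨f, g, rfl, hf, hg⟩ := inv_nPrec hc
    refine ⟨.ev (.prec f g) (Nat.pair (x 2) (x 3)) (.fD g (x 2) (x 3) k), ?_, ?_⟩
    · simp only [Cfg.enc, Kont.enc, hk, hg, hc]
    · rintro ⟨v, hv, w, hw, h⟩
      refine ⟨w, ?_, h⟩
      rw [eval_prec_succ]
      simp only [bind, Part.mem_bind_iff]
      exact ⟨v, hv, hw⟩
  · obtain ⟨k, rfl, hk⟩ := inv_cRet hm
    obtain ⟨g, k', rfl, hg, hk'⟩ := inv_kD hk
    exact ⟨.ev g (Nat.pair (x 2) (Nat.pair (x 3) (x 0))) k', by simp [Cfg.enc, hk', hg], fun h => h⟩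
  · obtain ⟨c, k, rfl, hc, hk⟩ := inv_cEv hm
    obtain ⟨f, rfl, hf⟩ := inv_nRfind hc
    refine ⟨.ev f (Nat.pair (x 1) (x 2)) (.fE f (x 1) (x 2) k), ?_, ?_⟩
    · simp only [Cfg.enc, Kont.enc, hk, hf]
    · rintro ⟨v, hv, ⟨rfl, h⟩ | ⟨hv0, w, hw, h⟩⟩
      · exact ⟨x 2, rfind_zero hv, h⟩
      · exact ⟨w, rfind_succ hv hv0 hw, h⟩
  · obtain ⟨k, rfl, hk⟩ := inv_cRet hm
    obtain ⟨f, k', rfl, hf, hk'⟩ := inv_kE hk
    exact ⟨.ret (x 2) k', by simp [Cfg.enc, hk'], fun h => Or.inl ⟨rfl, h⟩⟩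
  · obtain ⟨k, rfl, hk⟩ := inv_cRet hm
    obtain ⟨f, k', rfl, hf, hk'⟩ := inv_kE hk
    refine ⟨.ev (.rfind' f) (Nat.pair (x 1) (x 2 + 1)) k', ?_, fun h => Or.inr ⟨by simp, h⟩⟩
    simp only [Cfg.enc, hk', ← hf]
    rfl
  · obtain ⟨k, rfl, hk⟩ := inv_cRet hm
    obtain rfl := inv_kHalt hk
    exact ⟨.done, rfl, fun _ => trivial⟩

theorem reach_sound {m m' : ℕ} (h : Relation.ReflTransGen Step m m') :
    ∀ C : Cfg, C.enc = m → ∃ C' : Cfg, C'.enc = m' ∧ (C'.Term → C.Term) := by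
  induction h with
  | refl => exact fun C hC => ⟨C, hC, id⟩
  | tail _ hs ih =>
    intro C hC
    obtain ⟨C', hC', h1⟩ := ih C hC
    obtain ⟨C'', hC'', h2⟩ := step_sound hC' hs
    exact ⟨C'', hC'', fun h => h1 (h2 h)⟩

theorem done_term {C : Cfg} (h : C.enc = 0) : C.Term := by
  have : C.enc = Nat.pair 0 0 := h
  cases C <;> simp [Cfg.enc, cEv, cRet, Nat.pair_eq_pair] at this
  trivial

theorem step_of (i : ℕ) (hi : i < rules.length) (x : Fin 5 → ℕ) :
    Step ((rules[i]'hi).1 x) ((rules[i]'hi).2 x) :=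
  ⟨_, List.getElem_mem hi, x, rfl, rfl⟩

theorem enc_prec (f g : Code) : encode (Code.prec f g) = nPrec (encode f) (encode g) := rfl
theorem enc_rfind (f : Code) : encode (Code.rfind' f) = nRfind (encode f) := rfl

theorem reach_complete : ∀ (s : ℕ) (c : Code) (n v : ℕ), v ∈ evaln s c n → ∀ κ,
    Relation.ReflTransGen Step (cEv (encode c) n κ) (cRet v κ) := by
  intro s
  induction s with
  | zero => intro c n v h; simp [evaln] at h
  | succ s ihs =>
    intro c
    induction c with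
    | zero =>
      intro n v h κ
      rw [evaln] at h
      simp only [Option.mem_def, Option.bind_eq_bind, Option.bind_eq_some_iff] at h
      obtain ⟨_, _, h⟩ := h
      obtain rfl : 0 = v := Option.some.inj h
      exact Relation.ReflTransGen.single (step_of 0 (by decide) ![n, κ, 0, 0, 0])
    | succ =>
      intro n v h κ
      rw [evaln] at h
      simp only [Option.mem_def, Option.bind_eq_bind, Option.bind_eq_some_iff] at h
      obtain ⟨_, _, h⟩ := h
      obtain rfl : Nat.succ n = v := Option.some.inj h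
      exact Relation.ReflTransGen.single (step_of 1 (by decide) ![n, κ, 0, 0, 0])
    | left =>
      intro n v h κ
      rw [evaln] at h
      simp only [Option.mem_def, Option.bind_eq_bind, Option.bind_eq_some_iff] at h
      obtain ⟨_, _, h⟩ := h
      obtain rfl : n.unpair.1 = v := Option.some.inj h
      have := step_of 2 (by decide) ![n.unpair.1, n.unpair.2, κ, 0, 0]
      simp only [rules, List.getElem_cons_succ, List.getElem_cons_zero, Matrix.cons_val] at this
      rw [Nat.pair_unpair] at this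
      exact Relation.ReflTransGen.single this
    | right =>
      intro n v h κ
      rw [evaln] at h
      simp only [Option.mem_def, Option.bind_eq_bind, Option.bind_eq_some_iff] at h
      obtain ⟨_, _, h⟩ := h
      obtain rfl : n.unpair.2 = v := Option.some.inj h
      have := step_of 3 (by decide) ![n.unpair.1, n.unpair.2, κ, 0, 0]
      simp only [rules, List.getElem_cons_succ, List.getElem_cons_zero, Matrix.cons_val] at this
      rw [Nat.pair_unpair] at this
      exact Relation.ReflTransGen.single this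
    | pair cf cg hf hg =>
      intro n v h κ
      rw [evaln] at h
      simp only [Option.mem_def, Option.bind_eq_bind, Option.bind_eq_some_iff] at h
      obtain ⟨_, _, h⟩ := h
      simp only [Seq.seq, Option.bind_eq_some_iff, Option.map_eq_map, Option.map_eq_some_iff] at h
      obtain ⟨_, ⟨v1, hv1, rfl⟩, w, hw, rfl⟩ := h
      have s1 := step_of 4 (by decide) ![encode cf, encode cg, n, κ, 0]
      have s2 := hf n v1 hv1 (kA (encode cg) n κ)
      have s3 := step_of 5 (by decide) ![v1, encode cg, n, κ, 0]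
      have s4 := hg n w hw (kB v1 κ)
      have s5 := step_of 6 (by decide) ![w, v1, κ, 0, 0]
      exact (((Relation.ReflTransGen.single s1).trans s2).tail s3).trans (s4.tail s5)
    | comp cf cg hf hg =>
      intro n v h κ
      rw [evaln] at h
      simp only [Option.mem_def, Option.bind_eq_bind, Option.bind_eq_some_iff] at h
      obtain ⟨_, _, w, hw, h⟩ := h
      have s1 := step_of 7 (by decide) ![encode cf, encode cg, n, κ, 0]
      have s2 := hg n w hw (kC (encode cf) κ)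
      have s3 := step_of 8 (by decide) ![w, encode cf, κ, 0, 0]
      have s4 := hf w v h κ
      exact (((Relation.ReflTransGen.single s1).trans s2).tail s3).trans s4
    | prec cf cg hf hg =>
      intro n v h κ
      obtain ⟨a, m, rfl⟩ : ∃ a m, n = Nat.pair a m := ⟨_, _, (Nat.pair_unpair n).symm⟩
      rw [evaln] at h
      simp only [Option.mem_def, Option.bind_eq_bind, Option.bind_eq_some_iff] at h
      obtain ⟨_, _, h⟩ := h
      simp only [Nat.unpaired, Nat.unpair_pair] at h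
      cases m with
      | zero =>
        have s1 : Step (cEv (nPrec (encode cf) (encode cg)) (Nat.pair a 0) κ)
            (cEv (encode cf) a κ) := by
          simpa [rules] using step_of 9 (by decide) ![encode cf, encode cg, a, κ, 0]
        rw [enc_prec]
        exact (Relation.ReflTransGen.single s1).trans (hf a v h κ)
      | succ m =>
        simp only [Option.bind_eq_some_iff] at h
        obtain ⟨w, hw, h⟩ := h
        have s1 : Step (cEv (nPrec (encode cf) (encode cg)) (Nat.pair a (m + 1)) κ)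
            (cEv (nPrec (encode cf) (encode cg)) (Nat.pair a m) (kD (encode cg) a m κ)) := by
          simpa [rules] using step_of 10 (by decide) ![encode cf, encode cg, a, m, κ]
        have s2 := ihs (Code.prec cf cg) (Nat.pair a m) w hw (kD (encode cg) a m κ)
        have s3 : Step (cRet w (kD (encode cg) a m κ))
            (cEv (encode cg) (Nat.pair a (Nat.pair m w)) κ) := by
          simpa [rules] using step_of 11 (by decide) ![w, encode cg, a, m, κ]
        have s4 := hg _ v h κ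
        rw [enc_prec] at s2 ⊢
        exact (((Relation.ReflTransGen.single s1).trans s2).tail s3).trans s4
    | rfind' cf hf =>
      intro n v h κ
      obtain ⟨a, m, rfl⟩ : ∃ a m, n = Nat.pair a m := ⟨_, _, (Nat.pair_unpair n).symm⟩
      rw [evaln] at h
      simp only [Option.mem_def, Option.bind_eq_bind, Option.bind_eq_some_iff] at h
      obtain ⟨_, _, h⟩ := h
      simp only [Nat.unpaired, Nat.unpair_pair, Option.bind_eq_some_iff] at h
      obtain ⟨w, hw, h⟩ := h
      have s1 : Step (cEv (nRfind (encode cf)) (Nat.pair a m) κ)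
          (cEv (encode cf) (Nat.pair a m) (kE (encode cf) a m κ)) := by
        simpa [rules] using step_of 12 (by decide) ![encode cf, a, m, κ, 0]
      have s2 := hf _ w hw (kE (encode cf) a m κ)
      by_cases hw0 : w = 0
      · subst hw0
        rw [if_pos rfl] at h
        obtain rfl : m = v := Option.some.inj h
        have s3 : Step (cRet 0 (kE (encode cf) a m κ)) (cRet m κ) := by
          simpa [rules] using step_of 13 (by decide) ![encode cf, a, m, κ, 0]
        rw [enc_rfind]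
        exact ((Relation.ReflTransGen.single s1).trans s2).tail s3
      · rw [if_neg hw0] at h
        obtain ⟨w, rfl⟩ := Nat.exists_eq_succ_of_ne_zero hw0
        have s3 : Step (cRet (w + 1) (kE (encode cf) a m κ))
            (cEv (nRfind (encode cf)) (Nat.pair a (m + 1)) κ) := by
          simpa [rules] using step_of 14 (by decide) ![encode cf, a, m, κ, w]
        have s4 := ihs (Code.rfind' cf) _ v h κ
        rw [enc_rfind] at s4 ⊢
        exact (((Relation.ReflTransGen.single s1).trans s2).tail s3).trans s4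

/-- The initial configuration for code number `c`. -/
def initCfg (c : ℕ) : ℕ := cEv c 0 kHalt

theorem step_done (v : ℕ) : Step (cRet v kHalt) 0 := by
  have := step_of 15 (by decide) ![v, 0, 0, 0, 0]
  simpa [rules] using this

theorem halts_iff (c : Code) :
    (c.eval 0).Dom ↔ Relation.ReflTransGen Step (initCfg (encode c)) 0 := by
  constructor
  · intro h
    obtain ⟨v, hv⟩ := Part.dom_iff_mem.1 h
    obtain ⟨s, hs⟩ := evaln_complete.1 hv
    exact Relation.ReflTransGen.tail (reach_complete s c 0 v hs kHalt) (step_done v)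
  · intro h
    have e : (Cfg.ev c 0 .fHalt).enc = initCfg (encode c) := by
      simp only [Cfg.enc, Kont.enc, initCfg]
    obtain ⟨C', hC', h1⟩ := reach_sound h (.ev c 0 .fHalt) e
    obtain ⟨v, hv, -⟩ := h1 (done_term hC')
    exact Part.dom_iff_mem.2 ⟨v, hv⟩

/-! ### the step relation is Diophantine -/

open Dioph

theorem pair_dioph {α : Type} {f g : (α → ℕ) → ℕ} (df : DiophFn f) (dg : DiophFn g) :
    DiophFn fun v => Nat.pair (f v) (g v) := by
  have df' : DiophFn (fun v : Option α → ℕ => f (v ∘ some)) := reindex_diophFn some df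
  have dg' : DiophFn (fun v : Option α → ℕ => g (v ∘ some)) := reindex_diophFn some dg
  have dz : DiophFn (fun v : Option α → ℕ => v none) := proj_dioph none
  refine Dioph.ext (Dioph.union
    (Dioph.inter (lt_dioph df' dg') (eq_dioph (add_dioph (mul_dioph dg' dg') df') dz))
    (Dioph.inter (le_dioph dg' df')
      (eq_dioph (add_dioph (add_dioph (mul_dioph df' df') df') dg') dz))) ?_
  intro v
  simp only [Set.mem_union, Set.mem_inter_iff, Set.mem_setOf_eq, Nat.pair]
  split_ifs with h <;> omega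

theorem pair_dioph' {α : Type} {f g : (α → ℕ) → ℕ} (df : DiophFn f) (dg : DiophFn g) :
    DiophFn fun v => 2 * (2 * Nat.pair (f v) (g v)) + 4 :=
  add_dioph (mul_dioph (const_dioph 2) (mul_dioph (const_dioph 2) (pair_dioph df dg)))
    (const_dioph 4)

theorem step_dioph : Dioph {v : Fin 2 → ℕ | Step (v 0) (v 1)} := by
  have key : ∀ r ∈ rules, Dioph {v : Fin 2 → ℕ | ∃ x : Fin 5 → ℕ, v 0 = r.1 x ∧ v 1 = r.2 x} := by
    have aux : ∀ F G : (Fin 5 → ℕ) → ℕ, DiophFn F → DiophFn G →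
        Dioph {v : Fin 2 → ℕ | ∃ x : Fin 5 → ℕ, v 0 = F x ∧ v 1 = G x} := by
      intro F G hF hG
      have h1 : DiophFn (fun v : Fin 2 ⊕ Fin 5 → ℕ => F (v ∘ Sum.inr)) := reindex_diophFn _ hF
      have h2 : DiophFn (fun v : Fin 2 ⊕ Fin 5 → ℕ => G (v ∘ Sum.inr)) := reindex_diophFn _ hG
      refine Dioph.ext (ex_dioph (Dioph.inter (eq_dioph (proj_dioph (Sum.inl 0)) h1)
        (eq_dioph (proj_dioph (Sum.inl 1)) h2))) ?_
      intro v
      rfl
    intro r hr
    have P : ∀ i : Fin 5, DiophFn (fun x : Fin 5 → ℕ => x i) := fun i => proj_dioph i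
    have C : ∀ n : ℕ, DiophFn (fun _ : Fin 5 → ℕ => n) := fun n => const_dioph n
    simp only [rules, List.mem_cons, List.not_mem_nil, or_false] at hr
    rcases hr with rfl | rfl | rfl | rfl | rfl | rfl | rfl | rfl | rfl | rfl | rfl | rfl | rfl |
      rfl | rfl | rfl <;> apply aux <;>
      simp only [cEv, cRet, kA, kB, kC, kD, kE, kHalt, nPair, nComp, nPrec, nRfind]
    all_goals
      repeat' first
        | with_reducible exact P _
        | with_reducible exact C _
        | with_reducible apply pair_dioph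
        | with_reducible apply add_dioph
        | with_reducible apply mul_dioph
  have : ∀ l : List (((Fin 5 → ℕ) → ℕ) × ((Fin 5 → ℕ) → ℕ)),
      (∀ r ∈ l, Dioph {v : Fin 2 → ℕ | ∃ x : Fin 5 → ℕ, v 0 = r.1 x ∧ v 1 = r.2 x}) →
      Dioph {v : Fin 2 → ℕ | ∃ r ∈ l, ∃ x : Fin 5 → ℕ, v 0 = r.1 x ∧ v 1 = r.2 x} := by
    intro l
    induction l with
    | nil =>
      intro _
      exact Dioph.of_no_dummies _ (Poly.const 1) (fun v => by simp)
    | cons r l ih =>
      intro h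
      refine Dioph.ext (Dioph.union (h r (by simp)) (ih fun r' hr' => h r' (by simp [hr']))) ?_
      intro v
      simp
  exact this rules key

end Pool.Agent.Lib80
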