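import Mathlib
import Pool.Agent.Lib_helper80.Machine

/-!
Diophantine relations written with a polynomial given by its coefficients on the monomials
`∏ i, x (κ i)`, `κ : ι → Option γ`, where `x none = 1`.
-/

namespace Pool.Agent.Lib80

open scoped BigOperators

/-- `f` is given on `ι`-monomials by the coefficients `c`. -/
def RepOn {γ : Type} [Fintype γ] (ι : Type) [Fintype ι] [DecidableEq ι]
    (c : (ι → Option γ) → ℤ) (f : (γ → ℕ) → ℤ) : Prop :=
  ∀ u : γ → ℕ, f u = ∑ κ : ι → Option γ, c κ * ∏ i, ((κ i).elim 1 fun j => (u j : ℤ))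

theorem sum_prod_sum {R : Type} [CommRing R] {X : Type} [Fintype X] [DecidableEq X]
    {ι ι' : Type} [Fintype ι] [DecidableEq ι] [Fintype ι'] [DecidableEq ι']
    (a : (ι → X) → R) (b : (ι' → X) → R) (v : X → R) :
    ∑ κ : ι ⊕ ι' → X, (a (κ ∘ Sum.inl) * b (κ ∘ Sum.inr)) * ∏ i, v (κ i) =
      (∑ κ : ι → X, a κ * ∏ i, v (κ i)) * (∑ κ : ι' → X, b κ * ∏ i, v (κ i)) := by
  rw [Finset.sum_mul_sum, ← Fintype.sum_prod_type']
  refine Fintype.sum_equiv (Equiv.sumArrowEquivProdArrow ι ι' X) _ _ ?_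
  intro κ
  simp only [Fintype.prod_sum_type, Equiv.sumArrowEquivProdArrow, Equiv.coe_fn_mk,
    Function.comp_apply]
  ring

theorem RepOn.mul {γ : Type} [Fintype γ] [DecidableEq γ] {ι ι' : Type} [Fintype ι]
    [DecidableEq ι] [Fintype ι'] [DecidableEq ι']
    {c : (ι → Option γ) → ℤ} {c' : (ι' → Option γ) → ℤ} {f g : (γ → ℕ) → ℤ}
    (hf : RepOn ι c f) (hg : RepOn ι' c' g) :
    RepOn (ι ⊕ ι') (fun κ => c (κ ∘ Sum.inl) * c' (κ ∘ Sum.inr)) (fun u => f u * g u) := by
  intro u
  show f u * g u = _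
  rw [hf u, hg u, ← sum_prod_sum c c' fun o => o.elim 1 fun j => (u j : ℤ)]

theorem RepOn.one {γ : Type} [Fintype γ] [DecidableEq γ] (ι : Type) [Fintype ι]
    [DecidableEq ι] (n : ℤ) :
    RepOn (γ := γ) ι (fun κ => if κ = fun _ => none then n else 0) (fun _ => n) := by
  intro u
  simp [Finset.sum_ite_eq', ite_mul]

theorem RepOn.padr {γ : Type} [Fintype γ] [DecidableEq γ] {ι : Type} (ι' : Type) [Fintype ι]
    [DecidableEq ι] [Fintype ι'] [DecidableEq ι']
    {c : (ι → Option γ) → ℤ} {f : (γ → ℕ) → ℤ} (hf : RepOn ι c f) :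
    ∃ c', RepOn (ι ⊕ ι') c' f := by
  refine ⟨fun κ => c (κ ∘ Sum.inl) * (fun κ => if κ = fun _ => none then 1 else 0) (κ ∘ Sum.inr),
    fun u => ?_⟩
  have := (hf.mul (RepOn.one ι' 1)) u
  simp only [mul_one] at this
  exact this

theorem RepOn.padl {γ : Type} [Fintype γ] [DecidableEq γ] {ι : Type} (ι' : Type) [Fintype ι]
    [DecidableEq ι] [Fintype ι'] [DecidableEq ι']
    {c : (ι → Option γ) → ℤ} {f : (γ → ℕ) → ℤ} (hf : RepOn ι c f) :
    ∃ c', RepOn (ι' ⊕ ι) c' f := by
  refine ⟨fun κ => (fun κ => if κ = fun _ => none then 1 else 0) (κ ∘ Sum.inl) * c (κ ∘ Sum.inr),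
    fun u => ?_⟩
  have := ((RepOn.one ι' 1).mul hf) u
  simp only [one_mul] at this
  exact this

theorem rep_of_isPoly {γ : Type} [Fintype γ] [DecidableEq γ] {f : (γ → ℕ) → ℤ} (hf : IsPoly f) :
    ∃ (ι : Type) (_ : Fintype ι) (_ : DecidableEq ι) (c : (ι → Option γ) → ℤ), RepOn ι c f := by
  induction hf with
  | proj i =>
    refine ⟨Unit, inferInstance, inferInstance, fun κ => if κ () = some i then 1 else 0, ?_⟩
    intro u
    rw [Finset.sum_eq_single (fun _ => some i)]
    · simp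
    · intro κ _ hκ
      simp only
      rw [if_neg, zero_mul]
      intro h
      exact hκ (funext fun j => h)
    · simp
  | const n =>
    exact ⟨Empty, inferInstance, inferInstance, _, RepOn.one Empty n⟩
  | @sub f g _ _ hf hg =>
    obtain ⟨ι, i1, i2, c, hc⟩ := hf
    obtain ⟨ι', i1', i2', c', hc'⟩ := hg
    obtain ⟨d, hd⟩ := hc.padr ι'
    obtain ⟨d', hd'⟩ := hc'.padl ι
    refine ⟨ι ⊕ ι', inferInstance, inferInstance, fun κ => d κ - d' κ, ?_⟩
    intro u
    show f u - g u = _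
    rw [hd u, hd' u, ← Finset.sum_sub_distrib]
    exact Finset.sum_congr rfl fun κ _ => by ring
  | @mul f g _ _ hf hg =>
    obtain ⟨ι, i1, i2, c, hc⟩ := hf
    obtain ⟨ι', i1', i2', c', hc'⟩ := hg
    exact ⟨ι ⊕ ι', inferInstance, inferInstance, _, hc.mul hc'⟩

theorem isPoly_comp {α γ : Type} {f : (α → ℕ) → ℤ} (hf : IsPoly f) (ψ : (γ → ℕ) → (α → ℕ))
    (hψ : ∀ i, IsPoly fun u => (ψ u i : ℤ)) : IsPoly fun u => f (ψ u) := by
  induction hf with
  | proj i => exact hψ i
  | const n => exact IsPoly.const n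
  | sub _ _ h1 h2 => exact h1.sub h2
  | mul _ _ h1 h2 => exact h1.mul h2

theorem isPoly_support {α : Type} {f : (α → ℕ) → ℤ} (hf : IsPoly f) :
    ∃ s : Finset α, ∀ x y : α → ℕ, (∀ i ∈ s, x i = y i) → f x = f y := by
  classical
  induction hf with
  | proj i => exact ⟨{i}, fun x y h => by simp [h i (by simp)]⟩
  | const n => exact ⟨∅, fun x y h => rfl⟩
  | sub _ _ h1 h2 =>
    obtain ⟨s, hs⟩ := h1
    obtain ⟨t, ht⟩ := h2
    refine ⟨s ∪ t, fun x y h => ?_⟩
    simp only
    rw [hs x y fun i hi => h i (by simp [hi]), ht x y fun i hi => h i (by simp [hi])]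
  | mul _ _ h1 h2 =>
    obtain ⟨s, hs⟩ := h1
    obtain ⟨t, ht⟩ := h2
    refine ⟨s ∪ t, fun x y h => ?_⟩
    simp only
    rw [hs x y fun i hi => h i (by simp [hi]), ht x y fun i hi => h i (by simp [hi])]

/-- the value of the variables: `none` is the constant `1`, `some none` the current
configuration, `some (some j)` the auxiliary register `j` -/
def vv (R : Type) [NatCast R] [One R] {σ : Type} (m : ℕ) (y : σ → ℕ) : Option (Option σ) → R
  | none => 1
  | some none => (m : R)
  | some (some j) => (y j : R)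

/-- the value of the polynomial with coefficients `c` -/
def evl {σ ι : Type} [Fintype σ] [Fintype ι] [DecidableEq ι]
    (c : (ι → Option (Option σ)) → ℤ) (m : ℕ) (y : σ → ℕ) : ℤ :=
  ∑ κ : ι → Option (Option σ), c κ * ∏ i, vv ℤ m y (κ i)

theorem RepOn.evl {σ ι : Type} [Fintype σ] [Fintype ι] [DecidableEq ι]
    {c : (ι → Option (Option σ)) → ℤ} {f : (Option σ → ℕ) → ℤ} (h : RepOn ι c f)
    (m : ℕ) (y : σ → ℕ) : Lib80.evl c m y = f (fun o => o.elim m y) := by
  rw [h, Lib80.evl]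
  refine Finset.sum_congr rfl fun κ _ => ?_
  congr 1
  refine Finset.prod_congr rfl fun i _ => ?_
  rcases κ i with _ | _ | j <;> simp [vv]

/-- The step relation of the machine, as a nonnegative polynomial given by coefficients. -/
theorem poly_system : ∃ (σ : Type) (_ : Fintype σ) (_ : DecidableEq σ) (nxt : σ)
    (ι : Type) (_ : Fintype ι) (_ : DecidableEq ι) (p q : (ι → Option (Option σ)) → ℤ),
    (∀ m y, 0 ≤ evl p m y) ∧ (∀ m y, evl q m y = (m : ℤ) ^ 2) ∧
    ∀ m m', Step m m' ↔ ∃ y : σ → ℕ, y nxt = m' ∧ evl p m y = 0 := by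
  classical
  obtain ⟨β, p, hp⟩ := step_dioph
  obtain ⟨s, hs⟩ := isPoly_support p.2
  -- the auxiliary variables in the support
  let b : Set β := {b | Sum.inr b ∈ s}
  have hb : b.Finite := by
    refine Set.Finite.subset (s.finite_toSet.preimage (Sum.inr_injective.injOn)) ?_
    intro x hx
    exact hx
  haveI : Fintype b := hb.fintype
  let σ := Option b
  let ψ : (Option σ → ℕ) → (Fin 2 ⊕ β → ℕ) := fun u =>
    Sum.elim ![u none, u (some none)] fun x => if h : x ∈ b then u (some (some ⟨x, h⟩)) else 0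
  have hψ : ∀ i, IsPoly fun u => (ψ u i : ℤ) := by
    rintro (i | x)
    · fin_cases i
      · exact IsPoly.proj (α := Option σ) none
      · exact IsPoly.proj (α := Option σ) (some none)
    · by_cases h : x ∈ b
      · simpa [ψ, h] using IsPoly.proj (α := Option σ) (some (some ⟨x, h⟩))
      · simpa [ψ, h] using IsPoly.const (α := Option σ) 0
  have hpoly : IsPoly fun u => p (ψ u) := isPoly_comp p.2 ψ hψ
  obtain ⟨ι, i1, i2, c, hc⟩ := rep_of_isPoly (hpoly.mul hpoly)
  have hsq : IsPoly (α := Option σ) fun u => (u none : ℤ) * u none :=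
    (IsPoly.proj none).mul (IsPoly.proj none)
  obtain ⟨ι', i1', i2', c', hc'⟩ := rep_of_isPoly hsq
  obtain ⟨d, hd⟩ := hc.padr ι'
  obtain ⟨d', hd'⟩ := hc'.padl ι
  refine ⟨σ, inferInstance, inferInstance, none, ι ⊕ ι', inferInstance, inferInstance, d, d',
    ?_, ?_, ?_⟩
  · intro m y
    rw [hd.evl]
    exact mul_self_nonneg _
  · intro m y
    rw [hd'.evl]
    simp [pow_two]
  · intro m m'
    have h0 : Step m m' ↔ ∃ t, p (Sum.elim ![m, m'] t) = 0 := by
      have := hp ![m, m']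
      simpa using this
    rw [h0]
    constructor
    · rintro ⟨t, ht⟩
      refine ⟨fun o => o.elim m' fun x => t x, rfl, ?_⟩
      rw [hd.evl]
      have e : p (ψ fun o => o.elim m fun o => o.elim m' fun x => t x) =
          p (Sum.elim ![m, m'] t) := by
        apply hs
        rintro (i | x) hi
        · fin_cases i <;> simp [ψ]
        · have hx : x ∈ b := hi
          simp [ψ, hx]
      show p _ * p _ = 0
      rw [e, ht, mul_zero]
    · rintro ⟨y, rfl, hy⟩
      rw [hd.evl] at hy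
      have h1 : p (ψ fun o => o.elim m y) = 0 := mul_self_eq_zero.1 hy
      refine ⟨fun x => if h : x ∈ b then y (some ⟨x, h⟩) else 0, ?_⟩
      rw [← h1]
      apply hs
      rintro (i | x) hi
      · fin_cases i <;> simp [ψ]
      · simp [ψ]

end Pool.Agent.Lib80
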