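import Mathlib
import Pool.Agent.Lib_helper80.PolyRep
import Pool.Agent.Lib_helper80.Growth

/-!
The concrete matrices attached to a step relation given by a nonnegative polynomial.
-/

namespace Pool.Agent.Lib80

open Pool.Agent.VertexGrowth
open scoped BigOperators

section

variable {σ ι : Type} [Fintype σ] [DecidableEq σ] [Fintype ι] [DecidableEq ι]

/-- the action of a letter on the variables `1`, current, auxiliary registers -/
def bmat (nxt : σ) : Option σ → Option (Option σ) → Option (Option σ) → ℚ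
  | none, none, none => 1
  | none, some none, b => if b = some (some nxt) then 1 else 0
  | none, _, _ => 0
  | some j, a, b => (if a = b then 1 else 0) + (if a = some (some j) ∧ b = none then 1 else 0)

/-- the effect of a letter on the registers -/
def next (nxt : σ) : Option σ → ℕ × (σ → ℕ) → ℕ × (σ → ℕ)
  | none, r => (r.2 nxt, 0)
  | some j, r => (r.1, r.2 + Pi.single j 1)

theorem bmat_nonneg (nxt : σ) (l : Option σ) (a b : Option (Option σ)) : 0 ≤ bmat nxt l a b := by
  rcases l with _ | j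
  · rcases a with _ | _ | a
    · rcases b with _ | b <;> simp [bmat]
    · simp only [bmat]; split_ifs <;> norm_num
    · simp [bmat]
  · simp only [bmat]; positivity

theorem bmat_row (nxt : σ) (l : Option σ) (a : Option (Option σ)) :
    ∑ b, bmat nxt l a b ≤ 2 := by
  rcases l with _ | j
  · rcases a with _ | _ | a
    · rw [Fintype.sum_option]
      simp [bmat]
    · simp [bmat]
    · simp [bmat]
  · simp only [bmat, Finset.sum_add_distrib]
    have h1 : ∑ b : Option (Option σ), (if a = b then (1 : ℚ) else 0) = 1 := by simp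
    have h2 : ∑ b : Option (Option σ), (if a = some (some j) ∧ b = none then (1 : ℚ) else 0) ≤ 1 := by
      by_cases h : a = some (some j)
      · simp [h]
      · simp [h]
    linarith

theorem bmat_vv (nxt : σ) (l : Option σ) (r : ℕ × (σ → ℕ)) (a : Option (Option σ)) :
    ∑ b, (bmat nxt l a b : ℝ) * vv ℝ r.1 r.2 b = vv ℝ (next nxt l r).1 (next nxt l r).2 a := by
  rcases l with _ | j
  · rcases a with _ | _ | a
    · rw [Fintype.sum_option]
      simp [bmat, vv]
    · rw [Finset.sum_eq_single (some (some nxt))]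
      · simp [bmat, vv, next]
      · intro b _ hb
        simp [bmat, hb]
      · simp
    · simp [bmat, vv, next]
  · simp only [bmat, Rat.cast_add, add_mul, Finset.sum_add_distrib]
    have h1 : ∑ b : Option (Option σ), (((if a = b then (1 : ℚ) else 0) : ℚ) : ℝ) *
        vv ℝ r.1 r.2 b = vv ℝ r.1 r.2 a := by
      rw [Finset.sum_eq_single a]
      · simp
      · intro b _ hb
        simp [hb.symm]
      · simp
    rw [h1]
    rcases a with _ | _ | a
    · simp [vv]
    · simp [vv, next]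
    · by_cases h : a = j
      · subst h
        rw [Finset.sum_eq_single none]
        · simp [vv, next]
        · intro b _ hb
          simp [hb]
        · simp
      · simp [vv, next, h]

/-- index type of the concrete system -/
abbrev Idx (σ ι : Type) := Fin 4 ⊕ (ι → Option (Option σ))

/-- parameters -/
noncomputable def theta (ι : Type) [Fintype ι] : ℚ := 1 / 2 ^ (Fintype.card ι + 1)

noncomputable def kap (p q : (ι → Option (Option σ)) → ℤ) : ℚ :=
  1 / (2 * (1 + ∑ κ, |(p κ : ℚ)| + ∑ κ, |(q κ : ℚ)|))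

theorem theta_pos : 0 < theta ι := by unfold theta; positivity

theorem theta_le : theta ι ≤ 1 := by
  unfold theta
  rw [div_le_one (by positivity)]
  exact one_le_pow₀ (by norm_num)

theorem kap_pos (p q : (ι → Option (Option σ)) → ℤ) : 0 < kap p q := by
  unfold kap
  positivity

theorem kap_le (p q : (ι → Option (Option σ)) → ℤ) :
    kap p q * (1 + ∑ κ, |(p κ : ℚ)| + ∑ κ, |(q κ : ℚ)|) = 1 / 2 := by
  unfold kap
  have : 0 < 1 + ∑ κ, |(p κ : ℚ)| + ∑ κ, |(q κ : ℚ)| := by positivity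
  field_simp

theorem kap_le_real (p q : (ι → Option (Option σ)) → ℤ) :
    (kap p q : ℝ) * (1 + ∑ κ, |(p κ : ℝ)| + ∑ κ, |(q κ : ℝ)|) = 1 / 2 := by
  have h := congrArg (fun r : ℚ => (r : ℝ)) (kap_le p q)
  simp only [Rat.cast_mul, Rat.cast_add, Rat.cast_one, Rat.cast_sum, Rat.cast_abs,
    Rat.cast_intCast, Rat.cast_div, Rat.cast_ofNat] at h
  exact h

/-- the matrices of the letters -/
noncomputable def tmat (nxt : σ) (p q : (ι → Option (Option σ)) → ℤ) (l : Option σ × Bool) :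
    Matrix (Idx σ ι) (Idx σ ι) ℚ
  | .inl i, .inl j =>
      (!![1, 0, 0, 0;
        (if l.2 then 1 / 2 else 0), 1 / 2, 0, 0;
        (if l.2 then 1 / 4 else 0), (if l.2 then 1 / 2 else 0), 1 / 4, 0;
        0, 0, 0, 1] : Matrix (Fin 4) (Fin 4) ℚ) i j
  | .inl i, .inr κ => if i = 3 ∧ l.1 = none then kap p q * p κ else 0
  | .inr _, .inl _ => 0
  | .inr κ, .inr μ => theta ι * ∏ i, bmat nxt l.1 (κ i) (μ i)

/-- the real matrices -/
noncomputable def treal (nxt : σ) (p q : (ι → Option (Option σ)) → ℤ) (l : Option σ × Bool) :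
    Matrix (Idx σ ι) (Idx σ ι) ℝ :=
  (tmat nxt p q l).map (fun r : ℚ => (r : ℝ))

theorem treal_inl (nxt : σ) (p q : (ι → Option (Option σ)) → ℤ) (l : Option σ × Bool)
    (x : Idx σ ι → ℝ) :
    (treal nxt p q l).mulVec x (.inl 0) = x (.inl 0) ∧
    (treal nxt p q l).mulVec x (.inl 1) =
      (if l.2 then 1 / 2 else 0) * x (.inl 0) + 1 / 2 * x (.inl 1) ∧
    (treal nxt p q l).mulVec x (.inl 2) =
      (if l.2 then 1 / 4 else 0) * x (.inl 0) + (if l.2 then 1 / 2 else 0) * x (.inl 1) +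
        1 / 4 * x (.inl 2) ∧
    (treal nxt p q l).mulVec x (.inl 3) = x (.inl 3) +
      (if l.1 = none then (kap p q : ℝ) else 0) * ∑ κ, (p κ : ℝ) * x (.inr κ) := by
  refine ⟨?_, ?_, ?_, ?_⟩
  · simp [Matrix.mulVec, dotProduct, treal, tmat, Fin.sum_univ_four]
  · obtain ⟨l1, l2⟩ := l
    cases l2 <;> simp [Matrix.mulVec, dotProduct, treal, tmat, Fin.sum_univ_four]
  · obtain ⟨l1, l2⟩ := l
    cases l2 <;> simp [Matrix.mulVec, dotProduct, treal, tmat, Fin.sum_univ_four]
  · by_cases h : l.1 = none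
    · simp [Matrix.mulVec, dotProduct, treal, tmat, Fin.sum_univ_four, h, Finset.mul_sum,
        mul_assoc]
    · simp [Matrix.mulVec, dotProduct, treal, tmat, Fin.sum_univ_four, h]

theorem treal_inr (nxt : σ) (p q : (ι → Option (Option σ)) → ℤ) (l : Option σ × Bool)
    (x : Idx σ ι → ℝ) (κ : ι → Option (Option σ)) :
    (treal nxt p q l).mulVec x (.inr κ) =
      ∑ μ : ι → Option (Option σ), (theta ι : ℝ) * (∏ i, (bmat nxt l.1 (κ i) (μ i) : ℝ)) *
        x (.inr μ) := by
  simp [Matrix.mulVec, dotProduct, treal, tmat]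

theorem sum_bmat_le (nxt : σ) (l : Option σ) (κ : ι → Option (Option σ)) :
    ∑ μ : ι → Option (Option σ), (theta ι : ℝ) * (∏ i, (bmat nxt l (κ i) (μ i) : ℝ)) ≤ 1 / 2 := by
  rw [← Finset.mul_sum]
  have h1 : ∑ μ : ι → Option (Option σ), (∏ i, (bmat nxt l (κ i) (μ i) : ℝ)) =
      ∏ i, ∑ b, (bmat nxt l (κ i) b : ℝ) := by
    rw [Finset.prod_univ_sum, Fintype.piFinset_univ]
  rw [h1]
  have h2 : ∏ i : ι, ∑ b, (bmat nxt l (κ i) b : ℝ) ≤ ∏ _i : ι, (2 : ℝ) := by
    refine Finset.prod_le_prod (fun i _ => Finset.sum_nonneg fun b _ => ?_) (fun i _ => ?_)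
    · exact_mod_cast bmat_nonneg nxt l (κ i) b
    · exact_mod_cast bmat_row nxt l (κ i)
  rw [Finset.prod_const, Finset.card_univ] at h2
  have h3 : (theta ι : ℝ) = 1 / 2 ^ (Fintype.card ι + 1) := by simp [theta]
  calc (theta ι : ℝ) * ∏ i, ∑ b, (bmat nxt l (κ i) b : ℝ)
      ≤ (theta ι : ℝ) * 2 ^ Fintype.card ι :=
        mul_le_mul_of_nonneg_left h2 (by exact_mod_cast theta_pos.le)
    _ = 1 / 2 := by rw [h3, pow_succ]; field_simp

theorem evolve_bound (nxt : σ) (p q : (ι → Option (Option σ)) → ℤ)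
    (x : Idx σ ι → ℝ) (M A R : ℝ) (hM : 0 ≤ M) (h1 : ∀ κ, |x (.inr κ)| ≤ M)
    (h2 : |x (.inl 3)| ≤ A) (h3 : |x (.inl 0)| ≤ R ∧ |x (.inl 1)| ≤ R ∧ |x (.inl 2)| ≤ R)
    (w : List (Option σ × Bool)) :
    (∃ M', 0 ≤ M' ∧ M' ≤ M ∧ (∀ κ, |evolve (treal nxt p q) w x (.inr κ)| ≤ M') ∧
      |evolve (treal nxt p q) w x (.inl 3)| + M' ≤ A + M) ∧
    |evolve (treal nxt p q) w x (.inl 0)| ≤ R ∧ |evolve (treal nxt p q) w x (.inl 1)| ≤ R ∧
      |evolve (treal nxt p q) w x (.inl 2)| ≤ R := by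
  induction w with
  | nil => exact ⟨⟨M, hM, le_rfl, h1, by simp only [evolve]; linarith⟩, h3⟩
  | cons l w ih =>
    obtain ⟨⟨M', hM'0, hM', ih1, ih2⟩, ih3, ih4, ih5⟩ := ih
    simp only [evolve]
    set y := evolve (treal nxt p q) w x with hy
    obtain ⟨e0, e1, e2, e3⟩ := treal_inl nxt p q l y
    refine ⟨⟨M' / 2, by positivity, by linarith, ?_, ?_⟩, ?_, ?_, ?_⟩
    · intro κ
      rw [treal_inr]
      calc |∑ μ : ι → Option (Option σ), (theta ι : ℝ) *
            (∏ i, (bmat nxt l.1 (κ i) (μ i) : ℝ)) * y (.inr μ)|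
          ≤ ∑ μ : ι → Option (Option σ), (theta ι : ℝ) *
            (∏ i, (bmat nxt l.1 (κ i) (μ i) : ℝ)) * M' := by
            refine (Finset.abs_sum_le_sum_abs _ _).trans (Finset.sum_le_sum fun μ _ => ?_)
            have h0 : 0 ≤ (theta ι : ℝ) * (∏ i, (bmat nxt l.1 (κ i) (μ i) : ℝ)) := by
              refine mul_nonneg (by exact_mod_cast theta_pos.le) (Finset.prod_nonneg fun i _ => ?_)
              exact_mod_cast bmat_nonneg nxt l.1 (κ i) (μ i)
            rw [abs_mul, abs_of_nonneg h0]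
            exact mul_le_mul_of_nonneg_left (ih1 μ) h0
        _ ≤ 1 / 2 * M' := by
            rw [← Finset.sum_mul]
            exact mul_le_mul_of_nonneg_right (sum_bmat_le nxt l.1 κ) hM'0
        _ = M' / 2 := by ring
    · rw [e3]
      have hk : |(if l.1 = none then (kap p q : ℝ) else 0) * ∑ κ, (p κ : ℝ) * y (.inr κ)| ≤
          M' / 2 := by
        have hs : |∑ κ, (p κ : ℝ) * y (.inr κ)| ≤ (∑ κ, |(p κ : ℝ)|) * M' := by
          rw [Finset.sum_mul]
          refine (Finset.abs_sum_le_sum_abs _ _).trans (Finset.sum_le_sum fun κ _ => ?_)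
          rw [abs_mul]
          exact mul_le_mul_of_nonneg_left (ih1 κ) (abs_nonneg _)
        have hk1 := kap_le_real p q
        have hkp : (0 : ℝ) < kap p q := by exact_mod_cast kap_pos p q
        have hq : 0 ≤ ∑ κ, |(q κ : ℝ)| := Finset.sum_nonneg fun κ _ => abs_nonneg _
        have hp : 0 ≤ ∑ κ, |(p κ : ℝ)| := Finset.sum_nonneg fun κ _ => abs_nonneg _
        have hk2 : (kap p q : ℝ) * ∑ κ, |(p κ : ℝ)| ≤ 1 / 2 := by
          rw [← hk1]
          exact mul_le_mul_of_nonneg_left (by linarith) hkp.le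
        rw [abs_mul]
        split_ifs
        · rw [abs_of_pos hkp]
          calc (kap p q : ℝ) * |∑ κ, (p κ : ℝ) * y (.inr κ)|
              ≤ (kap p q : ℝ) * ((∑ κ, |(p κ : ℝ)|) * M') :=
                mul_le_mul_of_nonneg_left hs hkp.le
            _ = ((kap p q : ℝ) * (∑ κ, |(p κ : ℝ)|)) * M' := by ring
            _ ≤ 1 / 2 * M' := mul_le_mul_of_nonneg_right hk2 hM'0
            _ = M' / 2 := by ring
        · rw [abs_zero, zero_mul]; positivity
      have := abs_add_le (y (.inl 3))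
        ((if l.1 = none then (kap p q : ℝ) else 0) * ∑ κ, (p κ : ℝ) * y (.inr κ))
      linarith
    · rw [e0]; exact ih3
    · rw [e1]
      have a0 := abs_le.1 ih3
      have a1 := abs_le.1 ih4
      rw [abs_le]
      split_ifs <;> constructor <;> linarith [a0.1, a0.2, a1.1, a1.2]
    · rw [e2]
      have a0 := abs_le.1 ih3
      have a1 := abs_le.1 ih4
      have a2 := abs_le.1 ih5
      rw [abs_le]
      split_ifs <;> constructor <;> linarith [a0.1, a0.2, a1.1, a1.2, a2.1, a2.2]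

theorem evolve_norm (nxt : σ) (p q : (ι → Option (Option σ)) → ℤ)
    (w : List (Option σ × Bool)) (x : Idx σ ι → ℝ) :
    ‖evolve (treal nxt p q) w x‖ ≤ 2 * ‖x‖ := by
  have hx : ∀ j, |x j| ≤ ‖x‖ := fun j => norm_le_pi_norm x j
  obtain ⟨⟨M', hM'0, hM', h1, h2⟩, h3, h4, h5⟩ := evolve_bound nxt p q x ‖x‖ ‖x‖ ‖x‖
    (norm_nonneg x) (fun κ => hx _) (hx _) ⟨hx _, hx _, hx _⟩ w
  have h0 := norm_nonneg x
  rw [pi_norm_le_iff_of_nonneg (by positivity)]
  rintro (i | κ)
  · rw [Real.norm_eq_abs]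
    fin_cases i
    · exact h3.trans (by linarith)
    · exact h4.trans (by linarith)
    · exact h5.trans (by linarith)
    · show |evolve (treal nxt p q) w x (.inl 3)| ≤ _
      linarith
  · rw [Real.norm_eq_abs]
    exact (h1 κ).trans (by linarith)

/-! ### The run of a word -/

/-- the registers after a word (latest letter first) -/
def run (nxt : σ) (m₀ : ℕ) : List (Option σ × Bool) → ℕ × (σ → ℕ)
  | [] => (m₀, 0)
  | l :: w => next nxt l.1 (run nxt m₀ w)

/-- the scale of the initial vector -/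
noncomputable def scal (ι : Type) [Fintype ι] (m₀ : ℕ) : ℚ :=
  1 / (4 * ((m₀ : ℚ) + 1) ^ Fintype.card ι)

/-- the initial vector -/
noncomputable def evec (σ ι : Type) [Fintype ι] (m₀ : ℕ) : Idx σ ι → ℚ
  | .inl i => if i = 0 then 1 else 0
  | .inr κ => scal ι m₀ * ∏ i, vv ℚ m₀ (0 : σ → ℕ) (κ i)

noncomputable def ereal (σ ι : Type) [Fintype ι] (m₀ : ℕ) : Idx σ ι → ℝ :=
  fun j => (evec σ ι m₀ j : ℝ)

/-- the functional -/
noncomputable def hvec (p q : (ι → Option (Option σ)) → ℤ) : Idx σ ι → ℚ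
  | .inl i => if i = 0 then 1 else if i = 3 then -1 else 0
  | .inr κ => kap p q * ((if κ = fun _ => none then 1 / 2 else 0) - q κ)

noncomputable def hreal (p q : (ι → Option (Option σ)) → ℤ) : Idx σ ι → ℝ :=
  fun j => (hvec p q j : ℝ)

theorem scal_pos (m₀ : ℕ) : 0 < scal ι m₀ := by unfold scal; positivity

theorem vv_cast (m : ℕ) (y : σ → ℕ) (a : Option (Option σ)) :
    ((vv ℚ m y a : ℚ) : ℝ) = vv ℝ m y a := by
  rcases a with _ | _ | a <;> simp [vv]

theorem vv_int (m : ℕ) (y : σ → ℕ) (a : Option (Option σ)) :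
    ((vv ℤ m y a : ℤ) : ℝ) = vv ℝ m y a := by
  rcases a with _ | _ | a <;> simp [vv]

theorem evl_real (c : (ι → Option (Option σ)) → ℤ) (m : ℕ) (y : σ → ℕ) :
    ∑ κ, (c κ : ℝ) * ∏ i, vv ℝ m y (κ i) = ((evl c m y : ℤ) : ℝ) := by
  simp [evl, vv_int]

theorem ereal_abs (m₀ : ℕ) (κ : ι → Option (Option σ)) :
    |ereal σ ι m₀ (.inr κ)| ≤ 1 / 4 := by
  have h1 : ∀ a : Option (Option σ), 0 ≤ vv ℝ m₀ (0 : σ → ℕ) a ∧
      vv ℝ m₀ (0 : σ → ℕ) a ≤ (m₀ : ℝ) + 1 := by
    intro a
    rcases a with _ | _ | a <;> simp [vv]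
    positivity
  have h2 : 0 ≤ ∏ i, vv ℝ m₀ (0 : σ → ℕ) (κ i) := Finset.prod_nonneg fun i _ => (h1 _).1
  have h3 : ∏ i, vv ℝ m₀ (0 : σ → ℕ) (κ i) ≤ ((m₀ : ℝ) + 1) ^ Fintype.card ι := by
    calc ∏ i, vv ℝ m₀ (0 : σ → ℕ) (κ i) ≤ ∏ _i : ι, ((m₀ : ℝ) + 1) :=
          Finset.prod_le_prod (fun i _ => (h1 _).1) (fun i _ => (h1 _).2)
      _ = _ := by rw [Finset.prod_const, Finset.card_univ]
  have h4 : ereal σ ι m₀ (.inr κ) =
      1 / (4 * ((m₀ : ℝ) + 1) ^ Fintype.card ι) * ∏ i, vv ℝ m₀ (0 : σ → ℕ) (κ i) := by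
    simp [ereal, evec, scal, vv_cast]
  rw [h4, abs_mul, abs_of_nonneg h2, abs_of_pos (by positivity)]
  have h5 : (0 : ℝ) < ((m₀ : ℝ) + 1) ^ Fintype.card ι := by positivity
  rw [one_div_mul_eq_div, div_le_div_iff₀ (by positivity) (by norm_num)]
  linarith

theorem ereal_norm (m₀ : ℕ) : ‖ereal σ ι m₀‖ ≤ 1 := by
  rw [pi_norm_le_iff_of_nonneg zero_le_one]
  rintro (i | κ)
  · by_cases h : i = 0
    · simp [ereal, evec, h]
    · simp [ereal, evec, h]
  · rw [Real.norm_eq_abs]
    exact (ereal_abs m₀ κ).trans (by norm_num)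

/-- the monomial coordinates along a word -/
theorem evolve_inr (nxt : σ) (p q : (ι → Option (Option σ)) → ℤ) (m₀ : ℕ)
    (w : List (Option σ × Bool)) (κ : ι → Option (Option σ)) :
    evolve (treal nxt p q) w (ereal σ ι m₀) (.inr κ) =
      (scal ι m₀ : ℝ) * (theta ι : ℝ) ^ w.length *
        ∏ i, vv ℝ (run nxt m₀ w).1 (run nxt m₀ w).2 (κ i) := by
  induction w generalizing κ with
  | nil => simp [evolve, run, ereal, evec, vv_cast]
  | cons l w ih =>
    simp only [evolve]
    rw [treal_inr]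
    have h1 : ∀ μ : ι → Option (Option σ), (theta ι : ℝ) *
        (∏ i, (bmat nxt l.1 (κ i) (μ i) : ℝ)) * evolve (treal nxt p q) w (ereal σ ι m₀) (.inr μ) =
        (scal ι m₀ : ℝ) * (theta ι : ℝ) ^ (l :: w).length *
        ∏ i, ((bmat nxt l.1 (κ i) (μ i) : ℝ) * vv ℝ (run nxt m₀ w).1 (run nxt m₀ w).2 (μ i)) := by
      intro μ
      rw [ih μ, Finset.prod_mul_distrib, List.length_cons, pow_succ]
      ring
    rw [Finset.sum_congr rfl fun μ _ => h1 μ, ← Finset.mul_sum]
    congr 1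
    have h2 := Finset.prod_univ_sum (fun _ : ι => (Finset.univ : Finset (Option (Option σ))))
      (fun i b => (bmat nxt l.1 (κ i) b : ℝ) * vv ℝ (run nxt m₀ w).1 (run nxt m₀ w).2 b)
    rw [Fintype.piFinset_univ] at h2
    rw [← h2]
    refine Finset.prod_congr rfl fun i _ => ?_
    rw [bmat_vv]
    rfl

theorem evolve_three (nxt : σ) (p q : (ι → Option (Option σ)) → ℤ) (m₀ : ℕ)
    (l : Option σ × Bool) (w : List (Option σ × Bool)) :
    evolve (treal nxt p q) (l :: w) (ereal σ ι m₀) (.inl 3) =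
      evolve (treal nxt p q) w (ereal σ ι m₀) (.inl 3) +
      (if l.1 = none then (kap p q : ℝ) else 0) *
        ((scal ι m₀ : ℝ) * (theta ι : ℝ) ^ w.length *
          ((evl p (run nxt m₀ w).1 (run nxt m₀ w).2 : ℤ) : ℝ)) := by
  simp only [evolve]
  rw [(treal_inl nxt p q l _).2.2.2]
  congr 2
  rw [← evl_real, Finset.mul_sum]
  refine Finset.sum_congr rfl fun κ _ => ?_
  rw [evolve_inr]
  ring

/-- the value of the functional along a word -/
theorem hreal_dot (nxt : σ) (p q : (ι → Option (Option σ)) → ℤ) (m₀ : ℕ)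
    (hq : ∀ m (y : σ → ℕ), evl q m y = (m : ℤ) ^ 2) (w : List (Option σ × Bool)) :
    hreal p q ⬝ᵥ evolve (treal nxt p q) w (ereal σ ι m₀) =
      evolve (treal nxt p q) w (ereal σ ι m₀) (.inl 0) -
      evolve (treal nxt p q) w (ereal σ ι m₀) (.inl 3) -
      (kap p q : ℝ) * ((scal ι m₀ : ℝ) * (theta ι : ℝ) ^ w.length) *
        (((run nxt m₀ w).1 : ℝ) ^ 2 - 1 / 2) := by
  rw [dotProduct, Fintype.sum_sum_type, Fin.sum_univ_four]
  have h1 : ∑ κ : ι → Option (Option σ), hreal p q (.inr κ) *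
      evolve (treal nxt p q) w (ereal σ ι m₀) (.inr κ) =
      (kap p q : ℝ) * ((scal ι m₀ : ℝ) * (theta ι : ℝ) ^ w.length) *
      (∑ κ : ι → Option (Option σ), (if κ = fun _ => none then (1 / 2 : ℝ) else 0) *
        ∏ i, vv ℝ (run nxt m₀ w).1 (run nxt m₀ w).2 (κ i) -
       ∑ κ : ι → Option (Option σ), (q κ : ℝ) *
        ∏ i, vv ℝ (run nxt m₀ w).1 (run nxt m₀ w).2 (κ i)) := by
    rw [← Finset.sum_sub_distrib, Finset.mul_sum]
    refine Finset.sum_congr rfl fun κ _ => ?_
    rw [evolve_inr]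
    by_cases h : κ = fun _ => none
    · simp only [hreal, hvec, h, if_true]
      push_cast
      ring
    · simp only [hreal, hvec, h, if_false]
      push_cast
      ring
  rw [h1, evl_real, hq]
  have h2 : ∑ κ : ι → Option (Option σ), (if κ = fun _ => none then (1 / 2 : ℝ) else 0) *
        ∏ i, vv ℝ (run nxt m₀ w).1 (run nxt m₀ w).2 (κ i) = 1 / 2 := by
    rw [Finset.sum_eq_single fun _ => none]
    · simp [vv]
    · intro κ _ hκ
      simp [hκ]
    · simp
  rw [h2]
  simp [hreal, hvec]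
  ring

/-- the gadget coordinates -/
theorem gadget (nxt : σ) (p q : (ι → Option (Option σ)) → ℤ) (m₀ : ℕ)
    (w : List (Option σ × Bool)) :
    evolve (treal nxt p q) w (ereal σ ι m₀) (.inl 0) = 1 ∧
    0 ≤ evolve (treal nxt p q) w (ereal σ ι m₀) (.inl 1) ∧
    evolve (treal nxt p q) w (ereal σ ι m₀) (.inl 1) ≤ 1 ∧
    evolve (treal nxt p q) w (ereal σ ι m₀) (.inl 2) =
      (evolve (treal nxt p q) w (ereal σ ι m₀) (.inl 1)) ^ 2 := by
  induction w with
  | nil => simp [evolve, ereal, evec]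
  | cons l w ih =>
    obtain ⟨h0, h1, h2, h3⟩ := ih
    simp only [evolve]
    obtain ⟨e0, e1, e2, e3⟩ := treal_inl nxt p q l (evolve (treal nxt p q) w (ereal σ ι m₀))
    rw [e0, e1, e2, h0, h3]
    refine ⟨rfl, ?_, ?_, ?_⟩
    · split_ifs <;> linarith
    · split_ifs <;> linarith
    · split_ifs <;> ring

theorem gadget_word (nxt : σ) (p q : (ι → Option (Option σ)) → ℤ) (m₀ : ℕ) :
    ∀ k j : ℕ, j < 2 ^ k → ∃ w : List (Option σ × Bool), w.length = k ∧
      evolve (treal nxt p q) w (ereal σ ι m₀) (.inl 1) = (j : ℝ) / 2 ^ k := by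
  intro k
  induction k with
  | zero =>
    intro j hj
    refine ⟨[], rfl, ?_⟩
    obtain rfl : j = 0 := by simpa using hj
    simp [evolve, ereal, evec]
  | succ k ih =>
    intro j hj
    by_cases h : j < 2 ^ k
    · obtain ⟨w, hw, h1⟩ := ih j h
      refine ⟨(none, false) :: w, by simp [hw], ?_⟩
      simp only [evolve]
      rw [(treal_inl nxt p q _ _).2.1, h1, pow_succ]
      simp
      ring
    · push Not at h
      obtain ⟨w, hw, h1⟩ := ih (j - 2 ^ k) (by rw [pow_succ] at hj; omega)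
      refine ⟨(none, true) :: w, by simp [hw], ?_⟩
      simp only [evolve]
      rw [(treal_inl nxt p q _ _).2.1, h1, (gadget nxt p q m₀ w).1, pow_succ, Nat.cast_sub h]
      push_cast
      simp
      field_simp
      ring

/-- the accumulated penalty -/
theorem penalty (nxt : σ) (p q : (ι → Option (Option σ)) → ℤ) (m₀ : ℕ)
    (hp : ∀ m (y : σ → ℕ), 0 ≤ evl p m y) (St : ℕ → ℕ → Prop)
    (hSt : ∀ m m', St m m' ↔ ∃ y : σ → ℕ, y nxt = m' ∧ evl p m y = 0)
    (w : List (Option σ × Bool)) :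
    (evolve (treal nxt p q) w (ereal σ ι m₀) (.inl 3) = 0 ∧
      Relation.ReflTransGen St m₀ (run nxt m₀ w).1) ∨
    (kap p q : ℝ) * ((scal ι m₀ : ℝ) * (theta ι : ℝ) ^ w.length) ≤
      evolve (treal nxt p q) w (ereal σ ι m₀) (.inl 3) := by
  have hk : (0 : ℝ) < kap p q := by exact_mod_cast kap_pos p q
  have hs : (0 : ℝ) < scal ι m₀ := by exact_mod_cast scal_pos m₀
  have ht : (0 : ℝ) < theta ι := by exact_mod_cast theta_pos
  have ht1 : (theta ι : ℝ) ≤ 1 := by exact_mod_cast theta_le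
  induction w with
  | nil =>
    left
    exact ⟨by simp [evolve, ereal, evec], Relation.ReflTransGen.refl⟩
  | cons l w ih =>
    have hpow : (kap p q : ℝ) * ((scal ι m₀ : ℝ) * (theta ι : ℝ) ^ (l :: w).length) ≤
        (kap p q : ℝ) * ((scal ι m₀ : ℝ) * (theta ι : ℝ) ^ w.length) := by
      refine mul_le_mul_of_nonneg_left (mul_le_mul_of_nonneg_left ?_ hs.le) hk.le
      rw [List.length_cons, pow_succ]
      exact mul_le_of_le_one_right (by positivity) ht1
    rw [evolve_three]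
    set P := evl p (run nxt m₀ w).1 (run nxt m₀ w).2 with hP
    have hP0 : 0 ≤ P := hp _ _
    have hinc : 0 ≤ (if l.1 = none then (kap p q : ℝ) else 0) *
        ((scal ι m₀ : ℝ) * (theta ι : ℝ) ^ w.length * (P : ℝ)) := by
      have : (0 : ℝ) ≤ P := by exact_mod_cast hP0
      split_ifs <;> positivity
    rcases ih with ⟨h1, h2⟩ | h1
    · rcases l with ⟨_ | j, b⟩
      · simp only [if_true]
        rw [h1, zero_add]
        rcases hP0.eq_or_lt with h3 | h3
        · left
          refine ⟨by rw [← h3]; simp, ?_⟩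
          refine h2.tail ((hSt _ _).2 ⟨(run nxt m₀ w).2, rfl, ?_⟩)
          rw [← hP, ← h3]
        · right
          refine hpow.trans ?_
          have h4 : (1 : ℝ) ≤ P := by exact_mod_cast h3
          refine mul_le_mul_of_nonneg_left ?_ hk.le
          exact le_mul_of_one_le_right (by positivity) h4
      · left
        refine ⟨by simp [h1], h2⟩
    · right
      linarith

/-- words that fill the auxiliary registers -/
theorem fill (nxt : σ) (p q : (ι → Option (Option σ)) → ℤ) (m₀ m : ℕ) (w : List (Option σ × Bool))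
    (hw : run nxt m₀ w = (m, 0)) : ∀ (n : ℕ) (y : σ → ℕ), ∑ j, y j = n →
    ∃ w' : List (Option σ × Bool), run nxt m₀ w' = (m, y) ∧
      evolve (treal nxt p q) w' (ereal σ ι m₀) (.inl 3) =
        evolve (treal nxt p q) w (ereal σ ι m₀) (.inl 3) := by
  intro n
  induction n with
  | zero =>
    intro y hy
    have : y = 0 := by
      ext j
      exact (Finset.sum_eq_zero_iff.1 hy) j (Finset.mem_univ j)
    exact ⟨w, by rw [hw, this], rfl⟩
  | succ n ih =>
    intro y hy
    obtain ⟨j, hj⟩ : ∃ j, y j ≠ 0 := by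
      by_contra hcon
      push Not at hcon
      simp [hcon] at hy
    obtain ⟨w', h1, h2⟩ := ih (y - Pi.single j 1) (by
      have h3 : y = (y - Pi.single j 1) + Pi.single j 1 := by
        ext i
        by_cases h : i = j
        · subst h; simp; omega
        · simp [h]
      have h4 : ∑ i, y i = ∑ i, (y - Pi.single j 1 : σ → ℕ) i + 1 := by
        conv_lhs => rw [h3]
        simp [Finset.sum_add_distrib]
      omega)
    refine ⟨(some j, false) :: w', ?_, ?_⟩
    · simp only [run, h1, next]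
      congr 1
      ext i
      by_cases h : i = j
      · subst h; simp; omega
      · simp [h]
    · rw [evolve_three]
      simp [h2]

/-- words that follow the machine -/
theorem follow (nxt : σ) (p q : (ι → Option (Option σ)) → ℤ) (m₀ : ℕ) (St : ℕ → ℕ → Prop)
    (hSt : ∀ m m', St m m' ↔ ∃ y : σ → ℕ, y nxt = m' ∧ evl p m y = 0) (m : ℕ)
    (h : Relation.ReflTransGen St m₀ m) :
    ∃ w : List (Option σ × Bool), run nxt m₀ w = (m, 0) ∧
      evolve (treal nxt p q) w (ereal σ ι m₀) (.inl 3) = 0 := by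
  induction h with
  | refl => exact ⟨[], rfl, by simp [evolve, ereal, evec]⟩
  | tail _ hs ih =>
    obtain ⟨w, h1, h2⟩ := ih
    obtain ⟨y, hy1, hy2⟩ := (hSt _ _).1 hs
    obtain ⟨w', h3, h4⟩ := fill nxt p q m₀ _ w h1 _ y rfl
    refine ⟨(none, false) :: w', ?_, ?_⟩
    · simp only [run, h3, next, hy1]
    · rw [evolve_three, h3, h4, h2]
      simp [hy2]

end

end Pool.Agent.Lib80
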