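import Mathlib
import Pool.Agent.Lib_helper80.Concrete

/-!
The reduction from the halting problem to polynomial vertex growth.
-/

namespace Pool.Agent.Lib80

open Pool.Agent.VertexGrowth
open scoped BigOperators ENNReal

section asymptotics

variable {J : Type} [Fintype J]

theorem poly_of_bounded {S : Set (Matrix J J ℝ)} {B k₀ : ℕ}
    (h : ∀ k, k₀ ≤ k → ∀ a, numVertices S a k ≤ B) : PolynomialVertexGrowth S := by
  refine ⟨B + 1, 1, by positivity, one_pos, max k₀ 1, by omega, fun k hk => ?_⟩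
  have h1 : vertexNumber S k ≤ B := iSup_le fun a => h k (le_trans (le_max_left _ _) hk) a
  have h2 : ((vertexNumber S k : ℕ∞) : ℝ≥0∞) ≤ ((B : ℕ∞) : ℝ≥0∞) := by
    exact_mod_cast h1
  refine h2.trans ?_
  have hk1 : (1 : ℝ) ≤ k := by exact_mod_cast le_trans (le_max_right _ _) hk
  rw [Real.rpow_one]
  have h3 : ((B : ℕ∞) : ℝ≥0∞) = ENNReal.ofReal (B : ℝ) := by simp
  rw [h3]
  apply ENNReal.ofReal_le_ofReal
  have : (0 : ℝ) ≤ B := Nat.cast_nonneg B
  nlinarith

theorem not_poly_of_exp {S : Set (Matrix J J ℝ)} {a : J → ℝ}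
    (h : ∀ k : ℕ, ((2 ^ k : ℕ) : ℕ∞) ≤ numVertices S a k) : ¬ PolynomialVertexGrowth S := by
  rintro ⟨α, d, hα, hd, k₀, hk₀, hg⟩
  obtain ⟨D, hD⟩ := exists_nat_ge d
  have h1 : ∀ k : ℕ, k₀ ≤ k → (2 : ℝ) ^ k ≤ α * (k : ℝ) ^ D := by
    intro k hk
    have h2 : ((2 ^ k : ℕ) : ℕ∞) ≤ vertexNumber S k := (h k).trans (le_iSup (numVertices S · k) a)
    have h3 : (((2 ^ k : ℕ) : ℕ∞) : ℝ≥0∞) ≤ ENNReal.ofReal (α * (k : ℝ) ^ d) :=
      le_trans (by exact_mod_cast h2) (hg k hk)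
    have h4 : (((2 ^ k : ℕ) : ℕ∞) : ℝ≥0∞) = ENNReal.ofReal ((2 : ℝ) ^ k) := by
      rw [show ((2 : ℝ) ^ k) = (((2 ^ k : ℕ)) : ℝ) by push_cast; ring, ENNReal.ofReal_natCast]
      norm_cast
    rw [h4, ENNReal.ofReal_le_ofReal_iff (by positivity)] at h3
    refine h3.trans (mul_le_mul_of_nonneg_left ?_ hα.le)
    have hk1 : (1 : ℝ) ≤ k := by exact_mod_cast le_trans hk₀ hk
    rw [← Real.rpow_natCast]
    exact Real.rpow_le_rpow_of_exponent_le hk1 hD
  have h5 := isLittleO_pow_const_const_pow_of_one_lt (R := ℝ) D (r := 2) (by norm_num)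
  have h6 := h5.def (c := 1 / (2 * α)) (by positivity)
  obtain ⟨N, hN⟩ := Filter.eventually_atTop.1 h6
  have h7 := hN (max N k₀) (le_max_left _ _)
  have h8 := h1 (max N k₀) (le_max_right _ _)
  rw [Real.norm_of_nonneg (by positivity), Real.norm_of_nonneg (by positivity)] at h7
  have h9 : α * ((max N k₀ : ℕ) : ℝ) ^ D ≤ 2 ^ (max N k₀) / 2 := by
    calc α * ((max N k₀ : ℕ) : ℝ) ^ D ≤ α * (1 / (2 * α) * 2 ^ (max N k₀)) :=
          mul_le_mul_of_nonneg_left h7 hα.le
      _ = 2 ^ (max N k₀) / 2 := by field_simp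
  have h10 : (0 : ℝ) < 2 ^ (max N k₀) := by positivity
  linarith

end asymptotics

theorem sys_finite {J L : Type} [Fintype J] [DecidableEq J] [Finite L] (T : L → Matrix J J ℝ)
    (e η : J → ℝ) (δ : ℝ) : (sys T e η δ).Finite := by
  have h1 : (Set.range T).Finite := Set.finite_range T
  have h2 : (Set.range fun p : J × J => Matrix.single p.1 p.2 δ).Finite := Set.finite_range _
  have h3 : (Set.range fun p : J × J => Matrix.single p.1 p.2 (-δ)).Finite := Set.finite_range _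
  refine (((h1.union (Set.finite_singleton (Matrix.vecMulVec e η))).union h2).union h3).subset ?_
  rintro M (⟨i, rfl⟩ | rfl | ⟨i, j, rfl | rfl⟩)
  · exact Or.inl (Or.inl (Or.inl ⟨i, rfl⟩))
  · exact Or.inl (Or.inl (Or.inr rfl))
  · exact Or.inl (Or.inr ⟨(i, j), rfl⟩)
  · exact Or.inr ⟨(i, j), rfl⟩

section

variable {σ ι : Type} [Fintype σ] [DecidableEq σ] [Fintype ι] [DecidableEq ι]

noncomputable def delt (p q : (ι → Option (Option σ)) → ℤ) : ℚ :=
  1 / (8 * (1 + ∑ j, |hvec p q j|))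

theorem delt_pos (p q : (ι → Option (Option σ)) → ℤ) : 0 < delt p q := by
  unfold delt; positivity

theorem delt_real (p q : (ι → Option (Option σ)) → ℤ) :
    (delt p q : ℝ) * (8 * (1 + ∑ j, |hreal p q j|)) = 1 := by
  have h1 : (1 + ∑ j, |hreal p q j|) = ((1 + ∑ j, |hvec p q j| : ℚ) : ℝ) := by
    push_cast
    rfl
  have h2 : (0 : ℝ) < ((1 + ∑ j, |hvec p q j| : ℚ) : ℝ) := by
    have : (0 : ℚ) < 1 + ∑ j, |hvec p q j| := by positivity
    exact_mod_cast this
  rw [h1, delt]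
  have h3 : ((1 / (8 * (1 + ∑ j, |hvec p q j|)) : ℚ) : ℝ) =
      1 / (8 * ((1 + ∑ j, |hvec p q j| : ℚ) : ℝ)) := by
    push_cast
    rfl
  rw [h3]
  field_simp

/-- the concrete system has polynomial vertex growth iff `0` is reachable -/
theorem concrete_iff (nxt : σ) (p q : (ι → Option (Option σ)) → ℤ) (m₀ : ℕ)
    (hp : ∀ m (y : σ → ℕ), 0 ≤ evl p m y) (hq : ∀ m (y : σ → ℕ), evl q m y = (m : ℤ) ^ 2)
    (St : ℕ → ℕ → Prop)
    (hSt : ∀ m m', St m m' ↔ ∃ y : σ → ℕ, y nxt = m' ∧ evl p m y = 0) :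
    PolynomialVertexGrowth (sys (treal nxt p q) (ereal σ ι m₀) (hreal p q) (delt p q)) ↔
      Relation.ReflTransGen St m₀ 0 := by
  have hk : (0 : ℝ) < kap p q := by exact_mod_cast kap_pos p q
  have hs : (0 : ℝ) < scal ι m₀ := by exact_mod_cast scal_pos m₀
  have ht : (0 : ℝ) < theta ι := by exact_mod_cast theta_pos
  have hd : (0 : ℝ) < delt p q := by exact_mod_cast delt_pos p q
  have hη0 : 0 ≤ ∑ j, |hreal p q j| := Finset.sum_nonneg fun j _ => abs_nonneg _
  have hdr := delt_real p q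
  have hd8 : (delt p q : ℝ) ≤ 1 / 8 := by nlinarith [mul_nonneg hd.le hη0]
  have hfin := sys_finite (treal nxt p q) (ereal σ ι m₀) (hreal p q) (delt p q)
  constructor
  · intro h
    by_contra hcon
    refine not_poly_of_exp (a := ereal σ ι m₀) (fun k => ?_) h
    refine exp_growth hd (.inl 0) (.inl 1) (.inl 2) (C := 2) (by norm_num) (ereal_norm m₀)
      (evolve_norm nxt p q) (by linarith) (by linarith) (by nlinarith) hfin ?_
      (gadget nxt p q m₀) (gadget_word nxt p q m₀) k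
    intro w
    rw [hreal_dot nxt p q m₀ hq, (gadget nxt p q m₀ w).1]
    set c := (kap p q : ℝ) * ((scal ι m₀ : ℝ) * (theta ι : ℝ) ^ w.length) with hc
    have hc0 : 0 < c := by positivity
    obtain ⟨⟨M', hM'0, hM', hb1, hb2⟩, -⟩ := evolve_bound nxt p q (ereal σ ι m₀) (1 / 4) 0 1
      (by norm_num) (fun κ => ereal_abs m₀ κ) (by simp [ereal, evec]) (by simp [ereal, evec]) w
    set A := evolve (treal nxt p q) w (ereal σ ι m₀) (.inl 3) with hA
    have hA1 : |A| ≤ 1 / 4 := by linarith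
    -- upper bound on the last term
    have hlast : c * ((run nxt m₀ w).1 : ℝ) ^ 2 ≤ 1 / 8 := by
      have h1 : (((run nxt m₀ w).1 : ℝ)) ^ 2 =
          ∑ κ, (q κ : ℝ) * ∏ i, vv ℝ (run nxt m₀ w).1 (run nxt m₀ w).2 (κ i) := by
        rw [evl_real, hq]; push_cast; rfl
      have h2 : c * ((run nxt m₀ w).1 : ℝ) ^ 2 =
          (kap p q : ℝ) * ∑ κ, (q κ : ℝ) *
            evolve (treal nxt p q) w (ereal σ ι m₀) (.inr κ) := by
        rw [h1, hc, Finset.mul_sum, Finset.mul_sum]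
        refine Finset.sum_congr rfl fun κ _ => ?_
        rw [evolve_inr]
        ring
      have h3 : ∑ κ, (q κ : ℝ) * evolve (treal nxt p q) w (ereal σ ι m₀) (.inr κ) ≤
          (∑ κ, |(q κ : ℝ)|) * (1 / 4) := by
        rw [Finset.sum_mul]
        refine Finset.sum_le_sum fun κ _ => ?_
        refine (le_abs_self _).trans ?_
        rw [abs_mul]
        exact mul_le_mul_of_nonneg_left ((hb1 κ).trans hM') (abs_nonneg _)
      have h4 := kap_le_real p q
      have h5 : 0 ≤ ∑ κ, |(p κ : ℝ)| := Finset.sum_nonneg fun κ _ => abs_nonneg _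
      have h6 : (kap p q : ℝ) * ∑ κ, |(q κ : ℝ)| ≤ 1 / 2 := by
        rw [← h4]
        exact mul_le_mul_of_nonneg_left (by linarith) hk.le
      rw [h2]
      calc (kap p q : ℝ) * ∑ κ, (q κ : ℝ) * evolve (treal nxt p q) w (ereal σ ι m₀) (.inr κ)
          ≤ (kap p q : ℝ) * ((∑ κ, |(q κ : ℝ)|) * (1 / 4)) := mul_le_mul_of_nonneg_left h3 hk.le
        _ = ((kap p q : ℝ) * ∑ κ, |(q κ : ℝ)|) * (1 / 4) := by ring
        _ ≤ 1 / 8 := by linarith
    have hAb := abs_le.1 hA1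
    have hmain : c / 2 ≤ A + c * (((run nxt m₀ w).1 : ℝ) ^ 2 - 1 / 2) := by
      rcases penalty nxt p q m₀ hp St hSt w with ⟨h1, h2⟩ | h1
      · rw [← hA] at h1
        rw [h1, zero_add]
        have h3 : (run nxt m₀ w).1 ≠ 0 := by
          intro h0
          rw [h0] at h2
          exact hcon h2
        have h4 : (1 : ℝ) ≤ (run nxt m₀ w).1 := by exact_mod_cast Nat.one_le_iff_ne_zero.2 h3
        have h5 : (1 : ℝ) ≤ ((run nxt m₀ w).1 : ℝ) ^ 2 := by nlinarith
        nlinarith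
      · rw [← hA, ← hc] at h1
        have h5 : (0 : ℝ) ≤ ((run nxt m₀ w).1 : ℝ) ^ 2 := by positivity
        nlinarith
    rw [abs_le]
    constructor
    · nlinarith
    · nlinarith
  · intro h
    obtain ⟨w, hw1, hw2⟩ := follow nxt p q m₀ St hSt 0 h
    obtain ⟨B, k₀, hB⟩ := bounded_growth (T := treal nxt p q) (e := ereal σ ι m₀)
      (η := hreal p q) hd (by linarith) (.inl 0) (by simp [ereal, evec]) (by simp [hreal, hvec])
      (C := 2) (by norm_num) (evolve_norm nxt p q) hfin w (by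
        rw [hreal_dot nxt p q m₀ hq, (gadget nxt p q m₀ w).1, hw2, hw1]
        have : 0 < (kap p q : ℝ) * ((scal ι m₀ : ℝ) * (theta ι : ℝ) ^ w.length) := by positivity
        refine lt_of_lt_of_le ?_ (le_abs_self _)
        simp only [Nat.cast_zero]
        nlinarith)
    exact poly_of_bounded hB

end

end Pool.Agent.Lib80
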