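import Mathlib
import Pool.Agent.Lib_helper80.Reduction

/-!
Encoding of the concrete system as lists of fractions, and computability of the reduction.
-/

namespace Pool.Agent.VertexGrowth

/-- The `(i, j)` entry of a list of rows of fractions. -/
def entry (A : List (List (ℤ × ℕ))) (i j : ℕ) : ℤ × ℕ := (A.getD i []).getD j (0, 1)

/-- The matrix `(p_ij / q_ij)` whose rows are listed in `A`. -/
noncomputable def matrixOf (n : ℕ) (A : List (List (ℤ × ℕ))) : Matrix (Fin n) (Fin n) ℝ :=
  Matrix.of fun i j => ((entry A i j).1 : ℝ) / ((entry A i j).2 : ℝ)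

/-- `(n, L)` is an instance: `n ≥ 1`, `L` is a nonempty list of `n × n` matrices, each given by
the list of its `n` rows, a row by the list of its `n` entries, an entry by an integer numerator
and a nonzero natural denominator. -/
def IsInstance (n : ℕ) (L : List (List (List (ℤ × ℕ)))) : Prop :=
  1 ≤ n ∧ L ≠ [] ∧ ∀ A ∈ L, A.length = n ∧ ∀ row ∈ A, row.length = n ∧ ∀ x ∈ row, x.2 ≠ 0

/-- The finite set of matrices listed in `L`. -/
def matrixSet (n : ℕ) (L : List (List (List (ℤ × ℕ)))) : Set (Matrix (Fin n) (Fin n) ℝ) :=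
  {M | ∃ A ∈ L, M = matrixOf n A}

end Pool.Agent.VertexGrowth

namespace Pool.Agent.Lib80

open Pool.Agent.VertexGrowth
open scoped BigOperators
open Encodable

section reindex

variable {J J' : Type} [Fintype J] [Fintype J'] (ε : J ≃ J')

/-- reindexed set of matrices -/
def reS (S : Set (Matrix J J ℝ)) : Set (Matrix J' J' ℝ) :=
  (fun M => M.submatrix ε.symm ε.symm) '' S

theorem reach_re (S : Set (Matrix J J ℝ)) (a : J' → ℝ) (k : ℕ) :
    reach (reS ε S) a k = (fun x : J → ℝ => x ∘ ε.symm) '' reach S (a ∘ ε) k := by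
  induction k with
  | zero =>
    simp only [reach, Set.image_singleton]
    congr 1
    ext i
    simp
  | succ k ih =>
    ext y
    simp only [reach, ih]
    constructor
    · rintro ⟨_, ⟨T, hT, rfl⟩, _, ⟨x, hx, rfl⟩, rfl⟩
      refine ⟨T.mulVec x, ⟨T, hT, x, hx, rfl⟩, ?_⟩
      simp only
      rw [Matrix.submatrix_mulVec_equiv]
      congr 2
      ext i
      simp
    · rintro ⟨_, ⟨T, hT, x, hx, rfl⟩, rfl⟩
      refine ⟨_, ⟨T, hT, rfl⟩, _, ⟨x, hx, rfl⟩, ?_⟩
      simp only
      rw [Matrix.submatrix_mulVec_equiv]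
      congr 2
      ext i
      simp

theorem numVertices_re (S : Set (Matrix J J ℝ)) (a : J' → ℝ) (k : ℕ) :
    numVertices (reS ε S) a k = numVertices S (a ∘ ε) k := by
  unfold numVertices polytope
  rw [reach_re]
  let Φ : (J → ℝ) ≃ₗ[ℝ] (J' → ℝ) := LinearEquiv.funCongrLeft ℝ ℝ ε.symm
  have h1 : (fun x : J → ℝ => x ∘ ε.symm) '' reach S (a ∘ ε) k =
      (Φ : (J → ℝ) →ₗ[ℝ] (J' → ℝ)) '' reach S (a ∘ ε) k := rfl
  rw [h1, ← LinearMap.image_convexHull]
  have h2 : (Φ : (J → ℝ) →ₗ[ℝ] (J' → ℝ)) '' (convexHull ℝ (reach S (a ∘ ε) k)) =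
      Φ '' (convexHull ℝ (reach S (a ∘ ε) k)) := rfl
  rw [h2, ← image_extremePoints, Φ.injective.encard_image]

theorem vertexNumber_re (S : Set (Matrix J J ℝ)) (k : ℕ) :
    vertexNumber (reS ε S) k = vertexNumber S k := by
  unfold vertexNumber
  apply le_antisymm
  · refine iSup_le fun a => ?_
    rw [numVertices_re]
    exact le_iSup (fun a => numVertices S a k) (a ∘ ε)
  · refine iSup_le fun b => ?_
    have h1 : numVertices S b k = numVertices (reS ε S) (b ∘ ε.symm) k := by
      rw [numVertices_re]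
      congr 1
      ext i
      simp
    rw [h1]
    exact le_iSup (fun a => numVertices (reS ε S) a k) (b ∘ ε.symm)

theorem poly_re (S : Set (Matrix J J ℝ)) :
    PolynomialVertexGrowth (reS ε S) ↔ PolynomialVertexGrowth S := by
  unfold PolynomialVertexGrowth
  simp only [vertexNumber_re]

end reindex

section encode

variable {n : ℕ}

/-- the list of a rational matrix -/
def encMat (M : Matrix (Fin n) (Fin n) ℚ) : List (List (ℤ × ℕ)) :=
  List.ofFn fun i => List.ofFn fun j => ((M i j).num, (M i j).den)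

theorem entry_ofFn (f : Fin n → Fin n → ℤ × ℕ) (i j : Fin n) :
    entry (List.ofFn fun i => List.ofFn fun j => f i j) i j = f i j := by
  simp [entry, List.getD_eq_getElem?_getD]

theorem matrixOf_encMat (M : Matrix (Fin n) (Fin n) ℚ) :
    matrixOf n (encMat M) = M.map (fun r : ℚ => (r : ℝ)) := by
  ext i j
  simp only [matrixOf, Matrix.of_apply, encMat, Matrix.map_apply]
  rw [entry_ofFn]
  exact (Rat.cast_def _).symm

/-- codes of matrices built by `List.ofFn` are well formed -/
theorem good_ofFn (f : Fin n → Fin n → ℤ × ℕ) (hf : ∀ i j, (f i j).2 ≠ 0) :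
    (List.ofFn fun i => List.ofFn fun j => f i j).length = n ∧
    ∀ row ∈ (List.ofFn fun i => List.ofFn fun j => f i j), row.length = n ∧
      ∀ x ∈ row, x.2 ≠ 0 := by
  refine ⟨by simp, fun row hrow => ?_⟩
  obtain ⟨i, rfl⟩ := (List.mem_ofFn' _ _).1 hrow
  refine ⟨by simp, fun x hx => ?_⟩
  obtain ⟨j, rfl⟩ := (List.mem_ofFn' _ _).1 hx
  exact hf i j

end encode

section

variable {σ ι : Type} [Fintype σ] [DecidableEq σ] [Fintype ι] [DecidableEq ι]

/-- numerators and denominators of the initial vector -/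
def numE (σ ι : Type) [Fintype ι] : Idx σ ι → ℕ → ℕ
  | .inl i, _ => if i = 0 then 1 else 0
  | .inr κ, m₀ => ∏ i, vv ℕ m₀ (0 : σ → ℕ) (κ i)

def denE (σ ι : Type) [Fintype ι] : Idx σ ι → ℕ → ℕ
  | .inl _, _ => 1
  | .inr _, m₀ => 4 * (m₀ + 1) ^ Fintype.card ι

theorem denE_ne (j : Idx σ ι) (m₀ : ℕ) : denE σ ι j m₀ ≠ 0 := by
  rcases j with i | κ
  · simp [denE]
  · simp only [denE]; positivity

theorem vv_nat (m : ℕ) (y : σ → ℕ) (a : Option (Option σ)) :
    ((vv ℕ m y a : ℕ) : ℚ) = vv ℚ m y a := by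
  rcases a with _ | _ | a <;> simp [vv]

theorem evec_eq (j : Idx σ ι) (m₀ : ℕ) :
    evec σ ι m₀ j = (numE σ ι j m₀ : ℚ) / (denE σ ι j m₀ : ℚ) := by
  rcases j with i | κ
  · by_cases h : i = 0 <;> simp [evec, numE, denE, h]
  · simp only [evec, numE, denE, scal]
    push_cast
    simp only [vv_nat]
    ring

theorem primrec_pow_const (k : ℕ) {f : ℕ → ℕ} (hf : Primrec f) : Primrec fun m => f m ^ k := by
  induction k with
  | zero => simpa using Primrec.const 1
  | succ k ih =>
    simp only [pow_succ]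
    exact Primrec.nat_mul.comp ih hf

theorem primrec_denE (j : Idx σ ι) : Primrec (denE σ ι j) := by
  rcases j with i | κ
  · exact Primrec.const 1
  · exact Primrec.nat_mul.comp (Primrec.const 4)
      (primrec_pow_const _ (Primrec.nat_add.comp Primrec.id (Primrec.const 1)))

theorem primrec_numE (j : Idx σ ι) : Primrec (numE σ ι j) := by
  rcases j with i | κ
  · exact Primrec.const _
  · have : ∀ s : Finset ι, Primrec fun m₀ : ℕ => ∏ i ∈ s, vv ℕ m₀ (0 : σ → ℕ) (κ i) := by
      intro s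
      induction s using Finset.induction_on with
      | empty => simpa using Primrec.const 1
      | insert a s ha ih =>
        simp only [Finset.prod_insert ha]
        refine Primrec.nat_mul.comp ?_ ih
        rcases κ a with _ | _ | b
        · exact Primrec.const 1
        · exact Primrec.id
        · exact Primrec.const 0
    exact this Finset.univ

theorem primrec_int_mul (c : ℤ) {f : ℕ → ℕ} (hf : Primrec f) :
    Primrec fun m => (f m : ℤ) * c := by
  rw [← Primrec.encode_iff]
  rcases c with d | d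
  · have : ∀ m, encode ((f m : ℤ) * Int.ofNat d) = 2 * (f m * d) := by
      intro m
      have : (f m : ℤ) * Int.ofNat d = Int.ofNat (f m * d) := by
        simp
      rw [this]
      rfl
    simp only [this]
    exact Primrec.nat_mul.comp (Primrec.const 2) (Primrec.nat_mul.comp hf (Primrec.const d))
  · have : ∀ m, encode ((f m : ℤ) * Int.negSucc d) =
        if f m = 0 then 0 else 2 * (f m * (d + 1) - 1) + 1 := by
      intro m
      split_ifs with h
      · rw [h]
        simp
        rfl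
      · have hpos : 1 ≤ f m * (d + 1) := Nat.one_le_iff_ne_zero.2 (mul_ne_zero h (by omega))
        have : (f m : ℤ) * Int.negSucc d = Int.negSucc (f m * (d + 1) - 1) := by
          rw [Int.negSucc_eq, Int.negSucc_eq]
          push_cast [hpos]
          ring
        rw [this]
        rfl
    simp only [this]
    refine Primrec.ite (Primrec.eq.comp hf (Primrec.const 0)) (Primrec.const 0) ?_
    exact Primrec.nat_add.comp (Primrec.nat_mul.comp (Primrec.const 2)
      (Primrec.nat_sub.comp (Primrec.nat_mul.comp hf (Primrec.const (d + 1))) (Primrec.const 1)))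
      (Primrec.const 1)

/-- the list of the rank one matrix `e ηᵀ` -/
noncomputable def hashList {n : ℕ} (ε : Idx σ ι ≃ Fin n) (p q : (ι → Option (Option σ)) → ℤ)
    (m₀ : ℕ) : List (List (ℤ × ℕ)) :=
  List.ofFn fun i => List.ofFn fun j =>
    ((numE σ ι (ε.symm i) m₀ : ℤ) * (hvec p q (ε.symm j)).num,
      denE σ ι (ε.symm i) m₀ * (hvec p q (ε.symm j)).den)

theorem matrixOf_hashList {n : ℕ} (ε : Idx σ ι ≃ Fin n) (p q : (ι → Option (Option σ)) → ℤ)
    (m₀ : ℕ) : matrixOf n (hashList ε p q m₀) =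
      (Matrix.vecMulVec (ereal σ ι m₀) (hreal p q)).submatrix ε.symm ε.symm := by
  ext i j
  simp only [matrixOf, Matrix.of_apply, hashList, Matrix.submatrix_apply, Matrix.vecMulVec_apply,
    ereal, hreal]
  rw [entry_ofFn, evec_eq]
  simp only
  rw [← Rat.num_div_den (hvec p q (ε.symm j))]
  push_cast
  simp only [Rat.num_div_den]
  rw [mul_div_mul_comm]

theorem primrec_hashList {n : ℕ} (ε : Idx σ ι ≃ Fin n) (p q : (ι → Option (Option σ)) → ℤ) :
    Primrec (hashList ε p q) := by
  refine Primrec.list_ofFn fun i => Primrec.list_ofFn fun j => ?_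
  exact Primrec.pair (primrec_int_mul _ (primrec_numE _))
    (Primrec.nat_mul.comp (primrec_denE _) (Primrec.const _))

/-- the fixed matrices -/
noncomputable def fixedList {n : ℕ} (ε : Idx σ ι ≃ Fin n) (nxt : σ)
    (p q : (ι → Option (Option σ)) → ℤ) : List (List (List (ℤ × ℕ))) :=
  ((Finset.univ : Finset (Option σ × Bool)).toList.map fun l =>
    encMat ((tmat nxt p q l).submatrix ε.symm ε.symm)) ++
  (((Finset.univ : Finset (Idx σ ι × Idx σ ι)).toList.map fun ij =>
    encMat ((Matrix.single ij.1 ij.2 (delt p q)).submatrix ε.symm ε.symm)) ++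
  ((Finset.univ : Finset (Idx σ ι × Idx σ ι)).toList.map fun ij =>
    encMat ((Matrix.single ij.1 ij.2 (-delt p q)).submatrix ε.symm ε.symm)))

/-- the instance -/
noncomputable def instList {n : ℕ} (ε : Idx σ ι ≃ Fin n) (nxt : σ)
    (p q : (ι → Option (Option σ)) → ℤ) (m₀ : ℕ) : List (List (List (ℤ × ℕ))) :=
  hashList ε p q m₀ :: fixedList ε nxt p q

theorem single_cast {n : ℕ} (ε : Idx σ ι ≃ Fin n) (a b : Idx σ ι) (d : ℚ) :
    matrixOf n (encMat ((Matrix.single a b d).submatrix ε.symm ε.symm)) =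
      (Matrix.single a b (d : ℝ)).submatrix ε.symm ε.symm := by
  rw [matrixOf_encMat]
  ext i j
  simp only [Matrix.map_apply, Matrix.submatrix_apply, Matrix.single, Matrix.of_apply]
  split_ifs <;> simp

theorem tmat_cast {n : ℕ} (ε : Idx σ ι ≃ Fin n) (nxt : σ) (p q : (ι → Option (Option σ)) → ℤ)
    (l : Option σ × Bool) :
    matrixOf n (encMat ((tmat nxt p q l).submatrix ε.symm ε.symm)) =
      (treal nxt p q l).submatrix ε.symm ε.symm := by
  rw [matrixOf_encMat]
  rfl

theorem matrixSet_inst {n : ℕ} (ε : Idx σ ι ≃ Fin n) (nxt : σ)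
    (p q : (ι → Option (Option σ)) → ℤ) (m₀ : ℕ) :
    matrixSet n (instList ε nxt p q m₀) =
      reS ε (sys (treal nxt p q) (ereal σ ι m₀) (hreal p q) (delt p q)) := by
  ext M
  simp only [matrixSet, instList, fixedList, List.mem_cons, List.mem_append, List.mem_map,
    Finset.mem_toList, Finset.mem_univ, true_and, reS, sys]
  constructor
  · rintro ⟨A, rfl | ⟨l, rfl⟩ | ⟨ij, rfl⟩ | ⟨ij, rfl⟩, rfl⟩
    · exact ⟨_, Or.inr (Or.inl rfl), (matrixOf_hashList ε p q m₀).symm⟩
    · exact ⟨_, Or.inl ⟨l, rfl⟩, (tmat_cast ε nxt p q l).symm⟩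
    · exact ⟨_, Or.inr (Or.inr ⟨ij.1, ij.2, Or.inl rfl⟩), (single_cast ε ij.1 ij.2 _).symm⟩
    · refine ⟨_, Or.inr (Or.inr ⟨ij.1, ij.2, Or.inr rfl⟩), ?_⟩
      rw [single_cast]
      push_cast
      rfl
  · rintro ⟨_, ⟨l, rfl⟩ | rfl | ⟨i, j, rfl | rfl⟩, rfl⟩
    · exact ⟨_, Or.inr (Or.inl ⟨l, rfl⟩), (tmat_cast ε nxt p q l).symm⟩
    · exact ⟨_, Or.inl rfl, (matrixOf_hashList ε p q m₀).symm⟩
    · exact ⟨_, Or.inr (Or.inr (Or.inl ⟨(i, j), rfl⟩)), (single_cast ε i j _).symm⟩
    · refine ⟨_, Or.inr (Or.inr (Or.inr ⟨(i, j), rfl⟩)), ?_⟩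
      rw [single_cast]
      push_cast
      rfl

theorem isInstance_inst {n : ℕ} (ε : Idx σ ι ≃ Fin n) (nxt : σ)
    (p q : (ι → Option (Option σ)) → ℤ) (m₀ : ℕ) : IsInstance n (instList ε nxt p q m₀) := by
  refine ⟨?_, by simp [instList], ?_⟩
  · have := (ε (.inl 0)).2
    omega
  · have hgood : ∀ M : Matrix (Fin n) (Fin n) ℚ, (encMat M).length = n ∧
        ∀ row ∈ encMat M, row.length = n ∧ ∀ x ∈ row, x.2 ≠ 0 := fun M =>
      good_ofFn _ fun i j => Rat.den_nz _
    intro A hA
    simp only [instList, fixedList, List.mem_cons, List.mem_append, List.mem_map] at hA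
    rcases hA with rfl | ⟨l, -, rfl⟩ | ⟨ij, -, rfl⟩ | ⟨ij, -, rfl⟩
    · exact good_ofFn _ fun i j => mul_ne_zero (denE_ne _ _) (Rat.den_nz _)
    · exact hgood _
    · exact hgood _
    · exact hgood _

theorem primrec_instList {n : ℕ} (ε : Idx σ ι ≃ Fin n) (nxt : σ)
    (p q : (ι → Option (Option σ)) → ℤ) : Primrec (instList ε nxt p q) :=
  Primrec.list_cons.comp (primrec_hashList ε p q) (Primrec.const _)

theorem length_inst {n : ℕ} (ε : Idx σ ι ≃ Fin n) (nxt : σ)
    (p q : (ι → Option (Option σ)) → ℤ) (m₀ : ℕ) :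
    (instList ε nxt p q m₀).length = (instList ε nxt p q 0).length := by
  simp [instList]

end

end Pool.Agent.Lib80
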