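import Mathlib

/-!
Strong omniscient computable reducibility and the Ramsey problems.
-/

namespace Pool.Agent.Soc

/-- The characteristic function of a set of natural numbers, as a (total) partial function. -/
noncomputable def chi (A : Set ℕ) : ℕ →. ℕ :=
  fun n => Part.some (A.indicator (fun _ => 1) n)

/-- `A` is Turing computable from `B`. -/
def ComputableFrom (A B : Set ℕ) : Prop := TuringReducible (chi A) (chi B)

/-- A problem: a type of instances, each with a class of solutions (sets of natural numbers). -/
structure Problem where
  Inst : Type
  Sol : Inst → Set ℕ → Prop

/-- Strong omniscient computable reducibility: for each instance `X` of `P` there is an instance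
`X'` of `Q`, such that each solution of `X'` Turing computes a solution of `X`. -/
def SocReducible (P Q : Problem) : Prop :=
  ∀ X : P.Inst, ∃ X' : Q.Inst, ∀ Y' : Set ℕ, Q.Sol X' Y' → ∃ Y : Set ℕ, P.Sol X Y ∧
    ComputableFrom Y Y'

/-- The problem `RT^n_k`: instances are the colourings of the `n`-element sets of natural numbers
with `k` colours, solutions the infinite sets `H` such that all `n`-element subsets of `H` have
the same colour. -/
def RT (n k : ℕ) : Problem where
  Inst := {s : Finset ℕ // s.card = n} → Fin k
  Sol := fun c H => H.Infinite ∧ ∃ j : Fin k, ∀ s : {s : Finset ℕ // s.card = n},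
    (s.1 : Set ℕ) ⊆ H → c s = j

end Pool.Agent.Soc
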