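import Mathlib

/-!
Dense colourings of finite sets and their self-similarity.
-/

namespace Pool.Agent.Soc

/-- A sequence satisfying an invariant, obtained by dependent choice. -/
theorem exists_seq {α : Type*} (P : ℕ → α → Prop) (R : ℕ → α → α → Prop) (a₀ : α)
    (h₀ : P 0 a₀) (step : ∀ n a, P n a → ∃ b, P (n + 1) b ∧ R n a b) :
    ∃ f : ℕ → α, f 0 = a₀ ∧ ∀ n, P n (f n) ∧ R n (f n) (f (n + 1)) := by
  choose! nxt h1 h2 using step
  let f : ℕ → α := fun n => Nat.rec a₀ nxt n
  have hP : ∀ n, P n (f n) := by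
    intro n
    induction n with
    | zero => exact h₀
    | succ n ih => exact h1 n (f n) ih
  exact ⟨f, rfl, fun n => ⟨hP n, h2 n (f n) (hP n)⟩⟩

variable {K : Type*}

/-- `y` realises `σ` below `l`. -/
def Rea (c : Finset ℕ → K) (l : ℕ) (σ : Finset ℕ → K) (y : ℕ) : Prop :=
  l ≤ y ∧ ∀ s ⊆ Finset.range l, c (insert y s) = σ s

/-- Every pattern is realised. -/
def DenseCol (c : Finset ℕ → K) : Prop :=
  ∀ (l : ℕ) (σ : Finset ℕ → K), ∃ y, Rea c l σ y

/-- `(l', σ')` extends `(l, σ)`. -/
def PExt (l : ℕ) (σ : Finset ℕ → K) (l' : ℕ) (σ' : Finset ℕ → K) : Prop :=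
  l ≤ l' ∧ ∀ s ⊆ Finset.range l, σ' s = σ s

theorem PExt.refl (l : ℕ) (σ : Finset ℕ → K) : PExt l σ l σ := ⟨le_rfl, fun _ _ => rfl⟩

theorem PExt.trans {l l' l'' : ℕ} {σ σ' σ'' : Finset ℕ → K} (h : PExt l σ l' σ')
    (h' : PExt l' σ' l'' σ'') : PExt l σ l'' σ'' := by
  refine ⟨h.1.trans h'.1, fun s hs => ?_⟩
  rw [h'.2 s (hs.trans (Finset.range_mono h.1)), h.2 s hs]

theorem Rea.of_pext {c : Finset ℕ → K} {l l' : ℕ} {σ σ' : Finset ℕ → K} (h : PExt l σ l' σ')
    {y : ℕ} (hy : Rea c l' σ' y) : Rea c l σ y := by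
  refine ⟨h.1.trans hy.1, fun s hs => ?_⟩
  rw [hy.2 s (hs.trans (Finset.range_mono h.1)), h.2 s hs]

/-- The set `A` is dense below `(l, σ)`. -/
def DB (c : Finset ℕ → K) (A : Set ℕ) (l : ℕ) (σ : Finset ℕ → K) : Prop :=
  ∀ l' σ', PExt l σ l' σ' → ∃ y ∈ A, Rea c l' σ' y

theorem DB.of_pext {c : Finset ℕ → K} {A : Set ℕ} {l l' : ℕ} {σ σ' : Finset ℕ → K}
    (hA : DB c A l σ) (h : PExt l σ l' σ') : DB c A l' σ' :=
  fun l'' σ'' h' => hA l'' σ'' (h.trans h')

theorem DB.mono {c : Finset ℕ → K} {A B : Set ℕ} {l : ℕ} {σ : Finset ℕ → K}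
    (hA : DB c A l σ) (h : A ⊆ B) : DB c B l σ := by
  intro l' σ' h'
  obtain ⟨y, hy, hy'⟩ := hA l' σ' h'
  exact ⟨y, h hy, hy'⟩

theorem DenseCol.db {c : Finset ℕ → K} (hc : DenseCol c) (l : ℕ) (σ : Finset ℕ → K) :
    DB c Set.univ l σ := by
  intro l' σ' _
  obtain ⟨y, hy⟩ := hc l' σ'
  exact ⟨y, trivial, hy⟩

/-- Splitting: a set dense below a condition, coloured with finitely many colours, has a colour
class dense below an extension. -/
theorem DB.split {c : Finset ℕ → K} {A : Set ℕ} {l : ℕ} {σ : Finset ℕ → K}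
    (hA : DB c A l σ) {ι : Type*} [Finite ι] (f : ℕ → ι) :
    ∃ i l' σ', PExt l σ l' σ' ∧ DB c (A ∩ {y | f y = i}) l' σ' := by
  classical
  let C : ℕ → (Finset ℕ → K) → Set ι := fun l' σ' => {i | ∃ y ∈ A, Rea c l' σ' y ∧ f y = i}
  have hex : ∃ n : ℕ, ∃ l' σ', PExt l σ l' σ' ∧ (C l' σ').ncard = n :=
    ⟨_, l, σ, PExt.refl l σ, rfl⟩
  obtain ⟨l', σ', h1, h2⟩ := Nat.find_spec hex
  obtain ⟨y, hyA, hy⟩ := hA l' σ' h1
  have hi : f y ∈ C l' σ' := ⟨y, hyA, hy, rfl⟩
  refine ⟨f y, l', σ', h1, ?_⟩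
  intro l'' σ'' h3
  have hsub : C l'' σ'' ⊆ C l' σ' := by
    rintro i ⟨z, hz, hz', hzi⟩
    exact ⟨z, hz, hz'.of_pext h3, hzi⟩
  have hmin : (C l' σ').ncard ≤ (C l'' σ'').ncard := by
    rw [h2]
    exact Nat.find_min' hex ⟨l'', σ'', h1.trans h3, rfl⟩
  have heq : C l'' σ'' = C l' σ' := Set.eq_of_subset_of_ncard_le hsub hmin (Set.toFinite _)
  rw [← heq] at hi
  obtain ⟨z, hz, hz', hzi⟩ := hi
  exact ⟨z, ⟨hz, hzi⟩, hz'⟩

/-- The invariant of the construction in `selfsim`. -/
structure SInv {L : Type*} (c : Finset ℕ → K) (d : Finset ℕ → L) (m : ℕ)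
    (p : (ℕ → ℕ) × Set ℕ × ℕ × (Finset ℕ → K) × (Finset ℕ → L)) : Prop where
  db : DB c p.2.1 p.2.2.1 p.2.2.2.1
  lt : ∀ i < m, p.1 i < p.2.2.1
  sm : ∀ i j, i < j → j < m → p.1 i < p.1 j
  co : ∀ s ⊆ Finset.range m, s.Nonempty → p.2.2.2.1 (s.image p.1) = c s
  dd : ∀ s ⊆ Finset.range m, s.Nonempty → ∀ y ∈ p.2.1,
    d (insert y (s.image p.1)) = p.2.2.2.2 s

/-- The relation between consecutive stages. -/
structure SStep {L : Type*} (c : Finset ℕ → K) (m : ℕ)
    (p q : (ℕ → ℕ) × Set ℕ × ℕ × (Finset ℕ → K) × (Finset ℕ → L)) : Prop where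
  xs : ∀ i < m, q.1 i = p.1 i
  ds : ∀ s ⊆ Finset.range m, q.2.2.2.2 s = p.2.2.2.2 s
  mem : q.1 m ∈ p.2.1
  rea : Rea c p.2.2.1 p.2.2.2.1 (q.1 m)

theorem sstep {L : Type*} [Finite L] {c : Finset ℕ → K} {d : Finset ℕ → L} {m : ℕ}
    {p : (ℕ → ℕ) × Set ℕ × ℕ × (Finset ℕ → K) × (Finset ℕ → L)} (I : SInv c d m p) :
    ∃ q, SInv c d (m + 1) q ∧ SStep c m p q := by
  classical
  obtain ⟨x, A, l, σ, D⟩ := p
  obtain ⟨hdb, hlt, hsm, hco, hdd⟩ := I
  simp only at hdb hlt hsm hco hdd
  -- the new element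
  obtain ⟨y, hyA, hy⟩ := hdb l σ (PExt.refl l σ)
  have hxy : ∀ i < m, x i < y := fun i hi => lt_of_lt_of_le (hlt i hi) hy.1
  have hinj : ∀ a < m, ∀ b < m, x a = x b → a = b := by
    intro a ha b hb hab
    rcases lt_trichotomy a b with h | h | h
    · have := hsm a b h hb
      omega
    · exact h
    · have := hsm b a h ha
      omega
  obtain ⟨x', hx'def⟩ : ∃ x' : ℕ → ℕ, x' = Function.update x m y := ⟨_, rfl⟩
  have hx' : ∀ i < m, x' i = x i := fun i hi => by
    rw [hx'def]
    exact Function.update_of_ne (by omega) _ _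
  have hx'm : x' m = y := by
    rw [hx'def]
    exact Function.update_self _ _ _
  have himg : ∀ s ⊆ Finset.range m, s.image x' = s.image x := by
    intro s hs
    apply Finset.image_congr
    intro i hi
    exact hx' i (Finset.mem_range.mp (hs hi))
  have hmimg : ∀ s ⊆ Finset.range m, y ∉ s.image x := by
    intro s hs hys
    obtain ⟨i, hi, hiy⟩ := Finset.mem_image.mp hys
    have := hxy i (Finset.mem_range.mp (hs hi))
    omega
  have himgl : ∀ s ⊆ Finset.range m, s.image x ⊆ Finset.range l := by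
    intro s hs a ha
    obtain ⟨i, hi, rfl⟩ := Finset.mem_image.mp ha
    exact Finset.mem_range.mpr (hlt i (Finset.mem_range.mp (hs hi)))
  -- the new pattern
  obtain ⟨σ', hσ'⟩ : ∃ σ' : Finset ℕ → K, σ' = fun t =>
    if y ∈ t then c (insert m ((Finset.range m).filter (fun i => x i ∈ t))) else σ t := ⟨_, rfl⟩
  have hext : PExt l σ (y + 1) σ' := by
    refine ⟨by have := hy.1; omega, fun s hs => ?_⟩
    have : y ∉ s := by
      intro hys
      have h1 := Finset.mem_range.mp (hs hys)
      have h2 := hy.1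
      omega
    simp [hσ', this]
  -- the colouring of the reservoir
  obtain ⟨i, l'', σ'', hext', hdb'⟩ := (hdb.of_pext hext).split
    (fun z (s : (Finset.range m).powerset) => d (insert z (insert y ((s : Finset ℕ).image x))))
  have hrec : ∀ s ⊆ Finset.range m,
      (Finset.range m).filter (fun i => x i ∈ insert y (s.image x)) = s := by
    intro s hs
    ext a
    simp only [Finset.mem_filter, Finset.mem_range, Finset.mem_insert, Finset.mem_image]
    constructor
    · rintro ⟨ha, h | ⟨b, hb, hba⟩⟩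
      · have := hxy a ha
        omega
      · have := hinj b (Finset.mem_range.mp (hs hb)) a ha hba
        rwa [← this]
    · intro ha
      exact ⟨Finset.mem_range.mp (hs ha), Or.inr ⟨a, ha, rfl⟩⟩
  obtain ⟨D', hD'⟩ : ∃ D' : Finset ℕ → L, D' = fun s =>
    if h : m ∈ s ∧ s.erase m ⊆ Finset.range m then i ⟨s.erase m, Finset.mem_powerset.mpr h.2⟩
    else D s := ⟨_, rfl⟩
  have hcases : ∀ s ⊆ Finset.range (m + 1), m ∉ s → s ⊆ Finset.range m := by
    intro s hs hm a ha
    have h1 := Finset.mem_range.mp (hs ha)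
    have h2 : a ≠ m := fun h => hm (h ▸ ha)
    exact Finset.mem_range.mpr (by omega)
  have hcases' : ∀ s ⊆ Finset.range (m + 1), s.erase m ⊆ Finset.range m := by
    intro s hs a ha
    have h1 := Finset.mem_range.mp (hs (Finset.mem_of_mem_erase ha))
    have h2 : a ≠ m := Finset.ne_of_mem_erase ha
    exact Finset.mem_range.mpr (by omega)
  have himgm : ∀ s ⊆ Finset.range (m + 1), m ∈ s →
      s.image x' = insert y ((s.erase m).image x) := by
    intro s hs hm
    conv_lhs => rw [← Finset.insert_erase hm]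
    rw [Finset.image_insert, hx'm, himg _ (hcases' s hs)]
  refine ⟨(x', A ∩ {z | (fun s : (Finset.range m).powerset =>
    d (insert z (insert y ((s : Finset ℕ).image x)))) = i}, l'', σ'', D'),
    ⟨hdb', ?_, ?_, ?_, ?_⟩, ⟨hx', ?_, ?_, ?_⟩⟩
  · -- lt
    intro a ha
    simp only
    have hl := hext'.1
    rcases Nat.lt_succ_iff_lt_or_eq.mp ha with h | h
    · rw [hx' a h]
      have := hxy a h
      omega
    · rw [h, hx'm]
      omega
  · -- sm
    intro a b hab hb
    simp only
    rcases Nat.lt_succ_iff_lt_or_eq.mp hb with h | h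
    · rw [hx' a (by omega), hx' b h]
      exact hsm a b hab h
    · rw [h, hx'm, hx' a (by omega)]
      exact hxy a (by omega)
  · -- co
    intro s hs hne
    simp only
    have hin : s.image x' ⊆ Finset.range (y + 1) := by
      intro a ha
      obtain ⟨b, hb, rfl⟩ := Finset.mem_image.mp ha
      have h1 := Finset.mem_range.mp (hs hb)
      rcases Nat.lt_succ_iff_lt_or_eq.mp h1 with h | h
      · rw [hx' b h]
        have := hxy b h
        exact Finset.mem_range.mpr (by omega)
      · rw [h, hx'm]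
        exact Finset.mem_range.mpr (by omega)
    rw [hext'.2 _ hin]
    by_cases hm : m ∈ s
    · rw [himgm s hs hm, hσ']
      simp only [Finset.mem_insert_self, if_true]
      rw [hrec _ (hcases' s hs), Finset.insert_erase hm]
    · have hs' := hcases s hs hm
      rw [himg s hs', hext.2 _ (himgl s hs')]
      exact hco s hs' hne
  · -- dd
    intro s hs hne z hz
    simp only
    by_cases hm : m ∈ s
    · rw [himgm s hs hm, hD']
      simp only [hm, hcases' s hs, and_self, dif_pos]
      exact congrFun hz.2 ⟨s.erase m, Finset.mem_powerset.mpr (hcases' s hs)⟩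
    · have hs' := hcases s hs hm
      rw [himg s hs', hD']
      simp only [hm, false_and, dif_neg, not_false_eq_true]
      exact hdd s hs' hne z hz.1
  · -- ds
    intro s hs
    simp only
    have hm : m ∉ s := fun h => by
      have := Finset.mem_range.mp (hs h)
      omega
    rw [hD']
    simp [hm]
  · simp only [hx'm]
    exact hyA
  · simp only [hx'm]
    exact hy

/-- Self-similarity of dense colourings, with simultaneous prehomogeneity of `d`. -/
theorem selfsim {L : Type*} [Finite L] [Nonempty K] {c : Finset ℕ → K} (hc : DenseCol c)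
    (d : Finset ℕ → L) :
    ∃ (x : ℕ → ℕ) (d' : Finset ℕ → L), StrictMono x ∧
      ∀ s : Finset ℕ, s.Nonempty → ∀ m, (∀ i ∈ s, i < m) →
        c (insert (x m) (s.image x)) = c s ∧ d (insert (x m) (s.image x)) = d' s := by
  classical
  obtain ⟨σ₀⟩ : Nonempty (Finset ℕ → K) := inferInstance
  obtain ⟨f, -, hf⟩ := exists_seq (SInv c d) (SStep c)
    ((fun i => i, Set.univ, 0, σ₀, d) : (ℕ → ℕ) × Set ℕ × ℕ × (Finset ℕ → K) × (Finset ℕ → L))
    ⟨hc.db 0 σ₀, by simp, by simp, by
      intro s hs hne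
      simp only [Finset.range_zero, Finset.subset_empty] at hs
      subst hs
      simp at hne, by
      intro s hs hne
      simp only [Finset.range_zero, Finset.subset_empty] at hs
      subst hs
      simp at hne⟩
    (fun n a ha => sstep ha)
  -- stability of the values
  have hstab : ∀ i n, i < n → (f n).1 i = (f (i + 1)).1 i := by
    intro i n hn
    induction n with
    | zero => omega
    | succ n ih =>
      rcases Nat.lt_succ_iff_lt_or_eq.mp hn with h | h
      · rw [(hf n).2.xs i h, ih h]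
      · rw [h]
  have hdstab : ∀ (s : Finset ℕ) (m n : ℕ), s ⊆ Finset.range m → m ≤ n →
      (f n).2.2.2.2 s = (f m).2.2.2.2 s := by
    intro s m n hs hmn
    induction n, hmn using Nat.le_induction with
    | base => rfl
    | succ n hmn ih =>
      rw [(hf n).2.ds s (hs.trans (Finset.range_mono hmn)), ih]
  refine ⟨fun i => (f (i + 1)).1 i, fun s => (f (s.sup id + 1)).2.2.2.2 s, ?_, ?_⟩
  · intro a b hab
    simp only
    rw [← hstab a (b + 1) (by omega)]
    exact (hf (b + 1)).1.sm a b hab (by omega)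
  · intro s hne m hm
    have hs : s ⊆ Finset.range m := fun i hi => Finset.mem_range.mpr (hm i hi)
    have himg : s.image (fun i => (f (i + 1)).1 i) = s.image (f m).1 := by
      apply Finset.image_congr
      intro i hi
      exact (hstab i m (hm i hi)).symm
    simp only
    rw [himg]
    have hrea := (hf m).2.rea
    have hmem := (hf m).2.mem
    refine ⟨?_, ?_⟩
    · rw [hrea.2 (s.image (f m).1) ?_]
      · exact (hf m).1.co s hs hne
      · intro a ha
        obtain ⟨b, hb, rfl⟩ := Finset.mem_image.mp ha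
        exact Finset.mem_range.mpr ((hf m).1.lt b (hm b hb))
    · rw [(hf m).1.dd s hs hne _ hmem]
      apply hdstab
      · intro a ha
        have : a ≤ s.sup id := Finset.le_sup (f := id) ha
        exact Finset.mem_range.mpr (by omega)
      · have : s.sup id < m := by
          rw [Finset.sup_lt_iff]
          · exact hm
          · obtain ⟨a, ha⟩ := hne
            have := hm a ha
            simp only [Nat.bot_eq_zero]
            omega
        omega

/-- Iterated self-similarity. -/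
theorem selfsim_iter {L : Type*} [Finite L] [Nonempty K] {c : Finset ℕ → K} (hc : DenseCol c)
    (m : ℕ) : ∀ d : Finset ℕ → L, ∃ (φ : ℕ → ℕ) (d' : Finset ℕ → L), StrictMono φ ∧
      ∀ s u : Finset ℕ, s.Nonempty → u.card = m → (∀ a ∈ s, ∀ b ∈ u, a < b) →
        c ((s ∪ u).image φ) = c s ∧ d ((s ∪ u).image φ) = d' s := by
  classical
  induction m with
  | zero =>
    intro d
    refine ⟨id, d, strictMono_id, ?_⟩
    intro s u _ hu _
    rw [Finset.card_eq_zero] at hu
    subst hu
    simp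
  | succ m ih =>
    intro d
    obtain ⟨x, d₁, hx, h1⟩ := selfsim hc d
    obtain ⟨φ, d', hφ, h2⟩ := ih d₁
    refine ⟨x ∘ φ, d', hx.comp hφ, ?_⟩
    intro s u hs hu hsu
    have hune : u.Nonempty := by
      rw [← Finset.card_pos]
      omega
    set y := u.max' hune with hy
    have hyu : y ∈ u := Finset.max'_mem u hune
    have hcard : (u.erase y).card = m := by
      rw [Finset.card_erase_of_mem hyu]
      omega
    have hlt : ∀ a ∈ s ∪ u.erase y, a < y := by
      intro a ha
      rcases Finset.mem_union.mp ha with h | h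
      · exact hsu a h y hyu
      · exact lt_of_le_of_ne (Finset.le_max' u a (Finset.mem_of_mem_erase h))
          (Finset.ne_of_mem_erase h)
    have hunion : s ∪ u = insert y (s ∪ u.erase y) := by
      rw [← Finset.union_insert, Finset.insert_erase hyu]
    have himg : (s ∪ u).image (x ∘ φ) = insert (x (φ y)) (((s ∪ u.erase y).image φ).image x) := by
      rw [hunion, Finset.image_insert, Finset.image_image]
      rfl
    have h3 := h2 s (u.erase y) hs hcard (fun a ha b hb => hsu a ha b (Finset.mem_of_mem_erase hb))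
    have h4 := h1 ((s ∪ u.erase y).image φ)
      ((hs.mono Finset.subset_union_left).image φ) (φ y) (by
        intro i hi
        obtain ⟨a, ha, rfl⟩ := Finset.mem_image.mp hi
        exact hφ (hlt a ha))
    rw [himg, h4.1, h4.2, h3.1, h3.2]
    exact ⟨rfl, rfl⟩

end Pool.Agent.Soc
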