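import Pool.Agent.Lib_helper80.SocDefs

/-!
Codes for oracle computations, and the use principle.
-/

namespace Pool.Agent.Soc

/-- Codes for partial recursive functionals. -/
inductive OCode
  | zero | succ | left | right | oracle
  | pair (a b : OCode) | comp (a b : OCode) | prec (a b : OCode) | rfind (a : OCode)
  deriving Encodable

/-- Evaluation of codes. -/
def OCode.eval (g : ℕ →. ℕ) : OCode → (ℕ →. ℕ)
  | .zero => fun _ => 0
  | .succ => Nat.succ
  | .left => fun n => (Nat.unpair n).1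
  | .right => fun n => (Nat.unpair n).2
  | .oracle => g
  | .pair a b => fun n => (Nat.pair <$> a.eval g n <*> b.eval g n)
  | .comp a b => fun n => b.eval g n >>= a.eval g
  | .prec a b => fun p =>
        let (x, n) := Nat.unpair p
        n.rec (a.eval g x) fun y IH => do
          let i ← IH
          b.eval g (Nat.pair x (Nat.pair y i))
  | .rfind a => fun x =>
        Nat.rfind fun n => (fun m => m = 0) <$> a.eval g (Nat.pair x n)

theorem exists_code {g f : ℕ →. ℕ} (h : Nat.RecursiveIn {g} f) : ∃ c : OCode, c.eval g = f := by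
  induction h with
  | zero => exact ⟨.zero, rfl⟩
  | succ => exact ⟨.succ, rfl⟩
  | left => exact ⟨.left, rfl⟩
  | right => exact ⟨.right, rfl⟩
  | oracle g' hg' =>
    rw [Set.mem_singleton_iff] at hg'
    subst hg'
    exact ⟨.oracle, rfl⟩
  | pair _ _ ih₁ ih₂ =>
    obtain ⟨a, rfl⟩ := ih₁
    obtain ⟨b, rfl⟩ := ih₂
    exact ⟨.pair a b, rfl⟩
  | comp _ _ ih₁ ih₂ =>
    obtain ⟨a, rfl⟩ := ih₁
    obtain ⟨b, rfl⟩ := ih₂
    exact ⟨.comp a b, rfl⟩
  | prec _ _ ih₁ ih₂ =>
    obtain ⟨a, rfl⟩ := ih₁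
    obtain ⟨b, rfl⟩ := ih₂
    exact ⟨.prec a b, rfl⟩
  | rfind _ ih₁ =>
    obtain ⟨a, rfl⟩ := ih₁
    exact ⟨.rfind a, rfl⟩

/-- A functional is continuous: a converging computation depends on finitely many values of the
oracle. -/
def Cont (Ψ : (ℕ →. ℕ) → (ℕ →. ℕ)) : Prop :=
  ∀ (g : ℕ →. ℕ) (n m : ℕ), m ∈ Ψ g n → ∃ N : ℕ, ∀ g' : ℕ →. ℕ, (∀ i < N, g' i = g i) →
    m ∈ Ψ g' n

theorem cont_prec {Φ Ψ : (ℕ →. ℕ) → (ℕ →. ℕ)} (h1 : Cont Φ) (h2 : Cont Ψ) (g : ℕ →. ℕ)
    (x n : ℕ) : ∀ m : ℕ, m ∈ (n.rec (Φ g x) fun y IH => do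
          let i ← IH
          Ψ g (Nat.pair x (Nat.pair y i)) : Part ℕ) →
      ∃ N : ℕ, ∀ g' : ℕ →. ℕ, (∀ i < N, g' i = g i) →
        m ∈ (n.rec (Φ g' x) fun y IH => do
          let i ← IH
          Ψ g' (Nat.pair x (Nat.pair y i)) : Part ℕ) := by
  induction n with
  | zero =>
    intro m hm
    exact h1 g x m hm
  | succ n ih =>
    intro m hm
    simp only [Part.bind_eq_bind, Part.mem_bind_iff] at hm
    obtain ⟨i, hi, hm⟩ := hm
    obtain ⟨N₁, hN₁⟩ := ih i hi
    obtain ⟨N₂, hN₂⟩ := h2 g _ m hm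
    refine ⟨max N₁ N₂, fun g' hg' => ?_⟩
    simp only [Part.bind_eq_bind, Part.mem_bind_iff]
    exact ⟨i, hN₁ g' (fun i hi => hg' i (lt_of_lt_of_le hi (le_max_left _ _))),
      hN₂ g' (fun i hi => hg' i (lt_of_lt_of_le hi (le_max_right _ _)))⟩

theorem cont_eval (c : OCode) : Cont (fun g => c.eval g) := by
  induction c with
  | zero => exact fun g n m h => ⟨0, fun g' _ => h⟩
  | succ => exact fun g n m h => ⟨0, fun g' _ => h⟩
  | left => exact fun g n m h => ⟨0, fun g' _ => h⟩
  | right => exact fun g n m h => ⟨0, fun g' _ => h⟩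
  | oracle =>
    intro g n m h
    refine ⟨n + 1, fun g' hg' => ?_⟩
    have := hg' n (Nat.lt_succ_self n)
    simp only [OCode.eval] at h ⊢
    rw [this]
    exact h
  | pair a b iha ihb =>
    intro g n m h
    simp only [OCode.eval, Seq.seq, Part.map_eq_map, Part.mem_bind_iff,
      Part.mem_map_iff] at h
    obtain ⟨_, ⟨u, hu, rfl⟩, v, hv, rfl⟩ := h
    obtain ⟨N₁, hN₁⟩ := iha g n u hu
    obtain ⟨N₂, hN₂⟩ := ihb g n v hv
    refine ⟨max N₁ N₂, fun g' hg' => ?_⟩
    simp only [OCode.eval, Seq.seq, Part.map_eq_map, Part.mem_bind_iff,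
      Part.mem_map_iff]
    exact ⟨_, ⟨u, hN₁ g' (fun i hi => hg' i (lt_of_lt_of_le hi (le_max_left _ _))), rfl⟩, v,
      hN₂ g' (fun i hi => hg' i (lt_of_lt_of_le hi (le_max_right _ _))), rfl⟩
  | comp a b iha ihb =>
    intro g n m h
    simp only [OCode.eval, Part.bind_eq_bind, Part.mem_bind_iff] at h
    obtain ⟨u, hu, hm⟩ := h
    obtain ⟨N₁, hN₁⟩ := ihb g n u hu
    obtain ⟨N₂, hN₂⟩ := iha g u m hm
    refine ⟨max N₁ N₂, fun g' hg' => ?_⟩
    simp only [OCode.eval, Part.bind_eq_bind, Part.mem_bind_iff]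
    exact ⟨u, hN₁ g' (fun i hi => hg' i (lt_of_lt_of_le hi (le_max_left _ _))),
      hN₂ g' (fun i hi => hg' i (lt_of_lt_of_le hi (le_max_right _ _)))⟩
  | prec a b iha ihb =>
    intro g n m h
    exact cont_prec iha ihb g _ _ m h
  | rfind a iha =>
    intro g n m h
    simp only [OCode.eval, Nat.mem_rfind] at h
    obtain ⟨h1, h2⟩ := h
    -- uses for the values up to `m`
    have key : ∀ k ≤ m, ∃ N : ℕ, ∀ g' : ℕ →. ℕ, (∀ i < N, g' i = g i) →
        ∀ b : Bool, b ∈ ((fun m => decide (m = 0)) <$> a.eval g (Nat.pair n k) : Part Bool) →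
          b ∈ ((fun m => decide (m = 0)) <$> a.eval g' (Nat.pair n k) : Part Bool) := by
      intro k hk
      have : ∃ v, v ∈ a.eval g (Nat.pair n k) := by
        rcases hk.lt_or_eq with hk | rfl
        · have := h2 hk
          simp only [Part.map_eq_map, Part.mem_map_iff] at this
          obtain ⟨v, hv, -⟩ := this
          exact ⟨v, hv⟩
        · simp only [Part.map_eq_map, Part.mem_map_iff] at h1
          obtain ⟨v, hv, -⟩ := h1
          exact ⟨v, hv⟩
      obtain ⟨v, hv⟩ := this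
      obtain ⟨N, hN⟩ := iha g _ v hv
      refine ⟨N, fun g' hg' b hb => ?_⟩
      simp only [Part.map_eq_map, Part.mem_map_iff] at hb ⊢
      obtain ⟨w, hw, rfl⟩ := hb
      refine ⟨v, hN g' hg', ?_⟩
      rw [Part.mem_unique hw hv]
    choose! N hN using key
    refine ⟨(Finset.range (m + 1)).sup N, fun g' hg' => ?_⟩
    have hsup : ∀ k ≤ m, ∀ i < N k, g' i = g i := by
      intro k hk i hi
      apply hg'
      exact lt_of_lt_of_le hi (Finset.le_sup (f := N) (Finset.mem_range.mpr (by omega)))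
    simp only [OCode.eval, Nat.mem_rfind]
    refine ⟨hN m le_rfl g' (hsup m le_rfl) _ h1, ?_⟩
    intro k hk
    exact hN k hk.le g' (hsup k hk.le) _ (h2 hk)

/-- `E` is an initial segment of the set `H`. -/
def Init (E : Finset ℕ) (H : Set ℕ) : Prop :=
  (E : Set ℕ) ⊆ H ∧ ∀ x ∈ H, x ∉ E → ∀ y ∈ E, y < x

/-- An enumeration of codes. -/
theorem exists_enum : ∃ f : ℕ → OCode, Function.Surjective f := by
  have : Nonempty OCode := ⟨.zero⟩
  exact exists_surjective_nat OCode

/-- The `e`-th code. -/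
noncomputable def codeEnum : ℕ → OCode := Classical.choose exists_enum

theorem codeEnum_surj : Function.Surjective codeEnum := Classical.choose_spec exists_enum

/-- The numbers that the `e`-th functional puts in its output as soon as the initial segment `E`
of the oracle is known. -/
def WW (e : ℕ) (E : Finset ℕ) : Set ℕ :=
  {u | ∀ H : Set ℕ, Init E H → 1 ∈ (codeEnum e).eval (chi H) u}

theorem WW_mono {e : ℕ} {E E' : Finset ℕ} (h : Init E (E' : Set ℕ)) : WW e E ⊆ WW e E' := by
  intro u hu H hH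
  apply hu H
  refine ⟨fun x hx => hH.1 (h.1 hx), ?_⟩
  intro x hx hxE y hy
  by_cases hx' : x ∈ E'
  · exact h.2 x hx' hxE y hy
  · exact hH.2 x hx hx' y (h.1 hy)

/-- The output of a functional, as a union over initial segments. -/
def Out (W : ℕ → Finset ℕ → Set ℕ) (e : ℕ) (H : Set ℕ) : Set ℕ :=
  {u | ∃ E : Finset ℕ, Init E H ∧ u ∈ W e E}

theorem exists_out {Y H : Set ℕ} (hH : H.Infinite) (h : ComputableFrom Y H) :
    ∃ e, Out WW e H = Y := by
  have h1 : Nat.RecursiveIn {chi H} (chi Y) := RecursiveIn.iff_nat.mp h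
  obtain ⟨c, hc⟩ := exists_code h1
  obtain ⟨e, rfl⟩ := codeEnum_surj c
  refine ⟨e, ?_⟩
  ext u
  constructor
  · rintro ⟨E, hE, hu⟩
    have h2 := hu H hE
    rw [hc] at h2
    by_contra hY
    simp [chi, hY] at h2
  · intro hu
    have h2 : 1 ∈ (codeEnum e).eval (chi H) u := by
      rw [hc]
      simp [chi, hu]
    obtain ⟨N, hN⟩ := cont_eval (codeEnum e) (chi H) u 1 h2
    obtain ⟨h, hh, hNh⟩ := hH.exists_gt N
    classical
    refine ⟨(Finset.range (h + 1)).filter (fun x => x ∈ H), ⟨?_, ?_⟩, ?_⟩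
    · intro x hx
      simp only [Finset.coe_filter, Set.mem_ofPred_eq] at hx
      exact hx.2
    · intro x hx hxE y hy
      simp only [Finset.mem_filter, Finset.mem_range] at hxE hy
      have : ¬ x < h + 1 := fun h' => hxE ⟨h', hx⟩
      omega
    · intro H' hH'
      apply hN
      intro i hi
      have hiff : i ∈ H' ↔ i ∈ H := by
        constructor
        · intro hi'
          by_contra hcon
          have hnE : i ∉ (Finset.range (h + 1)).filter (fun x => x ∈ H) := by
            simp [hcon]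
          have := hH'.2 i hi' hnE h (by simp [hh])
          omega
        · intro hi'
          apply hH'.1
          simp only [Finset.coe_filter, Set.mem_ofPred_eq, Finset.mem_range]
          exact ⟨by omega, hi'⟩
      simp only [chi]
      by_cases hiH : i ∈ H
      · simp [hiH, hiff.mpr hiH]
      · have : i ∉ H' := fun h' => hiH (hiff.mp h')
        simp [hiH, this]

end Pool.Agent.Soc
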