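import Pool.Agent.Lib_helper80.SocDense

/-!
Generic colourings, and the sparse set of oracle elements.
-/

namespace Pool.Agent.Soc

/-- Finite extension method. -/
theorem exists_generic {I K : Type*} (D : ℕ → Set (I → K)) (f₀ : I → K)
    (hD : ∀ n (f : I → K) (J : Finset I), ∃ f' : I → K, (∀ i ∈ J, f' i = f i) ∧
      ∃ J' : Finset I, ∀ f'' : I → K, (∀ i ∈ J', f'' i = f' i) → f'' ∈ D n) :
    ∃ f, ∀ n, f ∈ D n := by
  classical
  obtain ⟨F, -, hF⟩ := exists_seq (α := (I → K) × Finset I) (fun _ _ => True)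
    (fun n p q => p.2 ⊆ q.2 ∧ (∀ i ∈ p.2, q.1 i = p.1 i) ∧
      ∀ f'' : I → K, (∀ i ∈ q.2, f'' i = q.1 i) → f'' ∈ D n) (f₀, ∅) trivial (by
    rintro n ⟨f, J⟩ -
    obtain ⟨f', h1, J', h2⟩ := hD n f J
    refine ⟨(f', J ∪ J'), trivial, Finset.subset_union_left, h1, ?_⟩
    intro f'' h3
    exact h2 f'' (fun i hi => h3 i (Finset.mem_union_right _ hi)))
  have hsub : ∀ m n, m ≤ n → (F m).2 ⊆ (F n).2 := by
    intro m n hmn
    induction n, hmn using Nat.le_induction with
    | base => exact subset_rfl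
    | succ n _ ih => exact ih.trans (hF n).2.1
  have hst : ∀ m n, m ≤ n → ∀ i ∈ (F m).2, (F n).1 i = (F m).1 i := by
    intro m n hmn
    induction n, hmn using Nat.le_induction with
    | base => exact fun _ _ => rfl
    | succ n hn ih =>
      intro i hi
      rw [(hF n).2.2.1 i (hsub m n hn hi), ih i hi]
  refine ⟨fun i => if h : ∃ n, i ∈ (F n).2 then (F (Nat.find h)).1 i else f₀ i, fun n => ?_⟩
  apply (hF n).2.2.2
  intro i hi
  have h : ∃ n, i ∈ (F n).2 := ⟨n + 1, hi⟩
  simp only [h, dif_pos]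
  exact (hst (Nat.find h) (n + 1) (Nat.find_min' h hi) i (Nat.find_spec h)).symm

/-- The colouring obtained from a block structure and two generic colourings. -/
noncomputable def comb {K : Type*} (blk : ℕ → ℕ) (f : Finset ℕ ⊕ Finset ℕ → K)
    (U : Finset ℕ) : K :=
  open Classical in
  if Set.InjOn blk U then f (Sum.inl (U.image blk)) else f (Sum.inr U)

theorem comb_inj {K : Type*} {blk : ℕ → ℕ} {f : Finset ℕ ⊕ Finset ℕ → K} {U : Finset ℕ}
    (h : Set.InjOn blk U) : comb blk f U = f (Sum.inl (U.image blk)) := if_pos h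

theorem comb_non {K : Type*} {blk : ℕ → ℕ} {f : Finset ℕ ⊕ Finset ℕ → K} {U : Finset ℕ}
    (h : ¬ Set.InjOn blk U) : comb blk f U = f (Sum.inr U) := if_neg h

theorem exists_generic_col {K : Type} [Finite K] [Nontrivial K] (blk : ℕ → ℕ)
    (hblk : ∀ m, {u | blk u = m}.Finite) (V : ℕ → Set (Finset ℕ)) :
    ∃ f : Finset ℕ ⊕ Finset ℕ → K, DenseCol (fun s => f (Sum.inl s)) ∧
      ∀ i j, (V i).Infinite → ∃ U ∈ V i, comb blk f U ≠ j := by
  classical
  obtain ⟨k₀, -⟩ := exists_pair_ne K
  let ι := (Σ l : ℕ, ((Finset.range l).powerset → K)) ⊕ (ℕ × K)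
  have : Nonempty ι := ⟨Sum.inr (0, k₀)⟩
  obtain ⟨e, he⟩ := exists_surjective_nat ι
  let D₀ : ι → Set (Finset ℕ ⊕ Finset ℕ → K) := fun r =>
    match r with
    | Sum.inl p => {f | ∃ y, p.1 ≤ y ∧ ∀ s : (Finset.range p.1).powerset,
        f (Sum.inl (insert y (s : Finset ℕ))) = p.2 s}
    | Sum.inr q => {f | (V q.1).Infinite → ∃ U ∈ V q.1, comb blk f U ≠ q.2}
  obtain ⟨f, hf⟩ := exists_generic (fun n => D₀ (e n)) (fun _ => k₀) (by
    intro n f J
    rcases e n with ⟨l, σ⟩ | ⟨i, j⟩
    · -- density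
      let T : Finset ℕ := J.biUnion (fun i => Sum.elim id id i)
      let y := max l (T.sup id + 1)
      have hyT : ∀ t, Sum.inl t ∈ J → y ∉ t := by
        intro t ht hy
        have h1 : y ∈ T := Finset.mem_biUnion.mpr ⟨Sum.inl t, ht, hy⟩
        have h2 : y ≤ T.sup id := Finset.le_sup (f := id) h1
        have h3 : T.sup id + 1 ≤ y := le_max_right _ _
        omega
      have hly : l ≤ y := le_max_left _ _
      let f' : Finset ℕ ⊕ Finset ℕ → K := fun i =>
        match i with
        | Sum.inl t => if h : y ∈ t ∧ t.erase y ∈ (Finset.range l).powerset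
            then σ ⟨t.erase y, h.2⟩ else f (Sum.inl t)
        | Sum.inr t => f (Sum.inr t)
      refine ⟨f', ?_, (Finset.range l).powerset.image (fun s => Sum.inl (insert y s)), ?_⟩
      · rintro (t | t) ht
        · have := hyT t ht
          simp [f', this]
        · rfl
      · intro f'' h
        refine ⟨y, hly, ?_⟩
        rintro ⟨s, hs⟩
        rw [h _ (Finset.mem_image_of_mem _ hs)]
        have hys : y ∉ s := by
          intro hy
          have h2 : y < l := Finset.mem_range.mp (Finset.mem_powerset.mp hs hy)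
          omega
        have h1 : (insert y s).erase y = s := Finset.erase_insert hys
        simp only [f', Finset.mem_insert_self, true_and]
        rw [dif_pos (by rw [h1]; exact hs)]
        congr 1
        exact Subtype.ext h1
    · -- the families
      by_cases hV : (V i).Infinite
      · obtain ⟨j', hj'⟩ := exists_ne j
        by_cases hinj : {U ∈ V i | Set.InjOn blk (U : Set ℕ)}.Infinite
        · -- infinitely many injective members
          have himg : ((fun U : Finset ℕ => U.image blk) ''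
              {U ∈ V i | Set.InjOn blk (U : Set ℕ)}).Infinite := by
            intro hfin
            apply hinj
            let T : Finset ℕ := hfin.toFinset.biUnion id
            have hfin' : {u : ℕ | blk u ∈ T}.Finite := by
              have : {u : ℕ | blk u ∈ T} = ⋃ m ∈ T, {u | blk u = m} := by
                ext u
                simp
              rw [this]
              exact Set.Finite.biUnion T.finite_toSet (fun m _ => hblk m)
            apply (Set.Finite.finite_subsets hfin').preimage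
              (f := fun U : Finset ℕ => (U : Set ℕ)) Finset.coe_injective.injOn |>.subset
            rintro U ⟨hU1, hU2⟩ u hu
            simp only [Set.mem_ofPred_eq]
            refine Finset.mem_biUnion.mpr ⟨U.image blk, ?_, Finset.mem_image_of_mem _ hu⟩
            rw [Set.Finite.mem_toFinset]
            exact ⟨U, ⟨hU1, hU2⟩, rfl⟩
          obtain ⟨t, ⟨U, ⟨hU1, hU2⟩, rfl⟩, ht⟩ :=
            himg.exists_notMem_finset (J.image (fun i => Sum.elim id id i))
          have hnJ : Sum.inl (U.image blk) ∉ J := by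
            intro h
            apply ht
            exact Finset.mem_image.mpr ⟨_, h, rfl⟩
          refine ⟨Function.update f (Sum.inl (U.image blk)) j', ?_,
            {Sum.inl (U.image blk)}, ?_⟩
          · intro a ha
            apply Function.update_of_ne
            rintro rfl
            exact hnJ ha
          · intro f'' h _
            refine ⟨U, hU1, ?_⟩
            rw [comb_inj hU2, h _ (by simp), Function.update_self]
            exact hj'
        · -- infinitely many non injective members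
          have hnon : {U ∈ V i | ¬ Set.InjOn blk (U : Set ℕ)}.Infinite := by
            intro hfin
            apply hV
            have : V i = {U ∈ V i | Set.InjOn blk (U : Set ℕ)} ∪
                {U ∈ V i | ¬ Set.InjOn blk (U : Set ℕ)} := by
              ext U
              by_cases h : Set.InjOn blk (U : Set ℕ) <;> simp [h]
            rw [this]
            exact (Set.not_infinite.mp hinj).union hfin
          obtain ⟨U, ⟨hU1, hU2⟩, hU3⟩ :=
            hnon.exists_notMem_finset (J.image (fun i => Sum.elim id id i))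
          have hnJ : Sum.inr U ∉ J := by
            intro h
            apply hU3
            exact Finset.mem_image.mpr ⟨_, h, rfl⟩
          refine ⟨Function.update f (Sum.inr U) j', ?_, {Sum.inr U}, ?_⟩
          · intro a ha
            apply Function.update_of_ne
            rintro rfl
            exact hnJ ha
          · intro f'' h _
            refine ⟨U, hU1, ?_⟩
            rw [comb_non hU2, h _ (by simp), Function.update_self]
            exact hj'
      · exact ⟨f, fun _ _ => rfl, ∅, fun f'' _ h => absurd h hV⟩)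
  refine ⟨f, ?_, ?_⟩
  · intro l σ
    obtain ⟨n, hn⟩ := he (Sum.inl ⟨l, fun s => σ s⟩)
    have := hf n
    simp only [hn] at this
    obtain ⟨y, hy, h⟩ := this
    exact ⟨y, hy, fun s hs => h ⟨s, Finset.mem_powerset.mpr hs⟩⟩
  · intro i j hi
    obtain ⟨n, hn⟩ := he (Sum.inr (i, j))
    have := hf n
    simp only [hn] at this
    exact this hi

/-- The set `Y` avoids putting `U` in the output. -/
def Av (W : ℕ → Finset ℕ → Set ℕ) (q : ℕ × Finset ℕ × Finset ℕ) (Y : Set ℕ) : Prop :=
  ∀ E : Finset ℕ, (E : Set ℕ) ⊆ Y → ¬ ((q.2.2 : Set ℕ) ⊆ W q.1 (q.2.1 ∪ E))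

theorem Av.mono {W : ℕ → Finset ℕ → Set ℕ} {q : ℕ × Finset ℕ × Finset ℕ} {Y Y' : Set ℕ}
    (h : Av W q Y) (hY : Y' ⊆ Y) : Av W q Y' := fun E hE => h E (hE.trans hY)

/-- The family of finite sets of questions with parameters up to `N`. -/
def qs (N : ℕ) : Finset (ℕ × Finset ℕ × Finset ℕ) :=
  Finset.range (N + 1) ×ˢ ((Finset.range (N + 1)).powerset ×ˢ (Finset.range (N + 1)).powerset)

theorem exists_prep (W : ℕ → Finset ℕ → Set ℕ) (n : ℕ) :
    ∃ (z : ℕ → ℕ) (R : ℕ → Finset ℕ → Set (Finset ℕ)), StrictMono z ∧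
      (∀ e F U, U ∈ R e F → ∀ Y : Set ℕ, Y ⊆ Set.range z → Y.Infinite →
        ∃ E : Finset ℕ, (E : Set ℕ) ⊆ Y ∧ (U : Set ℕ) ⊆ W e (F ∪ E)) ∧
      (∀ e F U l, e ≤ z l → (∀ x ∈ F, x ≤ z l) → (∀ x ∈ U, x ≤ z l) → U ∉ R e F →
        ∀ E : Finset ℕ, (∀ x ∈ E, ∃ l' > l, x = z l') → ¬ ((U : Set ℕ) ⊆ W e (F ∪ E))) ∧
      (∀ e F l, e ≤ z l → (∀ x ∈ F, x ≤ z l) → {U ∈ R e F | U.card = n}.Finite →
        ∀ U ∈ R e F, U.card = n → ∀ u ∈ U, u < z (l + 1)) := by
  classical
  -- the decreasing sequence of infinite sets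
  obtain ⟨Y, -, hY⟩ := exists_seq (α := Set ℕ) (fun _ A => A.Infinite)
    (fun i A B => B ⊆ A ∧ ∀ q : ℕ × Finset ℕ × Finset ℕ, Encodable.encode q = i →
      (Av W q B ∨ ∀ B' ⊆ B, B'.Infinite → ¬ Av W q B')) Set.univ Set.infinite_univ (by
    intro i A hA
    by_cases hq : ∃ q : ℕ × Finset ℕ × Finset ℕ, Encodable.encode q = i ∧
        ∃ B ⊆ A, B.Infinite ∧ Av W q B
    · obtain ⟨q, hq, B, hBA, hB, hav⟩ := hq
      refine ⟨B, hB, hBA, ?_⟩
      intro q' hq'
      have : q' = q := Encodable.encode_injective (hq'.trans hq.symm)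
      subst this
      exact Or.inl hav
    · refine ⟨A, hA, subset_rfl, ?_⟩
      intro q hqi
      right
      intro B' hB' hinf hav
      exact hq ⟨q, hqi, B', hB', hinf, hav⟩)
  have hYmono : ∀ i j, i ≤ j → Y j ⊆ Y i := by
    intro i j hij
    induction j, hij using Nat.le_induction with
    | base => exact subset_rfl
    | succ j _ ih => exact (hY j).2.1.trans ih
  obtain ⟨R, hR⟩ : ∃ R : ℕ → Finset ℕ → Set (Finset ℕ),
      ∀ e F U, U ∈ R e F ↔ ¬ Av W (e, F, U) (Y (Encodable.encode (e, F, U) + 1)) :=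
    ⟨fun e F => {U | ¬ Av W (e, F, U) (Y (Encodable.encode (e, F, U) + 1))},
      fun e F U => Iff.rfl⟩
  have hR' : ∀ e F U, U ∈ R e F → ∀ B ⊆ Y (Encodable.encode (e, F, U) + 1), B.Infinite →
      ¬ Av W (e, F, U) B := by
    intro e F U hU
    rcases (hY _).2.2 (e, F, U) rfl with h | h
    · exact absurd h ((hR e F U).mp hU)
    · exact h
  -- bounds
  let g : ℕ → ℕ := fun N => (qs N).sup (fun q => Encodable.encode q + 1)
  have hgmono : Monotone g := by
    intro M N hMN
    apply Finset.sup_mono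
    unfold qs
    have h1 : Finset.range (M + 1) ⊆ Finset.range (N + 1) := Finset.range_mono (by omega)
    exact Finset.product_subset_product h1 (Finset.product_subset_product
      (Finset.powerset_mono.mpr h1) (Finset.powerset_mono.mpr h1))
  have hg : ∀ N e F U, e ≤ N → (∀ x ∈ F, x ≤ N) → (∀ x ∈ U, x ≤ N) →
      Encodable.encode ((e, F, U) : ℕ × Finset ℕ × Finset ℕ) + 1 ≤ g N := by
    intro N e F U he hF hU
    apply Finset.le_sup (f := fun q : ℕ × Finset ℕ × Finset ℕ => Encodable.encode q + 1)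
    unfold qs
    simp only [Finset.mem_product, Finset.mem_range, Finset.mem_powerset]
    refine ⟨by omega, ?_, ?_⟩
    · intro x hx
      have := hF x hx
      exact Finset.mem_range.mpr (by omega)
    · intro x hx
      have := hU x hx
      exact Finset.mem_range.mpr (by omega)
  have hB₀ : ∀ (e : ℕ) (F : Finset ℕ), ∃ b : ℕ, {U ∈ R e F | U.card = n}.Finite →
      ∀ U ∈ R e F, U.card = n → ∀ u ∈ U, u ≤ b := by
    intro e F
    by_cases hfin : {U ∈ R e F | U.card = n}.Finite
    · refine ⟨(hfin.toFinset.biUnion id).sup id, fun _ U hU hc u hu => ?_⟩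
      apply Finset.le_sup (f := id)
      refine Finset.mem_biUnion.mpr ⟨U, ?_, hu⟩
      rw [Set.Finite.mem_toFinset]
      exact ⟨hU, hc⟩
    · exact ⟨0, fun h => absurd h hfin⟩
  choose b hb using hB₀
  let B : ℕ → ℕ := fun N => (qs N).sup (fun q => b q.1 q.2.1)
  have hB : ∀ N e F, e ≤ N → (∀ x ∈ F, x ≤ N) → b e F ≤ B N := by
    intro N e F he hF
    apply Finset.le_sup (f := fun q : ℕ × Finset ℕ × Finset ℕ => b q.1 q.2.1)
      (b := (e, F, ∅))
    unfold qs
    simp only [Finset.mem_product, Finset.mem_range, Finset.mem_powerset]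
    refine ⟨by omega, ?_, by simp⟩
    intro x hx
    have := hF x hx
    exact Finset.mem_range.mpr (by omega)
  have hnext : ∀ N, ∃ m, m ∈ Y (g N) ∧ N < m ∧ B N < m := by
    intro N
    obtain ⟨m, hm, hm'⟩ := (hY (g N)).1.exists_gt (max N (B N))
    exact ⟨m, hm, lt_of_le_of_lt (le_max_left _ _) hm', lt_of_le_of_lt (le_max_right _ _) hm'⟩
  choose next hn1 hn2 hn3 using hnext
  let z : ℕ → ℕ := fun l => Nat.rec 0 (fun _ a => next a) l
  have hz : ∀ l, z (l + 1) = next (z l) := fun l => rfl
  have hzm : StrictMono z := by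
    apply strictMono_nat_of_lt_succ
    intro l
    rw [hz]
    exact hn2 _
  have htail : ∀ l l', l < l' → z l' ∈ Y (g (z l)) := by
    intro l l' hl
    obtain ⟨k, rfl⟩ : ∃ k, l' = k + 1 := ⟨l' - 1, by omega⟩
    rw [hz]
    exact hYmono _ _ (hgmono (hzm.monotone (by omega))) (hn1 _)
  refine ⟨z, R, hzm, ?_, ?_, ?_⟩
  · intro e F U hU A hA hinf
    -- a large index
    obtain ⟨N, hN⟩ : ∃ N, e ≤ N ∧ (∀ x ∈ F, x ≤ N) ∧ (∀ x ∈ U, x ≤ N) := by
      refine ⟨max e (max (F.sup id) (U.sup id)), le_max_left _ _, ?_, ?_⟩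
      · intro x hx
        exact (Finset.le_sup (f := id) hx).trans ((le_max_left _ _).trans (le_max_right _ _))
      · intro x hx
        exact (Finset.le_sup (f := id) hx).trans ((le_max_right _ _).trans (le_max_right _ _))
    have hzN : N ≤ z N := hzm.id_le N
    have hle := hg (z N) e F U (hN.1.trans hzN) (fun x hx => (hN.2.1 x hx).trans hzN)
      (fun x hx => (hN.2.2 x hx).trans hzN)
    have hinf' : (A ∩ Y (Encodable.encode (e, F, U) + 1)).Infinite := by
      intro hfin
      apply hinf
      apply (hfin.union ((Finset.range (N + 1)).image z).finite_toSet).subset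
      intro a ha
      obtain ⟨l, rfl⟩ := hA ha
      by_cases hl : N < l
      · exact Or.inl ⟨ha, hYmono _ _ hle (htail N l hl)⟩
      · right
        simp only [Finset.coe_image, Finset.coe_range, Set.mem_image, Set.mem_Iio]
        exact ⟨l, by omega, rfl⟩
    have h1 := hR' e F U hU _ Set.inter_subset_right hinf'
    unfold Av at h1
    push Not at h1
    obtain ⟨E, hE, hE'⟩ := h1
    exact ⟨E, hE.trans Set.inter_subset_left, hE'⟩
  · intro e F U l he hF hU hnR E hE
    have h1 : Av W (e, F, U) (Y (Encodable.encode (e, F, U) + 1)) := by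
      by_contra h
      exact hnR ((hR e F U).mpr h)
    apply h1 E
    intro x hx
    obtain ⟨l', hl', rfl⟩ := hE x hx
    exact hYmono _ _ (hg (z l) e F U he hF hU) (htail l l' hl')
  · intro e F l he hF hfin U hU hc u hu
    have h1 := hb e F hfin U hU hc u hu
    have h2 := hB (z l) e F he hF
    rw [hz]
    exact lt_of_le_of_lt (h1.trans h2) (hn3 _)

/-- The block of a number. -/
theorem exists_blk {z : ℕ → ℕ} (hz : StrictMono z) : ∃ blk : ℕ → ℕ,
    (∀ u m, u ≤ z (2 * m + 2) → z (2 * m) < u → blk u = m) ∧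
    (∀ u, u ≤ z (2 * blk u + 2)) ∧ (∀ m, {u | blk u = m}.Finite) := by
  classical
  have hex : ∀ u, ∃ m, u ≤ z (2 * m + 2) := fun u => ⟨u, by
    have := hz.id_le (2 * u + 2)
    simp only [id] at this
    omega⟩
  refine ⟨fun u => Nat.find (hex u), ?_, fun u => Nat.find_spec (hex u), ?_⟩
  · intro u m h1 h2
    rw [Nat.find_eq_iff]
    refine ⟨h1, fun k hk hle => ?_⟩
    have : z (2 * k + 2) ≤ z (2 * m) := hz.monotone (by omega)
    omega
  · intro m
    apply (Set.finite_Iic (z (2 * m + 2))).subset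
    intro u hu
    rw [Set.mem_ofPred_eq] at hu
    rw [Set.mem_Iic, ← hu]
    exact Nat.find_spec (hex u)

end Pool.Agent.Soc
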