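import Pool.Agent.Lib_helper80.SocRes
import Pool.Agent.Lib_helper80.SocPrep
import Pool.Agent.Lib_helper80.SocOracle

/-!
The construction of a homogeneous set computing no solution.
-/

namespace Pool.Agent.Soc

/-- The data prepared in advance, for functionals `W` and dimension `nc`. -/
structure Env (K : Type) (nc : ℕ) where
  W : ℕ → Finset ℕ → Set ℕ
  Wmono : ∀ e (E E' : Finset ℕ), Init E (E' : Set ℕ) → W e E ⊆ W e E'
  z : ℕ → ℕ
  hz : StrictMono z
  R : ℕ → Finset ℕ → Set (Finset ℕ)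
  land : ∀ e F U, U ∈ R e F → ∀ Y : Set ℕ, Y ⊆ Set.range z → Y.Infinite →
    ∃ E : Finset ℕ, (E : Set ℕ) ⊆ Y ∧ (U : Set ℕ) ⊆ W e (F ∪ E)
  avoid : ∀ e F U l, e ≤ z l → (∀ x ∈ F, x ≤ z l) → (∀ x ∈ U, x ≤ z l) → U ∉ R e F →
    ∀ E : Finset ℕ, (∀ x ∈ E, ∃ l' > l, x = z l') → ¬ ((U : Set ℕ) ⊆ W e (F ∪ E))
  sparse : ∀ e F l, e ≤ z l → (∀ x ∈ F, x ≤ z l) → {U ∈ R e F | U.card = nc}.Finite →
    ∀ U ∈ R e F, U.card = nc → ∀ u ∈ U, u < z (l + 1)
  blk : ℕ → ℕ
  blk_eq : ∀ u m, u ≤ z (2 * m + 2) → z (2 * m) < u → blk u = m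
  blk_fin : ∀ m, {u | blk u = m}.Finite
  f : Finset ℕ ⊕ Finset ℕ → K
  gen : ∀ e F j, {U ∈ R e F | U.card = nc}.Infinite →
    ∃ U ∈ R e F, U.card = nc ∧ comb blk f U ≠ j

/-- The elements of the oracle. -/
def Env.θ {K : Type} {nc : ℕ} (V : Env K nc) (x : ℕ) : ℕ := V.z (2 * x + 1)

theorem Env.θ_mono {K : Type} {nc : ℕ} (V : Env K nc) : StrictMono V.θ := by
  intro x y h
  exact V.hz (by omega)

/-- The coloring. -/
noncomputable def Env.c {K : Type} {nc : ℕ} (V : Env K nc) (U : Finset ℕ) : K :=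
  comb V.blk V.f U

variable {K : Type} {a b : K} {G : Finset ℕ → (ℕ → K) → Prop}

/-- Extension of positions. -/
structure ExtP (S : ResSys K a b G) (F : Finset ℕ) (κ : ℕ → K) (r : S.R) (F' : Finset ℕ)
    (κ' : ℕ → K) (r' : S.R) : Prop where
  sub : F ⊆ F'
  gt : ∀ x ∈ F', x ∉ F → ∀ y ∈ F, y < x
  col : ∀ x ∈ F, κ' x = κ x
  le : S.le r' r
  new : ∀ x ∈ F', x ∉ F → ∃ t, S.le t r ∧ x ∈ S.Al t ∧ ∀ y ∈ F', y < x → S.Com t y (κ' y)
  com : ∀ x ∈ F', S.Com r' x (κ' x)

/-- Infinite sets obtained from a position. -/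
structure GenFrom (S : ResSys K a b G) (F : Finset ℕ) (κ : ℕ → K) (r : S.R) (H : Set ℕ)
    (κH : ℕ → K) : Prop where
  inf : H.Infinite
  sub : (F : Set ℕ) ⊆ H
  gt : ∀ x ∈ H, x ∉ F → ∀ y ∈ F, y < x
  col : ∀ x ∈ F, κH x = κ x
  new : ∀ x ∈ H, x ∉ F → ∃ t, S.le t r ∧ x ∈ S.Al t ∧ ∀ y ∈ H, y < x → S.Com t y (κH y)

theorem ExtP.refl {S : ResSys K a b G} {F : Finset ℕ} {κ : ℕ → K} {r : S.R}
    (h : ∀ x ∈ F, S.Com r x (κ x)) : ExtP S F κ r F κ r :=
  ⟨subset_rfl, fun x hx hx' => absurd hx hx', fun _ _ => rfl, S.le_refl r,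
    fun x hx hx' => absurd hx hx', h⟩

theorem ExtP.trans {S : ResSys K a b G} {F F' F'' : Finset ℕ} {κ κ' κ'' : ℕ → K}
    {r r' r'' : S.R} (h : ExtP S F κ r F' κ' r') (h' : ExtP S F' κ' r' F'' κ'' r'') :
    ExtP S F κ r F'' κ'' r'' := by
  refine ⟨h.sub.trans h'.sub, ?_, ?_, S.le_trans _ _ _ h'.le h.le, ?_, h'.com⟩
  · intro x hx hxF y hy
    by_cases hx' : x ∈ F'
    · exact h.gt x hx' hxF y hy
    · exact h'.gt x hx hx' y (h.sub hy)
  · intro x hx
    rw [h'.col x (h.sub hx), h.col x hx]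
  · intro x hx hxF
    by_cases hx' : x ∈ F'
    · obtain ⟨t, h1, h2, h3⟩ := h.new x hx' hxF
      refine ⟨t, h1, h2, ?_⟩
      intro y hy hyx
      have hyF' : y ∈ F' := by
        by_contra hy'
        have := h'.gt y hy hy' x hx'
        omega
      rw [h'.col y hyF']
      exact h3 y hyF' hyx
    · obtain ⟨t, h1, h2, h3⟩ := h'.new x hx hx'
      exact ⟨t, S.le_trans _ _ _ h1 h.le, h2, h3⟩

theorem ExtP.gen {S : ResSys K a b G} {F F' : Finset ℕ} {κ κ' κH : ℕ → K}
    {r r' : S.R} {H : Set ℕ} (h : ExtP S F κ r F' κ' r') (h' : GenFrom S F' κ' r' H κH) :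
    GenFrom S F κ r H κH := by
  refine ⟨h'.inf, fun x hx => h'.sub (h.sub hx), ?_, ?_, ?_⟩
  · intro x hx hxF y hy
    by_cases hx' : x ∈ F'
    · exact h.gt x hx' hxF y hy
    · exact h'.gt x hx hx' y (h.sub hy)
  · intro x hx
    rw [h'.col x (h.sub hx), h.col x hx]
  · intro x hx hxF
    by_cases hx' : x ∈ F'
    · obtain ⟨t, h1, h2, h3⟩ := h.new x hx' hxF
      refine ⟨t, h1, h2, ?_⟩
      intro y hy hyx
      have hyF' : y ∈ F' := by
        by_contra hy'
        have := h'.gt y hy hy' x hx'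
        omega
      rw [h'.col y hyF']
      exact h3 y hyF' hyx
    · obtain ⟨t, h1, h2, h3⟩ := h'.new x hx hx'
      exact ⟨t, S.le_trans _ _ _ h1 h.le, h2, h3⟩

/-- The part of `H` below `h`. -/
noncomputable def below (H : Set ℕ) (h : ℕ) : Finset ℕ :=
  open Classical in (Finset.range h).filter (fun x => x ∈ H)

theorem mem_below {H : Set ℕ} {h x : ℕ} : x ∈ below H h ↔ x < h ∧ x ∈ H := by
  classical
  simp [below]

/-- Initial parts of generic sets are positions. -/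
theorem GenFrom.ext {S : ResSys K a b G} {F : Finset ℕ} {κ κH : ℕ → K} {r : S.R} {H : Set ℕ}
    (hG : GenFrom S F κ r H κH) {h : ℕ} (hh : h ∈ H) (hhF : h ∉ F) :
    ∃ t, ExtP S F κ r (below H h) κH t := by
  obtain ⟨t, h1, h2, h3⟩ := hG.new h hh hhF
  refine ⟨t, ⟨?_, ?_, hG.col, h1, ?_, ?_⟩⟩
  · intro x hx
    exact mem_below.mpr ⟨hG.gt h hh hhF x hx, hG.sub hx⟩
  · intro x hx hxF y hy
    exact hG.gt x (mem_below.mp hx).2 hxF y hy
  · intro x hx hxF
    obtain ⟨t', h4, h5, h6⟩ := hG.new x (mem_below.mp hx).2 hxF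
    exact ⟨t', h4, h5, fun y hy hyx => h6 y (mem_below.mp hy).2 hyx⟩
  · intro x hx
    exact h3 x (mem_below.mp hx).2 (mem_below.mp hx).1

/-- Chains of extensions, with skipping. -/
theorem exists_chain (S : ResSys K a b G) {F : Finset ℕ} {κ : ℕ → K} {r : S.R}
    (hv : ∀ x ∈ F, S.Com r x (κ x)) :
    ∃ X : Set ℕ, X.Infinite ∧ ∀ E : Finset ℕ, (E : Set ℕ) ⊆ X →
      ∃ κ' r', ExtP S F κ r (F ∪ E) κ' r' := by
  classical
  obtain ⟨f, hf0, hf⟩ := exists_seq (α := S.R × ℕ) (fun _ p => S.le p.1 r)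
    (fun _ p q => S.le q.1 p.1 ∧ q.2 ∈ S.Al p.1 ∧ S.Com q.1 q.2 a) (r, 0) (S.le_refl r) (by
    intro n p hp
    obtain ⟨x, hx, -⟩ := S.al_inf p.1 0
    obtain ⟨t, ht, ht'⟩ := S.al_com p.1 x a hx (Or.inl rfl)
    exact ⟨(t, x), S.le_trans _ _ _ ht hp, ht, hx, ht'⟩)
  have hle : ∀ m n, m ≤ n → S.le (f n).1 (f m).1 := by
    intro m n hmn
    induction n, hmn using Nat.le_induction with
    | base => exact S.le_refl _
    | succ n _ ih => exact S.le_trans _ _ _ (hf n).2.1 ih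
  have hr : ∀ n, S.le (f n).1 r := fun n => (hf n).1
  have hAl : ∀ n, (f (n + 1)).2 ∈ S.Al (f n).1 := fun n => (hf n).2.2.1
  have hCom : ∀ n, S.Com (f (n + 1)).1 (f (n + 1)).2 a := fun n => (hf n).2.2.2
  have hmono : StrictMono (fun n => (f (n + 1)).2) := by
    apply strictMono_nat_of_lt_succ
    intro n
    exact S.al_gt _ _ _ _ (hCom n) (hAl (n + 1))
  refine ⟨Set.range (fun n => (f (n + 1)).2), Set.infinite_range_of_injective hmono.injective, ?_⟩
  intro E hE
  have hEF : ∀ x ∈ E, ∀ y ∈ F, y < x := by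
    intro x hx y hy
    obtain ⟨n, rfl⟩ := hE hx
    exact S.al_gt _ _ _ _ (S.com_mono _ _ _ _ (hr n) (hv y hy)) (hAl n)
  obtain ⟨m, hm⟩ : ∃ m, ∀ x ∈ E, ∃ i < m, x = (f (i + 1)).2 := by
    refine ⟨E.sup id + 1, ?_⟩
    intro x hx
    obtain ⟨i, rfl⟩ := hE hx
    refine ⟨i, ?_, rfl⟩
    have h1 : (f (i + 1)).2 ≤ E.sup id := Finset.le_sup (f := id) hx
    have h2 : i ≤ (f (i + 1)).2 := hmono.id_le i
    omega
  have hcomt : ∀ i, ∀ y ∈ F ∪ E, y < (f (i + 1)).2 →
      S.Com (f i).1 y (if y ∈ F then κ y else a) := by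
    intro i y hy hyx
    by_cases hyF : y ∈ F
    · rw [if_pos hyF]
      exact S.com_mono _ _ _ _ (hr i) (hv y hyF)
    · rw [if_neg hyF]
      have hyE : y ∈ E := (Finset.mem_union.mp hy).resolve_left hyF
      obtain ⟨k, -, rfl⟩ := hm y hyE
      have hki : k < i := hmono.lt_iff_lt.mp hyx
      exact S.com_mono _ _ _ _ (hle (k + 1) i hki) (hCom k)
  refine ⟨fun y => if y ∈ F then κ y else a, (f m).1, ⟨Finset.subset_union_left, ?_, ?_, hr m,
    ?_, ?_⟩⟩
  · intro x hx hxF y hy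
    exact hEF x ((Finset.mem_union.mp hx).resolve_left hxF) y hy
  · intro x hx
    simp [hx]
  · intro x hx hxF
    obtain ⟨i, -, rfl⟩ := hm x ((Finset.mem_union.mp hx).resolve_left hxF)
    exact ⟨(f i).1, hr i, hAl i, hcomt i⟩
  · intro x hx
    by_cases hxF : x ∈ F
    · simp only [hxF, if_true]
      exact S.com_mono _ _ _ _ (hr m) (hv x hxF)
    · simp only [hxF, if_false]
      obtain ⟨i, hi, rfl⟩ := hm x ((Finset.mem_union.mp hx).resolve_left hxF)
      exact S.com_mono _ _ _ _ (hle (i + 1) m hi) (hCom i)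

/-- Changing the colour of the last element. -/
theorem ExtP.recolor {S : ResSys K a b G} {F F' : Finset ℕ} {κ κ' : ℕ → K}
    {r r' : S.R} (h : ExtP S F κ r F' κ' r') {x : ℕ} (hx : x ∈ F') (hxF : x ∉ F)
    (hmax : ∀ y ∈ F', y ≤ x) {j : K} (hj : j = a ∨ j = b) :
    ∃ κ'' r'', ExtP S F κ r F' κ'' r'' ∧ κ'' x = j := by
  classical
  obtain ⟨t, h1, h2, h3⟩ := h.new x hx hxF
  obtain ⟨t', h4, h5⟩ := S.al_com t x j h2 hj
  refine ⟨Function.update κ' x j, t', ⟨h.sub, h.gt, ?_, S.le_trans _ _ _ h4 h1, ?_, ?_⟩,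
    Function.update_self _ _ _⟩
  · intro y hy
    have : y ≠ x := fun h' => hxF (h' ▸ hy)
    rw [Function.update_of_ne this]
    exact h.col y hy
  · intro y hy hyF
    obtain ⟨u, h6, h7, h8⟩ := h.new y hy hyF
    refine ⟨u, h6, h7, ?_⟩
    intro w hw hwy
    have : w ≠ x := fun h' => by
      have := hmax y hy
      omega
    rw [Function.update_of_ne this]
    exact h8 w hw hwy
  · intro y hy
    by_cases hyx : y = x
    · subst hyx
      rw [Function.update_self]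
      exact h5
    · rw [Function.update_of_ne hyx]
      exact S.com_mono _ _ _ _ h4 (h3 y hy (lt_of_le_of_ne (hmax y hy) hyx))

/-- Finite subsets of the output are obtained from initial segments. -/
theorem out_finite {nc : ℕ} (V : Env K nc) {e : ℕ} {H : Set ℕ} (U : Finset ℕ)
    (hU : (U : Set ℕ) ⊆ Out V.W e (V.θ '' H)) (h₀ : ℕ) :
    ∃ m ≥ h₀, (U : Set ℕ) ⊆ V.W e ((below H m).image V.θ) := by
  classical
  have hmono : ∀ m m', m ≤ m' → V.W e ((below H m).image V.θ) ⊆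
      V.W e ((below H m').image V.θ) := by
    intro m m' hmm
    apply V.Wmono
    refine ⟨?_, ?_⟩
    · intro x hx
      simp only [Finset.coe_image, Set.mem_image, Finset.mem_coe] at hx ⊢
      obtain ⟨y, hy, rfl⟩ := hx
      exact ⟨y, mem_below.mpr ⟨(mem_below.mp hy).1.trans_le hmm, (mem_below.mp hy).2⟩, rfl⟩
    · intro x hx hxE y hy
      simp only [Finset.coe_image, Set.mem_image, Finset.mem_coe, Finset.mem_image,
        not_exists, not_and] at hx hxE hy
      obtain ⟨x', hx', rfl⟩ := hx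
      obtain ⟨y', hy', rfl⟩ := hy
      apply V.θ_mono
      have h1 : ¬ x' < m := fun h => hxE x' (mem_below.mpr ⟨h, (mem_below.mp hx').2⟩) rfl
      have h2 := (mem_below.mp hy').1
      omega
  have hone : ∀ v ∈ Out V.W e (V.θ '' H), ∃ m, v ∈ V.W e ((below H m).image V.θ) := by
    rintro v ⟨E, hE, hv⟩
    refine ⟨E.sup id + 1, ?_⟩
    apply V.Wmono e E _ _ hv
    have hsub : (E : Set ℕ) ⊆ ((below H (E.sup id + 1)).image V.θ : Finset ℕ) := by
      intro y hy
      obtain ⟨x, hx, rfl⟩ := hE.1 hy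
      simp only [Finset.coe_image, Set.mem_image, Finset.mem_coe]
      refine ⟨x, mem_below.mpr ⟨?_, hx⟩, rfl⟩
      have h1 : V.θ x ≤ E.sup id := Finset.le_sup (f := id) hy
      have h2 : x ≤ V.θ x := V.θ_mono.id_le x
      omega
    refine ⟨hsub, ?_⟩
    intro x hx hxE y hy
    apply hE.2 x _ hxE y hy
    simp only [Finset.coe_image, Set.mem_image, Finset.mem_coe] at hx
    obtain ⟨x', hx', rfl⟩ := hx
    exact ⟨x', (mem_below.mp hx').2, rfl⟩
  induction U using Finset.induction_on with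
  | empty => exact ⟨h₀, le_rfl, by simp⟩
  | insert v U _ ih =>
    have hU' : (U : Set ℕ) ⊆ Out V.W e (V.θ '' H) := fun x hx => hU (by simp [Finset.mem_coe.mp hx])
    obtain ⟨m, hm, h1⟩ := ih hU'
    obtain ⟨m', h2⟩ := hone v (hU (by simp))
    refine ⟨max m m', hm.trans (le_max_left _ _), ?_⟩
    intro x hx
    rw [Finset.coe_insert, Set.mem_insert_iff] at hx
    rcases hx with rfl | hx
    · exact hmono _ _ (le_max_right _ _) h2
    · exact hmono _ _ (le_max_left _ _) (h1 hx)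

/-- Elements of the output lie in the blocks of the elements of the oracle. -/
theorem claimA {nc : ℕ} (V : Env K nc) (S : ResSys K a b G) {F : Finset ℕ} {κ : ℕ → K}
    {r : S.R} {e : ℕ} {j : K}
    (h1 : ∀ F' κ' r', ExtP S F κ r F' κ' r' → ∀ U ∈ V.R e (F'.image V.θ), U.card = nc →
      V.c U = j) {H : Set ℕ} {κH : ℕ → K} (hG : GenFrom S F κ r H κH) {x₀ : ℕ} (hx₀ : x₀ ∈ H)
    (hx₀F : x₀ ∉ F) (he : e ≤ x₀) {U : Finset ℕ} (hU : (U : Set ℕ) ⊆ Out V.W e (V.θ '' H))
    (hc : U.card = nc) {u : ℕ} (hu : u ∈ U) (hmax : ∀ v ∈ U, v ≤ u)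
    (hlarge : V.z (2 * x₀) < u) :
    ∃ x ∈ H, x₀ ≤ x ∧ V.blk u = x ∧ ∃ F' κ' r', ExtP S F κ r F' κ' r' ∧ x ∈ F' ∧ x ∉ F ∧
      (∀ y ∈ F', y ≤ x) ∧ {u} ∈ V.R e (F'.image V.θ) := by
  classical
  have hex : ∃ h, h ∈ H ∧ u ≤ V.z (2 * h) := by
    obtain ⟨h, hh, hh'⟩ := hG.inf.exists_gt u
    refine ⟨h, hh, ?_⟩
    have := V.hz.id_le (2 * h)
    simp only [id] at this
    omega
  obtain ⟨hhH, hhu⟩ := Nat.find_spec hex
  set h := Nat.find hex with hh
  have hmin : ∀ y ∈ H, y < h → V.z (2 * y) < u := by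
    intro y hy hyh
    by_contra hcon
    exact Nat.find_min hex hyh ⟨hy, not_lt.mp hcon⟩
  have hx₀h : x₀ < h := by
    by_contra hcon
    have := V.hz.monotone (show 2 * h ≤ 2 * x₀ by omega)
    omega
  have hhF : h ∉ F := by
    intro hcon
    have := hG.gt x₀ hx₀ hx₀F h hcon
    omega
  obtain ⟨t, hext⟩ := hG.ext hhH hhF
  -- the last element
  have hne : (below H h).Nonempty := ⟨x₀, mem_below.mpr ⟨hx₀h, hx₀⟩⟩
  set x := (below H h).max' hne with hx
  have hxm : x ∈ below H h := Finset.max'_mem _ _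
  have hxmax : ∀ y ∈ below H h, y ≤ x := fun y hy => Finset.le_max' _ _ hy
  have hx₀x : x₀ ≤ x := hxmax x₀ (mem_below.mpr ⟨hx₀h, hx₀⟩)
  have hxF : x ∉ F := by
    intro hcon
    have := hG.gt x₀ hx₀ hx₀F x hcon
    omega
  have hzid : ∀ m, m ≤ V.z m := fun m => V.hz.id_le m
  -- unavoidability
  have hun : ∀ U' : Finset ℕ, (U' : Set ℕ) ⊆ Out V.W e (V.θ '' H) →
      (∀ v ∈ U', v ≤ V.z (2 * h)) → U' ∈ V.R e ((below H h).image V.θ) := by
    intro U' hU' hle
    by_contra hnR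
    obtain ⟨m, hm, hUm⟩ := out_finite V U' hU' h
    apply V.avoid e ((below H h).image V.θ) U' (2 * h) ?_ ?_ hle hnR
      (((below H m).filter (fun y => h ≤ y)).image V.θ) ?_
    · have : (below H h).image V.θ ∪ ((below H m).filter (fun y => h ≤ y)).image V.θ =
          (below H m).image V.θ := by
        rw [← Finset.image_union]
        congr 1
        ext y
        simp only [Finset.mem_union, Finset.mem_filter, mem_below]
        constructor
        · rintro (⟨h1, h2⟩ | ⟨h1, -⟩)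
          · exact ⟨by omega, h2⟩
          · exact h1
        · rintro ⟨h1, h2⟩
          by_cases hyh : y < h
          · exact Or.inl ⟨hyh, h2⟩
          · exact Or.inr ⟨⟨h1, h2⟩, by omega⟩
      rw [this]
      exact hUm
    · have := hzid (2 * h)
      omega
    · intro y hy
      obtain ⟨y', hy', rfl⟩ := Finset.mem_image.mp hy
      have := (mem_below.mp hy').1
      exact V.hz.monotone (by omega)
    · intro y hy
      obtain ⟨y', hy', rfl⟩ := Finset.mem_image.mp hy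
      have := (Finset.mem_filter.mp hy').2
      exact ⟨2 * y' + 1, by omega, rfl⟩
  have hUR : U ∈ V.R e ((below H h).image V.θ) :=
    hun U hU (fun v hv => (hmax v hv).trans hhu)
  have huR : {u} ∈ V.R e ((below H h).image V.θ) := by
    apply hun
    · intro v hv
      simp only [Finset.coe_singleton, Set.mem_singleton_iff] at hv
      subst hv
      exact hU hu
    · intro v hv
      rw [Finset.mem_singleton] at hv
      rw [hv]
      exact hhu
  -- finiteness and sparseness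
  have hfin : {U ∈ V.R e ((below H h).image V.θ) | U.card = nc}.Finite := by
    by_contra hinf
    obtain ⟨U', hU', hc', hne'⟩ := V.gen e _ j hinf
    exact hne' (h1 _ _ _ hext U' hU' hc')
  have hlt : u < V.z (2 * x + 1 + 1) := by
    apply V.sparse e _ (2 * x + 1) _ _ hfin U hUR hc u hu
    · have := hzid (2 * x + 1)
      omega
    · intro y hy
      obtain ⟨y', hy', rfl⟩ := Finset.mem_image.mp hy
      have := hxmax y' hy'
      exact V.hz.monotone (by omega)
  have hxH : x ∈ H := (mem_below.mp hxm).2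
  refine ⟨x, hxH, hx₀x, ?_, _, _, _, hext, hxm, hxF, hxmax, huR⟩
  exact V.blk_eq u x hlt.le (hmin x hxH (mem_below.mp hxm).1)

/-- What we want to avoid. -/
def Bad {nc : ℕ} (V : Env K nc) (e : ℕ) (j : K) (H : Set ℕ) : Prop :=
  (Out V.W e (V.θ '' H)).Infinite ∧
    ∀ U : Finset ℕ, (U : Set ℕ) ⊆ Out V.W e (V.θ '' H) → U.card = nc → V.c U = j

theorem init_of_gen {nc : ℕ} (V : Env K nc) {S : ResSys K a b G} {F : Finset ℕ}
    {κ κH : ℕ → K} {r : S.R} {H : Set ℕ} (hG : GenFrom S F κ r H κH) :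
    Init (F.image V.θ) (V.θ '' H) := by
  classical
  refine ⟨?_, ?_⟩
  · intro x hx
    simp only [Finset.coe_image, Set.mem_image, Finset.mem_coe] at hx
    obtain ⟨y, hy, rfl⟩ := hx
    exact ⟨y, hG.sub hy, rfl⟩
  · rintro _ ⟨x, hx, rfl⟩ hxE y hy
    obtain ⟨y', hy', rfl⟩ := Finset.mem_image.mp hy
    apply V.θ_mono
    apply hG.gt x hx _ y' hy'
    intro hxF
    exact hxE (Finset.mem_image_of_mem _ hxF)

/-- Landing: an unavoidable finite set can be put in the output. -/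
theorem land_ext {nc : ℕ} (V : Env K nc) {S : ResSys K a b G} {F : Finset ℕ} {κ : ℕ → K}
    {r : S.R} (hv : ∀ x ∈ F, S.Com r x (κ x)) {e : ℕ} {U : Finset ℕ}
    (hU : U ∈ V.R e (F.image V.θ)) :
    ∃ F' κ' r', ExtP S F κ r F' κ' r' ∧ (U : Set ℕ) ⊆ V.W e (F'.image V.θ) := by
  classical
  obtain ⟨X, hX, hE⟩ := exists_chain S hv
  obtain ⟨E, hE1, hE2⟩ := V.land e _ U hU (V.θ '' X) (by
    rintro _ ⟨x, -, rfl⟩
    exact ⟨2 * x + 1, rfl⟩) (hX.image V.θ_mono.injective.injOn)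
  obtain ⟨E', hE', rfl⟩ : ∃ E' : Finset ℕ, (E' : Set ℕ) ⊆ X ∧ E'.image V.θ = E :=
    Finset.subset_set_image_iff.mp hE1
  obtain ⟨κ', r', h1⟩ := hE E' hE'
  refine ⟨_, _, _, h1, ?_⟩
  rw [Finset.image_union]
  exact hE2

/-- Each requirement can be met by an extension. -/
theorem requirement {nc nd : ℕ} (hnc : 0 < nc) (V : Env K nc) {L : Type} {d : Finset ℕ → L}
    {δ : L} (hab : a ≠ b)
    (S : ResSys K a b (GoodF nc nd (fun s => V.f (Sum.inl s)) d δ)) {κ₀ : ℕ → K}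
    {F : Finset ℕ} {κ : ℕ → K} {r : S.R} (hroot : ExtP S ∅ κ₀ S.root F κ r) (e : ℕ) (j : K) :
    ∃ F' κ' r', ExtP S F κ r F' κ' r' ∧ ∀ H κH, GenFrom S F' κ' r' H κH → ¬ Bad V e j H := by
  classical
  by_cases h1 : ∃ F' κ' r', ExtP S F κ r F' κ' r' ∧ ∃ U ∈ V.R e (F'.image V.θ),
      U.card = nc ∧ V.c U ≠ j
  · -- a violation can be forced
    obtain ⟨F', κ', r', hext, U, hU, hc, hne⟩ := h1
    obtain ⟨F'', κ'', r'', hext', hUW⟩ := land_ext V hext.com hU
    refine ⟨F'', κ'', r'', hext.trans hext', ?_⟩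
    rintro H κH hG ⟨-, hB⟩
    apply hne
    apply hB U _ hc
    intro u hu
    exact ⟨_, init_of_gen V hG, hUW hu⟩
  · have h1' : ∀ F' κ' r', ExtP S F κ r F' κ' r' → ∀ U ∈ V.R e (F'.image V.θ), U.card = nc →
        V.c U = j := by
      intro F' κ' r' hext U hU hc
      by_contra hne
      exact h1 ⟨F', κ', r', hext, U, hU, hc, hne⟩
    -- a small subset of the output
    have hsmall : ∀ H : Set ℕ, (Out V.W e (V.θ '' H)).Infinite → ∃ U₀ : Finset ℕ,
        (U₀ : Set ℕ) ⊆ Out V.W e (V.θ '' H) ∧ U₀.card = nc - 1 := by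
      intro H hinf
      obtain ⟨U₀, h2, h3⟩ := hinf.exists_subset_card_eq (nc - 1)
      exact ⟨U₀, h2, h3⟩
    have hclaim : ∀ {F' κ' r'}, ExtP S F κ r F' κ' r' → ∀ {H κH}, GenFrom S F' κ' r' H κH →
        ∀ {x₀}, x₀ ∈ H → x₀ ∉ F' → e ≤ x₀ → ∀ {U₀ : Finset ℕ},
        (U₀ : Set ℕ) ⊆ Out V.W e (V.θ '' H) → U₀.card = nc - 1 →
        ∀ u ∈ Out V.W e (V.θ '' H), U₀.sup id < u → V.z (2 * x₀) < u →
        ∃ x ∈ H, x₀ ≤ x ∧ V.blk u = x ∧ ∃ F'' κ'' r'', ExtP S F' κ' r' F'' κ'' r'' ∧ x ∈ F'' ∧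
          x ∉ F' ∧ (∀ y ∈ F'', y ≤ x) ∧ {u} ∈ V.R e (F''.image V.θ) := by
      intro F' κ' r' hext H κH hG x₀ hx₀ hx₀F he U₀ hU₀ hc₀ u hu hsup hz
      have hle : ∀ v ∈ U₀, v < u := fun v hv =>
        lt_of_le_of_lt (Finset.le_sup (f := id) hv) hsup
      have hunot : u ∉ U₀ := fun h => absurd (hle u h) (lt_irrefl _)
      apply claimA V S (fun F'' κ'' r'' h => h1' F'' κ'' r'' (hext.trans h)) hG hx₀ hx₀F he
        (U := insert u U₀) _ _ (Finset.mem_insert_self _ _) _ hz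
      · intro v hv
        rw [Finset.coe_insert, Set.mem_insert_iff] at hv
        rcases hv with rfl | hv
        · exact hu
        · exact hU₀ hv
      · rw [Finset.card_insert_of_notMem hunot, hc₀]
        omega
      · intro v hv
        rcases Finset.mem_insert.mp hv with rfl | hv
        · exact le_rfl
        · exact (hle v hv).le
    by_cases h2 : ∃ F' κ' r', ExtP S F κ r F' κ' r' ∧ ∃ x ∈ F', x ∉ F ∧ (∀ y ∈ F', y ≤ x) ∧
        ∃ u, V.blk u = x ∧ {u} ∈ V.R e (F'.image V.θ)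
    · -- an element with the wrong colour can be put in the output
      obtain ⟨F', κ', r', hext, x, hxF', hxF, hmax, u, hux, huR⟩ := h2
      obtain ⟨a', ha', ha'j⟩ : ∃ a', (a' = a ∨ a' = b) ∧ a' ≠ j := by
        by_cases h : a = j
        · exact ⟨b, Or.inr rfl, fun h' => hab (h.trans h'.symm)⟩
        · exact ⟨a, Or.inl rfl, h⟩
      obtain ⟨κ'', r'', hext', hκx⟩ := hext.recolor hxF' hxF hmax ha'
      obtain ⟨F₃, κ₃, r₃, hext₃, huW⟩ := land_ext V hext'.com huR
      have hextall : ExtP S F κ r F₃ κ₃ r₃ := hext'.trans hext₃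
      refine ⟨F₃, κ₃, r₃, hextall, ?_⟩
      rintro H κH hG ⟨hinf, hB⟩
      have hxF₃ : x ∈ F₃ := hext₃.sub hxF'
      have hκHx : κH x = a' := by rw [hG.col x hxF₃, hext₃.col x hxF', hκx]
      have huOut : u ∈ Out V.W e (V.θ '' H) :=
        ⟨_, init_of_gen V hG, huW (by simp)⟩
      -- a large element of `H`
      obtain ⟨x₀, hx₀, hx₀l⟩ := hG.inf.exists_gt (max e (F₃.sup id))
      have hx₀F : x₀ ∉ F₃ := by
        intro h
        have h3 : x₀ ≤ F₃.sup id := Finset.le_sup (f := id) h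
        have h4 := le_max_right e (F₃.sup id)
        omega
      have hxx₀ : x < x₀ := hG.gt x₀ hx₀ hx₀F x hxF₃
      have hex₀ : e ≤ x₀ := by
        have h4 := le_max_left e (F₃.sup id)
        omega
      obtain ⟨U₀, hU₀, hc₀⟩ := hsmall H hinf
      -- the large elements of the output
      set T : Set ℕ := {v ∈ Out V.W e (V.θ '' H) | max (U₀.sup id) (V.z (2 * x₀)) < v} with hT
      have hTinf : T.Infinite := by
        intro hfin
        apply hinf
        apply (hfin.union (Set.finite_Iic (max (U₀.sup id) (V.z (2 * x₀))))).subset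
        intro v hv
        by_cases h : max (U₀.sup id) (V.z (2 * x₀)) < v
        · exact Or.inl ⟨hv, h⟩
        · exact Or.inr (not_lt.mp h)
      have hblkT : ∀ v ∈ T, V.blk v ∈ H ∧ x₀ ≤ V.blk v := by
        rintro v ⟨hv, hvl⟩
        obtain ⟨y, hy, hy', hy'', -⟩ := hclaim hextall hG hx₀ hx₀F hex₀ hU₀ hc₀ v hv
          (lt_of_le_of_lt (le_max_left _ _) hvl) (lt_of_le_of_lt (le_max_right _ _) hvl)
        rw [hy'']
        exact ⟨hy, hy'⟩
      have hbinf : (V.blk '' T).Infinite := by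
        intro hfin
        apply hTinf
        have : T ⊆ ⋃ m ∈ V.blk '' T, {u | V.blk u = m} := by
          intro v hv
          simp only [Set.mem_iUnion]
          exact ⟨V.blk v, ⟨v, hv, rfl⟩, rfl⟩
        exact (Set.Finite.biUnion hfin (fun m _ => V.blk_fin m)).subset this
      obtain ⟨T₀, hT₀, hcT₀⟩ := hbinf.exists_subset_card_eq (nc - 1)
      obtain ⟨V₀, hV₀T, hV₀inj, hV₀img⟩ : ∃ V₀ : Finset ℕ, (V₀ : Set ℕ) ⊆ T ∧
          Set.InjOn V.blk V₀ ∧ V₀.image V.blk = T₀ := by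
        have hch : ∀ t ∈ T₀, ∃ v ∈ T, V.blk v = t := fun t ht => hT₀ ht
        choose! g hg1 hg2 using hch
        refine ⟨T₀.image g, ?_, ?_, ?_⟩
        · intro v hv
          simp only [Finset.coe_image, Set.mem_image, Finset.mem_coe] at hv
          obtain ⟨t, ht, rfl⟩ := hv
          exact hg1 t ht
        · intro v hv w hw hvw
          simp only [Finset.coe_image, Set.mem_image, Finset.mem_coe] at hv hw
          obtain ⟨t, ht, rfl⟩ := hv
          obtain ⟨t', ht', rfl⟩ := hw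
          rw [hg2 t ht, hg2 t' ht'] at hvw
          rw [hvw]
        · rw [Finset.image_image]
          ext t
          simp only [Finset.mem_image, Function.comp]
          constructor
          · rintro ⟨t', ht', rfl⟩
            rw [hg2 t' ht']
            exact ht'
          · intro ht
            exact ⟨t, ht, hg2 t ht⟩
      have hT₀H : ∀ t ∈ T₀, t ∈ H ∧ x₀ ≤ t := by
        intro t ht
        obtain ⟨v, hv, rfl⟩ := hT₀ ht
        exact hblkT v hv
      have hxT₀ : x ∉ T₀ := by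
        intro h
        have := (hT₀H x h).2
        omega
      have huV₀ : u ∉ V₀ := by
        intro h
        have := (hblkT u (hV₀T h)).2
        omega
      have hcV₀ : V₀.card = nc - 1 := by
        rw [← hcT₀, ← hV₀img, Finset.card_image_of_injOn hV₀inj]
      -- the violating set
      have hinj : Set.InjOn V.blk ((insert u V₀ : Finset ℕ) : Set ℕ) := by
        rw [Finset.coe_insert, Set.injOn_insert (by simpa using huV₀)]
        refine ⟨hV₀inj, ?_⟩
        rw [hux]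
        rintro ⟨v, hv, hvx⟩
        have := (hblkT v (hV₀T hv)).2
        omega
      have himg : (insert u V₀).image V.blk = insert x T₀ := by
        rw [Finset.image_insert, hV₀img, hux]
      have hcol : V.c (insert u V₀) = a' := by
        rw [Env.c, comb_inj hinj, himg, ← hκHx]
        have hG₀ := hroot.gen (hextall.gen hG)
        have hkey := S.key (insert x T₀) κH (by
          intro y hy
          have hyH : y ∈ H := by
            rcases Finset.mem_insert.mp hy with rfl | hy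
            · exact hG.sub hxF₃
            · exact (hT₀H y hy).1
          obtain ⟨t, -, h5, h6⟩ := hG₀.new y hyH (by simp)
          refine ⟨t, h5, ?_⟩
          intro w hw hwy
          apply h6 w _ hwy
          rcases Finset.mem_insert.mp hw with rfl | hw
          · exact hG.sub hxF₃
          · exact (hT₀H w hw).1)
        apply hkey.1
        · rw [Finset.card_insert_of_notMem hxT₀, hcT₀]
          omega
        · exact Finset.mem_insert_self _ _
        · intro y hy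
          rcases Finset.mem_insert.mp hy with rfl | hy
          · exact le_rfl
          · have := (hT₀H y hy).2
            omega
      apply ha'j
      rw [← hcol]
      apply hB
      · intro v hv
        rw [Finset.coe_insert, Set.mem_insert_iff] at hv
        rcases hv with rfl | hv
        · exact huOut
        · exact (hV₀T hv).1
      · rw [Finset.card_insert_of_notMem huV₀, hcV₀]
        omega
    · -- the output is finite
      refine ⟨F, κ, r, ExtP.refl hroot.com, ?_⟩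
      rintro H κH hG ⟨hinf, -⟩
      obtain ⟨x₀, hx₀, hx₀l⟩ := hG.inf.exists_gt (max e (F.sup id))
      have hx₀F : x₀ ∉ F := by
        intro h
        have h3 : x₀ ≤ F.sup id := Finset.le_sup (f := id) h
        have h4 := le_max_right e (F.sup id)
        omega
      have hex₀ : e ≤ x₀ := by
        have h4 := le_max_left e (F.sup id)
        omega
      obtain ⟨U₀, hU₀, hc₀⟩ := hsmall H hinf
      obtain ⟨u, hu, hul⟩ := hinf.exists_gt (max (U₀.sup id) (V.z (2 * x₀)))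
      obtain ⟨x, hx, -, hux, F', κ', r', hext, hxF', hxF, hmax, huR⟩ :=
        hclaim (ExtP.refl hroot.com) hG hx₀ hx₀F hex₀ hU₀ hc₀ u hu
        (lt_of_le_of_lt (le_max_left _ _) hul) (lt_of_le_of_lt (le_max_right _ _) hul)
      exact h2 ⟨F', κ', r', hext, x, hxF', hxF, hmax, u, hux, huR⟩

/-- One more element. -/
theorem extend_one (S : ResSys K a b G) {F : Finset ℕ} {κ : ℕ → K} {r : S.R}
    (hv : ∀ x ∈ F, S.Com r x (κ x)) :
    ∃ F' κ' r', ExtP S F κ r F' κ' r' ∧ ∃ x ∈ F', x ∉ F := by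
  classical
  obtain ⟨X, hX, hE⟩ := exists_chain S hv
  obtain ⟨x, hx, hxF⟩ := hX.exists_notMem_finset F
  obtain ⟨κ', r', h⟩ := hE {x} (by simpa using hx)
  exact ⟨_, _, _, h, x, by simp, hxF⟩

/-- The homogeneous set. -/
theorem solve [Countable K] [Nonempty K] {nc nd : ℕ} (hnc : 0 < nc) (V : Env K nc) {L : Type}
    {d : Finset ℕ → L} {δ : L} (hab : a ≠ b)
    (S : ResSys K a b (GoodF nc nd (fun s => V.f (Sum.inl s)) d δ)) :
    ∃ H : Set ℕ, H.Infinite ∧ (∀ s : Finset ℕ, (s : Set ℕ) ⊆ H → s.card = nd → d s = δ) ∧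
      ∀ e j, ¬ Bad V e j H := by
  classical
  obtain ⟨q, hq⟩ := exists_surjective_nat (ℕ × K)
  let κ₀ : ℕ → K := fun _ => a
  have hr₀ : ExtP S ∅ κ₀ S.root ∅ κ₀ S.root := ExtP.refl (by simp)
  obtain ⟨p, -, hp⟩ := exists_seq (α := Finset ℕ × (ℕ → K) × S.R)
    (fun _ p => ExtP S ∅ κ₀ S.root p.1 p.2.1 p.2.2)
    (fun n p p' => ExtP S p.1 p.2.1 p.2.2 p'.1 p'.2.1 p'.2.2 ∧ (∃ x ∈ p'.1, x ∉ p.1) ∧
      ∀ H κH, GenFrom S p'.1 p'.2.1 p'.2.2 H κH → ¬ Bad V (q n).1 (q n).2 H)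
    (∅, κ₀, S.root) hr₀ (by
    rintro n ⟨F, κ, r⟩ hroot
    obtain ⟨F', κ', r', h1, x, hx, hx'⟩ := extend_one S hroot.com
    obtain ⟨F'', κ'', r'', h2, h3⟩ := requirement hnc V hab S (hroot.trans h1) (q n).1 (q n).2
    exact ⟨(F'', κ'', r''), hroot.trans (h1.trans h2), h1.trans h2, ⟨x, h2.sub hx, hx'⟩, h3⟩)
  have hcom : ∀ n, ∀ x ∈ (p n).1, S.Com (p n).2.2 x ((p n).2.1 x) := fun n => (hp n).1.com
  have hext : ∀ m n, m ≤ n → ExtP S (p m).1 (p m).2.1 (p m).2.2 (p n).1 (p n).2.1 (p n).2.2 := by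
    intro m n hmn
    induction n, hmn using Nat.le_induction with
    | base => exact ExtP.refl (hcom m)
    | succ n _ ih => exact ih.trans (hp n).2.1
  set H : Set ℕ := {x | ∃ n, x ∈ (p n).1} with hH
  obtain ⟨κH, hκH⟩ : ∃ κH : ℕ → K, ∀ n, ∀ x ∈ (p n).1, κH x = (p n).2.1 x := by
    refine ⟨fun x => if h : ∃ n, x ∈ (p n).1 then (p (Nat.find h)).2.1 x else a, ?_⟩
    intro n x hx
    have h : ∃ n, x ∈ (p n).1 := ⟨n, hx⟩
    simp only [h, dif_pos]
    exact ((hext _ n (Nat.find_min' h hx)).col x (Nat.find_spec h)).symm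
  have hHinf : H.Infinite := by
    have hcard : ∀ n, n ≤ (p n).1.card := by
      intro n
      induction n with
      | zero => omega
      | succ n ih =>
        obtain ⟨x, hx, hx'⟩ := (hp n).2.2.1
        have hss : (p n).1 ⊂ (p (n + 1)).1 :=
          ⟨(hp n).2.1.sub, fun h => hx' (h hx)⟩
        have := Finset.card_lt_card hss
        omega
    intro hfin
    have h1 : ∀ n, (p n).1 ⊆ hfin.toFinset := by
      intro n x hx
      rw [Set.Finite.mem_toFinset]
      exact ⟨n, hx⟩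
    have h2 := Finset.card_le_card (h1 (hfin.toFinset.card + 1))
    have h3 := hcard (hfin.toFinset.card + 1)
    omega
  have hgt : ∀ n, ∀ x ∈ H, x ∉ (p n).1 → ∀ y ∈ (p n).1, y < x := by
    rintro n x ⟨m, hx⟩ hxn y hy
    have hnm : n ≤ m := by
      by_contra h
      exact hxn ((hext m n (by omega)).sub hx)
    exact (hext n m hnm).gt x hx hxn y hy
  have hgen : ∀ n, GenFrom S (p n).1 (p n).2.1 (p n).2.2 H κH := by
    intro n
    refine ⟨hHinf, fun x hx => ⟨n, hx⟩, hgt n, hκH n, ?_⟩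
    rintro x ⟨m, hx⟩ hxn
    have hnm : n ≤ m := by
      by_contra h
      exact hxn ((hext m n (by omega)).sub hx)
    obtain ⟨t, h1, h2, h3⟩ := (hext n m hnm).new x hx hxn
    refine ⟨t, h1, h2, ?_⟩
    intro y hy hyx
    have hym : y ∈ (p m).1 := by
      by_contra hcon
      have := hgt m y hy hcon x hx
      omega
    rw [hκH m y hym]
    exact h3 y hym hyx
  refine ⟨H, hHinf, ?_, ?_⟩
  · intro s hs hc
    have hG₀ : GenFrom S ∅ κ₀ S.root H κH := (hp 0).1.gen (hgen 0)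
    have hkey := S.key s κH (by
      intro y hy
      obtain ⟨t, -, h5, h6⟩ := hG₀.new y (hs hy) (by simp)
      exact ⟨t, h5, fun w hw hwy => h6 w (hs hw) hwy⟩)
    exact hkey.2 hc
  · intro e j
    obtain ⟨n, hn⟩ := hq (e, j)
    have := (hp n).2.2.2 H κH (hgen (n + 1))
    rw [hn] at this
    exact this

/-- Existence of the prepared data. -/
theorem exists_env {K : Type} [Finite K] [Nontrivial K] (nc : ℕ) :
    ∃ V : Env K nc, V.W = WW ∧ DenseCol (fun s => V.f (Sum.inl s)) := by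
  obtain ⟨z, R, hz, h1, h2, h3⟩ := exists_prep WW nc
  obtain ⟨blk, hb1, -, hb3⟩ := exists_blk hz
  obtain ⟨q, hq⟩ := exists_surjective_nat (ℕ × Finset ℕ)
  obtain ⟨f, hf1, hf2⟩ := exists_generic_col (K := K) blk hb3
    (fun i => {U ∈ R (q i).1 (q i).2 | U.card = nc})
  refine ⟨⟨WW, fun e E E' h => WW_mono h, z, hz, R, h1, h2, h3, blk, hb1, hb3, f, ?_⟩, rfl, hf1⟩
  intro e F j hinf
  obtain ⟨i, hi⟩ := hq (e, F)
  have := hf2 i j
  rw [hi] at this
  obtain ⟨U, ⟨hU1, hU2⟩, hU3⟩ := this hinf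
  exact ⟨U, hU1, hU2, hU3⟩

/-- Abstract form of both results: a reduction is impossible as soon as there are systems of
reservoirs for all colourings `d`. -/
theorem not_soc {nc nd k l : ℕ} (hnc : 0 < nc) (hk : 1 < k) (hl : 0 < l)
    (hsys : ∀ c : Finset ℕ → Fin k, DenseCol c → ∀ d : Finset ℕ → Fin l,
      ∃ (δ : Fin l) (a b : Fin k), a ≠ b ∧ Nonempty (ResSys (Fin k) a b (GoodF nc nd c d δ))) :
    ¬ SocReducible (RT nc k) (RT nd l) := by
  classical
  intro hred
  have : Nontrivial (Fin k) := Fin.nontrivial_iff_two_le.mpr hk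
  obtain ⟨V, hW, hdense⟩ := exists_env (K := Fin k) nc
  obtain ⟨d, hd⟩ := hred (fun s => V.c s.1 : {s : Finset ℕ // s.card = nc} → Fin k)
  obtain ⟨δ, a, b, hab, ⟨S⟩⟩ := hsys _ hdense
    (fun t => if h : (t.image V.θ).card = nd then (d : {s : Finset ℕ // s.card = nd} → Fin l)
      ⟨t.image V.θ, h⟩ else ⟨0, hl⟩)
  obtain ⟨H, hinf, hH1, hH2⟩ := solve hnc V hab S
  have hsol : (RT nd l).Sol d (V.θ '' H) := by
    refine ⟨hinf.image V.θ_mono.injective.injOn, δ, ?_⟩
    rintro ⟨s, hs⟩ hsH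
    simp only at hsH
    obtain ⟨t, ht, rfl⟩ := Finset.subset_set_image_iff.mp hsH
    have hct : t.card = nd := by
      rw [← hs, Finset.card_image_of_injective _ V.θ_mono.injective]
    have := hH1 t ht hct
    rw [dif_pos hs] at this
    exact this
  obtain ⟨Y, ⟨hYinf, j, hYj⟩, hcomp⟩ := hd _ hsol
  obtain ⟨e, he⟩ := exists_out (hinf.image V.θ_mono.injective.injOn) hcomp
  rw [← hW] at he
  apply hH2 e j
  refine ⟨by rw [he]; exact hYinf, ?_⟩
  intro U hU hc
  rw [he] at hU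
  exact hYj ⟨U, hc⟩ hU

/-- First question. -/
theorem not_soc_colours {n k l : ℕ} (hn : 2 ≤ n) (hl : 0 < l) (hlk : l < k) :
    ¬ SocReducible (RT n k) (RT n l) := by
  obtain ⟨m, rfl⟩ : ∃ m, n = m + 2 := ⟨n - 2, by omega⟩
  have : Nonempty (Fin k) := ⟨⟨0, by omega⟩⟩
  apply not_soc (by omega) (by omega) hl
  intro c hc d
  exact exists_sys₁ (by simpa using hlk) hc m d

/-- Second question. -/
theorem not_soc_dimension {n k l : ℕ} (hn : 1 ≤ n) (hk : 2 ≤ k) (hl : 0 < l) :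
    ¬ SocReducible (RT (n + 1) k) (RT n l) := by
  obtain ⟨m, rfl⟩ : ∃ m, n = m + 1 := ⟨n - 1, by omega⟩
  apply not_soc (by omega) (by omega) hl
  intro c hc d
  have hab : (⟨0, by omega⟩ : Fin k) ≠ ⟨1, by omega⟩ := by simp
  obtain ⟨δ, hδ⟩ := exists_sys₂ (a := (⟨0, by omega⟩ : Fin k)) (b := ⟨1, by omega⟩) hc m d
  exact ⟨δ, _, _, hab, hδ⟩

end Pool.Agent.Soc
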