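import Pool.Agent.Lib_helper80.SocDense

/-!
Systems of reservoirs.
-/

namespace Pool.Agent.Soc

variable {K : Type*}

/-- An abstract system of reservoirs: each reservoir `r` has an infinite set `Al r` of elements
which can be added, with either of the colours `a`, `b`; `Com r x j` says that the element `x` is
committed to the colour `j`. -/
structure ResSys (K : Type) (a b : K) (Good : Finset ℕ → (ℕ → K) → Prop) where
  R : Type
  le : R → R → Prop
  le_refl : ∀ r, le r r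
  le_trans : ∀ r s t, le r s → le s t → le r t
  root : R
  Al : R → Set ℕ
  Com : R → ℕ → K → Prop
  al_inf : ∀ r N, ∃ x ∈ Al r, N < x
  com_mono : ∀ r r' x j, le r' r → Com r x j → Com r' x j
  al_com : ∀ r x j, x ∈ Al r → (j = a ∨ j = b) → ∃ r', le r' r ∧ Com r' x j
  al_gt : ∀ r x y j, Com r y j → x ∈ Al r → y < x
  key : ∀ (s : Finset ℕ) (κ : ℕ → K),
    (∀ x ∈ s, ∃ r, x ∈ Al r ∧ ∀ y ∈ s, y < x → Com r y (κ y)) → Good s κ

/-- Base property, first form. -/
def Good₁ {L : Type*} (c : Finset ℕ → K) (d : Finset ℕ → L) (δ : L) (s : Finset ℕ)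
    (κ : ℕ → K) : Prop :=
  ∀ x ∈ s, ∀ y ∈ s, x < y → c {x, y} = κ x ∧ d {x, y} = δ

/-- Base property, second form. -/
def Good₂ {L : Type*} (c : Finset ℕ → K) (d : Finset ℕ → L) (δ : L) (s : Finset ℕ)
    (κ : ℕ → K) : Prop :=
  (∀ x ∈ s, ∀ y ∈ s, x < y → c {x, y} = κ x) ∧ ∀ x ∈ s, d {x} = δ

/-- The conditions. -/
structure Cnd (c : Finset ℕ → K) where
  A : Set ℕ
  l : ℕ
  σ : Finset ℕ → K
  db : DB c A l σ

/-- Order of conditions. -/
def Cnd.Le {c : Finset ℕ → K} (q p : Cnd c) : Prop := q.A ⊆ p.A ∧ PExt p.l p.σ q.l q.σ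

theorem Cnd.Le.refl {c : Finset ℕ → K} (p : Cnd c) : p.Le p := ⟨subset_rfl, PExt.refl _ _⟩

theorem Cnd.Le.trans {c : Finset ℕ → K} {p q r : Cnd c} (h : p.Le q) (h' : q.Le r) : p.Le r :=
  ⟨h.1.trans h'.1, h'.2.trans h.2⟩

/-- `x` can be given the colour `j`, the limit colour for `d` being `δ`. -/
def Allow {L : Type*} {c : Finset ℕ → K} (d : Finset ℕ → L) (p : Cnd c) (δ : L) (j : K)
    (x : ℕ) : Prop :=
  x ∈ p.A ∧ p.l ≤ x ∧ ∃ l' σ', PExt p.l p.σ l' σ' ∧ x < l' ∧ σ' {x} = j ∧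
    DB c (p.A ∩ {y | d {x, y} = δ}) l' σ'

theorem Allow.mono {L : Type*} {c : Finset ℕ → K} {d : Finset ℕ → L} {p q : Cnd c}
    (h : q.Le p) {δ : L} {j : K} {x : ℕ} (hx : Allow d q δ j x) : Allow d p δ j x := by
  obtain ⟨h1, h2, l', σ', h3, h4, h5, h6⟩ := hx
  refine ⟨h.1 h1, h.2.1.trans h2, l', σ', h.2.trans h3, h4, h5, ?_⟩
  apply h6.mono
  exact Set.inter_subset_inter_left _ h.1

theorem exists_allow {L : Type*} [Finite L] {c : Finset ℕ → K} (d : Finset ℕ → L) (p : Cnd c)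
    (j : K) {x : ℕ} (hx : x ∈ p.A) (hl : p.l ≤ x) : ∃ δ, Allow d p δ j x := by
  classical
  obtain ⟨σ', hσ'⟩ : ∃ σ' : Finset ℕ → K, σ' = fun t => if x ∈ t then j else p.σ t := ⟨_, rfl⟩
  have hext : PExt p.l p.σ (x + 1) σ' := by
    refine ⟨by omega, fun s hs => ?_⟩
    have : x ∉ s := fun h => by
      have := Finset.mem_range.mp (hs h)
      omega
    simp [hσ', this]
  obtain ⟨δ, l'', σ'', h1, h2⟩ := (p.db.of_pext hext).split (fun y => d {x, y})
  refine ⟨δ, hx, hl, l'', σ'', hext.trans h1, by have := h1.1; omega, ?_, h2⟩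
  rw [h1.2 {x} (by simp), hσ']
  simp

/-- A somewhere dense set, as a property of conditions. -/
def SomeDense {c : Finset ℕ → K} (p : Cnd c) (B : Set ℕ) : Prop :=
  ∃ l' σ', PExt p.l p.σ l' σ' ∧ DB c B l' σ'

/-- A robust pattern: from some condition on, the elements which can be given either colour are
somewhere dense. -/
theorem exists_pattern {L : Type*} [Fintype K] [Fintype L] (hKL : Fintype.card L < Fintype.card K)
    {c : Finset ℕ → K} (d : Finset ℕ → L) (p₀ : Cnd c) :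
    ∃ (p : Cnd c) (δ : L) (a b : K), p.Le p₀ ∧ a ≠ b ∧ ∀ q : Cnd c, q.Le p →
      SomeDense q {x | Allow d q δ a x ∧ Allow d q δ b x} := by
  classical
  by_contra hcon
  push Not at hcon
  -- all patterns can be killed
  have hkill : ∀ S : Finset (L × K × K), (∀ π ∈ S, π.2.1 ≠ π.2.2) →
      ∃ p : Cnd c, p.Le p₀ ∧ ∀ π ∈ S, ∀ q : Cnd c, q.Le p →
        ¬ SomeDense q {x | Allow d q π.1 π.2.1 x ∧ Allow d q π.1 π.2.2 x} := by
    intro S
    induction S using Finset.induction_on with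
    | empty =>
      intro _
      exact ⟨p₀, Cnd.Le.refl _, by simp⟩
    | insert π S hπ ih =>
      intro hne
      obtain ⟨p, hp, h1⟩ := ih (fun π' hπ' => hne π' (Finset.mem_insert_of_mem hπ'))
      obtain ⟨q, hq, h2⟩ := hcon p π.1 π.2.1 π.2.2 hp (hne π (Finset.mem_insert_self _ _))
      refine ⟨q, hq.trans hp, ?_⟩
      intro π' hπ' r hr
      rcases Finset.mem_insert.mp hπ' with rfl | hπ'
      · rintro ⟨l', σ', h3, h4⟩
        apply h2
        refine ⟨l', σ', hr.2.trans h3, h4.mono ?_⟩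
        rintro x ⟨hx1, hx2⟩
        exact ⟨hx1.mono hr, hx2.mono hr⟩
      · exact h1 π' hπ' r (hr.trans hq)
  obtain ⟨p, hp, h1⟩ := hkill (Finset.univ.filter (fun π : L × K × K => π.2.1 ≠ π.2.2)) (by simp)
  -- each element is allowed for some pattern
  have h2 : ∀ x, x ∈ p.A → p.l ≤ x → ∃ π : L × K × K, π.2.1 ≠ π.2.2 ∧
      Allow d p π.1 π.2.1 x ∧ Allow d p π.1 π.2.2 x := by
    intro x hx hl
    have h3 : ∀ j : K, ∃ δ, Allow d p δ j x := fun j => exists_allow d p j hx hl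
    choose F hF using h3
    obtain ⟨a, b, hab, hFab⟩ := Fintype.exists_ne_map_eq_of_card_lt F hKL
    refine ⟨(F a, a, b), hab, hF a, ?_⟩
    simp only
    rw [hFab]
    exact hF b
  -- colour the elements by their patterns
  obtain ⟨δ₀⟩ : Nonempty (L × K × K) := by
    obtain ⟨y, hy, hy'⟩ := p.db p.l p.σ (PExt.refl _ _)
    obtain ⟨π, -⟩ := h2 y hy hy'.1
    exact ⟨π⟩
  have h3 : ∃ f : ℕ → L × K × K, ∀ x, x ∈ p.A → p.l ≤ x → (f x).2.1 ≠ (f x).2.2 ∧
      Allow d p (f x).1 (f x).2.1 x ∧ Allow d p (f x).1 (f x).2.2 x := by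
    refine ⟨fun x => if h : x ∈ p.A ∧ p.l ≤ x then Classical.choose (h2 x h.1 h.2) else δ₀, ?_⟩
    intro x hx hl
    have h : x ∈ p.A ∧ p.l ≤ x := ⟨hx, hl⟩
    simp only [h, and_self, dif_pos]
    exact Classical.choose_spec (h2 x hx hl)
  obtain ⟨f, hf⟩ := h3
  obtain ⟨π, l', σ', h4, h5⟩ := p.db.split f
  obtain ⟨y, ⟨hyA, hyf⟩, hyr⟩ := h5 l' σ' (PExt.refl _ _)
  have hπ : π.2.1 ≠ π.2.2 := by
    have := (hf y hyA (h4.1.trans hyr.1)).1
    rw [Set.mem_ofPred_eq] at hyf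
    rwa [hyf] at this
  apply h1 π (by simp [hπ]) p (Cnd.Le.refl p)
  refine ⟨l', σ', h4, ?_⟩
  -- restrict to elements above `p.l`
  intro l'' σ'' h6
  obtain ⟨z, ⟨hzA, hzf⟩, hzr⟩ := h5 l'' σ'' h6
  refine ⟨z, ?_, hzr⟩
  have h7 := hf z hzA ((h4.1.trans h6.1).trans hzr.1)
  rw [Set.mem_ofPred_eq] at hzf
  rw [hzf] at h7
  exact h7.2

/-- Base system for the first question. -/
theorem exists_resSys₁ {K L : Type} [Fintype K] [Fintype L] [Nonempty K]
    (hKL : Fintype.card L < Fintype.card K) {c : Finset ℕ → K} (hc : DenseCol c)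
    (d : Finset ℕ → L) :
    ∃ (δ : L) (a b : K), a ≠ b ∧ Nonempty (ResSys K a b (Good₁ c d δ)) := by
  classical
  obtain ⟨σ₀⟩ : Nonempty (Finset ℕ → K) := inferInstance
  obtain ⟨p, δ, a, b, -, hab, hp⟩ := exists_pattern hKL d
    (⟨Set.univ, 0, σ₀, hc.db 0 σ₀⟩ : Cnd c)
  refine ⟨δ, a, b, hab, ⟨{
    R := {q : Cnd c // q.Le p}
    le := fun q r => q.1.Le r.1
    le_refl := fun r => Cnd.Le.refl _
    le_trans := fun r s t h h' => h.trans h'
    root := ⟨p, Cnd.Le.refl p⟩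
    Al := fun r => {x | (Allow d r.1 δ a x ∧ Allow d r.1 δ b x) ∧ Rea c r.1.l r.1.σ x}
    Com := fun r x j => x < r.1.l ∧ r.1.σ {x} = j ∧ ∀ y ∈ r.1.A, r.1.l ≤ y → d {x, y} = δ
    al_inf := ?_
    com_mono := ?_
    al_com := ?_
    al_gt := ?_
    key := ?_ }⟩⟩
  · intro r N
    obtain ⟨l', σ', h1, h2⟩ := hp r.1 r.2
    obtain ⟨y, hy, hy'⟩ := h2 (max l' (N + 1)) σ'
      ⟨le_max_left _ _, fun s _ => rfl⟩
    refine ⟨y, ⟨hy, ?_⟩, ?_⟩
    · apply Rea.of_pext h1
      exact Rea.of_pext ⟨le_max_left l' (N + 1), fun s _ => rfl⟩ hy'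
    · have := hy'.1
      have := le_max_right l' (N + 1)
      omega
  · rintro r r' x j hle ⟨h1, h2, h3⟩
    refine ⟨lt_of_lt_of_le h1 hle.2.1, ?_, ?_⟩
    · rw [hle.2.2 {x} (by simpa using h1)]
      exact h2
    · intro y hy hly
      exact h3 y (hle.1 hy) (hle.2.1.trans hly)
  · rintro r x j ⟨⟨ha, hb⟩, -⟩ hj
    have hall : Allow d r.1 δ j x := by
      rcases hj with rfl | rfl
      · exact ha
      · exact hb
    obtain ⟨h1, h2, l', σ', h3, h4, h5, h6⟩ := hall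
    refine ⟨⟨⟨r.1.A ∩ {y | d {x, y} = δ}, l', σ', h6⟩, ?_⟩, ?_, ?_⟩
    · exact Cnd.Le.trans ⟨Set.inter_subset_left, h3⟩ r.2
    · exact ⟨Set.inter_subset_left, h3⟩
    · exact ⟨h4, h5, fun y hy _ => hy.2⟩
  · rintro r x y j ⟨h1, -, -⟩ ⟨-, h2⟩
    exact lt_of_lt_of_le h1 h2.1
  · intro s κ hs x hx y hy hxy
    obtain ⟨r, ⟨⟨h1, -⟩, h2⟩, h3⟩ := hs y hy
    obtain ⟨h4, h5, h6⟩ := h3 x hx hxy
    refine ⟨?_, h6 y h1.1 h2.1⟩
    have := h2.2 {x} (by simpa using h4)
    rw [Finset.pair_comm, this, h5]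

/-- Base system for the second question. -/
theorem exists_resSys₂ {K L : Type} [Finite L] {a b : K} {c : Finset ℕ → K} (hc : DenseCol c)
    (d : Finset ℕ → L) :
    ∃ (δ : L), Nonempty (ResSys K a b (Good₂ c d δ)) := by
  classical
  have : Nonempty K := ⟨a⟩
  obtain ⟨σ₀⟩ : Nonempty (Finset ℕ → K) := inferInstance
  obtain ⟨δ, l₀, σ₁, -, hA⟩ := (hc.db 0 σ₀).split (fun x => d {x})
  refine ⟨δ, ⟨{
    R := {q : Cnd c // q.A ⊆ {x | d {x} = δ}}
    le := fun q r => q.1.Le r.1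
    le_refl := fun r => Cnd.Le.refl _
    le_trans := fun r s t h h' => h.trans h'
    root := ⟨⟨Set.univ ∩ {y | d {y} = δ}, l₀, σ₁, hA⟩, Set.inter_subset_right⟩
    Al := fun r => {x | x ∈ r.1.A ∧ Rea c r.1.l r.1.σ x}
    Com := fun r x j => x < r.1.l ∧ r.1.σ {x} = j
    al_inf := ?_
    com_mono := ?_
    al_com := ?_
    al_gt := ?_
    key := ?_ }⟩⟩
  · intro r N
    obtain ⟨y, hy, hy'⟩ := r.1.db (max r.1.l (N + 1)) r.1.σ
      ⟨le_max_left _ _, fun s _ => rfl⟩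
    refine ⟨y, ⟨hy, ?_⟩, ?_⟩
    · exact Rea.of_pext ⟨le_max_left r.1.l (N + 1), fun s _ => rfl⟩ hy'
    · have := hy'.1
      have := le_max_right r.1.l (N + 1)
      omega
  · rintro r r' x j hle ⟨h1, h2⟩
    refine ⟨lt_of_lt_of_le h1 hle.2.1, ?_⟩
    rw [hle.2.2 {x} (by simpa using h1)]
    exact h2
  · rintro r x j ⟨h1, h2⟩ -
    obtain ⟨σ', hσ'⟩ : ∃ σ' : Finset ℕ → K, σ' = fun t => if x ∈ t then j else r.1.σ t :=
      ⟨_, rfl⟩
    have hext : PExt r.1.l r.1.σ (x + 1) σ' := by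
      refine ⟨by have := h2.1; omega, fun s hs => ?_⟩
      have : x ∉ s := fun h => by
        have h3 := Finset.mem_range.mp (hs h)
        have h4 := h2.1
        omega
      simp [hσ', this]
    refine ⟨⟨⟨r.1.A, x + 1, σ', r.1.db.of_pext hext⟩, r.2⟩, ⟨subset_rfl, hext⟩, ?_, ?_⟩
    · simp
    · simp [hσ']
  · rintro r x y j ⟨h1, -⟩ ⟨-, h2⟩
    exact lt_of_lt_of_le h1 h2.1
  · intro s κ hs
    refine ⟨?_, ?_⟩
    · intro x hx y hy hxy
      obtain ⟨r, ⟨h1, h2⟩, h3⟩ := hs y hy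
      obtain ⟨h4, h5⟩ := h3 x hx hxy
      have := h2.2 {x} (by simpa using h4)
      rw [Finset.pair_comm, this, h5]
    · intro x hx
      obtain ⟨r, ⟨h1, -⟩, -⟩ := hs x hx
      exact r.2 h1

/-- The final property: colours of `nc`-element sets are given by the least element, and
`nd`-element sets have `d`-colour `δ`. -/
def GoodF {L : Type*} (nc nd : ℕ) (c : Finset ℕ → K) (d : Finset ℕ → L) (δ : L)
    (s : Finset ℕ) (κ : ℕ → K) : Prop :=
  (s.card = nc → ∀ x ∈ s, (∀ y ∈ s, x ≤ y) → c s = κ x) ∧ (s.card = nd → d s = δ)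

/-- Transfer along an increasing map. -/
theorem ResSys.transfer {K : Type} {a b : K} {G G' : Finset ℕ → (ℕ → K) → Prop}
    (S : ResSys K a b G) {φ : ℕ → ℕ} (hφ : StrictMono φ)
    (h : ∀ (t : Finset ℕ) (κ : ℕ → K), G t (κ ∘ φ) → G' (t.image φ) κ) :
    Nonempty (ResSys K a b G') := by
  classical
  refine ⟨{
    R := S.R
    le := S.le
    le_refl := S.le_refl
    le_trans := S.le_trans
    root := S.root
    Al := fun r => φ '' S.Al r
    Com := fun r y j => ∃ x, y = φ x ∧ S.Com r x j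
    al_inf := ?_
    com_mono := ?_
    al_com := ?_
    al_gt := ?_
    key := ?_ }⟩
  · intro r N
    obtain ⟨x, hx, hN⟩ := S.al_inf r N
    exact ⟨φ x, ⟨x, hx, rfl⟩, lt_of_lt_of_le hN (hφ.id_le x)⟩
  · rintro r r' _ j hle ⟨x, rfl, hx⟩
    exact ⟨x, rfl, S.com_mono r r' x j hle hx⟩
  · rintro r _ j ⟨x, hx, rfl⟩ hj
    obtain ⟨r', h1, h2⟩ := S.al_com r x j hx hj
    exact ⟨r', h1, x, rfl, h2⟩
  · rintro r _ _ j ⟨y, rfl, hy⟩ ⟨x, hx, rfl⟩
    exact hφ (S.al_gt r x y j hy hx)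
  · intro s κ hs
    have hsub : ∀ y ∈ s, ∃ x, φ x = y := by
      intro y hy
      obtain ⟨r, ⟨x, hx, rfl⟩, -⟩ := hs y hy
      exact ⟨x, rfl⟩
    obtain ⟨t, ht⟩ : ∃ t : Finset ℕ, t.image φ = s := by
      refine ⟨s.preimage φ hφ.injective.injOn, ?_⟩
      ext y
      simp only [Finset.mem_image, Finset.mem_preimage]
      constructor
      · rintro ⟨x, hx, rfl⟩
        exact hx
      · intro hy
        obtain ⟨x, rfl⟩ := hsub y hy
        exact ⟨x, hy, rfl⟩
    subst ht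
    apply h
    apply S.key
    intro x hx
    obtain ⟨r, ⟨x', hx', hxx⟩, h2⟩ := hs (φ x) (Finset.mem_image_of_mem _ hx)
    have := hφ.injective hxx
    subst this
    refine ⟨r, hx', ?_⟩
    intro y hy hyx
    obtain ⟨y', hy', h3⟩ := h2 (φ y) (Finset.mem_image_of_mem _ hy) (hφ hyx)
    have := hφ.injective hy'
    subst this
    exact h3

/-- Splitting off the least elements of a finite set. -/
theorem exists_min_split {t : Finset ℕ} {x : ℕ} (hx : x ∈ t) (hmin : ∀ y ∈ t, x ≤ y) :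
    t = {x} ∪ t.erase x ∧ (∀ a ∈ ({x} : Finset ℕ), ∀ b ∈ t.erase x, a < b) := by
  classical
  constructor
  · ext y
    simp only [Finset.mem_union, Finset.mem_singleton, Finset.mem_erase]
    constructor
    · intro hy
      by_cases h : y = x
      · exact Or.inl h
      · exact Or.inr ⟨h, hy⟩
    · rintro (rfl | h)
      · exact hx
      · exact h.2
  · intro a ha b hb
    rw [Finset.mem_singleton] at ha
    subst ha
    exact lt_of_le_of_ne (hmin b (Finset.mem_of_mem_erase hb)) (Finset.ne_of_mem_erase hb).symm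

theorem exists_two_split {t : Finset ℕ} {m : ℕ} (ht : t.card = m + 2) :
    ∃ x y u, x < y ∧ x ∈ t ∧ y ∈ t ∧ (∀ z ∈ t, x ≤ z) ∧ t = ({x, y} : Finset ℕ) ∪ u ∧
      u.card = m ∧ ∀ a ∈ ({x, y} : Finset ℕ), ∀ b ∈ u, a < b := by
  classical
  have hne : t.Nonempty := Finset.card_pos.mp (by omega)
  set x := t.min' hne with hx
  have hxt : x ∈ t := Finset.min'_mem _ _
  have hxmin : ∀ z ∈ t, x ≤ z := fun z hz => Finset.min'_le _ _ hz
  have hc1 : (t.erase x).card = m + 1 := by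
    rw [Finset.card_erase_of_mem hxt]
    omega
  have hne' : (t.erase x).Nonempty := Finset.card_pos.mp (by omega)
  set y := (t.erase x).min' hne' with hy
  have hyt : y ∈ t.erase x := Finset.min'_mem _ _
  have hymin : ∀ z ∈ t.erase x, y ≤ z := fun z hz => Finset.min'_le _ _ hz
  have hxy : x < y := (exists_min_split hxt hxmin).2 x (by simp) y hyt
  refine ⟨x, y, (t.erase x).erase y, hxy, hxt, Finset.mem_of_mem_erase hyt, hxmin, ?_, ?_, ?_⟩
  · ext z
    simp only [Finset.mem_union, Finset.mem_insert, Finset.mem_singleton, Finset.mem_erase]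
    constructor
    · intro hz
      by_cases h1 : z = x
      · exact Or.inl (Or.inl h1)
      · by_cases h2 : z = y
        · exact Or.inl (Or.inr h2)
        · exact Or.inr ⟨h2, h1, hz⟩
    · rintro ((rfl | rfl) | h)
      · exact hxt
      · exact Finset.mem_of_mem_erase hyt
      · exact h.2.2
  · rw [Finset.card_erase_of_mem hyt]
    omega
  · intro a ha b hb
    have h1 : y < b := lt_of_le_of_ne (hymin b (Finset.mem_of_mem_erase hb))
      (Finset.ne_of_mem_erase hb).symm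
    simp only [Finset.mem_insert, Finset.mem_singleton] at ha
    rcases ha with rfl | rfl
    · exact hxy.trans h1
    · exact h1

/-- System for the first question. -/
theorem exists_sys₁ {K L : Type} [Fintype K] [Fintype L] [Nonempty K]
    (hKL : Fintype.card L < Fintype.card K) {c : Finset ℕ → K} (hc : DenseCol c) (m : ℕ)
    (d : Finset ℕ → L) :
    ∃ (δ : L) (a b : K), a ≠ b ∧ Nonempty (ResSys K a b (GoodF (m + 2) (m + 2) c d δ)) := by
  classical
  obtain ⟨φ, d', hφ, h1⟩ := selfsim_iter hc m d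
  obtain ⟨δ, a, b, hab, ⟨S⟩⟩ := exists_resSys₁ hKL hc d'
  refine ⟨δ, a, b, hab, S.transfer hφ ?_⟩
  intro t κ hG
  have hcard : (t.image φ).card = t.card := Finset.card_image_of_injective _ hφ.injective
  refine ⟨?_, ?_⟩
  · intro hcd x hx hxmin
    rw [hcard] at hcd
    obtain ⟨x', y', u, hxy, hx't, hy't, hmin, htu, hu, hlt⟩ := exists_two_split hcd
    have h2 := (h1 {x', y'} u (by simp) hu hlt).1
    rw [← htu] at h2
    rw [h2, (hG x' hx't y' hy't hxy).1]
    have : x = φ x' := by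
      apply le_antisymm
      · exact hxmin _ (Finset.mem_image_of_mem _ hx't)
      · obtain ⟨z, hz, rfl⟩ := Finset.mem_image.mp hx
        exact hφ.monotone (hmin z hz)
    rw [this]
    rfl
  · intro hcd
    rw [hcard] at hcd
    obtain ⟨x', y', u, hxy, hx't, hy't, hmin, htu, hu, hlt⟩ := exists_two_split hcd
    have h2 := (h1 {x', y'} u (by simp) hu hlt).2
    rw [← htu] at h2
    rw [h2, (hG x' hx't y' hy't hxy).2]

/-- System for the second question. -/
theorem exists_sys₂ {K L : Type} [Finite L] {a b : K} {c : Finset ℕ → K} (hc : DenseCol c)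
    (m : ℕ) (d : Finset ℕ → L) :
    ∃ (δ : L), Nonempty (ResSys K a b (GoodF (m + 2) (m + 1) c d δ)) := by
  classical
  have : Nonempty K := ⟨a⟩
  obtain ⟨φ, d', hφ, h1⟩ := selfsim_iter hc m d
  obtain ⟨δ, ⟨S⟩⟩ := exists_resSys₂ (a := a) (b := b) hc d'
  refine ⟨δ, S.transfer hφ ?_⟩
  intro t κ hG
  have hcard : (t.image φ).card = t.card := Finset.card_image_of_injective _ hφ.injective
  refine ⟨?_, ?_⟩
  · intro hcd x hx hxmin
    rw [hcard] at hcd
    obtain ⟨x', y', u, hxy, hx't, hy't, hmin, htu, hu, hlt⟩ := exists_two_split hcd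
    have h2 := (h1 {x', y'} u (by simp) hu hlt).1
    rw [← htu] at h2
    rw [h2, hG.1 x' hx't y' hy't hxy]
    have : x = φ x' := by
      apply le_antisymm
      · exact hxmin _ (Finset.mem_image_of_mem _ hx't)
      · obtain ⟨z, hz, rfl⟩ := Finset.mem_image.mp hx
        exact hφ.monotone (hmin z hz)
    rw [this]
    rfl
  · intro hcd
    rw [hcard] at hcd
    have hne : t.Nonempty := Finset.card_pos.mp (by omega)
    have hxt : t.min' hne ∈ t := Finset.min'_mem _ _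
    have hxmin : ∀ z ∈ t, t.min' hne ≤ z := fun z hz => Finset.min'_le _ _ hz
    obtain ⟨h3, h4⟩ := exists_min_split hxt hxmin
    have h2 := (h1 {t.min' hne} (t.erase (t.min' hne)) (by simp)
      (by rw [Finset.card_erase_of_mem hxt]; omega) h4).2
    rw [← h3] at h2
    rw [h2, hG.2 _ hxt]

end Pool.Agent.Soc
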