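import Mathlib

/-!
Truth-trees with parity.
-/

namespace Pool.Agent.TruthTrees

/-- Formulas built from sentence letters with negation, conjunction, disjunction and arrow. -/
inductive Fml
  | letter (n : ℕ) : Fml
  | neg (θ : Fml) : Fml
  | and (θ χ : Fml) : Fml
  | or (θ χ : Fml) : Fml
  | imp (θ χ : Fml) : Fml
  deriving DecidableEq

/-- The set of sentence letters of a formula. -/
def Fml.letters : Fml → Finset ℕ
  | .letter n => {n}
  | .neg θ => θ.letters
  | .and θ χ => θ.letters ∪ χ.letters
  | .or θ χ => θ.letters ∪ χ.letters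
  | .imp θ χ => θ.letters ∪ χ.letters

/-- A node of a branch. A branch is a list of nodes, and a node is identified with its position in
the list. A node records its label, its trace (the set of the positions of the nodes in it:
itself, and the members of the traces of the nodes it was obtained from) and, if it is a critical
node, the position of its partner. -/
structure Node where
  form : Fml
  trace : Finset ℕ
  partner : Option ℕ

/-- The node at position `n` of the branch `B` has label `θ` and trace `t`. -/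
def At (B : List Node) (n : ℕ) (θ : Fml) (t : Finset ℕ) : Prop :=
  ∃ p : Option ℕ, B[n]? = some ⟨θ, t, p⟩

/-- `Closes S B`: the branch `B` can be prolonged, by finitely many applications of the rules, to
a finite tree all of whose branches crash with parity; recursive-rule steps use formulas
`θ → χ ∈ S`. -/
inductive Closes (S : Set Fml) : List Node → Prop
  /-- a branch that crashes with parity: the nodes at `i`, `j` are labelled `ζ` and `¬ζ`, and for
  every critical node `c` of the branch, with partner `c'`, one has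
  `c ∈ T(i) ∪ T(j) ↔ c' ∈ T(i) ∪ T(j)` -/
  | crash (B : List Node) (i j : ℕ) (ζ : Fml) (ti tj : Finset ℕ)
      (hi : At B i ζ ti) (hj : At B j (.neg ζ) tj)
      (parity : ∀ (c : ℕ) (N : Node) (c' : ℕ), B[c]? = some N → N.partner = some c' →
        (c ∈ ti ∪ tj ↔ c' ∈ ti ∪ tj)) : Closes S B
  /-- `¬¬θ ⇒ θ` -/
  | dneg (B : List Node) (i : ℕ) (θ : Fml) (t : Finset ℕ) (hi : At B i (.neg (.neg θ)) t)
      (h : Closes S (B ++ [⟨θ, insert B.length t, none⟩])) : Closes S B
  /-- `θ ∧ χ ⇒ θ, χ` -/
  | conj (B : List Node) (i : ℕ) (θ χ : Fml) (t : Finset ℕ) (hi : At B i (.and θ χ) t)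
      (h : Closes S (B ++ [⟨θ, insert B.length t, none⟩,
        ⟨χ, insert (B.length + 1) t, none⟩])) : Closes S B
  /-- `¬(θ ∨ χ) ⇒ ¬θ, ¬χ` -/
  | nor (B : List Node) (i : ℕ) (θ χ : Fml) (t : Finset ℕ) (hi : At B i (.neg (.or θ χ)) t)
      (h : Closes S (B ++ [⟨.neg θ, insert B.length t, none⟩,
        ⟨.neg χ, insert (B.length + 1) t, none⟩])) : Closes S B
  /-- fork: `θ ∨ χ ⇒ θ | χ` -/
  | disj (B : List Node) (i : ℕ) (θ χ : Fml) (t : Finset ℕ) (hi : At B i (.or θ χ) t)
      (h₁ : Closes S (B ++ [⟨θ, insert B.length t, none⟩]))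
      (h₂ : Closes S (B ++ [⟨χ, insert B.length t, none⟩])) : Closes S B
  /-- fork: `¬(θ ∧ χ) ⇒ ¬θ | ¬χ` -/
  | nand (B : List Node) (i : ℕ) (θ χ : Fml) (t : Finset ℕ) (hi : At B i (.neg (.and θ χ)) t)
      (h₁ : Closes S (B ++ [⟨.neg θ, insert B.length t, none⟩]))
      (h₂ : Closes S (B ++ [⟨.neg χ, insert B.length t, none⟩])) : Closes S B
  /-- counter-case: `¬(θ → χ) ⇒ θ, ¬χ`, the outputs being critical nodes and each other's
  partners -/
  | counter (B : List Node) (i : ℕ) (θ χ : Fml) (t : Finset ℕ) (hi : At B i (.neg (.imp θ χ)) t)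
      (h : Closes S (B ++ [⟨θ, insert B.length t, some (B.length + 1)⟩,
        ⟨.neg χ, insert (B.length + 1) t, some B.length⟩])) : Closes S B
  /-- modus ponens: from `θ` and `θ → χ` to `χ` -/
  | mp (B : List Node) (i j : ℕ) (θ χ : Fml) (t u : Finset ℕ) (hi : At B i θ t)
      (hj : At B j (.imp θ χ) u)
      (h : Closes S (B ++ [⟨χ, insert B.length (t ∪ u), none⟩])) : Closes S B
  /-- recursive rule: from `θ` to `χ`, where `θ → χ ∈ S` -/
  | recur (B : List Node) (i : ℕ) (θ χ : Fml) (t : Finset ℕ) (hi : At B i θ t)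
      (hS : Fml.imp θ χ ∈ S) (h : Closes S (B ++ [⟨χ, insert B.length t, none⟩])) : Closes S B

/-- `φ` has a good truth-tree all of whose recursive-rule steps use formulas `θ → χ ∈ S`: the tree
starts with the root `¬φ`, at position `0`. -/
def HasGoodTree (S : Set Fml) (φ : Fml) : Prop := Closes S [⟨.neg φ, {0}, none⟩]

/-- The set `A` of acceptable formulas: the least set that contains every `φ` having a good tree
whose recursive-rule steps all use formulas of the set. -/
def Acceptable : Set Fml :=
  {φ | ∀ S : Set Fml, (∀ ψ, HasGoodTree S ψ → ψ ∈ S) → φ ∈ S}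

/-- The omissibility property. -/
def Omissibility (S : Set Fml) : Prop :=
  ∀ α β γ : Fml, Disjoint β.letters α.letters → Disjoint β.letters γ.letters →
    (Fml.imp (.and α β) γ ∈ S ∨ Fml.imp α (.or β γ) ∈ S) → Fml.imp α γ ∈ S

end Pool.Agent.TruthTrees
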