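import Pool.Agent.Lib_helper80.TreeMain

/-!
Acceptable formulas have a designated upper component.
-/

namespace Pool.Agent.TruthTrees

theorem des_of_goodTree {Q : Finset ℕ} {φ : Fml}
    (h : HasGoodTree {ψ | Des (tl Q true ψ)} φ) : Des (tl Q true φ) := by
  have hS : ∀ θ χ, Fml.imp θ χ ∈ {ψ | Des (tl Q true ψ)} →
      ∀ ℓ, vle (tl Q ℓ θ) (tl Q ℓ χ) := fun θ χ hh ℓ => vle_of_des_imp hh ℓ
  have hv : nval Q (⟨.neg φ, {0}, none⟩, false) = vneg (tl Q true φ) := rfl
  have hone : ∀ (i : ℕ) (p : Node × Bool),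
      [((⟨.neg φ, {0}, none⟩ : Node), false)][i]? = some p →
      i = 0 ∧ p = (⟨.neg φ, {0}, none⟩, false) := by
    intro i p hp
    rcases i with _ | i
    · simp at hp
      exact ⟨rfl, hp.symm⟩
    · simp at hp
  have hI : tl Q true φ ≠ .top → InvA Q [((⟨.neg φ, {0}, none⟩ : Node), false)] := by
    intro ht
    refine ⟨⟨_, rfl, rfl⟩, ?_, ?_, ?_, ?_, ?_, ?_⟩
    · intro i p hp
      obtain ⟨rfl, rfl⟩ := hone i p hp
      simp
    · intro i p hp
      obtain ⟨rfl, rfl⟩ := hone i p hp
      simp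
    · intro i p hp m hm
      obtain ⟨rfl, rfl⟩ := hone i p hp
      simp at hm
      simp [hm]
    · intro i p hp
      obtain ⟨rfl, rfl⟩ := hone i p hp
      rw [hv]
      cases h1 : tl Q true φ <;> simp_all [vneg]
    · intro i p hp hb
      obtain ⟨rfl, rfl⟩ := hone i p hp
      simp at hb
    · intro i p hp hb m hm q hq hbq
      obtain ⟨rfl, rfl⟩ := hone i p hp
      obtain ⟨rfl, rfl⟩ := hone m q hq
      exact absurd hbq hb
  cases h1 : tl Q true φ with
  | top => trivial
  | bot =>
    exfalso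
    have h2 : InvB Q [((⟨.neg φ, {0}, none⟩ : Node), false)] [] [] := by
      refine ⟨?_, by simp, by simp⟩
      intro i p hp hr
      exfalso
      obtain ⟨rfl, rfl⟩ := hone i p hp
      apply hr 0 (by simp) _ rfl
      rw [hv, h1]
      rfl
    exact GoodT.not_nil (main_induction hS h _ _ _ rfl (hI (by simp [h1])) h2)
  | fml ζ =>
    have h2 : InvB Q [((⟨.neg φ, {0}, none⟩ : Node), false)] [(.neg ζ, ∅)] [] := by
      refine ⟨?_, by simp, by simp⟩
      intro i p hp hr
      obtain ⟨rfl, rfl⟩ := hone i p hp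
      refine ⟨.neg ζ, ∅, ?_, by simp, by simp⟩
      rw [hv, h1]
      rfl
    exact main_induction hS h _ _ _ rfl (hI (by simp [h1])) h2

/-- Acceptable formulas have a designated upper component. -/
theorem des_of_acceptable (Q : Finset ℕ) {φ : Fml} (h : φ ∈ Acceptable) :
    Des (tl Q true φ) :=
  h {ψ | Des (tl Q true ψ)} (fun _ hψ => des_of_goodTree hψ)

theorem omissibility_acceptable : Omissibility Acceptable := by
  intro α β γ hα hγ h
  have hβ : tv β.letters β = (.bot, .top) := tv_of_subset (Finset.Subset.refl _)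
  have hα' := tv_of_disjoint hα
  have hγ' := tv_of_disjoint hγ
  have key : ∀ φ : Fml, tl β.letters true φ = .fml (.imp α γ) → φ ∈ Acceptable →
      Fml.imp α γ ∈ Acceptable := by
    intro φ h1 h2
    have h3 := des_of_acceptable β.letters h2
    rw [h1] at h3
    exact acc_of_goodT h3
  rcases h with h | h
  · refine key _ ?_ h
    simp [tl, tv, hα', hβ, hγ', vand, vimp]
  · refine key _ ?_ h
    simp [tl, tv, hα', hβ, hγ', vor, vimp, vand]

/-- The letter-sharing property. -/
theorem letterSharing_acceptable : ∀ φ ψ : Fml, Fml.imp φ ψ ∈ Acceptable →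
    ¬ Disjoint φ.letters ψ.letters := by
  intro φ ψ h hd
  have h1 := des_of_acceptable ψ.letters h
  have h2 : tv ψ.letters ψ = (.bot, .top) := tv_of_subset (Finset.Subset.refl _)
  have h3 := tv_of_disjoint hd.symm
  have h4 : tl ψ.letters true (.imp φ ψ) = .bot := by
    simp [tl, tv, h2, h3, vimp, vand]
  rw [h4] at h1
  exact h1

end Pool.Agent.TruthTrees
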