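import Pool.Agent.Lib_helper80.TreeDefs

/-!
A token calculus equivalent to good trees, and the basic acceptable formulas.
-/

namespace Pool.Agent.TruthTrees

/-- Token version of good trees: a state is a list of formulas with their sets of tokens, and a
list of pairs of partner tokens. -/
inductive GoodT (S : Set Fml) : List (Fml × Finset ℕ) → List (ℕ × ℕ) → Prop
  | crash (Γ : List (Fml × Finset ℕ)) (E : List (ℕ × ℕ)) (ζ : Fml) (X Y : Finset ℕ)
      (hX : (ζ, X) ∈ Γ) (hY : (Fml.neg ζ, Y) ∈ Γ)
      (par : ∀ e ∈ E, (e.1 ∈ X ∪ Y ↔ e.2 ∈ X ∪ Y)) : GoodT S Γ E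
  | dneg (Γ : List (Fml × Finset ℕ)) (E : List (ℕ × ℕ)) (θ : Fml) (X : Finset ℕ)
      (hX : (Fml.neg (.neg θ), X) ∈ Γ) (h : GoodT S ((θ, X) :: Γ) E) : GoodT S Γ E
  | conj (Γ : List (Fml × Finset ℕ)) (E : List (ℕ × ℕ)) (θ χ : Fml) (X : Finset ℕ)
      (hX : (Fml.and θ χ, X) ∈ Γ) (h : GoodT S ((θ, X) :: (χ, X) :: Γ) E) : GoodT S Γ E
  | nor (Γ : List (Fml × Finset ℕ)) (E : List (ℕ × ℕ)) (θ χ : Fml) (X : Finset ℕ)
      (hX : (Fml.neg (.or θ χ), X) ∈ Γ)
      (h : GoodT S ((.neg θ, X) :: (.neg χ, X) :: Γ) E) : GoodT S Γ E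
  | disj (Γ : List (Fml × Finset ℕ)) (E : List (ℕ × ℕ)) (θ χ : Fml) (X : Finset ℕ)
      (hX : (Fml.or θ χ, X) ∈ Γ)
      (h₁ : GoodT S ((θ, X) :: Γ) E) (h₂ : GoodT S ((χ, X) :: Γ) E) : GoodT S Γ E
  | nand (Γ : List (Fml × Finset ℕ)) (E : List (ℕ × ℕ)) (θ χ : Fml) (X : Finset ℕ)
      (hX : (Fml.neg (.and θ χ), X) ∈ Γ)
      (h₁ : GoodT S ((.neg θ, X) :: Γ) E) (h₂ : GoodT S ((.neg χ, X) :: Γ) E) : GoodT S Γ E
  | counter (Γ : List (Fml × Finset ℕ)) (E : List (ℕ × ℕ)) (θ χ : Fml) (X : Finset ℕ)
      (hX : (Fml.neg (.imp θ χ), X) ∈ Γ) (c c' : ℕ) (hcc : c ≠ c')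
      (hE : ∀ e ∈ E, e.1 ≠ c ∧ e.1 ≠ c' ∧ e.2 ≠ c ∧ e.2 ≠ c')
      (hΓ : ∀ p ∈ Γ, c ∉ p.2 ∧ c' ∉ p.2)
      (h : GoodT S ((θ, insert c X) :: (.neg χ, insert c' X) :: Γ) ((c, c') :: E)) : GoodT S Γ E
  | mp (Γ : List (Fml × Finset ℕ)) (E : List (ℕ × ℕ)) (θ χ : Fml) (X Y : Finset ℕ)
      (hX : (θ, X) ∈ Γ) (hY : (Fml.imp θ χ, Y) ∈ Γ)
      (h : GoodT S ((χ, X ∪ Y) :: Γ) E) : GoodT S Γ E
  | recur (Γ : List (Fml × Finset ℕ)) (E : List (ℕ × ℕ)) (θ χ : Fml) (X : Finset ℕ)
      (hX : (θ, X) ∈ Γ) (hS : Fml.imp θ χ ∈ S) (h : GoodT S ((χ, X) :: Γ) E) : GoodT S Γ E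

theorem GoodT.not_nil {S : Set Fml} {E : List (ℕ × ℕ)} : ¬ GoodT S [] E := by
  intro h
  cases h <;> simp_all

/-- Relation between a branch and a token state. -/
structure Rel (B : List Node) (Γ : List (Fml × Finset ℕ)) (E : List (ℕ × ℕ)) (g : ℕ → ℕ) :
    Prop where
  node : ∀ ζ X, (ζ, X) ∈ Γ → ∃ i t, At B i ζ t ∧
    ∀ e ∈ E, (e.1 ∈ X ↔ g e.1 ∈ t) ∧ (e.2 ∈ X ↔ g e.2 ∈ t)
  part : ∀ (c : ℕ) (N : Node) (c' : ℕ), B[c]? = some N → N.partner = some c' →
    ∃ e ∈ E, (c = g e.1 ∧ c' = g e.2) ∨ (c = g e.2 ∧ c' = g e.1)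
  lt : ∀ i θ t, At B i θ t → ∀ m ∈ t, m < B.length
  gE : ∀ e ∈ E, g e.1 < B.length ∧ g e.2 < B.length

theorem at_append_left {B : List Node} {C : List Node} {i : ℕ} {θ : Fml} {t : Finset ℕ}
    (h : At B i θ t) : At (B ++ C) i θ t := by
  obtain ⟨p, hp⟩ := h
  refine ⟨p, ?_⟩
  rw [List.getElem?_append_left]
  · exact hp
  · exact (List.getElem?_eq_some_iff.mp hp).1

theorem getElem?_append_one {α : Type*} {B : List α} {a b : α} {i : ℕ}
    (h : (B ++ [a])[i]? = some b) : B[i]? = some b ∨ (i = B.length ∧ b = a) := by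
  rcases lt_trichotomy i B.length with hi | hi | hi
  · rw [List.getElem?_append_left hi] at h
    exact Or.inl h
  · subst hi
    simp at h
    exact Or.inr ⟨rfl, h.symm⟩
  · exfalso
    have := (List.getElem?_eq_some_iff.mp h).1
    simp at this
    omega

/-- Adding a non-critical node whose trace agrees with `X`. -/
theorem Rel.push {B : List Node} {Γ : List (Fml × Finset ℕ)} {E : List (ℕ × ℕ)} {g : ℕ → ℕ}
    (R : Rel B Γ E g) {t : Finset ℕ} (ht : ∀ m ∈ t, m < B.length) (ψ : Fml) (X : Finset ℕ)
    (hX : ∀ e ∈ E, (e.1 ∈ X ↔ g e.1 ∈ t) ∧ (e.2 ∈ X ↔ g e.2 ∈ t)) :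
    Rel (B ++ [⟨ψ, insert B.length t, none⟩]) ((ψ, X) :: Γ) E g where
  node := by
    intro ζ Z hZ
    rcases List.mem_cons.mp hZ with hZ | hZ
    · cases hZ
      refine ⟨B.length, insert B.length t, ⟨none, by simp⟩, ?_⟩
      intro e he
      have h1 := R.gE e he
      have h2 := hX e he
      constructor
      · rw [h2.1, Finset.mem_insert]
        constructor
        · exact Or.inr
        · rintro (h | h)
          · omega
          · exact h
      · rw [h2.2, Finset.mem_insert]
        constructor
        · exact Or.inr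
        · rintro (h | h)
          · omega
          · exact h
    · obtain ⟨i, t', h1, h2⟩ := R.node ζ Z hZ
      exact ⟨i, t', at_append_left h1, h2⟩
  part := by
    intro c N c' h1 h2
    rcases getElem?_append_one h1 with h | ⟨-, h⟩
    · exact R.part c N c' h h2
    · subst h
      simp at h2
  lt := by
    rintro i θ t' ⟨p, hp⟩ m hm
    rcases getElem?_append_one hp with h | ⟨-, h⟩
    · have := R.lt i θ t' ⟨p, h⟩ m hm
      simp
      omega
    · cases h
      rcases Finset.mem_insert.mp hm with h | h
      · simp [h]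
      · have := ht m h
        simp
        omega
  gE := by
    intro e he
    have h1 := R.gE e he
    simp
    omega

theorem GoodT.closes {S : Set Fml} {Γ : List (Fml × Finset ℕ)} {E : List (ℕ × ℕ)}
    (h : GoodT S Γ E) : ∀ (B : List Node) (g : ℕ → ℕ), Rel B Γ E g → Closes S B := by
  induction h with
  | crash Γ E ζ X Y hX hY par =>
    intro B g R
    obtain ⟨i, t, hi, hi'⟩ := R.node _ _ hX
    obtain ⟨j, u, hj, hj'⟩ := R.node _ _ hY
    refine Closes.crash B i j ζ t u hi hj ?_
    intro c N c' h1 h2
    obtain ⟨e, he, hc⟩ := R.part c N c' h1 h2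
    have h3 := par e he
    have h4 := hi' e he
    have h5 := hj' e he
    simp only [Finset.mem_union] at h3 ⊢
    rw [h4.1, h4.2, h5.1, h5.2] at h3
    rcases hc with ⟨rfl, rfl⟩ | ⟨rfl, rfl⟩
    · exact h3
    · exact h3.symm
  | dneg Γ E θ X hX h ih =>
    intro B g R
    obtain ⟨i, t, hi, hi'⟩ := R.node _ _ hX
    exact Closes.dneg B i θ t hi (ih _ g (R.push (R.lt _ _ _ hi) _ _ hi'))
  | conj Γ E θ χ X hX h ih =>
    intro B g R
    obtain ⟨i, t, hi, hi'⟩ := R.node _ _ hX
    refine Closes.conj B i θ χ t hi (ih _ g ?_)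
    have R1 := R.push (R.lt _ _ _ hi) θ _ hi'
    have R2 := R1.push (t := t) (fun m hm => by have := R.lt _ _ _ hi m hm; simp; omega) χ _ hi'
    simp only [List.append_assoc, List.length_append, List.length_singleton,
      List.cons_append, List.nil_append] at R2
    refine ⟨?_, R2.part, R2.lt, R2.gE⟩
    intro ζ Z hZ
    apply R2.node ζ Z
    simp only [List.mem_cons] at hZ ⊢
    tauto
  | nor Γ E θ χ X hX h ih =>
    intro B g R
    obtain ⟨i, t, hi, hi'⟩ := R.node _ _ hX
    refine Closes.nor B i θ χ t hi (ih _ g ?_)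
    have R1 := R.push (R.lt _ _ _ hi) (.neg θ) _ hi'
    have R2 := R1.push (t := t) (fun m hm => by have := R.lt _ _ _ hi m hm; simp; omega)
      (.neg χ) _ hi'
    simp only [List.append_assoc, List.length_append, List.length_singleton,
      List.cons_append, List.nil_append] at R2
    refine ⟨?_, R2.part, R2.lt, R2.gE⟩
    intro ζ Z hZ
    apply R2.node ζ Z
    simp only [List.mem_cons] at hZ ⊢
    tauto
  | disj Γ E θ χ X hX h₁ h₂ ih₁ ih₂ =>
    intro B g R
    obtain ⟨i, t, hi, hi'⟩ := R.node _ _ hX
    exact Closes.disj B i θ χ t hi (ih₁ _ g (R.push (R.lt _ _ _ hi) _ _ hi'))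
      (ih₂ _ g (R.push (R.lt _ _ _ hi) _ _ hi'))
  | nand Γ E θ χ X hX h₁ h₂ ih₁ ih₂ =>
    intro B g R
    obtain ⟨i, t, hi, hi'⟩ := R.node _ _ hX
    exact Closes.nand B i θ χ t hi (ih₁ _ g (R.push (R.lt _ _ _ hi) _ _ hi'))
      (ih₂ _ g (R.push (R.lt _ _ _ hi) _ _ hi'))
  | mp Γ E θ χ X Y hX hY h ih =>
    intro B g R
    obtain ⟨i, t, hi, hi'⟩ := R.node _ _ hX
    obtain ⟨j, u, hj, hj'⟩ := R.node _ _ hY
    refine Closes.mp B i j θ χ t u hi hj (ih _ g (R.push ?_ _ _ ?_))
    · intro m hm
      rcases Finset.mem_union.mp hm with h | h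
      · exact R.lt _ _ _ hi m h
      · exact R.lt _ _ _ hj m h
    · intro e he
      have h4 := hi' e he
      have h5 := hj' e he
      simp only [Finset.mem_union]
      rw [h4.1, h4.2, h5.1, h5.2]
      exact ⟨Iff.rfl, Iff.rfl⟩
  | recur Γ E θ χ X hX hS h ih =>
    intro B g R
    obtain ⟨i, t, hi, hi'⟩ := R.node _ _ hX
    exact Closes.recur B i θ χ t hi hS (ih _ g (R.push (R.lt _ _ _ hi) _ _ hi'))
  | counter Γ E θ χ X hX c c' hcc hE hΓ h ih =>
    intro B g R
    obtain ⟨i, t, hi, hi'⟩ := R.node _ _ hX
    have hlt := R.lt _ _ _ hi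
    refine Closes.counter B i θ χ t hi
      (ih _ (Function.update (Function.update g c B.length) c' (B.length + 1)) ?_)
    have gold : ∀ e ∈ E,
        Function.update (Function.update g c B.length) c' (B.length + 1) e.1 = g e.1 ∧
        Function.update (Function.update g c B.length) c' (B.length + 1) e.2 = g e.2 := by
      intro e he
      have := hE e he
      constructor
      · rw [Function.update_of_ne this.2.1, Function.update_of_ne this.1]
      · rw [Function.update_of_ne this.2.2.2, Function.update_of_ne this.2.2.1]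
    have gc : Function.update (Function.update g c B.length) c' (B.length + 1) c = B.length := by
      rw [Function.update_of_ne hcc, Function.update_self]
    have gc' : Function.update (Function.update g c B.length) c' (B.length + 1) c'
        = B.length + 1 := by
      rw [Function.update_self]
    set g' := Function.update (Function.update g c B.length) c' (B.length + 1) with hg'
    have hmem : ∀ (e : ℕ × ℕ), e ∈ E → ∀ (Z t' : Finset ℕ),
        ((e.1 ∈ Z ↔ g e.1 ∈ t') ∧ (e.2 ∈ Z ↔ g e.2 ∈ t')) →
        (g' e.1 ∈ t' ↔ e.1 ∈ Z) ∧ (g' e.2 ∈ t' ↔ e.2 ∈ Z) := by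
      intro e he Z t' h
      rw [(gold e he).1, (gold e he).2]
      exact ⟨h.1.symm, h.2.symm⟩
    have hXX := hΓ _ hX
    simp only at hXX
    refine ⟨?_, ?_, ?_, ?_⟩
    · intro ζ Z hZ
      simp only [List.mem_cons, Prod.mk.injEq] at hZ
      rcases hZ with ⟨rfl, rfl⟩ | ⟨rfl, rfl⟩ | hZ
      · refine ⟨B.length, insert B.length t, ⟨some (B.length + 1), by simp⟩, ?_⟩
        intro e he
        rcases List.mem_cons.mp he with rfl | he
        · simp only [gc, gc']
          refine ⟨by simp, ?_⟩
          simp only [Finset.mem_insert]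
          constructor
          · rintro (h | h)
            · exact absurd h.symm hcc
            · exact absurd h hXX.2
          · rintro (h | h)
            · omega
            · have := hlt _ h
              omega
        · have h1 := gold e he
          have h2 := hi' e he
          have h3 := hE e he
          have h4 := R.gE e he
          rw [h1.1, h1.2]
          simp only [Finset.mem_insert]
          rw [h2.1, h2.2]
          constructor
          · constructor
            · rintro (h | h)
              · exact absurd h h3.1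
              · exact Or.inr h
            · rintro (h | h)
              · omega
              · exact Or.inr h
          · constructor
            · rintro (h | h)
              · exact absurd h h3.2.2.1
              · exact Or.inr h
            · rintro (h | h)
              · omega
              · exact Or.inr h
      · refine ⟨B.length + 1, insert (B.length + 1) t, ⟨some B.length, by simp⟩, ?_⟩
        intro e he
        rcases List.mem_cons.mp he with rfl | he
        · simp only [gc, gc']
          refine ⟨?_, by simp⟩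
          simp only [Finset.mem_insert]
          constructor
          · rintro (h | h)
            · exact absurd h hcc
            · exact absurd h hXX.1
          · rintro (h | h)
            · omega
            · have := hlt _ h
              omega
        · have h1 := gold e he
          have h2 := hi' e he
          have h3 := hE e he
          have h4 := R.gE e he
          rw [h1.1, h1.2]
          simp only [Finset.mem_insert]
          rw [h2.1, h2.2]
          constructor
          · constructor
            · rintro (h | h)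
              · exact absurd h h3.2.1
              · exact Or.inr h
            · rintro (h | h)
              · omega
              · exact Or.inr h
          · constructor
            · rintro (h | h)
              · exact absurd h h3.2.2.2
              · exact Or.inr h
            · rintro (h | h)
              · omega
              · exact Or.inr h
      · obtain ⟨j, u, hj, hj'⟩ := R.node ζ Z hZ
        refine ⟨j, u, at_append_left hj, ?_⟩
        intro e he
        rcases List.mem_cons.mp he with rfl | he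
        · simp only [gc, gc']
          have h1 := hΓ _ hZ
          have h2 := R.lt _ _ _ hj
          constructor
          · constructor
            · intro h
              exact absurd h h1.1
            · intro h
              have := h2 _ h
              omega
          · constructor
            · intro h
              exact absurd h h1.2
            · intro h
              have := h2 _ h
              omega
        · have h1 := gold e he
          rw [h1.1, h1.2]
          exact hj' e he
    · intro d N d' h1 h2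
      have h1' : (B ++ [(⟨θ, insert B.length t, some (B.length + 1)⟩ : Node)] ++
          [⟨.neg χ, insert (B.length + 1) t, some B.length⟩])[d]? = some N := by
        simpa using h1
      rcases getElem?_append_one h1' with h | ⟨hd, h⟩
      · rcases getElem?_append_one h with h | ⟨hd, h⟩
        · obtain ⟨e, he, hh⟩ := R.part d N d' h h2
          refine ⟨e, List.mem_cons_of_mem _ he, ?_⟩
          rw [(gold e he).1, (gold e he).2]
          exact hh
        · subst h
          simp only [Option.some.injEq] at h2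
          refine ⟨(c, c'), by simp, Or.inl ?_⟩
          simp only [gc, gc']
          exact ⟨hd, h2.symm⟩
      · subst h
        simp only [Option.some.injEq] at h2
        refine ⟨(c, c'), by simp, Or.inr ?_⟩
        simp only [gc, gc']
        refine ⟨?_, h2.symm⟩
        simpa using hd
    · rintro d θ' t' ⟨p, hp⟩ m hm
      have h1' : (B ++ [(⟨θ, insert B.length t, some (B.length + 1)⟩ : Node)] ++
          [⟨.neg χ, insert (B.length + 1) t, some B.length⟩])[d]? = some ⟨θ', t', p⟩ := by
        simpa using hp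
      simp only [List.length_append, List.length_cons, List.length_nil]
      rcases getElem?_append_one h1' with h | ⟨hd, h⟩
      · rcases getElem?_append_one h with h | ⟨hd, h⟩
        · have := R.lt _ _ _ ⟨p, h⟩ m hm
          omega
        · cases h
          rcases Finset.mem_insert.mp hm with h | h
          · omega
          · have := hlt m h
            omega
      · cases h
        rcases Finset.mem_insert.mp hm with h | h
        · omega
        · have := hlt m h
          omega
    · intro e he
      simp only [List.length_append, List.length_cons, List.length_nil]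
      rcases List.mem_cons.mp he with rfl | he
      · simp only [gc, gc']
        omega
      · have h1 := gold e he
        have h2 := R.gE e he
        rw [h1.1, h1.2]
        omega

/-- Monotonicity of `Closes` in the set of formulas. -/
theorem Closes.mono {S S' : Set Fml} (hSS : S ⊆ S') {B : List Node} (h : Closes S B) :
    Closes S' B := by
  induction h with
  | crash B i j ζ ti tj hi hj parity => exact Closes.crash B i j ζ ti tj hi hj parity
  | dneg B i θ t hi h ih => exact Closes.dneg B i θ t hi ih
  | conj B i θ χ t hi h ih => exact Closes.conj B i θ χ t hi ih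
  | nor B i θ χ t hi h ih => exact Closes.nor B i θ χ t hi ih
  | disj B i θ χ t hi h₁ h₂ ih₁ ih₂ => exact Closes.disj B i θ χ t hi ih₁ ih₂
  | nand B i θ χ t hi h₁ h₂ ih₁ ih₂ => exact Closes.nand B i θ χ t hi ih₁ ih₂
  | counter B i θ χ t hi h ih => exact Closes.counter B i θ χ t hi ih
  | mp B i j θ χ t u hi hj h ih => exact Closes.mp B i j θ χ t u hi hj ih
  | recur B i θ χ t hi hS h ih => exact Closes.recur B i θ χ t hi (hSS hS) ih

/-- The set of acceptable formulas is closed. -/
theorem acc_of_goodTree {φ : Fml} (h : HasGoodTree Acceptable φ) : φ ∈ Acceptable := by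
  intro S hS
  apply hS
  apply Closes.mono _ h
  intro ψ hψ
  exact hψ S hS

/-- Token trees prove acceptability. -/
theorem acc_of_goodT {φ : Fml} (h : GoodT Acceptable [(.neg φ, ∅)] []) : φ ∈ Acceptable := by
  apply acc_of_goodTree
  apply h.closes _ id
  refine ⟨?_, ?_, ?_, ?_⟩
  · intro ζ X hX
    simp only [List.mem_singleton, Prod.mk.injEq] at hX
    obtain ⟨rfl, rfl⟩ := hX
    exact ⟨0, {0}, ⟨none, rfl⟩, by simp⟩
  · intro c N c' h1 h2
    rcases c with _ | c
    · simp at h1
      subst h1
      simp at h2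
    · simp at h1
  · rintro i θ t ⟨p, hp⟩ m hm
    rcases i with _ | i
    · simp at hp
      obtain ⟨-, rfl, -⟩ := hp
      simp at hm
      simp [hm]
    · simp at hp
  · simp

/-- Weakening by formulas without tokens. -/
theorem GoodT.weaken {S : Set Fml} {Γ : List (Fml × Finset ℕ)} {E : List (ℕ × ℕ)}
    (h : GoodT S Γ E) : ∀ Γ' : List (Fml × Finset ℕ), (∀ p ∈ Γ, p ∈ Γ') →
      (∀ p ∈ Γ', p ∈ Γ ∨ p.2 = ∅) → GoodT S Γ' E := by
  induction h with
  | crash Γ E ζ X Y hX hY par =>
    intro Γ' h1 h2
    exact GoodT.crash Γ' E ζ X Y (h1 _ hX) (h1 _ hY) par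
  | dneg Γ E θ X hX h ih =>
    intro Γ' h1 h2
    refine GoodT.dneg Γ' E θ X (h1 _ hX) (ih _ ?_ ?_)
    · intro p hp
      rcases List.mem_cons.mp hp with rfl | hp
      · simp
      · exact List.mem_cons_of_mem _ (h1 p hp)
    · intro p hp
      rcases List.mem_cons.mp hp with rfl | hp
      · simp
      · rcases h2 p hp with h | h
        · exact Or.inl (List.mem_cons_of_mem _ h)
        · exact Or.inr h
  | conj Γ E θ χ X hX h ih =>
    intro Γ' h1 h2
    refine GoodT.conj Γ' E θ χ X (h1 _ hX) (ih _ ?_ ?_)
    · intro p hp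
      simp only [List.mem_cons] at hp ⊢
      rcases hp with hp | hp | hp
      · exact Or.inl hp
      · exact Or.inr (Or.inl hp)
      · exact Or.inr (Or.inr (h1 p hp))
    · intro p hp
      simp only [List.mem_cons] at hp ⊢
      rcases hp with hp | hp | hp
      · exact Or.inl (Or.inl hp)
      · exact Or.inl (Or.inr (Or.inl hp))
      · rcases h2 p hp with h | h
        · exact Or.inl (Or.inr (Or.inr h))
        · exact Or.inr h
  | nor Γ E θ χ X hX h ih =>
    intro Γ' h1 h2
    refine GoodT.nor Γ' E θ χ X (h1 _ hX) (ih _ ?_ ?_)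
    · intro p hp
      simp only [List.mem_cons] at hp ⊢
      rcases hp with hp | hp | hp
      · exact Or.inl hp
      · exact Or.inr (Or.inl hp)
      · exact Or.inr (Or.inr (h1 p hp))
    · intro p hp
      simp only [List.mem_cons] at hp ⊢
      rcases hp with hp | hp | hp
      · exact Or.inl (Or.inl hp)
      · exact Or.inl (Or.inr (Or.inl hp))
      · rcases h2 p hp with h | h
        · exact Or.inl (Or.inr (Or.inr h))
        · exact Or.inr h
  | disj Γ E θ χ X hX h₁ h₂ ih₁ ih₂ =>
    intro Γ' h1 h2
    refine GoodT.disj Γ' E θ χ X (h1 _ hX) (ih₁ _ ?_ ?_) (ih₂ _ ?_ ?_)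
    all_goals
      intro p hp
      simp only [List.mem_cons] at hp ⊢
      rcases hp with hp | hp
    · exact Or.inl hp
    · exact Or.inr (h1 p hp)
    · exact Or.inl (Or.inl hp)
    · rcases h2 p hp with h | h
      · exact Or.inl (Or.inr h)
      · exact Or.inr h
    · exact Or.inl hp
    · exact Or.inr (h1 p hp)
    · exact Or.inl (Or.inl hp)
    · rcases h2 p hp with h | h
      · exact Or.inl (Or.inr h)
      · exact Or.inr h
  | nand Γ E θ χ X hX h₁ h₂ ih₁ ih₂ =>
    intro Γ' h1 h2
    refine GoodT.nand Γ' E θ χ X (h1 _ hX) (ih₁ _ ?_ ?_) (ih₂ _ ?_ ?_)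
    all_goals
      intro p hp
      simp only [List.mem_cons] at hp ⊢
      rcases hp with hp | hp
    · exact Or.inl hp
    · exact Or.inr (h1 p hp)
    · exact Or.inl (Or.inl hp)
    · rcases h2 p hp with h | h
      · exact Or.inl (Or.inr h)
      · exact Or.inr h
    · exact Or.inl hp
    · exact Or.inr (h1 p hp)
    · exact Or.inl (Or.inl hp)
    · rcases h2 p hp with h | h
      · exact Or.inl (Or.inr h)
      · exact Or.inr h
  | counter Γ E θ χ X hX c c' hcc hE hΓ h ih =>
    intro Γ' h1 h2
    refine GoodT.counter Γ' E θ χ X (h1 _ hX) c c' hcc hE ?_ (ih _ ?_ ?_)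
    · intro p hp
      rcases h2 p hp with h | h
      · exact hΓ p h
      · simp [h]
    · intro p hp
      simp only [List.mem_cons] at hp ⊢
      rcases hp with hp | hp | hp
      · exact Or.inl hp
      · exact Or.inr (Or.inl hp)
      · exact Or.inr (Or.inr (h1 p hp))
    · intro p hp
      simp only [List.mem_cons] at hp ⊢
      rcases hp with hp | hp | hp
      · exact Or.inl (Or.inl hp)
      · exact Or.inl (Or.inr (Or.inl hp))
      · rcases h2 p hp with h | h
        · exact Or.inl (Or.inr (Or.inr h))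
        · exact Or.inr h
  | mp Γ E θ χ X Y hX hY h ih =>
    intro Γ' h1 h2
    refine GoodT.mp Γ' E θ χ X Y (h1 _ hX) (h1 _ hY) (ih _ ?_ ?_)
    · intro p hp
      rcases List.mem_cons.mp hp with rfl | hp
      · simp
      · exact List.mem_cons_of_mem _ (h1 p hp)
    · intro p hp
      rcases List.mem_cons.mp hp with rfl | hp
      · simp
      · rcases h2 p hp with h | h
        · exact Or.inl (List.mem_cons_of_mem _ h)
        · exact Or.inr h
  | recur Γ E θ χ X hX hS h ih =>
    intro Γ' h1 h2
    refine GoodT.recur Γ' E θ χ X (h1 _ hX) hS (ih _ ?_ ?_)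
    · intro p hp
      rcases List.mem_cons.mp hp with rfl | hp
      · simp
      · exact List.mem_cons_of_mem _ (h1 p hp)
    · intro p hp
      rcases List.mem_cons.mp hp with rfl | hp
      · simp
      · rcases h2 p hp with h | h
        · exact Or.inl (List.mem_cons_of_mem _ h)
        · exact Or.inr h

/-! ### Basic acceptable formulas -/

/-- Reduction of `a → b` to a state with one critical pair. -/
theorem acc_imp_of {a b : Fml}
    (h : GoodT Acceptable [(a, {0}), (.neg b, {1}), (.neg (.imp a b), ∅)] [(0, 1)]) :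
    Fml.imp a b ∈ Acceptable := by
  apply acc_of_goodT
  refine GoodT.counter _ _ a b ∅ (by simp) 0 1 (by decide) (by simp) (by simp) ?_
  simpa using h

theorem acc_refl (a : Fml) : Fml.imp a a ∈ Acceptable :=
  acc_imp_of (GoodT.crash _ _ a {0} {1} (by simp) (by simp) (by simp))

theorem acc_trans {a b c : Fml} (h1 : Fml.imp a b ∈ Acceptable) (h2 : Fml.imp b c ∈ Acceptable) :
    Fml.imp a c ∈ Acceptable :=
  acc_imp_of (GoodT.recur _ _ a b {0} (by simp) h1 (GoodT.recur _ _ b c {0} (by simp) h2
    (GoodT.crash _ _ c {0} {1} (by simp) (by simp) (by simp))))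

theorem acc_contra {a b : Fml} (h1 : Fml.imp a b ∈ Acceptable) :
    Fml.imp (.neg b) (.neg a) ∈ Acceptable :=
  acc_imp_of (GoodT.dneg _ _ a {1} (by simp) (GoodT.recur _ _ a b {1} (by simp) h1
    (GoodT.crash _ _ b {1} {0} (by simp) (by simp) (by simp))))

theorem acc_and_left (a b : Fml) : Fml.imp (.and a b) a ∈ Acceptable :=
  acc_imp_of (GoodT.conj _ _ a b {0} (by simp)
    (GoodT.crash _ _ a {0} {1} (by simp) (by simp) (by simp)))

theorem acc_and_right (a b : Fml) : Fml.imp (.and a b) b ∈ Acceptable :=
  acc_imp_of (GoodT.conj _ _ a b {0} (by simp)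
    (GoodT.crash _ _ b {0} {1} (by simp) (by simp) (by simp)))

theorem acc_and_intro {a b c : Fml} (h1 : Fml.imp a b ∈ Acceptable)
    (h2 : Fml.imp a c ∈ Acceptable) : Fml.imp a (.and b c) ∈ Acceptable :=
  acc_imp_of (GoodT.nand _ _ b c {1} (by simp)
    (GoodT.recur _ _ a b {0} (by simp) h1
      (GoodT.crash _ _ b {0} {1} (by simp) (by simp) (by simp)))
    (GoodT.recur _ _ a c {0} (by simp) h2
      (GoodT.crash _ _ c {0} {1} (by simp) (by simp) (by simp))))

theorem acc_or_left (a b : Fml) : Fml.imp a (.or a b) ∈ Acceptable :=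
  acc_imp_of (GoodT.nor _ _ a b {1} (by simp)
    (GoodT.crash _ _ a {0} {1} (by simp) (by simp) (by simp)))

theorem acc_or_right (a b : Fml) : Fml.imp b (.or a b) ∈ Acceptable :=
  acc_imp_of (GoodT.nor _ _ a b {1} (by simp)
    (GoodT.crash _ _ b {0} {1} (by simp) (by simp) (by simp)))

theorem acc_or_elim {a b c : Fml} (h1 : Fml.imp a c ∈ Acceptable)
    (h2 : Fml.imp b c ∈ Acceptable) : Fml.imp (.or a b) c ∈ Acceptable :=
  acc_imp_of (GoodT.disj _ _ a b {0} (by simp)
    (GoodT.recur _ _ a c {0} (by simp) h1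
      (GoodT.crash _ _ c {0} {1} (by simp) (by simp) (by simp)))
    (GoodT.recur _ _ b c {0} (by simp) h2
      (GoodT.crash _ _ c {0} {1} (by simp) (by simp) (by simp))))

theorem acc_imp_left {a b : Fml} (c : Fml) (h1 : Fml.imp a b ∈ Acceptable) :
    Fml.imp (.imp b c) (.imp a c) ∈ Acceptable :=
  acc_imp_of (GoodT.counter _ _ a c {1} (by simp) 2 3 (by decide) (by simp) (by simp)
    (GoodT.recur _ _ a b {2, 1} (by simp) h1
      (GoodT.mp _ _ b c {2, 1} {0} (by simp) (by simp)
        (GoodT.crash _ _ c ({2, 1} ∪ {0}) {3, 1} (by simp) (by simp) (by decide)))))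

theorem acc_imp_right {c d : Fml} (b : Fml) (h1 : Fml.imp c d ∈ Acceptable) :
    Fml.imp (.imp b c) (.imp b d) ∈ Acceptable :=
  acc_imp_of (GoodT.counter _ _ b d {1} (by simp) 2 3 (by decide) (by simp) (by simp)
    (GoodT.mp _ _ b c {2, 1} {0} (by simp) (by simp)
      (GoodT.recur _ _ c d ({2, 1} ∪ {0}) (by simp) h1
        (GoodT.crash _ _ d ({2, 1} ∪ {0}) {3, 1} (by simp) (by simp) (by decide)))))

/-- Detachment, in token form. -/
theorem goodT_detach {a b : Fml} (h1 : Fml.imp a b ∈ Acceptable)
    (h2 : GoodT Acceptable [(.neg a, ∅)] []) : GoodT Acceptable [(.neg b, ∅)] [] := by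
  refine GoodT.recur _ _ (.neg b) (.neg a) ∅ (by simp) (acc_contra h1) ?_
  apply h2.weaken
  · simp
  · simp

end Pool.Agent.TruthTrees
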