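import Pool.Agent.Lib_helper80.TreeVal

/-!
Invariants of labelled branches.
-/

namespace Pool.Agent.TruthTrees

/-- The value of a labelled node. -/
def nval (Q : Finset ℕ) (p : Node × Bool) : Val := tl Q p.2 p.1.form

/-- Every bad node in `t` is followed by a bad partner of a critical node in `t`. -/
def HpAt (bad : Node × Bool → Prop) (LB : List (Node × Bool)) (t : Finset ℕ) : Prop :=
  ∀ m ∈ t, ∀ q, LB[m]? = some q → bad q → ∃ c ∈ t, ∃ r, LB[c]? = some r ∧ ∃ c',
    r.1.partner = some c' ∧ m < c' ∧ ∃ s, LB[c']? = some s ∧ bad s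

/-- No node in `t` has value `top`. -/
def RealT (Q : Finset ℕ) (LB : List (Node × Bool)) (t : Finset ℕ) : Prop :=
  ∀ m ∈ t, ∀ q, LB[m]? = some q → nval Q q ≠ .top

/-- First group of invariants. -/
structure InvA (Q : Finset ℕ) (LB : List (Node × Bool)) : Prop where
  root : ∃ p, LB[0]? = some p ∧ p.2 = false
  self : ∀ (i : ℕ) (p : Node × Bool), LB[i]? = some p → i ∈ p.1.trace
  zero : ∀ (i : ℕ) (p : Node × Bool), LB[i]? = some p → 0 ∈ p.1.trace
  lt : ∀ (i : ℕ) (p : Node × Bool), LB[i]? = some p → ∀ m ∈ p.1.trace, m < LB.length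
  nb : ∀ (i : ℕ) (p : Node × Bool), LB[i]? = some p → nval Q p ≠ .bot
  hl : ∀ (i : ℕ) (p : Node × Bool), LB[i]? = some p → ¬ p.2 = false → HpAt (fun q => q.2 = false) LB p.1.trace
  ht : ∀ (i : ℕ) (p : Node × Bool), LB[i]? = some p → ¬ nval Q p = .top →
    HpAt (fun q => nval Q q = .top) LB p.1.trace

/-- Second group of invariants. -/
structure InvB (Q : Finset ℕ) (LB : List (Node × Bool)) (Γ : List (Fml × Finset ℕ))
    (E : List (ℕ × ℕ)) : Prop where
  re : ∀ (i : ℕ) (p : Node × Bool), LB[i]? = some p → RealT Q LB p.1.trace → ∃ ζ X, nval Q p = .fml ζ ∧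
    (ζ, X) ∈ Γ ∧ ∀ e ∈ E, (e.1 ∈ X ↔ e.1 ∈ p.1.trace) ∧ (e.2 ∈ X ↔ e.2 ∈ p.1.trace)
  eE : ∀ e ∈ E, e.1 < LB.length ∧ e.2 < LB.length ∧
    ∃ p, LB[e.1]? = some p ∧ p.1.partner = some e.2
  gG : ∀ x ∈ Γ, ∀ m ∈ x.2, m < LB.length

theorem getElem?_append_old {α : Type*} {B C : List α} {b : α} {i : ℕ}
    (h : B[i]? = some b) : (B ++ C)[i]? = some b := by
  rw [List.getElem?_append_left]
  · exact h
  · exact (List.getElem?_eq_some_iff.mp h).1

theorem getElem?_of_append {α : Type*} {B C : List α} {b : α} {i : ℕ}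
    (h : (B ++ C)[i]? = some b) (hi : i < B.length) : B[i]? = some b := by
  rwa [List.getElem?_append_left hi] at h

theorem HpAt.append {bad : Node × Bool → Prop} {LB : List (Node × Bool)} {t : Finset ℕ}
    (h : HpAt bad LB t) (hlt : ∀ m ∈ t, m < LB.length) (C : List (Node × Bool)) :
    HpAt bad (LB ++ C) t := by
  intro m hm q hq hb
  obtain ⟨c, hc, r, hr, c', h1, h2, s, hs, hbs⟩ :=
    h m hm q (getElem?_of_append hq (hlt m hm)) hb
  exact ⟨c, hc, r, getElem?_append_old hr, c', h1, h2, s, getElem?_append_old hs, hbs⟩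

theorem HpAt.union {bad : Node × Bool → Prop} {LB : List (Node × Bool)} {t u : Finset ℕ}
    (h : HpAt bad LB t) (h' : HpAt bad LB u) : HpAt bad LB (t ∪ u) := by
  intro m hm q hq hb
  rcases Finset.mem_union.mp hm with hm | hm
  · obtain ⟨c, hc, r, hr, c', h1, h2, s, hs, hbs⟩ := h m hm q hq hb
    exact ⟨c, Finset.mem_union_left _ hc, r, hr, c', h1, h2, s, hs, hbs⟩
  · obtain ⟨c, hc, r, hr, c', h1, h2, s, hs, hbs⟩ := h' m hm q hq hb
    exact ⟨c, Finset.mem_union_right _ hc, r, hr, c', h1, h2, s, hs, hbs⟩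

theorem HpAt.insert_of {bad : Node × Bool → Prop} {LB : List (Node × Bool)} {t : Finset ℕ}
    (h : HpAt bad LB t) {k : ℕ} (hk : ∀ q, LB[k]? = some q → ¬ bad q) :
    HpAt bad LB (insert k t) := by
  intro m hm q hq hb
  rcases Finset.mem_insert.mp hm with hm | hm
  · subst hm
    exact absurd hb (hk q hq)
  · obtain ⟨c, hc, r, hr, c', h1, h2, s, hs, hbs⟩ := h m hm q hq hb
    exact ⟨c, Finset.mem_insert_of_mem hc, r, hr, c', h1, h2, s, hs, hbs⟩

theorem RealT.append_iff {Q : Finset ℕ} {LB : List (Node × Bool)} {t : Finset ℕ}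
    (hlt : ∀ m ∈ t, m < LB.length) (C : List (Node × Bool)) :
    RealT Q (LB ++ C) t ↔ RealT Q LB t := by
  constructor
  · intro h m hm q hq
    exact h m hm q (getElem?_append_old hq)
  · intro h m hm q hq
    exact h m hm q (getElem?_of_append hq (hlt m hm))

theorem InvA.push {Q : Finset ℕ} {LB : List (Node × Bool)} (I : InvA Q LB) {ψ : Fml}
    {t : Finset ℕ} {ℓ : Bool} (hlt : ∀ m ∈ t, m < LB.length) (h0 : 0 ∈ t)
    (hnb : tl Q ℓ ψ ≠ .bot)
    (hl : ¬ ℓ = false → HpAt (fun q => q.2 = false) LB t)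
    (ht : ¬ tl Q ℓ ψ = .top → HpAt (fun q => nval Q q = .top) LB t) :
    InvA Q (LB ++ [(⟨ψ, insert LB.length t, none⟩, ℓ)]) := by
  have hlast : ∀ q, (LB ++ [((⟨ψ, insert LB.length t, none⟩ : Node), ℓ)])[LB.length]? = some q →
      q = (⟨ψ, insert LB.length t, none⟩, ℓ) := by
    intro q hq
    simp at hq
    exact hq.symm
  refine ⟨?_, ?_, ?_, ?_, ?_, ?_, ?_⟩
  · obtain ⟨p, hp, hp'⟩ := I.root
    exact ⟨p, getElem?_append_old hp, hp'⟩
  · intro i p hp
    rcases getElem?_append_one hp with h | ⟨h, h'⟩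
    · exact I.self i p h
    · subst h'
      simp [h]
  · intro i p hp
    rcases getElem?_append_one hp with h | ⟨h, h'⟩
    · exact I.zero i p h
    · subst h'
      simp [h0]
  · intro i p hp m hm
    rw [List.length_append, List.length_singleton]
    rcases getElem?_append_one hp with h | ⟨h, h'⟩
    · have := I.lt i p h m hm
      omega
    · subst h'
      rcases Finset.mem_insert.mp hm with h | h
      · omega
      · have := hlt m h
        omega
  · intro i p hp
    rcases getElem?_append_one hp with h | ⟨h, h'⟩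
    · exact I.nb i p h
    · subst h'
      exact hnb
  · intro i p hp hb
    rcases getElem?_append_one hp with h | ⟨h, h'⟩
    · exact (I.hl i p h hb).append (I.lt i p h) _
    · subst h'
      apply ((hl hb).append hlt _).insert_of
      intro q hq
      rw [hlast q hq]
      exact hb
  · intro i p hp hb
    rcases getElem?_append_one hp with h | ⟨h, h'⟩
    · exact (I.ht i p h hb).append (I.lt i p h) _
    · subst h'
      apply ((ht hb).append hlt _).insert_of
      intro q hq
      rw [hlast q hq]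
      exact hb

theorem InvB.push {Q : Finset ℕ} {LB : List (Node × Bool)} {Γ : List (Fml × Finset ℕ)}
    {E : List (ℕ × ℕ)} (I : InvA Q LB) (J : InvB Q LB Γ E) {ψ : Fml}
    {t : Finset ℕ} {ℓ : Bool} (hlt : ∀ m ∈ t, m < LB.length)
    (re : RealT Q LB t → tl Q ℓ ψ ≠ .top → ∃ ζ X, tl Q ℓ ψ = .fml ζ ∧
      (ζ, X) ∈ Γ ∧ ∀ e ∈ E, (e.1 ∈ X ↔ e.1 ∈ t) ∧ (e.2 ∈ X ↔ e.2 ∈ t)) :
    InvB Q (LB ++ [(⟨ψ, insert LB.length t, none⟩, ℓ)]) Γ E := by
  refine ⟨?_, ?_, ?_⟩
  · intro i p hp hr
    rcases getElem?_append_one hp with h | ⟨h, h'⟩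
    · exact J.re i p h ((RealT.append_iff (I.lt i p h) _).mp hr)
    · subst h'
      have h1 : RealT Q LB t := by
        apply (RealT.append_iff hlt _).mp
        intro m hm q hq
        exact hr m (Finset.mem_insert_of_mem hm) q hq
      have h2 : tl Q ℓ ψ ≠ .top :=
        hr LB.length (by simp) (⟨ψ, insert LB.length t, none⟩, ℓ) (by simp)
      obtain ⟨ζ, X, h3, h4, h5⟩ := re h1 h2
      refine ⟨ζ, X, h3, h4, ?_⟩
      intro e he
      have h6 := h5 e he
      have h7 := J.eE e he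
      rw [h6.1, h6.2]
      simp only [Finset.mem_insert]
      constructor
      · constructor
        · exact Or.inr
        · rintro (h | h)
          · omega
          · exact h
      · constructor
        · exact Or.inr
        · rintro (h | h)
          · omega
          · exact h
  · intro e he
    obtain ⟨h1, h2, p, h3, h4⟩ := J.eE e he
    refine ⟨?_, ?_, p, getElem?_append_old h3, h4⟩
    · simp
      omega
    · simp
      omega
  · intro x hx m hm
    have := J.gG x hx m hm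
    simp
    omega

theorem InvB.mono {Q : Finset ℕ} {LB : List (Node × Bool)} {Γ Γ' : List (Fml × Finset ℕ)}
    {E : List (ℕ × ℕ)} (J : InvB Q LB Γ E) (h : ∀ x ∈ Γ, x ∈ Γ')
    (h' : ∀ x ∈ Γ', ∀ m ∈ x.2, m < LB.length) : InvB Q LB Γ' E := by
  refine ⟨?_, J.eE, h'⟩
  intro i p hp hr
  obtain ⟨ζ, X, h1, h2, h3⟩ := J.re i p hp hr
  exact ⟨ζ, X, h1, h _ h2, h3⟩

theorem InvB.cons {Q : Finset ℕ} {LB : List (Node × Bool)} {Γ : List (Fml × Finset ℕ)}
    {E : List (ℕ × ℕ)} (J : InvB Q LB Γ E) {ζ ζ' : Fml} {X : Finset ℕ} (h : (ζ', X) ∈ Γ) :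
    InvB Q LB ((ζ, X) :: Γ) E := by
  refine J.mono (fun x hx => List.mem_cons_of_mem _ hx) ?_
  intro x hx
  rcases List.mem_cons.mp hx with rfl | hx
  · exact J.gG (ζ', X) h
  · exact J.gG _ hx

theorem InvA.push2 {Q : Finset ℕ} {LB : List (Node × Bool)} (I : InvA Q LB) {ψ₁ ψ₂ : Fml}
    {t : Finset ℕ} {ℓ : Bool} (hlt : ∀ m ∈ t, m < LB.length) (h0 : 0 ∈ t)
    (hnb₁ : tl Q ℓ ψ₁ ≠ .bot) (hnb₂ : tl Q ℓ ψ₂ ≠ .bot)
    (hl : ¬ ℓ = false → HpAt (fun q => q.2 = false) LB t)
    (ht₁ : ¬ tl Q ℓ ψ₁ = .top → HpAt (fun q => nval Q q = .top) LB t)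
    (ht₂ : ¬ tl Q ℓ ψ₂ = .top → HpAt (fun q => nval Q q = .top) LB t) :
    InvA Q (LB ++ [(⟨ψ₁, insert LB.length t, none⟩, ℓ),
      (⟨ψ₂, insert (LB.length + 1) t, none⟩, ℓ)]) := by
  have I1 := I.push hlt h0 hnb₁ hl ht₁
  have I2 := I1.push (ψ := ψ₂) (t := t) (ℓ := ℓ)
    (fun m hm => by have := hlt m hm; simp; omega) h0 hnb₂
    (fun h => (hl h).append hlt _) (fun h => (ht₂ h).append hlt _)
  simpa using I2

theorem InvB.push2 {Q : Finset ℕ} {LB : List (Node × Bool)} {Γ : List (Fml × Finset ℕ)}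
    {E : List (ℕ × ℕ)} (I : InvA Q LB) (J : InvB Q LB Γ E) {ψ₁ ψ₂ : Fml}
    {t : Finset ℕ} {ℓ : Bool} (hlt : ∀ m ∈ t, m < LB.length) (h0 : 0 ∈ t)
    (hnb₁ : tl Q ℓ ψ₁ ≠ .bot)
    (hl : ¬ ℓ = false → HpAt (fun q => q.2 = false) LB t)
    (ht₁ : ¬ tl Q ℓ ψ₁ = .top → HpAt (fun q => nval Q q = .top) LB t)
    (re₁ : RealT Q LB t → tl Q ℓ ψ₁ ≠ .top → ∃ ζ X, tl Q ℓ ψ₁ = .fml ζ ∧
      (ζ, X) ∈ Γ ∧ ∀ e ∈ E, (e.1 ∈ X ↔ e.1 ∈ t) ∧ (e.2 ∈ X ↔ e.2 ∈ t))
    (re₂ : RealT Q LB t → tl Q ℓ ψ₂ ≠ .top → ∃ ζ X, tl Q ℓ ψ₂ = .fml ζ ∧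
      (ζ, X) ∈ Γ ∧ ∀ e ∈ E, (e.1 ∈ X ↔ e.1 ∈ t) ∧ (e.2 ∈ X ↔ e.2 ∈ t)) :
    InvB Q (LB ++ [(⟨ψ₁, insert LB.length t, none⟩, ℓ),
      (⟨ψ₂, insert (LB.length + 1) t, none⟩, ℓ)]) Γ E := by
  have I1 := I.push hlt h0 hnb₁ hl ht₁
  have J1 := InvB.push I J hlt re₁
  have J2 := InvB.push I1 J1 (ψ := ψ₂) (t := t) (ℓ := ℓ)
    (fun m hm => by have := hlt m hm; simp; omega)
    (fun h => re₂ ((RealT.append_iff hlt _).mp h))
  simpa using J2

/-- Reading the last two nodes. -/
theorem getElem?_append_two {α : Type*} {B : List α} {a a' b : α} {i : ℕ}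
    (h : (B ++ [a, a'])[i]? = some b) :
    B[i]? = some b ∨ (i = B.length ∧ b = a) ∨ (i = B.length + 1 ∧ b = a') := by
  have h' : ((B ++ [a]) ++ [a'])[i]? = some b := by simpa using h
  rcases getElem?_append_one h' with h | ⟨h, hb⟩
  · rcases getElem?_append_one h with h | h
    · exact Or.inl h
    · exact Or.inr (Or.inl h)
  · refine Or.inr (Or.inr ⟨?_, hb⟩)
    simpa using h

theorem InvA.pushPair {Q : Finset ℕ} {LB : List (Node × Bool)} (I : InvA Q LB) {ψ₁ ψ₂ : Fml}
    {t : Finset ℕ} {ℓ₁ ℓ₂ : Bool} (hlt : ∀ m ∈ t, m < LB.length) (h0 : 0 ∈ t)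
    (hnb₁ : tl Q ℓ₁ ψ₁ ≠ .bot) (hnb₂ : tl Q ℓ₂ ψ₂ ≠ .bot)
    (hl : ¬ ℓ₁ = false → ¬ ℓ₂ = false → HpAt (fun q => q.2 = false) LB t)
    (ht : ¬ tl Q ℓ₁ ψ₁ = .top → ¬ tl Q ℓ₂ ψ₂ = .top →
      HpAt (fun q => nval Q q = .top) LB t) :
    InvA Q (LB ++ [(⟨ψ₁, insert LB.length t, some (LB.length + 1)⟩, ℓ₁),
      (⟨ψ₂, insert (LB.length + 1) t, some LB.length⟩, ℓ₂)]) := by
  set n₁ : Node × Bool := (⟨ψ₁, insert LB.length t, some (LB.length + 1)⟩, ℓ₁) with hn₁
  set n₂ : Node × Bool := (⟨ψ₂, insert (LB.length + 1) t, some LB.length⟩, ℓ₂) with hn₂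
  have g1 : (LB ++ [n₁, n₂])[LB.length]? = some n₁ := by simp
  have g2 : (LB ++ [n₁, n₂])[LB.length + 1]? = some n₂ := by simp
  have key : ∀ bad : Node × Bool → Prop, (¬ bad n₁ → ¬ bad n₂ → HpAt bad LB t) →
      (¬ bad n₁ → HpAt bad (LB ++ [n₁, n₂]) (insert LB.length t)) ∧
      (¬ bad n₂ → HpAt bad (LB ++ [n₁, n₂]) (insert (LB.length + 1) t)) := by
    intro bad hb
    constructor
    · intro h1
      by_cases h2 : bad n₂
      · intro m hm q hq hbq
        rcases Finset.mem_insert.mp hm with hm | hm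
        · subst hm
          rw [g1] at hq
          cases hq
          exact absurd hbq h1
        · refine ⟨LB.length, by simp, n₁, g1, LB.length + 1, rfl, ?_, n₂, g2, h2⟩
          have := hlt m hm
          omega
      · apply ((hb h1 h2).append hlt _).insert_of
        intro q hq
        rw [g1] at hq
        cases hq
        exact h1
    · intro h2
      by_cases h1 : bad n₁
      · intro m hm q hq hbq
        rcases Finset.mem_insert.mp hm with hm | hm
        · subst hm
          rw [g2] at hq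
          cases hq
          exact absurd hbq h2
        · exact ⟨LB.length + 1, by simp, n₂, g2, LB.length, rfl, hlt m hm, n₁, g1, h1⟩
      · apply ((hb h1 h2).append hlt _).insert_of
        intro q hq
        rw [g2] at hq
        cases hq
        exact h2
  refine ⟨?_, ?_, ?_, ?_, ?_, ?_, ?_⟩
  · obtain ⟨p, hp, hp'⟩ := I.root
    exact ⟨p, getElem?_append_old hp, hp'⟩
  · intro i p hp
    rcases getElem?_append_two hp with h | ⟨h, h'⟩ | ⟨h, h'⟩
    · exact I.self i p h
    · subst h'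
      simp [h, hn₁]
    · subst h'
      simp [h, hn₂]
  · intro i p hp
    rcases getElem?_append_two hp with h | ⟨h, h'⟩ | ⟨h, h'⟩
    · exact I.zero i p h
    · subst h'
      simp [h0, hn₁]
    · subst h'
      simp [h0, hn₂]
  · intro i p hp m hm
    simp only [List.length_append, List.length_cons, List.length_nil]
    rcases getElem?_append_two hp with h | ⟨h, h'⟩ | ⟨h, h'⟩
    · have := I.lt i p h m hm
      omega
    · subst h'
      rcases Finset.mem_insert.mp hm with h | h
      · omega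
      · have := hlt m h
        omega
    · subst h'
      rcases Finset.mem_insert.mp hm with h | h
      · omega
      · have := hlt m h
        omega
  · intro i p hp
    rcases getElem?_append_two hp with h | ⟨h, h'⟩ | ⟨h, h'⟩
    · exact I.nb i p h
    · subst h'
      exact hnb₁
    · subst h'
      exact hnb₂
  · intro i p hp hb
    rcases getElem?_append_two hp with h | ⟨h, h'⟩ | ⟨h, h'⟩
    · exact (I.hl i p h hb).append (I.lt i p h) _
    · subst h'
      exact (key (fun q => q.2 = false) hl).1 hb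
    · subst h'
      exact (key (fun q => q.2 = false) hl).2 hb
  · intro i p hp hb
    rcases getElem?_append_two hp with h | ⟨h, h'⟩ | ⟨h, h'⟩
    · exact (I.ht i p h hb).append (I.lt i p h) _
    · subst h'
      exact (key (fun q => nval Q q = .top) ht).1 hb
    · subst h'
      exact (key (fun q => nval Q q = .top) ht).2 hb

theorem InvB.pushPair_nonreal {Q : Finset ℕ} {LB : List (Node × Bool)}
    {Γ : List (Fml × Finset ℕ)} {E : List (ℕ × ℕ)} (I : InvA Q LB) (J : InvB Q LB Γ E)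
    {ψ₁ ψ₂ : Fml} {t : Finset ℕ} {ℓ₁ ℓ₂ : Bool}
    (hr : ¬ RealT Q LB t) :
    InvB Q (LB ++ [(⟨ψ₁, insert LB.length t, some (LB.length + 1)⟩, ℓ₁),
      (⟨ψ₂, insert (LB.length + 1) t, some LB.length⟩, ℓ₂)]) Γ E := by
  refine ⟨?_, ?_, ?_⟩
  · intro i p hp hr'
    rcases getElem?_append_two hp with h | ⟨h, h'⟩ | ⟨h, h'⟩
    · exact J.re i p h ((RealT.append_iff (I.lt i p h) _).mp hr')
    · exfalso
      apply hr
      subst h'
      intro m hm q hq
      exact hr' m (Finset.mem_insert_of_mem hm) q (getElem?_append_old hq)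
    · exfalso
      apply hr
      subst h'
      intro m hm q hq
      exact hr' m (Finset.mem_insert_of_mem hm) q (getElem?_append_old hq)
  · intro e he
    obtain ⟨h1, h2, p, h3, h4⟩ := J.eE e he
    refine ⟨?_, ?_, p, getElem?_append_old h3, h4⟩
    · simp only [List.length_append, List.length_cons, List.length_nil]
      omega
    · simp only [List.length_append, List.length_cons, List.length_nil]
      omega
  · intro x hx m hm
    have := J.gG x hx m hm
    simp only [List.length_append, List.length_cons, List.length_nil]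
    omega

theorem InvB.pushPair_real {Q : Finset ℕ} {LB : List (Node × Bool)}
    {Γ : List (Fml × Finset ℕ)} {E : List (ℕ × ℕ)} (I : InvA Q LB) (J : InvB Q LB Γ E)
    {ψ₁ ψ₂ : Fml} {t : Finset ℕ} {ℓ₁ ℓ₂ : Bool} (hlt : ∀ m ∈ t, m < LB.length)
    {ζ₁ ζ₂ : Fml} {X : Finset ℕ} (hX : ∀ m ∈ X, m < LB.length)
    (h₁ : tl Q ℓ₁ ψ₁ = .fml ζ₁) (h₂ : tl Q ℓ₂ ψ₂ = .fml ζ₂)
    (ag : ∀ e ∈ E, (e.1 ∈ X ↔ e.1 ∈ t) ∧ (e.2 ∈ X ↔ e.2 ∈ t)) :
    InvB Q (LB ++ [(⟨ψ₁, insert LB.length t, some (LB.length + 1)⟩, ℓ₁),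
      (⟨ψ₂, insert (LB.length + 1) t, some LB.length⟩, ℓ₂)])
      ((ζ₁, insert LB.length X) :: (ζ₂, insert (LB.length + 1) X) :: Γ)
      ((LB.length, LB.length + 1) :: E) := by
  refine ⟨?_, ?_, ?_⟩
  · intro i p hp hr'
    rcases getElem?_append_two hp with h | ⟨h, h'⟩ | ⟨h, h'⟩
    · obtain ⟨ζ, Z, h3, h4, h5⟩ := J.re i p h ((RealT.append_iff (I.lt i p h) _).mp hr')
      refine ⟨ζ, Z, h3, by simp [h4], ?_⟩
      intro e he
      rcases List.mem_cons.mp he with rfl | he
      · have h6 := J.gG _ h4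
        have h7 := I.lt i p h
        simp only at h6 ⊢
        constructor
        · constructor
          · intro h8
            have := h6 _ h8
            omega
          · intro h8
            have := h7 _ h8
            omega
        · constructor
          · intro h8
            have := h6 _ h8
            omega
          · intro h8
            have := h7 _ h8
            omega
      · exact h5 e he
    · subst h'
      refine ⟨ζ₁, insert LB.length X, h₁, by simp, ?_⟩
      intro e he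
      rcases List.mem_cons.mp he with rfl | he
      · simp only [Finset.mem_insert]
        refine ⟨by simp, ?_⟩
        constructor
        · rintro (h | h)
          · omega
          · have := hX _ h
            omega
        · rintro (h | h)
          · omega
          · have := hlt _ h
            omega
      · have := ag e he
        simp only [Finset.mem_insert]
        rw [this.1, this.2]
        exact ⟨Iff.rfl, Iff.rfl⟩
    · subst h'
      refine ⟨ζ₂, insert (LB.length + 1) X, h₂, by simp, ?_⟩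
      intro e he
      rcases List.mem_cons.mp he with rfl | he
      · simp only [Finset.mem_insert]
        refine ⟨?_, by simp⟩
        constructor
        · rintro (h | h)
          · omega
          · have := hX _ h
            omega
        · rintro (h | h)
          · omega
          · have := hlt _ h
            omega
      · have := ag e he
        simp only [Finset.mem_insert]
        rw [this.1, this.2]
        exact ⟨Iff.rfl, Iff.rfl⟩
  · intro e he
    simp only [List.length_append, List.length_cons, List.length_nil]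
    rcases List.mem_cons.mp he with rfl | he
    · refine ⟨by simp, by simp, (⟨ψ₁, insert LB.length t, some (LB.length + 1)⟩, ℓ₁), ?_, rfl⟩
      simp
    · obtain ⟨h1, h2, p, h3, h4⟩ := J.eE e he
      exact ⟨by omega, by omega, p, getElem?_append_old h3, h4⟩
  · intro x hx m hm
    simp only [List.length_append, List.length_cons, List.length_nil]
    simp only [List.mem_cons] at hx
    rcases hx with rfl | rfl | hx
    · rcases Finset.mem_insert.mp hm with h | h
      · omega
      · have := hX m h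
        omega
    · rcases Finset.mem_insert.mp hm with h | h
      · omega
      · have := hX m h
        omega
    · have := J.gG x hx m hm
      omega

/-- In a set closed under partners, a bad node forces one of the two crash nodes to be bad. -/
theorem bad_of_parity {bad : Node × Bool → Prop} {LB : List (Node × Bool)} {ti tj : Finset ℕ}
    {p q : Node × Bool}
    (par : ∀ (c : ℕ) (r : Node × Bool) (c' : ℕ), LB[c]? = some r → r.1.partner = some c' →
      (c ∈ ti ∪ tj ↔ c' ∈ ti ∪ tj))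
    (hi : ¬ bad p → HpAt bad LB ti) (hj : ¬ bad q → HpAt bad LB tj)
    {m₀ : ℕ} {r₀ : Node × Bool} (hm₀ : m₀ ∈ ti ∪ tj) (hr₀ : LB[m₀]? = some r₀) (hb₀ : bad r₀) :
    bad p ∨ bad q := by
  classical
  by_contra hcon
  push Not at hcon
  obtain ⟨hp, hq⟩ := hcon
  set F := (ti ∪ tj).filter (fun m => ∃ r, LB[m]? = some r ∧ bad r) with hF
  have hne : F.Nonempty := ⟨m₀, by simp only [hF, Finset.mem_filter]; exact ⟨hm₀, r₀, hr₀, hb₀⟩⟩
  have hmax := Finset.max'_mem F hne
  set m := F.max' hne with hm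
  have hmF := hmax
  simp only [hF, Finset.mem_filter] at hmF
  obtain ⟨hmT, r, hr, hbr⟩ := hmF
  have key : ∀ t : Finset ℕ, (∀ x ∈ t, x ∈ ti ∪ tj) → HpAt bad LB t → m ∈ t → False := by
    intro t hsub hp' hmt
    obtain ⟨c, hc, s, hs, c', h1, h2, s', hs', hbs'⟩ := hp' m hmt r hr hbr
    have h3 : c' ∈ ti ∪ tj := (par c s c' hs h1).mp (hsub c hc)
    have h4 : c' ∈ F := by
      simp only [hF, Finset.mem_filter]
      exact ⟨h3, s', hs', hbs'⟩
    have h5 := Finset.le_max' F c' h4
    omega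
  rcases Finset.mem_union.mp hmT with h | h
  · exact key ti (fun x hx => Finset.mem_union_left _ hx) (hi hp) h
  · exact key tj (fun x hx => Finset.mem_union_right _ hx) (hj hq) h

end Pool.Agent.TruthTrees
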