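import Pool.Agent.Lib_helper80.TreeInv

/-!
The main induction: a closing tree is translated into a token tree.
-/

namespace Pool.Agent.TruthTrees

theorem at_map {LB : List (Node × Bool)} {i : ℕ} {θ : Fml} {t : Finset ℕ}
    (h : At (LB.map Prod.fst) i θ t) : ∃ p : Node × Bool, LB[i]? = some p ∧ p.1.form = θ ∧
      p.1.trace = t := by
  obtain ⟨o, ho⟩ := h
  rw [List.getElem?_map] at ho
  rcases hp : LB[i]? with _ | p
  · rw [hp] at ho
    simp at ho
  · rw [hp] at ho
    simp only [Option.map_some, Option.some.injEq] at ho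
    exact ⟨p, rfl, by rw [ho], by rw [ho]⟩

/-- A single new node. -/
theorem Inv.pushBoth {Q : Finset ℕ} {LB : List (Node × Bool)} {Γ : List (Fml × Finset ℕ)}
    {E : List (ℕ × ℕ)} (I : InvA Q LB) (J : InvB Q LB Γ E) {ψ : Fml}
    {t : Finset ℕ} {ℓ : Bool} (hlt : ∀ m ∈ t, m < LB.length) (h0 : 0 ∈ t)
    (hnb : tl Q ℓ ψ ≠ .bot)
    (hl : ¬ ℓ = false → HpAt (fun q => q.2 = false) LB t)
    (ht : ¬ tl Q ℓ ψ = .top → HpAt (fun q => nval Q q = .top) LB t)
    (re : RealT Q LB t → tl Q ℓ ψ ≠ .top → ∃ ζ X, tl Q ℓ ψ = .fml ζ ∧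
      (ζ, X) ∈ Γ ∧ ∀ e ∈ E, (e.1 ∈ X ↔ e.1 ∈ t) ∧ (e.2 ∈ X ↔ e.2 ∈ t)) :
    InvA Q (LB ++ [(⟨ψ, insert LB.length t, none⟩, ℓ)]) ∧
    InvB Q (LB ++ [(⟨ψ, insert LB.length t, none⟩, ℓ)]) Γ E :=
  ⟨I.push hlt h0 hnb hl ht, InvB.push I J hlt re⟩

/-- A counter-case step with given labels. -/
theorem counter_step {Q : Finset ℕ} {LB : List (Node × Bool)} {Γ : List (Fml × Finset ℕ)}
    {E : List (ℕ × ℕ)} (I : InvA Q LB) (J : InvB Q LB Γ E) {i : ℕ} {p : Node × Bool}
    (hp : LB[i]? = some p) {θ χ : Fml} (ℓ₁ ℓ₂ : Bool)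
    (h1 : vimp (tl Q ℓ₁ θ) (tl Q (!ℓ₂) χ) ≠ .top)
    (h2 : vimp (tl Q ℓ₁ θ) (tl Q (!ℓ₂) χ) = .bot ∨ nval Q p ≠ .top)
    (h3 : p.2 = true ∨ ℓ₁ = false ∨ ℓ₂ = false)
    (h4 : RealT Q LB p.1.trace → ∃ a b X, tl Q ℓ₁ θ = .fml a ∧ tl Q (!ℓ₂) χ = .fml b ∧
      (Fml.neg (.imp a b), X) ∈ Γ ∧
      ∀ e ∈ E, (e.1 ∈ X ↔ e.1 ∈ p.1.trace) ∧ (e.2 ∈ X ↔ e.2 ∈ p.1.trace))
    (ih : ∀ (LB' : List (Node × Bool)) (Γ' : List (Fml × Finset ℕ)) (E' : List (ℕ × ℕ)),
      LB'.map Prod.fst = LB.map Prod.fst ++
        [⟨θ, insert (LB.map Prod.fst).length p.1.trace, some ((LB.map Prod.fst).length + 1)⟩,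
        ⟨.neg χ, insert ((LB.map Prod.fst).length + 1) p.1.trace,
          some (LB.map Prod.fst).length⟩] →
      InvA Q LB' → InvB Q LB' Γ' E' → GoodT Acceptable Γ' E') :
    GoodT Acceptable Γ E := by
  have hlt := I.lt i p hp
  have hx : tl Q ℓ₁ θ ≠ .bot := by
    intro h
    rw [h] at h1
    exact h1 rfl
  have hy : tl Q (!ℓ₂) χ ≠ .top := by
    intro h
    rw [h] at h1
    cases h5 : tl Q ℓ₁ θ <;> simp [h5, vimp] at h1
  have hny : tl Q ℓ₂ (.neg χ) ≠ .bot := by
    rw [tl_neg]
    cases h5 : tl Q (!ℓ₂) χ <;> simp [vneg]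
    exact absurd h5 hy
  have hI : InvA Q (LB ++ [(⟨θ, insert LB.length p.1.trace, some (LB.length + 1)⟩, ℓ₁),
      (⟨.neg χ, insert (LB.length + 1) p.1.trace, some LB.length⟩, ℓ₂)]) := by
    refine I.pushPair hlt (I.zero i p hp) hx hny ?_ ?_
    · intro h5 h6
      rcases h3 with h | h | h
      · exact I.hl i p hp (by simp [h])
      · exact absurd h h5
      · exact absurd h h6
    · intro h5 h6
      apply I.ht i p hp
      rcases h2 with h | h
      · exfalso
        rw [tl_neg] at h6
        cases h7 : tl Q ℓ₁ θ <;> cases h8 : tl Q (!ℓ₂) χ <;> simp_all [vimp, vneg]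
      · exact h
  by_cases hr : RealT Q LB p.1.trace
  · obtain ⟨a, b, X, ha, hb, hX, ag⟩ := h4 hr
    have hXlt := J.gG _ hX
    refine GoodT.counter Γ E a b X hX LB.length (LB.length + 1) (by omega) ?_ ?_ ?_
    · intro e he
      obtain ⟨h5, h6, -⟩ := J.eE e he
      omega
    · intro x hx
      have h5 := J.gG x hx
      constructor
      · intro h
        have := h5 _ h
        omega
      · intro h
        have := h5 _ h
        omega
    · refine ih _ _ _ ?_ hI (InvB.pushPair_real I J hlt hXlt ha ?_ ag)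
      · simp
      · rw [tl_neg, hb]
        rfl
  · exact ih _ _ _ (by simp) hI (InvB.pushPair_nonreal I J hr)

/-- Preparation of a modus ponens step. -/
theorem mp_prep {Q : Finset ℕ} {Γ : List (Fml × Finset ℕ)} {E : List (ℕ × ℕ)} {θ χ : Fml}
    {a b : Bool} {c₀ m d : Fml} {X Y : Finset ℕ} (h1 : tl Q a θ = .fml c₀)
    (h2 : tl Q b (.imp θ χ) = .fml m) (h3 : tl Q (a && b) χ = .fml d)
    (hX : (c₀, X) ∈ Γ) (hY : (m, Y) ∈ Γ) :
    ∃ (Γ₁ : List (Fml × Finset ℕ)) (c : Fml), (∀ x ∈ Γ, x ∈ Γ₁) ∧
      (∀ x ∈ Γ₁, x ∈ Γ ∨ x.2 = X ∨ x.2 = Y) ∧ (c, X) ∈ Γ₁ ∧ (Fml.imp c d, Y) ∈ Γ₁ ∧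
      (GoodT Acceptable Γ₁ E → GoodT Acceptable Γ E) := by
  cases b
  · rw [tl_imp_false] at h2
    rw [Bool.and_false] at h3
    rw [h3] at h2
    cases hc : tl Q true θ with
    | bot => rw [hc] at h2; simp [vimp] at h2
    | top => rw [hc] at h2; simp [vimp] at h2
    | fml c =>
      rw [hc] at h2
      simp only [vimp, Val.fml.injEq] at h2
      subst h2
      cases a
      · have hm := tl_mono Q θ
        rw [h1, hc] at hm
        refine ⟨(c, X) :: Γ, c, ?_, ?_, by simp, by simp [hY], ?_⟩
        · intro x hx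
          exact List.mem_cons_of_mem _ hx
        · intro x hx
          rcases List.mem_cons.mp hx with rfl | hx
          · exact Or.inr (Or.inl rfl)
          · exact Or.inl hx
        · intro h
          exact GoodT.recur Γ E c₀ c X hX hm h
      · rw [h1] at hc
        cases hc
        exact ⟨Γ, c₀, fun x hx => hx, fun x hx => Or.inl hx, hX, hY, fun h => h⟩
  · rw [Bool.and_true] at h3
    rw [tl_imp_true] at h2
    split_ifs at h2 with hs
    · have h1' : tl Q true θ = .fml c₀ := by
        cases a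
        · rw [← hs.1]
          exact h1
        · exact h1
      have h3' : tl Q true χ = .fml d := by
        cases a
        · rw [← hs.2]
          exact h3
        · exact h3
      rw [h1', h3'] at h2
      simp only [vimp, Val.fml.injEq] at h2
      subst h2
      exact ⟨Γ, c₀, fun x hx => hx, fun x hx => Or.inl hx, hX, hY, fun h => h⟩
    · cases a
      · rw [h1, h3] at h2
        cases hz : vimp (tl Q true θ) (tl Q true χ) with
        | bot => rw [hz] at h2; simp [vimp, vand] at h2
        | top =>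
          rw [hz] at h2
          simp only [vimp, vand, Val.fml.injEq] at h2
          subst h2
          exact ⟨Γ, c₀, fun x hx => hx, fun x hx => Or.inl hx, hX, hY, fun h => h⟩
        | fml z =>
          rw [hz] at h2
          simp only [vimp, vand, Val.fml.injEq] at h2
          subst h2
          refine ⟨(.imp c₀ d, Y) :: (z, Y) :: Γ, c₀, ?_, ?_, by simp [hX], by simp, ?_⟩
          · intro x hx
            exact List.mem_cons_of_mem _ (List.mem_cons_of_mem _ hx)
          · intro x hx
            simp only [List.mem_cons] at hx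
            rcases hx with rfl | rfl | hx
            · exact Or.inr (Or.inr rfl)
            · exact Or.inr (Or.inr rfl)
            · exact Or.inl hx
          · intro h
            exact GoodT.conj Γ E _ _ Y hY h
      · rw [h1, h3] at h2
        cases hz : vimp (tl Q false θ) (tl Q false χ) with
        | bot => rw [hz] at h2; simp [vand] at h2
        | top =>
          rw [hz] at h2
          simp only [vimp, vand, Val.fml.injEq] at h2
          subst h2
          exact ⟨Γ, c₀, fun x hx => hx, fun x hx => Or.inl hx, hX, hY, fun h => h⟩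
        | fml z =>
          rw [hz] at h2
          simp only [vimp, vand, Val.fml.injEq] at h2
          subst h2
          refine ⟨(z, Y) :: (.imp c₀ d, Y) :: Γ, c₀, ?_, ?_, by simp [hX], by simp, ?_⟩
          · intro x hx
            exact List.mem_cons_of_mem _ (List.mem_cons_of_mem _ hx)
          · intro x hx
            simp only [List.mem_cons] at hx
            rcases hx with rfl | rfl | hx
            · exact Or.inr (Or.inr rfl)
            · exact Or.inr (Or.inr rfl)
            · exact Or.inl hx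
          · intro h
            exact GoodT.conj Γ E _ _ Y hY h

/-- Values in a modus ponens step. -/
theorem mp_values {Q : Finset ℕ} {θ χ : Fml} {a b : Bool} (h1 : tl Q a θ ≠ .bot)
    (h2 : tl Q b (.imp θ χ) ≠ .bot) :
    tl Q (a && b) χ ≠ .bot ∧
      (tl Q (a && b) χ ≠ .top → tl Q a θ ≠ .top ∧ tl Q b (.imp θ χ) ≠ .top) := by
  have hm := tl_mono Q θ
  cases b
  · rw [tl_imp_false] at h2 ⊢
    rw [Bool.and_false]
    cases a
    · cases h3 : tl Q false θ <;> cases h4 : tl Q true θ <;> cases h5 : tl Q false χ <;>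
        simp_all [vimp, vle]
    · cases h4 : tl Q true θ <;> cases h5 : tl Q false χ <;>
        simp_all [vimp, vle]
  · rw [Bool.and_true]
    rw [tl_imp_true] at h2 ⊢
    split_ifs at h2 ⊢ with hs
    · have e1 : tl Q a θ = tl Q true θ := by
        cases a
        · exact hs.1
        · rfl
      have e2 : tl Q a χ = tl Q true χ := by
        cases a
        · exact hs.2
        · rfl
      rw [e1] at h1 ⊢
      rw [e2]
      cases h4 : tl Q true θ <;> cases h5 : tl Q true χ <;>
        simp_all [vimp]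
    · cases a
      · cases h3 : tl Q false θ <;> cases h5 : tl Q false χ <;>
          cases h4 : vimp (tl Q true θ) (tl Q true χ) <;>
          simp_all [vimp, vand]
      · cases h3 : tl Q true θ <;> cases h5 : tl Q true χ <;>
          cases h4 : vimp (tl Q false θ) (tl Q false χ) <;>
          simp_all [vimp, vand]

/-- The main induction. -/
theorem main_induction {Q : Finset ℕ} {S : Set Fml}
    (hS : ∀ θ χ, Fml.imp θ χ ∈ S → ∀ ℓ, vle (tl Q ℓ θ) (tl Q ℓ χ)) {B : List Node}
    (h : Closes S B) : ∀ (LB : List (Node × Bool)) (Γ : List (Fml × Finset ℕ))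
      (E : List (ℕ × ℕ)), LB.map Prod.fst = B → InvA Q LB → InvB Q LB Γ E →
      GoodT Acceptable Γ E := by
  induction h with
  | crash B i j ζ ti tj hi hj parity =>
    intro LB Γ E hB I J
    subst hB
    obtain ⟨p, hp, rfl, rfl⟩ := at_map hi
    obtain ⟨q, hq, hqf, rfl⟩ := at_map hj
    have par : ∀ (c : ℕ) (r : Node × Bool) (c' : ℕ), LB[c]? = some r →
        r.1.partner = some c' →
        (c ∈ p.1.trace ∪ q.1.trace ↔ c' ∈ p.1.trace ∪ q.1.trace) := by
      intro c r c' h1 h2
      apply parity c r.1 c' _ h2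
      rw [List.getElem?_map, h1]
      rfl
    have hl : p.2 = false ∨ q.2 = false := by
      obtain ⟨r, hr, hr'⟩ := I.root
      exact bad_of_parity (bad := fun q => q.2 = false) par (I.hl i p hp) (I.hl j q hq)
        (Finset.mem_union_left _ (I.zero i p hp)) hr hr'
    have hnbp := I.nb i p hp
    have hnbq := I.nb j q hq
    have hvp : nval Q p = tl Q p.2 p.1.form := rfl
    have hvq : nval Q q = vneg (tl Q (!q.2) p.1.form) := by
      rw [nval, hqf, tl_neg]
    have hm := tl_mono Q p.1.form
    have hnt : ¬ (nval Q p = .top ∨ nval Q q = .top) := by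
      rw [hvp, hvq]
      rw [hvp] at hnbp
      rw [hvq] at hnbq
      rcases p with ⟨p, lp⟩
      rcases q with ⟨q, lq⟩
      simp only at *
      cases lp <;> cases lq <;> cases h1 : tl Q false p.form <;>
        cases h2 : tl Q true p.form <;> simp_all [vneg, vle]
    have hrp : RealT Q LB (p.1.trace ∪ q.1.trace) := by
      intro m hm r hr hb
      exact hnt (bad_of_parity (bad := fun q => nval Q q = .top) par (I.ht i p hp)
        (I.ht j q hq) hm hr hb)
    obtain ⟨a, X, ha, hX, agX⟩ := J.re i p hp (fun m hm => hrp m (Finset.mem_union_left _ hm))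
    obtain ⟨b, Y, hb, hY, agY⟩ := J.re j q hq (fun m hm => hrp m (Finset.mem_union_right _ hm))
    have hpar : ∀ e ∈ E, (e.1 ∈ X ∪ Y ↔ e.2 ∈ X ∪ Y) := by
      intro e he
      obtain ⟨-, -, r, hr, hr'⟩ := J.eE e he
      have h1 := par e.1 r e.2 hr hr'
      simp only [Finset.mem_union] at h1 ⊢
      rw [(agX e he).1, (agX e he).2, (agY e he).1, (agY e he).2]
      exact h1
    rw [hvp] at ha
    rw [hvq] at hb
    rcases hlp : p.2 with _ | _ <;> rcases hlq : q.2 with _ | _
    · -- both false
      rw [hlp] at ha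
      rw [hlq] at hb
      simp only [Bool.not_false] at hb
      cases h2 : tl Q true p.1.form with
      | bot => rw [h2] at hb; simp [vneg] at hb
      | top => rw [h2] at hb; simp [vneg] at hb
      | fml c =>
        rw [h2] at hb
        simp only [vneg, Val.fml.injEq] at hb
        subst hb
        rw [ha, h2] at hm
        exact GoodT.recur Γ E a c X hX hm
          (GoodT.crash _ _ c X Y (by simp) (by simp [hY]) hpar)
    · rw [hlp] at ha
      rw [hlq] at hb
      simp only [Bool.not_true] at hb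
      rw [ha] at hb
      simp only [vneg, Val.fml.injEq] at hb
      subst hb
      exact GoodT.crash _ _ a X Y hX hY hpar
    · rw [hlp] at ha
      rw [hlq] at hb
      simp only [Bool.not_false] at hb
      rw [ha] at hb
      simp only [vneg, Val.fml.injEq] at hb
      subst hb
      exact GoodT.crash _ _ a X Y hX hY hpar
    · simp [hlp, hlq] at hl
  | dneg B i θ t hi h ih =>
    intro LB Γ E hB I J
    subst hB
    obtain ⟨p, hp, hpf, rfl⟩ := at_map hi
    have hv : nval Q p = vneg (vneg (tl Q p.2 θ)) := by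
      rw [nval, hpf, tl_neg, tl_neg, Bool.not_not]
    have hnb := I.nb i p hp
    have hlt := I.lt i p hp
    by_cases hr : RealT Q LB p.1.trace
    · obtain ⟨ζ, X, h1, h2, h3⟩ := J.re i p hp hr
      cases h4 : tl Q p.2 θ with
      | bot => rw [hv, h4] at h1; simp [vneg] at h1
      | top => rw [hv, h4] at h1; simp [vneg] at h1
      | fml a =>
        rw [hv, h4] at h1
        simp only [vneg, Val.fml.injEq] at h1
        subst h1
        apply GoodT.dneg Γ E a X h2
        have hh := Inv.pushBoth I (J.cons (ζ := a) h2) (ψ := θ) (ℓ := p.2) hlt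
          (I.zero i p hp) (by rw [h4]; simp) (I.hl i p hp)
          (fun _ => I.ht i p hp (by rw [hv, h4]; simp [vneg]))
          (fun _ _ => ⟨a, X, h4, by simp, h3⟩)
        exact ih _ _ _ (by simp) hh.1 hh.2
    · have hh := Inv.pushBoth I J (ψ := θ) (ℓ := p.2) hlt
          (I.zero i p hp) (by intro h4; rw [hv, h4] at hnb; simp [vneg] at hnb)
          (I.hl i p hp)
          (fun h4 => I.ht i p hp (by
            rw [hv]
            cases h5 : tl Q p.2 θ <;> simp_all [vneg]))
          (fun h4 => absurd h4 hr)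
      exact ih _ _ _ (by simp) hh.1 hh.2
  | conj B i θ χ t hi h ih =>
    intro LB Γ E hB I J
    subst hB
    obtain ⟨p, hp, hpf, rfl⟩ := at_map hi
    have hv : nval Q p = vand (tl Q p.2 θ) (tl Q p.2 χ) := by
      rw [nval, hpf, tl_and]
    have hnb := I.nb i p hp
    have hlt := I.lt i p hp
    have hb1 : tl Q p.2 θ ≠ .bot := by
      intro h4
      rw [hv, h4] at hnb
      simp [vand] at hnb
    have hb2 : tl Q p.2 χ ≠ .bot := by
      intro h4
      rw [hv, h4] at hnb
      cases h5 : tl Q p.2 θ <;> simp [h5, vand] at hnb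
    have ht1 : ¬ tl Q p.2 θ = .top → HpAt (fun q => nval Q q = .top) LB p.1.trace := by
      intro h4
      apply I.ht i p hp
      rw [hv]
      cases h5 : tl Q p.2 θ <;> cases h6 : tl Q p.2 χ <;> simp_all [vand]
    have ht2 : ¬ tl Q p.2 χ = .top → HpAt (fun q => nval Q q = .top) LB p.1.trace := by
      intro h4
      apply I.ht i p hp
      rw [hv]
      cases h5 : tl Q p.2 θ <;> cases h6 : tl Q p.2 χ <;> simp_all [vand]
    have hI := I.push2 hlt (I.zero i p hp) hb1 hb2 (I.hl i p hp) ht1 ht2
    by_cases hr : RealT Q LB p.1.trace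
    · obtain ⟨ζ, X, h1, h2, h3⟩ := J.re i p hp hr
      rw [hv] at h1
      cases h4 : tl Q p.2 θ with
      | bot => exact absurd h4 hb1
      | top =>
        cases h5 : tl Q p.2 χ with
        | bot => exact absurd h5 hb2
        | top => rw [h4, h5] at h1; simp [vand] at h1
        | fml b =>
          rw [h4, h5] at h1
          simp only [vand, Val.fml.injEq] at h1
          subst h1
          refine ih _ _ _ ?_ hI (InvB.push2 I J hlt (I.zero i p hp) hb1 (I.hl i p hp) ht1
            (fun _ h6 => absurd h4 h6) (fun _ _ => ⟨b, X, h5, h2, h3⟩))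
          simp
      | fml a =>
        cases h5 : tl Q p.2 χ with
        | bot => exact absurd h5 hb2
        | top =>
          rw [h4, h5] at h1
          simp only [vand, Val.fml.injEq] at h1
          subst h1
          refine ih _ _ _ ?_ hI (InvB.push2 I J hlt (I.zero i p hp) hb1 (I.hl i p hp) ht1
            (fun _ _ => ⟨a, X, h4, h2, h3⟩) (fun _ h6 => absurd h5 h6))
          simp
        | fml b =>
          rw [h4, h5] at h1
          simp only [vand, Val.fml.injEq] at h1
          subst h1
          apply GoodT.conj Γ E a b X h2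
          refine ih _ _ _ ?_ hI (InvB.push2 I ((J.cons (ζ := b) h2).cons (ζ := a)
            (List.mem_cons_of_mem _ h2)) hlt (I.zero i p hp) hb1 (I.hl i p hp) ht1
            (fun _ _ => ⟨a, X, h4, by simp, h3⟩) (fun _ _ => ⟨b, X, h5, by simp, h3⟩))
          simp
    · refine ih _ _ _ ?_ hI (InvB.push2 I J hlt (I.zero i p hp) hb1 (I.hl i p hp) ht1
        (fun h => absurd h hr) (fun h => absurd h hr))
      simp
  | nor B i θ χ t hi h ih =>
    intro LB Γ E hB I J
    subst hB
    obtain ⟨p, hp, hpf, rfl⟩ := at_map hi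
    have hv : nval Q p = vneg (vor (tl Q (!p.2) θ) (tl Q (!p.2) χ)) := by
      rw [nval, hpf, tl_neg, tl_or]
    have hnb := I.nb i p hp
    have hlt := I.lt i p hp
    have hb1 : tl Q p.2 (.neg θ) ≠ .bot := by
      rw [tl_neg]
      intro h4
      rw [hv] at hnb
      cases h5 : tl Q (!p.2) θ <;> simp_all [vneg, vor]
    have hb2 : tl Q p.2 (.neg χ) ≠ .bot := by
      rw [tl_neg]
      intro h4
      rw [hv] at hnb
      cases h5 : tl Q (!p.2) θ <;> cases h6 : tl Q (!p.2) χ <;> simp_all [vneg, vor]
    have ht1 : ¬ tl Q p.2 (.neg θ) = .top →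
        HpAt (fun q => nval Q q = .top) LB p.1.trace := by
      intro h4
      apply I.ht i p hp
      rw [hv]
      rw [tl_neg] at h4
      cases h5 : tl Q (!p.2) θ <;> cases h6 : tl Q (!p.2) χ <;> simp_all [vneg, vor]
    have ht2 : ¬ tl Q p.2 (.neg χ) = .top →
        HpAt (fun q => nval Q q = .top) LB p.1.trace := by
      intro h4
      apply I.ht i p hp
      rw [hv]
      rw [tl_neg] at h4
      cases h5 : tl Q (!p.2) θ <;> cases h6 : tl Q (!p.2) χ <;> simp_all [vneg, vor]
    have hI := I.push2 hlt (I.zero i p hp) hb1 hb2 (I.hl i p hp) ht1 ht2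
    by_cases hr : RealT Q LB p.1.trace
    · obtain ⟨ζ, X, h1, h2, h3⟩ := J.re i p hp hr
      rw [hv] at h1
      cases h4 : tl Q (!p.2) θ with
      | top => rw [h4] at h1; simp [vneg, vor] at h1
      | bot =>
        have h4' : tl Q p.2 (.neg θ) = .top := by rw [tl_neg, h4]; rfl
        cases h5 : tl Q (!p.2) χ with
        | top => rw [h4, h5] at h1; simp [vneg, vor] at h1
        | bot => rw [h4, h5] at h1; simp [vneg, vor] at h1
        | fml b =>
          have h5' : tl Q p.2 (.neg χ) = .fml (.neg b) := by rw [tl_neg, h5]; rfl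
          rw [h4, h5] at h1
          simp only [vneg, vor, Val.fml.injEq] at h1
          subst h1
          refine ih _ _ _ ?_ hI (InvB.push2 I J hlt (I.zero i p hp) hb1 (I.hl i p hp) ht1
            (fun _ h6 => absurd h4' h6) (fun _ _ => ⟨_, X, h5', h2, h3⟩))
          simp
      | fml a =>
        have h4' : tl Q p.2 (.neg θ) = .fml (.neg a) := by rw [tl_neg, h4]; rfl
        cases h5 : tl Q (!p.2) χ with
        | top => rw [h4, h5] at h1; simp [vneg, vor] at h1
        | bot =>
          have h5' : tl Q p.2 (.neg χ) = .top := by rw [tl_neg, h5]; rfl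
          rw [h4, h5] at h1
          simp only [vneg, vor, Val.fml.injEq] at h1
          subst h1
          refine ih _ _ _ ?_ hI (InvB.push2 I J hlt (I.zero i p hp) hb1 (I.hl i p hp) ht1
            (fun _ _ => ⟨_, X, h4', h2, h3⟩) (fun _ h6 => absurd h5' h6))
          simp
        | fml b =>
          have h5' : tl Q p.2 (.neg χ) = .fml (.neg b) := by rw [tl_neg, h5]; rfl
          rw [h4, h5] at h1
          simp only [vneg, vor, Val.fml.injEq] at h1
          subst h1
          apply GoodT.nor Γ E a b X h2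
          refine ih _ _ _ ?_ hI (InvB.push2 I ((J.cons (ζ := .neg b) h2).cons (ζ := .neg a)
            (List.mem_cons_of_mem _ h2)) hlt (I.zero i p hp) hb1 (I.hl i p hp) ht1
            (fun _ _ => ⟨_, X, h4', by simp, h3⟩) (fun _ _ => ⟨_, X, h5', by simp, h3⟩))
          simp
    · refine ih _ _ _ ?_ hI (InvB.push2 I J hlt (I.zero i p hp) hb1 (I.hl i p hp) ht1
        (fun h => absurd h hr) (fun h => absurd h hr))
      simp
  | disj B i θ χ t hi h₁ h₂ ih₁ ih₂ =>
    intro LB Γ E hB I J
    subst hB
    obtain ⟨p, hp, hpf, rfl⟩ := at_map hi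
    have hv : nval Q p = vor (tl Q p.2 θ) (tl Q p.2 χ) := by
      rw [nval, hpf, tl_or]
    have hnb := I.nb i p hp
    have hlt := I.lt i p hp
    -- following the first output
    have F₁ : tl Q p.2 θ ≠ .bot → (¬ tl Q p.2 θ = .top → ¬ nval Q p = .top) →
        ∀ Γ' : List (Fml × Finset ℕ), InvB Q LB Γ' E →
        (RealT Q LB p.1.trace → tl Q p.2 θ ≠ .top → ∃ ζ X, tl Q p.2 θ = .fml ζ ∧
          (ζ, X) ∈ Γ' ∧ ∀ e ∈ E, (e.1 ∈ X ↔ e.1 ∈ p.1.trace) ∧ (e.2 ∈ X ↔ e.2 ∈ p.1.trace)) →
        GoodT Acceptable Γ' E := by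
      intro h1 h2 Γ' J' h3
      have hh := Inv.pushBoth I J' (ψ := θ) (ℓ := p.2) hlt (I.zero i p hp) h1 (I.hl i p hp)
        (fun h4 => I.ht i p hp (h2 h4)) h3
      exact ih₁ _ _ _ (by simp) hh.1 hh.2
    have F₂ : tl Q p.2 χ ≠ .bot → (¬ tl Q p.2 χ = .top → ¬ nval Q p = .top) →
        ∀ Γ' : List (Fml × Finset ℕ), InvB Q LB Γ' E →
        (RealT Q LB p.1.trace → tl Q p.2 χ ≠ .top → ∃ ζ X, tl Q p.2 χ = .fml ζ ∧
          (ζ, X) ∈ Γ' ∧ ∀ e ∈ E, (e.1 ∈ X ↔ e.1 ∈ p.1.trace) ∧ (e.2 ∈ X ↔ e.2 ∈ p.1.trace)) →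
        GoodT Acceptable Γ' E := by
      intro h1 h2 Γ' J' h3
      have hh := Inv.pushBoth I J' (ψ := χ) (ℓ := p.2) hlt (I.zero i p hp) h1 (I.hl i p hp)
        (fun h4 => I.ht i p hp (h2 h4)) h3
      exact ih₂ _ _ _ (by simp) hh.1 hh.2
    cases h4 : tl Q p.2 θ with
    | top =>
      exact F₁ (by simp [h4]) (fun h => absurd h4 h) Γ J (fun _ h => absurd h4 h)
    | bot =>
      cases h5 : tl Q p.2 χ with
      | bot => rw [hv, h4, h5] at hnb; simp [vor] at hnb
      | top => exact F₂ (by simp [h5]) (fun h => absurd h5 h) Γ J (fun _ h => absurd h5 h)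
      | fml b =>
        refine F₂ (by simp [h5]) (fun h => by rw [hv, h4, h5]; simp [vor]) Γ J ?_
        intro hr _
        obtain ⟨ζ, X, h1, h2, h3⟩ := J.re i p hp hr
        rw [hv, h4, h5] at h1
        simp only [vor, Val.fml.injEq] at h1
        subst h1
        exact ⟨b, X, h5, h2, h3⟩
    | fml a =>
      cases h5 : tl Q p.2 χ with
      | bot =>
        refine F₁ (by simp [h4]) (fun h => by rw [hv, h4, h5]; simp [vor]) Γ J ?_
        intro hr _
        obtain ⟨ζ, X, h1, h2, h3⟩ := J.re i p hp hr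
        rw [hv, h4, h5] at h1
        simp only [vor, Val.fml.injEq] at h1
        subst h1
        exact ⟨a, X, h4, h2, h3⟩
      | top => exact F₂ (by simp [h5]) (fun h => absurd h5 h) Γ J (fun _ h => absurd h5 h)
      | fml b =>
        by_cases hr : RealT Q LB p.1.trace
        · obtain ⟨ζ, X, h1, h2, h3⟩ := J.re i p hp hr
          rw [hv, h4, h5] at h1
          simp only [vor, Val.fml.injEq] at h1
          subst h1
          refine GoodT.disj Γ E a b X h2 ?_ ?_
          · exact F₁ (by simp [h4]) (fun h => by rw [hv, h4, h5]; simp [vor]) _ (J.cons h2)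
              (fun _ _ => ⟨a, X, h4, by simp, h3⟩)
          · exact F₂ (by simp [h5]) (fun h => by rw [hv, h4, h5]; simp [vor]) _ (J.cons h2)
              (fun _ _ => ⟨b, X, h5, by simp, h3⟩)
        · exact F₁ (by simp [h4]) (fun h => by rw [hv, h4, h5]; simp [vor]) Γ J
            (fun h => absurd h hr)
  | nand B i θ χ t hi h₁ h₂ ih₁ ih₂ =>
    intro LB Γ E hB I J
    subst hB
    obtain ⟨p, hp, hpf, rfl⟩ := at_map hi
    have hv : nval Q p = vneg (vand (tl Q (!p.2) θ) (tl Q (!p.2) χ)) := by
      rw [nval, hpf, tl_neg, tl_and]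
    have hnb := I.nb i p hp
    have hlt := I.lt i p hp
    have F₁ : tl Q p.2 (.neg θ) ≠ .bot → (¬ tl Q p.2 (.neg θ) = .top → ¬ nval Q p = .top) →
        ∀ Γ' : List (Fml × Finset ℕ), InvB Q LB Γ' E →
        (RealT Q LB p.1.trace → tl Q p.2 (.neg θ) ≠ .top → ∃ ζ X,
          tl Q p.2 (.neg θ) = .fml ζ ∧
          (ζ, X) ∈ Γ' ∧ ∀ e ∈ E, (e.1 ∈ X ↔ e.1 ∈ p.1.trace) ∧ (e.2 ∈ X ↔ e.2 ∈ p.1.trace)) →
        GoodT Acceptable Γ' E := by
      intro h1 h2 Γ' J' h3
      have hh := Inv.pushBoth I J' (ψ := .neg θ) (ℓ := p.2) hlt (I.zero i p hp) h1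
        (I.hl i p hp) (fun h4 => I.ht i p hp (h2 h4)) h3
      exact ih₁ _ _ _ (by simp) hh.1 hh.2
    have F₂ : tl Q p.2 (.neg χ) ≠ .bot → (¬ tl Q p.2 (.neg χ) = .top → ¬ nval Q p = .top) →
        ∀ Γ' : List (Fml × Finset ℕ), InvB Q LB Γ' E →
        (RealT Q LB p.1.trace → tl Q p.2 (.neg χ) ≠ .top → ∃ ζ X,
          tl Q p.2 (.neg χ) = .fml ζ ∧
          (ζ, X) ∈ Γ' ∧ ∀ e ∈ E, (e.1 ∈ X ↔ e.1 ∈ p.1.trace) ∧ (e.2 ∈ X ↔ e.2 ∈ p.1.trace)) →
        GoodT Acceptable Γ' E := by
      intro h1 h2 Γ' J' h3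
      have hh := Inv.pushBoth I J' (ψ := .neg χ) (ℓ := p.2) hlt (I.zero i p hp) h1
        (I.hl i p hp) (fun h4 => I.ht i p hp (h2 h4)) h3
      exact ih₂ _ _ _ (by simp) hh.1 hh.2
    cases h4 : tl Q (!p.2) θ with
    | bot =>
      have h4' : tl Q p.2 (.neg θ) = .top := by rw [tl_neg, h4]; rfl
      exact F₁ (by simp [h4']) (fun h => absurd h4' h) Γ J (fun _ h => absurd h4' h)
    | top =>
      cases h5 : tl Q (!p.2) χ with
      | top => rw [hv, h4, h5] at hnb; simp [vand, vneg] at hnb
      | bot =>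
        have h5' : tl Q p.2 (.neg χ) = .top := by rw [tl_neg, h5]; rfl
        exact F₂ (by simp [h5']) (fun h => absurd h5' h) Γ J (fun _ h => absurd h5' h)
      | fml b =>
        have h5' : tl Q p.2 (.neg χ) = .fml (.neg b) := by rw [tl_neg, h5]; rfl
        refine F₂ (by simp [h5']) (fun h => by rw [hv, h4, h5]; simp [vand, vneg]) Γ J ?_
        intro hr _
        obtain ⟨ζ, X, h1, h2, h3⟩ := J.re i p hp hr
        rw [hv, h4, h5] at h1
        simp only [vand, vneg, Val.fml.injEq] at h1
        subst h1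
        exact ⟨_, X, h5', h2, h3⟩
    | fml a =>
      have h4' : tl Q p.2 (.neg θ) = .fml (.neg a) := by rw [tl_neg, h4]; rfl
      cases h5 : tl Q (!p.2) χ with
      | top =>
        refine F₁ (by simp [h4']) (fun h => by rw [hv, h4, h5]; simp [vand, vneg]) Γ J ?_
        intro hr _
        obtain ⟨ζ, X, h1, h2, h3⟩ := J.re i p hp hr
        rw [hv, h4, h5] at h1
        simp only [vand, vneg, Val.fml.injEq] at h1
        subst h1
        exact ⟨_, X, h4', h2, h3⟩
      | bot =>
        have h5' : tl Q p.2 (.neg χ) = .top := by rw [tl_neg, h5]; rfl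
        exact F₂ (by simp [h5']) (fun h => absurd h5' h) Γ J (fun _ h => absurd h5' h)
      | fml b =>
        have h5' : tl Q p.2 (.neg χ) = .fml (.neg b) := by rw [tl_neg, h5]; rfl
        by_cases hr : RealT Q LB p.1.trace
        · obtain ⟨ζ, X, h1, h2, h3⟩ := J.re i p hp hr
          rw [hv, h4, h5] at h1
          simp only [vand, vneg, Val.fml.injEq] at h1
          subst h1
          refine GoodT.nand Γ E a b X h2 ?_ ?_
          · exact F₁ (by simp [h4']) (fun h => by rw [hv, h4, h5]; simp [vand, vneg]) _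
              (J.cons h2) (fun _ _ => ⟨_, X, h4', by simp, h3⟩)
          · exact F₂ (by simp [h5']) (fun h => by rw [hv, h4, h5]; simp [vand, vneg]) _
              (J.cons h2) (fun _ _ => ⟨_, X, h5', by simp, h3⟩)
        · exact F₁ (by simp [h4']) (fun h => by rw [hv, h4, h5]; simp [vand, vneg]) Γ J
            (fun h => absurd h hr)
  | counter B i θ χ t hi h ih =>
    intro LB Γ E hB I J
    subst hB
    obtain ⟨p, hp, hpf, rfl⟩ := at_map hi
    have hnb := I.nb i p hp
    rcases hlp : p.2 with _ | _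
    · -- label false
      have hv : nval Q p = vneg (tl Q true (.imp θ χ)) := by
        rw [nval, hpf, tl_neg, hlp]
        rfl
      set A₁ := vimp (tl Q false θ) (tl Q false χ) with hA₁
      set A₂ := vimp (tl Q true θ) (tl Q true χ) with hA₂
      have hU : tl Q true (.imp θ χ) =
          if tl Q false θ = tl Q true θ ∧ tl Q false χ = tl Q true χ then A₂
          else vand A₁ A₂ := rfl
      have hsp : (tl Q false θ = tl Q true θ ∧ tl Q false χ = tl Q true χ) → A₁ = A₂ := by
        rintro ⟨h1, h2⟩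
        rw [hA₁, hA₂, h1, h2]
      -- first labelling
      have L₁ : A₁ ≠ .top → (A₁ = .bot ∨ nval Q p ≠ .top) →
          ∀ Γ' : List (Fml × Finset ℕ), InvB Q LB Γ' E →
          (RealT Q LB p.1.trace → ∃ z X, A₁ = .fml z ∧ (Fml.neg z, X) ∈ Γ' ∧
            ∀ e ∈ E, (e.1 ∈ X ↔ e.1 ∈ p.1.trace) ∧ (e.2 ∈ X ↔ e.2 ∈ p.1.trace)) →
          GoodT Acceptable Γ' E := by
        intro h1 h2 Γ' J' h3
        refine counter_step I J' hp (θ := θ) (χ := χ) false true h1 h2 (by simp) ?_ ih
        intro hr
        obtain ⟨z, X, h4, h5, h6⟩ := h3 hr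
        rw [Bool.not_true]
        cases h7 : tl Q false θ <;> cases h8 : tl Q false χ <;> simp [hA₁, h7, h8, vimp] at h4
        rename_i a b
        subst h4
        exact ⟨a, b, X, rfl, rfl, h5, h6⟩
      have L₂ : A₂ ≠ .top → (A₂ = .bot ∨ nval Q p ≠ .top) →
          ∀ Γ' : List (Fml × Finset ℕ), InvB Q LB Γ' E →
          (RealT Q LB p.1.trace → ∃ z X, A₂ = .fml z ∧ (Fml.neg z, X) ∈ Γ' ∧
            ∀ e ∈ E, (e.1 ∈ X ↔ e.1 ∈ p.1.trace) ∧ (e.2 ∈ X ↔ e.2 ∈ p.1.trace)) →
          GoodT Acceptable Γ' E := by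
        intro h1 h2 Γ' J' h3
        refine counter_step I J' hp (θ := θ) (χ := χ) true false h1 h2 (by simp) ?_ ih
        intro hr
        obtain ⟨z, X, h4, h5, h6⟩ := h3 hr
        rw [Bool.not_false]
        cases h7 : tl Q true θ <;> cases h8 : tl Q true χ <;> simp [hA₂, h7, h8, vimp] at h4
        rename_i a b
        subst h4
        exact ⟨a, b, X, rfl, rfl, h5, h6⟩
      -- real nodes have formula values
      have hre : RealT Q LB p.1.trace → ∃ ζ X, nval Q p = .fml ζ ∧ (ζ, X) ∈ Γ ∧
          ∀ e ∈ E, (e.1 ∈ X ↔ e.1 ∈ p.1.trace) ∧ (e.2 ∈ X ↔ e.2 ∈ p.1.trace) :=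
        J.re i p hp
      cases h1 : A₁ with
      | bot =>
        refine L₁ (by simp [h1]) (Or.inl h1) Γ J ?_
        intro hr
        exfalso
        obtain ⟨ζ, X, h2, -, -⟩ := hre hr
        rw [hv, hU] at h2
        split_ifs at h2 with h3
        · rw [← hsp h3, h1] at h2
          simp [vneg] at h2
        · rw [h1] at h2
          simp [vneg, vand] at h2
      | top =>
        have hns : ¬ (tl Q false θ = tl Q true θ ∧ tl Q false χ = tl Q true χ) := by
          intro h3
          rw [hv, hU, if_pos h3, ← hsp h3, h1] at hnb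
          simp [vneg] at hnb
        rw [if_neg hns, h1] at hU
        simp only [vand] at hU
        have h2 : A₂ ≠ .top := by
          intro h3
          rw [hv, hU, h3] at hnb
          simp [vneg] at hnb
        refine L₂ h2 ?_ Γ J ?_
        · cases h3 : A₂ with
          | bot => exact Or.inl rfl
          | top => exact absurd h3 h2
          | fml z =>
            right
            rw [hv, hU, h3]
            simp [vneg]
        · intro hr
          obtain ⟨ζ, X, h3, h4, h5⟩ := hre hr
          rw [hv, hU] at h3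
          cases h6 : A₂ with
          | bot => rw [h6] at h3; simp [vneg] at h3
          | top => exact absurd h6 h2
          | fml z =>
            rw [h6] at h3
            simp only [vneg, Val.fml.injEq] at h3
            subst h3
            exact ⟨z, X, rfl, h4, h5⟩
      | fml z₁ =>
        cases h2 : A₂ with
        | bot =>
          refine L₂ (by simp [h2]) (Or.inl h2) Γ J ?_
          intro hr
          exfalso
          obtain ⟨ζ, X, h3, -, -⟩ := hre hr
          rw [hv, hU] at h3
          split_ifs at h3 with h4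
          · rw [h2] at h3
            simp [vneg] at h3
          · rw [h1, h2] at h3
            simp [vneg, vand] at h3
        | top =>
          have hns : ¬ (tl Q false θ = tl Q true θ ∧ tl Q false χ = tl Q true χ) := by
            intro h3
            have := hsp h3
            rw [h1, h2] at this
            simp at this
          rw [if_neg hns, h1, h2] at hU
          simp only [vand] at hU
          refine L₁ (by simp [h1]) ?_ Γ J ?_
          · right
            rw [hv, hU]
            simp [vneg]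
          · intro hr
            obtain ⟨ζ, X, h3, h4, h5⟩ := hre hr
            rw [hv, hU] at h3
            simp only [vneg, Val.fml.injEq] at h3
            subst h3
            exact ⟨z₁, X, h1, h4, h5⟩
        | fml z₂ =>
          have hvt : nval Q p ≠ .top := by
            rw [hv, hU, h1, h2]
            split_ifs <;> simp [vneg, vand]
          by_cases hr : RealT Q LB p.1.trace
          · obtain ⟨ζ, X, h3, h4, h5⟩ := hre hr
            rw [hv, hU] at h3
            split_ifs at h3 with h6
            · have h7 := hsp h6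
              rw [← h7, h1] at h3
              simp only [vneg, Val.fml.injEq] at h3
              subst h3
              exact L₁ (by simp [h1]) (Or.inr hvt) Γ J (fun _ => ⟨z₁, X, h1, h4, h5⟩)
            · rw [h1, h2] at h3
              simp only [vneg, vand, Val.fml.injEq] at h3
              subst h3
              refine GoodT.nand Γ E z₁ z₂ X h4 ?_ ?_
              · exact L₁ (by simp [h1]) (Or.inr hvt) _ (J.cons h4)
                  (fun _ => ⟨z₁, X, h1, by simp, h5⟩)
              · exact L₂ (by simp [h2]) (Or.inr hvt) _ (J.cons h4)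
                  (fun _ => ⟨z₂, X, h2, by simp, h5⟩)
          · exact L₁ (by simp [h1]) (Or.inr hvt) Γ J (fun h => absurd h hr)
    · -- label true
      have hv : nval Q p = vneg (vimp (tl Q true θ) (tl Q false χ)) := by
        rw [nval, hpf, tl_neg, hlp]
        rfl
      refine counter_step I J hp (θ := θ) (χ := χ) true true ?_ ?_ (Or.inl hlp) ?_ ih
      · intro h1
        rw [Bool.not_true] at h1
        rw [hv, h1] at hnb
        simp [vneg] at hnb
      · rw [Bool.not_true, hv]
        cases h1 : vimp (tl Q true θ) (tl Q false χ) with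
        | bot => simp
        | top => rw [hv, h1] at hnb; simp [vneg] at hnb
        | fml z => simp [vneg]
      · intro hr
        obtain ⟨ζ, X, h3, h4, h5⟩ := J.re i p hp hr
        rw [Bool.not_true]
        rw [hv] at h3
        cases h7 : tl Q true θ <;> cases h8 : tl Q false χ <;>
          simp [h7, h8, vimp, vneg] at h3
        rename_i a b
        subst h3
        exact ⟨a, b, X, rfl, rfl, h4, h5⟩
  | mp B i j θ χ t u hi hj h ih =>
    intro LB Γ E hB I J
    subst hB
    obtain ⟨p, hp, hpf, rfl⟩ := at_map hi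
    obtain ⟨q, hq, hqf, rfl⟩ := at_map hj
    have hvp : nval Q p = tl Q p.2 θ := by rw [nval, hpf]
    have hvq : nval Q q = tl Q q.2 (.imp θ χ) := by rw [nval, hqf]
    have hnbp := I.nb i p hp
    have hnbq := I.nb j q hq
    rw [hvp] at hnbp
    rw [hvq] at hnbq
    obtain ⟨hv1, hv2⟩ := mp_values hnbp hnbq
    have hlt : ∀ m ∈ p.1.trace ∪ q.1.trace, m < LB.length := by
      intro m hm
      rcases Finset.mem_union.mp hm with h | h
      · exact I.lt i p hp m h
      · exact I.lt j q hq m h
    have hl : ¬ (p.2 && q.2) = false →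
        HpAt (fun q => q.2 = false) LB (p.1.trace ∪ q.1.trace) := by
      intro h1
      have h2 : p.2 = true ∧ q.2 = true := by
        rcases hlp : p.2 <;> rcases hlq : q.2 <;> simp_all
      exact (I.hl i p hp (by simp [h2.1])).union (I.hl j q hq (by simp [h2.2]))
    have ht : ¬ tl Q (p.2 && q.2) χ = .top →
        HpAt (fun q => nval Q q = .top) LB (p.1.trace ∪ q.1.trace) := by
      intro h1
      obtain ⟨h2, h3⟩ := hv2 h1
      exact (I.ht i p hp (by rw [hvp]; exact h2)).union (I.ht j q hq (by rw [hvq]; exact h3))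
    have h0 : 0 ∈ p.1.trace ∪ q.1.trace := Finset.mem_union_left _ (I.zero i p hp)
    by_cases hr : RealT Q LB (p.1.trace ∪ q.1.trace) ∧ tl Q (p.2 && q.2) χ ≠ .top
    · obtain ⟨c₀, X, ha, hX, agX⟩ :=
        J.re i p hp (fun m hm => hr.1 m (Finset.mem_union_left _ hm))
      obtain ⟨m₀, Y, hb, hY, agY⟩ :=
        J.re j q hq (fun m hm => hr.1 m (Finset.mem_union_right _ hm))
      rw [hvp] at ha
      rw [hvq] at hb
      cases hd : tl Q (p.2 && q.2) χ with
      | bot => exact absurd hd hv1
      | top => exact absurd hd hr.2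
      | fml d =>
        obtain ⟨Γ₁, c, k1, k2, k3, k4, k5⟩ := mp_prep (E := E) ha hb hd hX hY
        apply k5
        have J₁ : InvB Q LB Γ₁ E := by
          refine J.mono k1 ?_
          intro x hx
          rcases k2 x hx with h | h | h
          · exact J.gG x h
          · rw [h]
            exact J.gG _ hX
          · rw [h]
            exact J.gG _ hY
        refine GoodT.mp Γ₁ E c d X Y k3 k4 ?_
        have J₂ : InvB Q LB ((d, X ∪ Y) :: Γ₁) E := by
          refine J₁.mono (fun x hx => List.mem_cons_of_mem _ hx) ?_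
          intro x hx
          rcases List.mem_cons.mp hx with rfl | hx
          · intro m hm
            rcases Finset.mem_union.mp hm with h | h
            · exact J.gG _ hX m h
            · exact J.gG _ hY m h
          · exact J₁.gG x hx
        have hh := Inv.pushBoth I J₂ (ψ := χ) (ℓ := p.2 && q.2) hlt h0 hv1 hl ht
          (fun _ _ => ⟨d, X ∪ Y, hd, by simp, by
            intro e he
            have h5 := agX e he
            have h6 := agY e he
            simp only [Finset.mem_union]
            rw [h5.1, h5.2, h6.1, h6.2]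
            exact ⟨Iff.rfl, Iff.rfl⟩⟩)
        exact ih _ _ _ (by simp) hh.1 hh.2
    · have hh := Inv.pushBoth I J (ψ := χ) (ℓ := p.2 && q.2) hlt h0 hv1 hl ht
          (fun h5 h6 => absurd ⟨h5, h6⟩ hr)
      exact ih _ _ _ (by simp) hh.1 hh.2
  | recur B i θ χ t hi hSS h ih =>
    intro LB Γ E hB I J
    subst hB
    obtain ⟨p, hp, hpf, rfl⟩ := at_map hi
    have hv : nval Q p = tl Q p.2 θ := by rw [nval, hpf]
    have hle := hS θ χ hSS p.2
    have hnb := I.nb i p hp
    have hlt := I.lt i p hp
    rw [hv] at hnb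
    have hb1 : tl Q p.2 χ ≠ .bot := by
      intro h4
      cases h5 : tl Q p.2 θ <;> simp_all [vle]
    have ht1 : ¬ tl Q p.2 χ = .top → HpAt (fun q => nval Q q = .top) LB p.1.trace := by
      intro h4
      apply I.ht i p hp
      rw [hv]
      cases h5 : tl Q p.2 θ <;> cases h6 : tl Q p.2 χ <;> simp_all [vle]
    by_cases hr : RealT Q LB p.1.trace ∧ tl Q p.2 χ ≠ .top
    · obtain ⟨a, X, h1, h2, h3⟩ := J.re i p hp hr.1
      rw [hv] at h1
      cases h4 : tl Q p.2 χ with
      | bot => exact absurd h4 hb1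
      | top => exact absurd h4 hr.2
      | fml b =>
        rw [h1, h4] at hle
        apply GoodT.recur Γ E a b X h2 hle
        have hh := Inv.pushBoth I (J.cons (ζ := b) h2) (ψ := χ) (ℓ := p.2) hlt
          (I.zero i p hp) hb1 (I.hl i p hp) ht1
          (fun _ _ => ⟨b, X, h4, by simp, h3⟩)
        exact ih _ _ _ (by simp) hh.1 hh.2
    · have hh := Inv.pushBoth I J (ψ := χ) (ℓ := p.2) hlt
          (I.zero i p hp) hb1 (I.hl i p hp) ht1 (fun h5 h6 => absurd ⟨h5, h6⟩ hr)
      exact ih _ _ _ (by simp) hh.1 hh.2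

end Pool.Agent.TruthTrees
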