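import Pool.Agent.Lib_helper80.TreeGood

/-!
Values (formulas with two extra constants) and the two-component translation.
-/

namespace Pool.Agent.TruthTrees

/-- Formulas with two extra constants, kept outside the formulas. -/
inductive Val
  | bot : Val
  | top : Val
  | fml (ζ : Fml) : Val
  deriving DecidableEq

/-- Negation of values. -/
def vneg : Val → Val
  | .bot => .top
  | .top => .bot
  | .fml a => .fml (.neg a)

/-- Conjunction of values. -/
def vand : Val → Val → Val
  | .bot, _ => .bot
  | .top, x => x
  | .fml _, .bot => .bot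
  | .fml a, .top => .fml a
  | .fml a, .fml b => .fml (.and a b)

/-- Disjunction of values. -/
def vor : Val → Val → Val
  | .top, _ => .top
  | .bot, x => x
  | .fml _, .top => .top
  | .fml a, .bot => .fml a
  | .fml a, .fml b => .fml (.or a b)

/-- Implication of values. -/
def vimp : Val → Val → Val
  | .bot, _ => .top
  | .top, .top => .top
  | .top, _ => .bot
  | .fml _, .top => .top
  | .fml _, .bot => .bot
  | .fml a, .fml b => .fml (.imp a b)

/-- The order of values given by acceptability. -/
def vle : Val → Val → Prop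
  | .bot, _ => True
  | .top, .top => True
  | .top, _ => False
  | .fml _, .top => True
  | .fml _, .bot => False
  | .fml a, .fml b => Fml.imp a b ∈ Acceptable

/-- Designated values. -/
def Des : Val → Prop
  | .bot => False
  | .top => True
  | .fml a => GoodT Acceptable [(.neg a, ∅)] []

theorem vle_refl (x : Val) : vle x x := by
  cases x
  · trivial
  · trivial
  · exact acc_refl _

theorem vle_neg {x y : Val} (h : vle x y) : vle (vneg y) (vneg x) := by
  cases x <;> cases y <;> simp_all [vle, vneg]
  exact acc_contra h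

theorem vle_and {x y x' y' : Val} (h : vle x x') (h' : vle y y') :
    vle (vand x y) (vand x' y') := by
  cases x <;> cases y <;> cases x' <;> cases y' <;> simp_all [vle, vand]
  · exact acc_trans (acc_and_right _ _) h'
  · exact acc_trans (acc_and_left _ _) h
  · exact acc_and_intro (acc_trans (acc_and_left _ _) h) (acc_trans (acc_and_right _ _) h')

theorem vle_or {x y x' y' : Val} (h : vle x x') (h' : vle y y') :
    vle (vor x y) (vor x' y') := by
  cases x <;> cases y <;> cases x' <;> cases y' <;> simp_all [vle, vor]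
  · exact acc_trans h' (acc_or_right _ _)
  · exact acc_trans h (acc_or_left _ _)
  · exact acc_or_elim (acc_trans h (acc_or_left _ _)) (acc_trans h' (acc_or_right _ _))

theorem vle_imp {x y x' y' : Val} (h : vle x' x) (h' : vle y y') :
    vle (vimp x y) (vimp x' y') := by
  cases x <;> cases y <;> cases x' <;> cases y' <;> simp_all [vle, vimp]
  exact acc_trans (acc_imp_left _ h) (acc_imp_right _ h')

theorem vle_and_intro {x y z : Val} (h : vle x y) (h' : vle x z) : vle x (vand y z) := by
  cases x <;> cases y <;> cases z <;> simp_all [vle, vand]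
  exact acc_and_intro h h'

theorem vle_of_des {x y : Val} (h : Des (vimp x y)) : vle x y := by
  cases x <;> cases y <;> simp_all [vle, vimp, Des]
  exact acc_of_goodT h

theorem des_and {x y : Val} (h : Des (vand x y)) : Des x ∧ Des y := by
  cases x <;> cases y <;> simp_all [vand, Des]
  exact ⟨goodT_detach (acc_and_left _ _) h, goodT_detach (acc_and_right _ _) h⟩

/-- The translation: the two components of a formula (lower, upper); the letters of `Q` have
lower component `bot` and upper component `top`. -/
def tv (Q : Finset ℕ) : Fml → Val × Val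
  | .letter q => if q ∈ Q then (.bot, .top) else (.fml (.letter q), .fml (.letter q))
  | .neg θ => (vneg (tv Q θ).2, vneg (tv Q θ).1)
  | .and θ χ => (vand (tv Q θ).1 (tv Q χ).1, vand (tv Q θ).2 (tv Q χ).2)
  | .or θ χ => (vor (tv Q θ).1 (tv Q χ).1, vor (tv Q θ).2 (tv Q χ).2)
  | .imp θ χ => (vimp (tv Q θ).2 (tv Q χ).1,
      if (tv Q θ).1 = (tv Q θ).2 ∧ (tv Q χ).1 = (tv Q χ).2 then vimp (tv Q θ).2 (tv Q χ).2
      else vand (vimp (tv Q θ).1 (tv Q χ).1) (vimp (tv Q θ).2 (tv Q χ).2))

/-- The component of a formula with a given label. -/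
def tl (Q : Finset ℕ) (ℓ : Bool) (θ : Fml) : Val := if ℓ then (tv Q θ).2 else (tv Q θ).1

theorem tl_true (Q : Finset ℕ) (θ : Fml) : tl Q true θ = (tv Q θ).2 := rfl

theorem tl_false (Q : Finset ℕ) (θ : Fml) : tl Q false θ = (tv Q θ).1 := rfl

theorem tl_neg (Q : Finset ℕ) (ℓ : Bool) (θ : Fml) : tl Q ℓ (.neg θ) = vneg (tl Q (!ℓ) θ) := by
  cases ℓ <;> rfl

theorem tl_and (Q : Finset ℕ) (ℓ : Bool) (θ χ : Fml) :
    tl Q ℓ (.and θ χ) = vand (tl Q ℓ θ) (tl Q ℓ χ) := by
  cases ℓ <;> rfl

theorem tl_or (Q : Finset ℕ) (ℓ : Bool) (θ χ : Fml) :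
    tl Q ℓ (.or θ χ) = vor (tl Q ℓ θ) (tl Q ℓ χ) := by
  cases ℓ <;> rfl

theorem tl_imp_false (Q : Finset ℕ) (θ χ : Fml) :
    tl Q false (.imp θ χ) = vimp (tl Q true θ) (tl Q false χ) := rfl

theorem tl_imp_true (Q : Finset ℕ) (θ χ : Fml) :
    tl Q true (.imp θ χ) =
      if tl Q false θ = tl Q true θ ∧ tl Q false χ = tl Q true χ then
        vimp (tl Q true θ) (tl Q true χ)
      else vand (vimp (tl Q false θ) (tl Q false χ)) (vimp (tl Q true θ) (tl Q true χ)) := rfl

theorem tl_mono (Q : Finset ℕ) (θ : Fml) : vle (tl Q false θ) (tl Q true θ) := by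
  induction θ with
  | letter q =>
    simp only [tl, tv]
    by_cases h : q ∈ Q
    · simp [h, vle]
    · simp [h, vle, acc_refl]
  | neg θ ih => exact vle_neg ih
  | and θ χ ih1 ih2 => exact vle_and ih1 ih2
  | or θ χ ih1 ih2 => exact vle_or ih1 ih2
  | imp θ χ ih1 ih2 =>
    rw [tl_imp_false, tl_imp_true]
    split_ifs with h
    · rw [h.2]
      exact vle_refl _
    · exact vle_and_intro (vle_imp ih1 (vle_refl _)) (vle_imp (vle_refl _) ih2)

/-- The two components of an implication are both below the upper component. -/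
theorem vle_of_des_imp {Q : Finset ℕ} {θ χ : Fml} (h : Des (tl Q true (.imp θ χ))) (ℓ : Bool) :
    vle (tl Q ℓ θ) (tl Q ℓ χ) := by
  rw [tl_imp_true] at h
  split_ifs at h with h1
  · have := vle_of_des h
    cases ℓ
    · rw [h1.1, h1.2]
      exact this
    · exact this
  · have := des_and h
    cases ℓ
    · exact vle_of_des this.1
    · exact vle_of_des this.2

/-- Formulas all of whose letters are in `Q`. -/
theorem tv_of_subset {Q : Finset ℕ} {θ : Fml} (h : θ.letters ⊆ Q) : tv Q θ = (.bot, .top) := by
  induction θ with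
  | letter q =>
    have : q ∈ Q := h (by simp [Fml.letters])
    simp [tv, this]
  | neg θ ih =>
    have := ih h
    simp [tv, this, vneg]
  | and θ χ ih1 ih2 =>
    have h1 := ih1 (fun x hx => h (by simp [Fml.letters, hx]))
    have h2 := ih2 (fun x hx => h (by simp [Fml.letters, hx]))
    simp [tv, h1, h2, vand]
  | or θ χ ih1 ih2 =>
    have h1 := ih1 (fun x hx => h (by simp [Fml.letters, hx]))
    have h2 := ih2 (fun x hx => h (by simp [Fml.letters, hx]))
    simp [tv, h1, h2, vor]
  | imp θ χ ih1 ih2 =>
    have h1 := ih1 (fun x hx => h (by simp [Fml.letters, hx]))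
    have h2 := ih2 (fun x hx => h (by simp [Fml.letters, hx]))
    simp [tv, h1, h2, vimp, vand]

/-- Formulas without letters in `Q`. -/
theorem tv_of_disjoint {Q : Finset ℕ} {θ : Fml} (h : Disjoint Q θ.letters) :
    tv Q θ = (.fml θ, .fml θ) := by
  induction θ with
  | letter q =>
    have : q ∉ Q := by
      intro hq
      exact Finset.disjoint_left.mp h hq (by simp [Fml.letters])
    simp [tv, this]
  | neg θ ih =>
    have := ih h
    simp [tv, this, vneg]
  | and θ χ ih1 ih2 =>
    have h1 := ih1 (Finset.disjoint_left.mpr fun x hx hx' =>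
      Finset.disjoint_left.mp h hx (by simp [Fml.letters, hx']))
    have h2 := ih2 (Finset.disjoint_left.mpr fun x hx hx' =>
      Finset.disjoint_left.mp h hx (by simp [Fml.letters, hx']))
    simp [tv, h1, h2, vand]
  | or θ χ ih1 ih2 =>
    have h1 := ih1 (Finset.disjoint_left.mpr fun x hx hx' =>
      Finset.disjoint_left.mp h hx (by simp [Fml.letters, hx']))
    have h2 := ih2 (Finset.disjoint_left.mpr fun x hx hx' =>
      Finset.disjoint_left.mp h hx (by simp [Fml.letters, hx']))
    simp [tv, h1, h2, vor]
  | imp θ χ ih1 ih2 =>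
    have h1 := ih1 (Finset.disjoint_left.mpr fun x hx hx' =>
      Finset.disjoint_left.mp h hx (by simp [Fml.letters, hx']))
    have h2 := ih2 (Finset.disjoint_left.mpr fun x hx hx' =>
      Finset.disjoint_left.mp h hx (by simp [Fml.letters, hx']))
    simp [tv, h1, h2, vimp]

end Pool.Agent.TruthTrees
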